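import Pool.Agent.N197.AP.Stm
import Pool.Agent.R932.OP.SForm

/-!
# Project AP (helper197), task BLOCK (helper492): tangent vectors of a sum
-/

set_option autoImplicit false

open Polynomial Filter Topology NumberField IsDedekindDomain Module Matrix
open Pool.Agent.Y142.ZO Pool.Agent.Y142.ZI Pool.Agent.Y142.ZS

namespace Pool.Agent.N197.AP

namespace Block

/-- the determinant of a block diagonal matrix (as in `Pool.Agent.Y114.AP.Charpoly`) -/
theorem det_bd {ι R : Type} [CommRing R] [Fintype ι] [DecidableEq ι] {m : ι → Type}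
    [∀ i, Fintype (m i)] [∀ i, DecidableEq (m i)] (M : ∀ i, Matrix (m i) (m i) R) :
    (Matrix.blockDiagonal' M).det = ∏ i, (M i).det := by
  classical
  let e := Fintype.equivFin ι
  let hlo : LinearOrder ι := LinearOrder.lift' e e.injective
  have h1 : (Matrix.blockDiagonal' M).BlockTriangular Sigma.fst := by
    rintro ⟨i, i'⟩ ⟨j, j'⟩ h
    exact Matrix.blockDiagonal'_apply_ne M i' j' fun h' => ne_of_lt h h'.symm
  have h2 : (Matrix.blockDiagonal' M).det =
      ∏ i, ((Matrix.blockDiagonal' M).toSquareBlock Sigma.fst i).det := by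
    have := h1.det_fintype
    exact this
  rw [h2]
  refine Finset.prod_congr rfl fun i _ => ?_
  let f : m i ≃ {a : Σ i, m i // a.1 = i} :=
    { toFun := fun x => ⟨⟨i, x⟩, rfl⟩
      invFun := fun a => a.2 ▸ a.1.2
      left_inv := fun x => rfl
      right_inv := by
        rintro ⟨⟨j, x⟩, rfl⟩
        rfl }
  rw [← Matrix.det_reindex_self f]
  congr 1
  ext ⟨⟨j, x⟩, hj⟩ ⟨⟨l, y⟩, hl⟩
  dsimp only at hj hl
  subst hj
  subst hl
  rw [Matrix.toSquareBlock_def, Matrix.of_apply, Matrix.reindex_apply, Matrix.submatrix_apply]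
  exact Matrix.blockDiagonal'_apply_eq M _ _ _

theorem charmatrix_bd {ι R : Type} [CommRing R] [Fintype ι] [DecidableEq ι] {m : ι → Type}
    [∀ i, Fintype (m i)] [∀ i, DecidableEq (m i)] (M : ∀ i, Matrix (m i) (m i) R) :
    Matrix.charmatrix (Matrix.blockDiagonal' M) =
      Matrix.blockDiagonal' fun i => (M i).charmatrix := by
  ext1 ⟨i, x⟩ ⟨j, y⟩
  by_cases hij : i = j
  · subst hij
    rw [Matrix.blockDiagonal'_apply_eq, Matrix.charmatrix_apply, Matrix.charmatrix_apply,
      Matrix.blockDiagonal'_apply_eq]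
    congr 1
    by_cases hxy : x = y
    · subst hxy
      rw [Matrix.diagonal_apply_eq, Matrix.diagonal_apply_eq]
    · rw [Matrix.diagonal_apply_ne _ hxy, Matrix.diagonal_apply_ne]
      intro h
      apply hxy
      simpa using h
  · rw [Matrix.blockDiagonal'_apply_ne _ _ _ hij, Matrix.charmatrix_apply,
      Matrix.blockDiagonal'_apply_ne _ _ _ hij, Matrix.diagonal_apply_ne]
    · simp
    · intro h
      exact hij (congrArg Sigma.fst h)

section
variable {ι : Type} [Fintype ι] [DecidableEq ι] {N : ι → ℕ} {F : Type} [Field F]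

theorem blk_charpoly (A : ∀ i, Matrix (Fin (N i)) (Fin (N i)) F) :
    (blk A).charpoly = ∏ i, (A i).charpoly := by
  unfold blk
  rw [Matrix.charpoly_reindex, Matrix.charpoly, charmatrix_bd, det_bd]
  rfl

theorem blk_det (A : ∀ i, Matrix (Fin (N i)) (Fin (N i)) F) :
    (blk A).det = ∏ i, (A i).det := by
  unfold blk
  rw [Matrix.det_reindex_self, det_bd]

theorem blk_transpose (A : ∀ i, Matrix (Fin (N i)) (Fin (N i)) F) :
    (blk A)ᵀ = blk fun i => (A i)ᵀ := by
  unfold blk
  rw [Matrix.transpose_reindex, Matrix.blockDiagonal'_transpose]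

theorem blk_add (A B : ∀ i, Matrix (Fin (N i)) (Fin (N i)) F) :
    blk (fun i => A i + B i) = blk A + blk B := by
  unfold blk
  have h : (fun i => A i + B i) = A + B := rfl
  rw [h, Matrix.blockDiagonal'_add]
  rfl

theorem blk_smul (c : F) (A : ∀ i, Matrix (Fin (N i)) (Fin (N i)) F) :
    blk (fun i => c • A i) = c • blk A := by
  unfold blk
  have h : (fun i => c • A i) = c • A := rfl
  rw [h, Matrix.blockDiagonal'_smul]
  rfl

theorem blk_sub (A B : ∀ i, Matrix (Fin (N i)) (Fin (N i)) F) :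
    blk (fun i => A i - B i) = blk A - blk B := by
  unfold blk
  have h : (fun i => A i - B i) = A - B := rfl
  rw [h, Matrix.blockDiagonal'_sub]
  rfl

theorem blk_zero : blk (N := N) (fun _ => (0 : Matrix _ _ F)) = 0 := by
  unfold blk
  have h : (fun i => (0 : Matrix (Fin (N i)) (Fin (N i)) F)) = 0 := rfl
  rw [h, Matrix.blockDiagonal'_zero]
  rfl

end

theorem blk_tendsto {ι : Type} [Fintype ι] [DecidableEq ι] {N : ι → ℕ}
    (A : ℕ → ∀ i, Matrix (Fin (N i)) (Fin (N i)) ℚ_[2])
    (X : ∀ i, Matrix (Fin (N i)) (Fin (N i)) ℚ_[2])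
    (h : ∀ i, Tendsto (fun m => A m i) atTop (𝓝 (X i))) :
    Tendsto (fun m => blk (A m)) atTop (𝓝 (blk X)) := by
  have hc : Continuous fun B : ∀ i, Matrix (Fin (N i)) (Fin (N i)) ℚ_[2] => blk B := by
    unfold blk
    exact (Continuous.matrix_blockDiagonal' continuous_id).matrix_submatrix _ _
  exact (hc.tendsto X).comp (tendsto_pi_nhds.2 h)

theorem even_alt {F : Type} [Field F] [CharZero F] {N : ℕ} {J : Matrix (Fin N) (Fin N) F}
    (hJ : Jᵀ = -J) (hdet : J.det ≠ 0) : Even N := by
  by_contra h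
  rw [Nat.not_even_iff_odd] at h
  have h1 : J.det = -J.det := by
    conv_lhs => rw [← det_transpose, hJ, det_neg, Fintype.card_fin, h.neg_one_pow, neg_one_mul]
  have h2 : (2 : F) * J.det = 0 := by linear_combination h1
  exact hdet ((mul_eq_zero.1 h2).resolve_left two_ne_zero)

end Block

open Block in
theorem t_BLOCK : S_BLOCK := by
  intro ι _ _ N d G _ ρ τ J hJ hdet hX
  refine ⟨?_, ?_, ?_, ?_, ?_⟩
  · intro lam hinj hpos
    have hex : ∀ i, ∃ X : Matrix (Fin (N i)) (Fin (N i)) ℚ_[2], SpLie (J i) X ∧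
        X.charpoly = ∏ r : Fin (N i / 2), ((Polynomial.X - C ((lam ⟨i, r⟩ : ℕ) : ℚ_[2])) *
          (Polynomial.X + C ((lam ⟨i, r⟩ : ℕ) : ℚ_[2]))) := by
      intro i
      obtain ⟨m, hm⟩ := even_alt (hJ i) (hdet i)
      have hmon : ∀ r : Fin (N i / 2), ((Polynomial.X - C ((lam ⟨i, r⟩ : ℕ) : ℚ_[2])) *
          (Polynomial.X + C ((lam ⟨i, r⟩ : ℕ) : ℚ_[2]))).Monic := fun r =>
        (monic_X_sub_C _).mul (monic_X_add_C _)
      refine Pool.Agent.R932.OP.sform ℚ_[2] (N i) (J i) _ (hJ i) (hdet i)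
        (monic_prod_of_monic _ _ fun r _ => hmon r) ?_ ?_
      · rw [natDegree_prod_of_monic _ _ fun r _ => hmon r]
        have h1 : ∀ r : Fin (N i / 2), ((Polynomial.X - C ((lam ⟨i, r⟩ : ℕ) : ℚ_[2])) *
          (Polynomial.X + C ((lam ⟨i, r⟩ : ℕ) : ℚ_[2]))).natDegree = 2 := by
          intro r
          rw [(monic_X_sub_C _).natDegree_mul (monic_X_add_C _), natDegree_X_sub_C,
            natDegree_X_add_C]
        rw [Finset.sum_congr rfl fun r _ => h1 r, Finset.sum_const, Finset.card_univ,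
          Fintype.card_fin, smul_eq_mul]
        omega
      · rw [Polynomial.prod_comp]
        refine Finset.prod_congr rfl fun r _ => ?_
        rw [mul_comp, sub_comp, add_comp, X_comp, C_comp]
        ring
    choose X hX1 hX2 using hex
    obtain ⟨σ, hσ1, hσ2⟩ := hX X hX1
    refine ⟨blk X, ?_, ?_, σ, ?_, hσ2⟩
    · unfold SpLie
      rw [blk_transpose, ← blk_mul, ← blk_mul, ← blk_add, ← blk_zero]
      congr 1
      funext i
      exact hX1 i
    · rw [blk_charpoly]
      unfold Rz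
      rw [Fintype.prod_sigma]
      exact Finset.prod_congr rfl fun i _ => hX2 i
    · have h1 : (fun m : ℕ => (((2 : ℕ) : ℚ_[2]) ^ m)⁻¹ • (blkHom ρ (σ m) - 1)) =
          fun m => blk fun i => (((2 : ℕ) : ℚ_[2]) ^ m)⁻¹ • (ρ i (σ m) - 1) := by
        funext m
        rw [blk_smul, blk_sub, blk_one]
        rfl
      rw [h1]
      exact blk_tendsto _ X hσ1
  · rw [blk_det]
    exact Finset.prod_ne_zero_iff.2 fun i _ => hdet i
  · intro χ hχ g
    show (blk fun i => ρ i g)ᵀ * blk J * blk (fun i => ρ i g) = χ g • blk J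
    rw [blk_transpose, ← blk_mul, ← blk_mul, ← blk_smul]
    congr 1
    funext i
    exact hχ i g
  · intro g
    exact blk_charpoly _
  · intro _ hc
    show Continuous fun g => blk fun i => ρ i g
    unfold blk
    exact (Continuous.matrix_blockDiagonal' (continuous_pi hc)).matrix_submatrix _ _

end Pool.Agent.N197.AP
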