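import Pool.Agent.N197.AP.Stm

/-!
# Project AP, task CHOICE: the choice of the eigenvalues
-/

set_option autoImplicit false

open Polynomial

namespace Pool.Agent.N197.AP

theorem t_CHOICE : S_CHOICE := by
  classical
  intro κ _ T hT
  let e := Fintype.equivFin κ
  let P : (κ ⊕ κ → ℕ) → ℤ[X] := fun a =>
    ∑ i, C ((a (.inl i) : ℤ) - a (.inr i)) * X ^ (e i : ℕ)
  have hP : ∀ a ∈ T, P a ≠ 0 := by
    intro a ha h0
    obtain ⟨hne, hadm⟩ := hT a ha
    apply hne
    have hc : ∀ i, ((a (.inl i) : ℤ) - a (.inr i)) = 0 := by
      intro i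
      have h1 : (P a).coeff (e i : ℕ) = 0 := by rw [h0]; simp
      simp only [P, Polynomial.finsetSum_coeff, Polynomial.coeff_C_mul, Polynomial.coeff_X_pow] at h1
      rw [Finset.sum_eq_single i] at h1
      · simpa using h1
      · intro j _ hj
        rw [if_neg]
        · simp
        · intro h
          apply hj
          exact (e.injective (Fin.ext h)).symm
      · intro h
        exact absurd (Finset.mem_univ i) h
    funext j
    rcases j with i | i
    · have := hc i
      rcases hadm i with h | h
      · simp [h]
      · rw [h] at this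
        simp at this
        simp [this]
    · have := hc i
      rcases hadm i with h | h
      · rw [h] at this
        simp at this
        simp [this]
      · simp [h]
  have hfin : (⋃ a ∈ T, {m : ℕ | (P a).eval (m : ℤ) = 0}).Finite := by
    refine Set.Finite.biUnion T.finite_toSet ?_
    intro a ha
    have h1 := (Polynomial.finite_setOfPred_isRoot (hP a ha))
    refine (h1.preimage (f := fun m : ℕ => (m : ℤ)) ?_).subset ?_
    · intro x _ y _ h
      have h' : (x : ℤ) = (y : ℤ) := h
      exact_mod_cast h'
    · intro m hm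
      exact hm
  obtain ⟨m, hm2, hm⟩ := ((Set.Ici_infinite (2 : ℕ)).sdiff hfin).nonempty
  rw [Set.mem_Ici] at hm2
  refine ⟨fun i => m ^ ((e i : ℕ) + 1), ?_, ?_, ?_⟩
  · intro i j hij
    have h1 : (e i : ℕ) + 1 = (e j : ℕ) + 1 := Nat.pow_right_injective hm2 hij
    exact e.injective (Fin.ext (by omega))
  · intro i
    exact Nat.pow_pos (by omega)
  · intro a ha h0
    apply hm
    simp only [Set.mem_iUnion]
    refine ⟨a, ha, ?_⟩
    show (P a).eval (m : ℤ) = 0
    have h1 : (m : ℤ) * (P a).eval (m : ℤ) =
        ∑ i, ((a (.inl i) : ℤ) - a (.inr i)) * ((m ^ ((e i : ℕ) + 1) : ℕ) : ℤ) := by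
      simp only [P, Polynomial.eval_finsetSum, Polynomial.eval_mul, Polynomial.eval_C,
        Polynomial.eval_pow, Polynomial.eval_X]
      rw [Finset.mul_sum]
      apply Finset.sum_congr rfl
      intro i _
      push_cast
      ring
    rw [h0] at h1
    rcases mul_eq_zero.1 h1 with h | h
    · have : m = 0 := by exact_mod_cast h
      omega
    · exact h

end Pool.Agent.N197.AP
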