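import Pool.Agent.N197.AP.Stm

/-!
# Project AP, part DEG (helper774): the degree of a splitting field is bounded
-/

set_option autoImplicit false

open Polynomial Module

namespace Pool.Agent.N197.AP

/-- The degree of the splitting field of a polynomial is at most `(natDegree)!`. -/
theorem finrank_splittingField_le {K : Type} [Field K] [CharZero K] (F : K[X]) :
    finrank K F.SplittingField ≤ F.natDegree.factorial := by
  classical
  have hn : Normal K F.SplittingField := Normal.of_isSplittingField F
  have hg : IsGalois K F.SplittingField := IsGalois.mk
  have : Fact ((F.map (algebraMap K F.SplittingField)).Splits) := ⟨SplittingField.splits F⟩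
  have h1 : Nat.card F.Gal = finrank K F.SplittingField :=
    IsGalois.card_aut_eq_finrank K F.SplittingField
  have h2 : Nat.card F.Gal ≤ Nat.card (Equiv.Perm (rootSet F F.SplittingField)) :=
    Nat.card_le_card_of_injective _ (Gal.galActionHom_injective F F.SplittingField)
  have h3 : Nat.card (Equiv.Perm (rootSet F F.SplittingField)) =
      (Fintype.card (rootSet F F.SplittingField)).factorial := by
    rw [Nat.card_eq_fintype_card, Fintype.card_perm]
  have h4 : Fintype.card (rootSet F F.SplittingField) ≤ F.natDegree := by
    have h5 : Nat.card (rootSet F F.SplittingField) = (F.aroots F.SplittingField).toFinset.card := by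
      rw [rootSet_def]
      exact Nat.card_eq_fintype_card.trans (Fintype.card_coe _)
    rw [← Nat.card_eq_fintype_card, h5]
    exact (Multiset.toFinset_card_le _).trans ((card_roots' _).trans natDegree_map_le)
  rw [← h1]
  exact (h2.trans_eq h3).trans (Nat.factorial_le h4)

/-- task DEG -/
theorem t_DEG : S_DEG := by
  intro n
  refine ⟨n.factorial, fun F _ hF => ?_⟩
  have h := (finrank_splittingField_le F).trans (Nat.factorial_le hF)
  have e : ∀ A B : Algebra ℚ F.SplittingField,
      @finrank ℚ F.SplittingField _ _ A.toModule = @finrank ℚ F.SplittingField _ _ B.toModule := by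
    intro A B
    rw [Subsingleton.elim A B]
  exact (e _ _).trans_le h

end Pool.Agent.N197.AP
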