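import Pool.Agent.N197.AP.Stm

/-!
# Project AP, task FIELD (helper595)
-/

set_option autoImplicit false

open Polynomial NumberField Module

namespace Pool.Agent.N197.AP

namespace L_FIELD

lemma Rel_map {κ E F : Type} [Fintype κ] [Field E] [Field F] (φ : E →+* F) {α : κ ⊕ κ → E}
    {β q : E} {a : κ ⊕ κ → ℕ} (h : Rel α β q a) : Rel (fun j => φ (α j)) (φ β) (φ q) a := by
  obtain ⟨c, s, hs, h⟩ := h
  refine ⟨c, s, hs, ?_⟩
  have := congrArg φ h
  simpa only [map_pow, map_mul, map_prod, map_zpow₀] using this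

lemma Rel_of_map {κ E F : Type} [Fintype κ] [Field E] [Field F] (φ : E →+* F) {α : κ ⊕ κ → E}
    {β q : E} {a : κ ⊕ κ → ℕ} (h : Rel (fun j => φ (α j)) (φ β) (φ q) a) : Rel α β q a := by
  obtain ⟨c, s, hs, h⟩ := h
  refine ⟨c, s, hs, φ.injective ?_⟩
  simpa only [map_pow, map_mul, map_prod, map_zpow₀] using h

lemma map_int {R S : Type*} [CommRing R] [CommRing S] (ψ : R →+* S) (P : ℤ[X]) :
    (P.map (Int.castRingHom R)).map ψ = P.map (Int.castRingHom S) := by
  rw [Polynomial.map_map]
  congr 1
  exact RingHom.ext_int _ _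

lemma eval_int {R S : Type*} [CommRing R] [CommRing S] (ψ : R →+* S) (P : ℤ[X]) (x : R) :
    (P.map (Int.castRingHom S)).eval (ψ x) = ψ ((P.map (Int.castRingHom R)).eval x) := by
  rw [← map_int ψ, eval_map, eval₂_at_apply]

lemma aeval_int {R : Type*} [CommRing R] (P : ℤ[X]) (x : R) :
    aeval x P = (P.map (Int.castRingHom R)).eval x := by
  rw [aeval_def, eval_map]
  rfl

lemma map_F {S : Type*} [CommRing S] (g : ℚ →+* S) (P Q : ℤ[X]) (F : ℚ[X])
    (hF : (P * Q).map (Int.castRingHom ℚ) = F) :
    (P.map (Int.castRingHom S)) * (Q.map (Int.castRingHom S)) = F.map g := by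
  rw [← hF, map_int, Polynomial.map_mul]

/-- the roots in the splitting field -/
lemma exists_aS {κ : Type} [Fintype κ] {S L : Type} [Field S] [Field L] (ψ : S →+* L) (P : ℤ[X])
    (hP : P.Monic) (hs : (P.map (Int.castRingHom S)).Splits) (α : κ ⊕ κ → L)
    (hα : P.map (Int.castRingHom L) = ∏ j, (X - C (α j))) :
    ∃ aS : κ ⊕ κ → S, (∀ j, ψ (aS j) = α j) ∧
      P.map (Int.castRingHom S) = ∏ j, (X - C (aS j)) := by
  have h1 : ∀ j, α j ∈ ψ.range := by
    intro j
    refine hs.mem_range_of_isRoot (hP.map _).ne_zero ?_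
    rw [map_int, hα, IsRoot, eval_prod]
    exact Finset.prod_eq_zero (Finset.mem_univ j) (by simp)
  choose aS haS using h1
  refine ⟨aS, haS, ?_⟩
  apply Polynomial.map_injective ψ ψ.injective
  rw [map_int, hα, Polynomial.map_prod]
  refine Finset.prod_congr rfl fun j _ => ?_
  rw [Polynomial.map_sub, map_X, map_C, haS]

lemma mem_of_root {κ : Type} [Fintype κ] {S : Type} [Field S] {P : ℤ[X]} {aS : κ ⊕ κ → S}
    (haS : P.map (Int.castRingHom S) = ∏ j, (X - C (aS j))) {x : S}
    (hx : (P.map (Int.castRingHom S)).eval x = 0) : ∃ j, aS j = x := by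
  rw [haS, eval_prod, Finset.prod_eq_zero_iff] at hx
  obtain ⟨j, -, h⟩ := hx
  rw [eval_sub, eval_X, eval_C, sub_eq_zero] at h
  exact ⟨j, h.symm⟩

lemma root_of {κ : Type} [Fintype κ] {S : Type} [Field S] {P : ℤ[X]} {aS : κ ⊕ κ → S}
    (haS : P.map (Int.castRingHom S) = ∏ j, (X - C (aS j))) (j : κ ⊕ κ) :
    (P.map (Int.castRingHom S)).eval (aS j) = 0 := by
  rw [haS, eval_prod]
  exact Finset.prod_eq_zero (Finset.mem_univ j) (by simp)

lemma pair_exists {κ : Type} [Fintype κ] {S : Type} [Field S] (φ : S →+* ℂ) (P : ℤ[X])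
    (aS : κ ⊕ κ → S) (haS : P.map (Int.castRingHom S) = ∏ j, (X - C (aS j))) (p f : ℕ)
    (hp : 0 < p) (hz : ∀ z : ℂ, aeval z P = 0 → ‖z‖ ^ 2 = (p : ℝ) ^ f) (j : κ ⊕ κ) :
    ∃ j', aS j * aS j' = (p : S) ^ f := by
  have hroot : aeval (φ (aS j)) P = 0 := by
    rw [aeval_int, eval_int, root_of haS, map_zero]
  have hn := hz _ hroot
  have hpr : (0 : ℝ) < (p : ℝ) ^ f := by positivity
  have hz0 : φ (aS j) ≠ 0 := by
    intro h
    rw [h, norm_zero] at hn
    rw [← hn] at hpr
    norm_num at hpr
  have ha0 : aS j ≠ 0 := fun h => hz0 (by rw [h, map_zero])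
  have hconj : aeval ((starRingEnd ℂ) (φ (aS j))) P = 0 := by
    rw [aeval_int, eval_int (starRingEnd ℂ), ← aeval_int, hroot, map_zero]
  have h2 : φ (((p : S) ^ f) / aS j) = (starRingEnd ℂ) (φ (aS j)) := by
    rw [map_div₀, map_pow, map_natCast, div_eq_iff hz0, mul_comm, Complex.mul_conj,
      Complex.normSq_eq_norm_sq, hn]
    push_cast
    rfl
  have h3 : (P.map (Int.castRingHom S)).eval (((p : S) ^ f) / aS j) = 0 := by
    apply φ.injective
    rw [← eval_int, h2, ← aeval_int, hconj, map_zero]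
  obtain ⟨j', hj'⟩ := mem_of_root haS h3
  exact ⟨j', by rw [hj', mul_div_cancel₀ _ ha0]⟩

lemma exists_count {J : Type} [Fintype J] (l : List J) : ∃ a : J → ℕ, (∀ j, a j ≠ 0 ↔ j ∈ l) ∧
    ∀ (M : Type) [CommMonoid M] (g : J → M), (l.map g).prod = ∏ j, g j ^ a j := by
  classical
  refine ⟨fun j => l.count j, fun j => ?_, fun M _ g => ?_⟩
  · rw [← Nat.pos_iff_ne_zero]
    exact List.count_pos_iff
  · rw [Finset.prod_list_map_count]
    refine Finset.prod_subset (Finset.subset_univ _) fun j _ hj => ?_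
    rw [List.count_eq_zero_of_not_mem (fun h => hj (List.mem_toFinset.2 h)), pow_zero]

end L_FIELD

open L_FIELD

theorem t_FIELD : S_FIELD := by
  intro κ _ w D B T hS hS0 P Q p f hp hf hfB hP hQ hD hPz hQz hloc
  obtain ⟨α, hαi, hαP, hαq, hαT⟩ := hloc
  classical
  have hPL : P.map (Int.castRingHom (AlgebraicClosure ℚ_[2])) = ∏ j, (X - C (α j)) := by
    rw [← hαP, map_int]
  refine ⟨?_, ?_⟩
  · rw [← separable_map (Rat.castHom (AlgebraicClosure ℚ_[2])), map_int, hPL,
      separable_prod_X_sub_C_iff]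
    exact hαi
  · intro E _ _ hPE hQE β hβ
    obtain ⟨F, hF⟩ : ∃ F : ℚ[X], (P * Q).map (Int.castRingHom ℚ) = F := ⟨_, rfl⟩
    have hnum : NumberField F.SplittingField := { }
    have hD : finrank ℚ F.SplittingField ≤ D := by
      subst hF
      exact hD
    have hsplS := SplittingField.splits F
    have hFS : (P.map (Int.castRingHom F.SplittingField)) *
        (Q.map (Int.castRingHom F.SplittingField)) = F.map (algebraMap ℚ F.SplittingField) :=
      map_F _ P Q F hF
    have hF0 : F.map (algebraMap ℚ F.SplittingField) ≠ 0 := by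
      rw [← hFS]
      exact mul_ne_zero (hP.map _).ne_zero (hQ.map _).ne_zero
    have hPS : (P.map (Int.castRingHom F.SplittingField)).Splits :=
      hsplS.of_dvd hF0 (Dvd.intro _ hFS)
    have hQS : (Q.map (Int.castRingHom F.SplittingField)).Splits :=
      hsplS.of_dvd hF0 (Dvd.intro_left _ hFS)
    have hFE : (F.map (algebraMap ℚ E)).Splits := by
      rw [← hF, map_int, Polynomial.map_mul]
      exact hPE.mul hQE
    have hφ : Nonempty (F.SplittingField →+* E) := ⟨(SplittingField.lift F hFE).toRingHom⟩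
    obtain ⟨φ⟩ := hφ
    have hψ : Nonempty (F.SplittingField →+* AlgebraicClosure ℚ_[2]) :=
      ⟨(SplittingField.lift F (IsAlgClosed.splits (F.map (algebraMap ℚ (AlgebraicClosure ℚ_[2]))))).toRingHom⟩
    obtain ⟨ψ⟩ := hψ
    have hφ0 : Nonempty (F.SplittingField →+* ℂ) := inferInstance
    obtain ⟨φ0⟩ := hφ0
    obtain ⟨aS, haψ, haS⟩ := exists_aS ψ P hP hPS α hPL
    have hpair : ∀ j : κ ⊕ κ, aS j * aS j.swap = (p : F.SplittingField) ^ f := by
      intro j
      obtain ⟨j', hj'⟩ := pair_exists φ0 P aS haS p f hp.pos hPz j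
      have h1 := congrArg ψ hj'
      rw [map_mul, haψ, haψ, map_pow, map_natCast] at h1
      have h2 := hαq j j' (by rw [h1, map_pow, map_natCast])
      rw [← h2]
      exact hj'
    have hint : ∀ j, IsIntegral ℤ (aS j) := by
      intro j
      refine ⟨P, hP, ?_⟩
      have h1 := root_of haS j
      rw [eval_map] at h1
      exact h1
    have hmod : ∀ (χ : F.SplittingField →+* ℂ) (j : κ ⊕ κ), ‖χ (aS j)‖ ^ 2 = (p : ℝ) ^ f := by
      intro χ j
      apply hPz
      rw [aeval_int, eval_int, root_of haS, map_zero]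
    -- the element `bS`
    have hbS : ∃ bS : F.SplittingField, φ bS = β ∧
        (bS = 1 ∨ (Q.map (Int.castRingHom F.SplittingField)).eval bS = 0) := by
      rcases hβ with h | h
      · exact ⟨1, by rw [map_one, h], Or.inl rfl⟩
      · obtain ⟨bS, hb⟩ : β ∈ φ.range := by
          refine hQS.mem_range_of_isRoot (hQ.map _).ne_zero ?_
          rw [map_int]
          exact h
        refine ⟨bS, hb, Or.inr (φ.injective ?_)⟩
        rw [← eval_int, hb, map_zero]
        exact h
    obtain ⟨bS, hbφ, hbS⟩ := hbS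
    intro n c s hs hn ys hlen hrel hpw
    have hPEp : P.map (Int.castRingHom E) = ∏ j, (X - C (φ (aS j))) := by
      rw [← map_int φ, haS, Polynomial.map_prod]
      refine Finset.prod_congr rfl fun j _ => ?_
      rw [Polynomial.map_sub, map_X, map_C]
    have hidx : ∀ y : {z : E // (P.map (Int.castRingHom E)).IsRoot z}, ∃ j, φ (aS j) = (y : E) := by
      rintro ⟨y, hy⟩
      exact mem_of_root hPEp hy
    choose idx hidx using hidx
    obtain ⟨a, ha, haprod⟩ := exists_count (ys.map idx)
    have hprod : (ys.map (fun y : {z : E // (P.map (Int.castRingHom E)).IsRoot z} =>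
        (y : E))).prod = ∏ j, φ (aS j) ^ a j := by
      have h1 : ys.map (fun y : {z : E // (P.map (Int.castRingHom E)).IsRoot z} => (y : E)) =
          (ys.map idx).map (fun j => φ (aS j)) := by
        rw [List.map_map]
        apply List.map_congr_left
        intro y _
        exact (hidx y).symm
      rw [h1]
      exact haprod E _
    have hAdm : Adm a := by
      constructor
      · intro h0
        have hne : ys ≠ [] := by
          intro h
          rw [h, List.length_nil] at hlen
          omega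
        obtain ⟨y, hy⟩ := List.exists_mem_of_ne_nil _ hne
        exact (ha (idx y)).2 (List.mem_map.2 ⟨y, hy, rfl⟩) (congrFun h0 (idx y))
      · intro i
        by_contra hcon
        rw [not_or] at hcon
        obtain ⟨h1, h2⟩ := hcon
        have h1' : Sum.inl i ∈ ys.map idx := (ha _).1 h1
        have h2' : Sum.inr i ∈ ys.map idx := (ha _).1 h2
        obtain ⟨y, hy, hy'⟩ := List.mem_map.1 h1'
        obtain ⟨y2, hy2, hy2'⟩ := List.mem_map.1 h2'
        have : Std.Symm (fun y y' : {z : E // (P.map (Int.castRingHom E)).IsRoot z} =>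
            (y : E) * (y' : E) ≠ ((p ^ f : ℕ) : E)) := ⟨fun y y' h => by rwa [mul_comm]⟩
        have hne : y ≠ y2 := by
          intro h
          rw [h, hy2'] at hy'
          cases hy'
        have h3 := List.Pairwise.forall hpw hy hy2 hne
        apply h3
        show (y : E) * (y2 : E) = ((p ^ f : ℕ) : E)
        rw [← hidx y, ← hidx y2, hy', hy2', ← map_mul]
        have h4 := hpair (Sum.inl i)
        rw [Sum.swap_inl] at h4
        rw [h4, map_pow, map_natCast, Nat.cast_pow]
    have hrelE : Rel (fun j => φ (aS j)) (φ bS) (φ ((p : F.SplittingField) ^ f)) a := by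
      refine ⟨c, s, hs, ?_⟩
      rw [← hprod, hbφ, map_pow, map_natCast]
      rw [Nat.cast_pow] at hrel
      exact hrel
    have hrelS := Rel_of_map φ hrelE
    obtain ⟨a', ha'T, hrel'⟩ : ∃ a' ∈ T, Rel aS bS ((p : F.SplittingField) ^ f) a' := by
      rcases hbS with h | h
      · rw [h]
        rw [h] at hrelS
        exact hS0 F.SplittingField p f hp hf hfB hD aS 1 hint isIntegral_one
          (fun i => hpair (.inl i)) hmod (by intro χ; simp) a hAdm hrelS
      · refine hS F.SplittingField p f hp hf hfB hD aS bS hint ⟨Q, hQ, ?_⟩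
          (fun i => hpair (.inl i)) hmod ?_ a hAdm hrelS
        · rw [eval_map] at h
          exact h
        · intro χ
          apply hQz
          rw [aeval_int, eval_int, h, map_zero]
    have h3 := Rel_map ψ hrel'
    rw [map_pow, map_natCast] at h3
    have h4 : (fun j => ψ (aS j)) = α := funext haψ
    rw [h4] at h3
    refine hαT (ψ bS) ?_ a' ha'T ?_
    · rcases hbS with h | h
      · exact Or.inl (by rw [h, map_one])
      · right
        rw [← aeval_map_algebraMap (AlgebraicClosure ℚ_[2]), map_int, ← eval_map_algebraMap,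
          Algebra.algebraMap_self, Polynomial.map_id, eval_int, h, map_zero]
    · rw [map_pow, map_natCast]
      exact h3

end Pool.Agent.N197.AP
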