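import Pool.Agent.N197.AP.Stm

/-!
# Project AP (helper197), KRON: Kronecker's theorem for relations between Weil numbers
Author: helper438.
-/

set_option autoImplicit false

open Polynomial Filter Topology NumberField IsDedekindDomain Module Matrix

namespace Pool.Agent.N197.AP

theorem t_KRON : S_KRON := by
  intro E _ _ x y hx hy hv hφ
  have hy' : ∀ v : HeightOneSpectrum (𝓞 E), v.valuation E y ≠ 0 := fun v =>
    (Valuation.ne_zero_iff _).2 hy
  have h1 : ∀ v : HeightOneSpectrum (𝓞 E), v.valuation E (x / y) ≤ 1 := by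
    intro v
    rw [map_div₀, hv v, div_self (hy' v)]
  obtain ⟨z, hz⟩ := HeightOneSpectrum.mem_integers_of_valuation_le_one E (x / y) h1
  have hint : IsIntegral ℤ (x / y) := by
    rw [← hz]
    exact z.isIntegral_coe
  have hn : ∀ φ : E →+* ℂ, ‖φ (x / y)‖ = 1 := by
    intro φ
    have h0 : ‖φ y‖ ≠ 0 := by
      rw [norm_ne_zero_iff]
      exact (map_ne_zero φ).2 hy
    rw [map_div₀, norm_div, hφ φ, div_self h0]
  obtain ⟨s, hs, h⟩ := Embeddings.pow_eq_one_of_norm_eq_one E ℂ hint hn
  refine ⟨s, hs, ?_⟩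
  rw [div_pow, div_eq_one_iff_eq (pow_ne_zero _ hy)] at h
  exact h

end Pool.Agent.N197.AP
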