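import Pool.Agent.N197.AP.Stm
import Pool.Agent.Y405.ZO.Frob

/-!
# Project AP, task NEAR (helper80): a Frobenius element close to the tangent vector

The proof follows `frob_near` of `Pool/Agent/R932/SQ/Main.lean`, with an additional representation.
-/

set_option autoImplicit false

open Polynomial Filter Topology NumberField IsDedekindDomain Module Matrix
open Pool.Agent.Y142.ZO Pool.Agent.Y142.ZI Pool.Agent.Y142.ZS

namespace Pool.Agent.N197.AP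

/-- entries of a sequence of matrices -/
private theorem near_entries {a b : ℕ} {f : ℕ → Matrix (Fin a) (Fin b) ℚ_[2]}
    {X : Matrix (Fin a) (Fin b) ℚ_[2]} (hf : Tendsto f atTop (𝓝 X)) {δ : ℝ} (hδ : 0 < δ) :
    ∀ᶠ n : ℕ in atTop, ∀ i j, ‖(f n - X) i j‖ < δ := by
  rw [eventually_all]
  intro i
  rw [eventually_all]
  intro j
  have h2 := ((continuous_apply_apply i j).tendsto X).comp hf
  have h3 := h2.sub_const (X i j)
  rw [sub_self] at h3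
  have h4 := h3.norm
  rw [norm_zero] at h4
  exact h4.eventually (gt_mem_nhds hδ)

/-- the inverse elements -/
private theorem near_inv {G : Type} [Group G] {d : ℕ} (τ : G →* Matrix (Fin d) (Fin d) ℚ_[2])
    (s : ℕ → G) (h20 : Tendsto (fun n : ℕ => ((2 : ℕ) : ℚ_[2]) ^ n) atTop (𝓝 0))
    (h2 : ∀ n : ℕ, (((2 : ℕ) : ℚ_[2]) ^ n) ≠ 0)
    (hs : Tendsto (fun m : ℕ => (((2 : ℕ) : ℚ_[2]) ^ m)⁻¹ • (τ (s m) - 1)) atTop (𝓝 0)) :
    Tendsto (fun m : ℕ => (((2 : ℕ) : ℚ_[2]) ^ m)⁻¹ • (τ (s m)⁻¹ - 1)) atTop (𝓝 0) := by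
  have hA : Tendsto (fun n => τ (s n)) atTop (𝓝 1) := by
    have h3 := (h20.smul hs).add_const (1 : Matrix (Fin d) (Fin d) ℚ_[2])
    rw [smul_zero, zero_add] at h3
    refine h3.congr fun n => ?_
    rw [smul_smul, mul_inv_cancel₀ (h2 n), one_smul, sub_add_cancel]
  have hinv : ∀ g : G, τ g⁻¹ = Ring.inverse (τ g).det • (τ g).adjugate := by
    intro g
    rw [← Matrix.inv_def]
    have h3 : τ g⁻¹ * τ g = 1 := by rw [← map_mul, inv_mul_cancel, map_one]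
    exact (Matrix.inv_eq_left_inv h3).symm
  have hB : Tendsto (fun n => τ (s n)⁻¹) atTop (𝓝 1) := by
    have hd : Tendsto (fun n => (τ (s n)).det) atTop (𝓝 1) := by
      have h3 := ((continuous_id.matrix_det).tendsto (1 : Matrix (Fin d) (Fin d) ℚ_[2])).comp hA
      simpa [Function.comp_def] using h3
    have ha : Tendsto (fun n => (τ (s n)).adjugate) atTop (𝓝 1) := by
      have h3 := ((continuous_id.matrix_adjugate).tendsto (1 : Matrix (Fin d) (Fin d) ℚ_[2])).comp hA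
      simpa [Function.comp_def] using h3
    have hd' : Tendsto (fun n => ((τ (s n)).det)⁻¹) atTop (𝓝 (1 : ℚ_[2])⁻¹) := hd.inv₀ one_ne_zero
    have h4 := hd'.smul ha
    rw [inv_one, one_smul] at h4
    refine h4.congr fun n => ?_
    rw [hinv, Ring.inverse_eq_inv']
  have h5 := (hB.mul hs).neg
  rw [mul_zero, neg_zero] at h5
  refine h5.congr fun n => ?_
  have h6 : τ (s n)⁻¹ * τ (s n) = 1 := by rw [← map_mul, inv_mul_cancel, map_one]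
  rw [Matrix.mul_smul, ← smul_neg, mul_sub, h6, mul_one, neg_sub]

theorem t_NEAR : S_NEAR := by
  intro K _ _ N d ρ τ χ J hN hρ hτ hJ hχ X hX hWT δ k₀ hδ T hT
  obtain ⟨s, hs, hst⟩ := hWT
  obtain ⟨a₀, b₀, hab⟩ : ∃ a b, J a b ≠ 0 := by
    by_contra hcon
    push Not at hcon
    have h1 : J = 0 := by ext a b; exact hcon a b
    have : Nonempty (Fin N) := ⟨⟨0, hN⟩⟩
    rw [h1, det_zero] at hJ
    exact hJ rfl
  have hχe : ∀ g, χ g = ((ρ g)ᵀ * J * ρ g) a₀ b₀ / J a₀ b₀ := by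
    intro g
    rw [hχ g, Matrix.smul_apply, smul_eq_mul, mul_div_cancel_right₀ _ hab]
  have hχc : Continuous χ := by
    have h1 : Continuous fun g => ((ρ g)ᵀ * J * ρ g) a₀ b₀ / J a₀ b₀ := by
      refine Continuous.div_const ?_ _
      exact (continuous_apply_apply a₀ b₀).comp
        (((Continuous.matrix_transpose hρ).matrix_mul continuous_const).matrix_mul hρ)
    exact h1.congr fun g => (hχe g).symm
  have hℓ0 : ∀ n : ℕ, (((2 : ℕ) : ℚ_[2]) ^ n) ≠ 0 := fun n => pow_ne_zero _ (by norm_num)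
  have hℓt : Tendsto (fun n : ℕ => ((2 : ℕ) : ℚ_[2]) ^ n) atTop (𝓝 0) := by
    refine tendsto_pow_atTop_nhds_zero_of_norm_lt_one ?_
    rw [Padic.norm_p]
    norm_num
  have hsi := near_inv τ s hℓt hℓ0 hst
  have hc : Xᵀ * J + J * X = 0 := hX
  have hχt : Tendsto (fun n : ℕ => (((2 : ℕ) : ℚ_[2]) ^ n)⁻¹ * (χ (s n) - 1)) atTop (𝓝 0) := by
    have h1 : Tendsto (fun n : ℕ => ((2 : ℕ) : ℚ_[2]) ^ n •
        (((((2 : ℕ) : ℚ_[2]) ^ n)⁻¹ • (ρ (s n) - 1))ᵀ * J * ((((2 : ℕ) : ℚ_[2]) ^ n)⁻¹ • (ρ (s n) - 1))) +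
        (((((2 : ℕ) : ℚ_[2]) ^ n)⁻¹ • (ρ (s n) - 1))ᵀ * J + J * ((((2 : ℕ) : ℚ_[2]) ^ n)⁻¹ • (ρ (s n) - 1))))
        atTop (𝓝 ((0 : ℚ_[2]) • (Xᵀ * J * X) + (Xᵀ * J + J * X))) := by
      have h2 : Tendsto (fun n : ℕ => ((((2 : ℕ) : ℚ_[2]) ^ n)⁻¹ • (ρ (s n) - 1))ᵀ) atTop (𝓝 Xᵀ) :=
        ((continuous_id.matrix_transpose).tendsto X).comp hs
      have h3 : Tendsto (fun n : ℕ => ((((2 : ℕ) : ℚ_[2]) ^ n)⁻¹ • (ρ (s n) - 1))ᵀ * J) atTop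
          (𝓝 (Xᵀ * J)) := ((continuous_id.matrix_mul continuous_const).tendsto Xᵀ).comp h2
      have h4 : Tendsto (fun n : ℕ => J * ((((2 : ℕ) : ℚ_[2]) ^ n)⁻¹ • (ρ (s n) - 1))) atTop
          (𝓝 (J * X)) := ((continuous_const.matrix_mul continuous_id).tendsto X).comp hs
      have h5 : Tendsto (fun n : ℕ => ((((2 : ℕ) : ℚ_[2]) ^ n)⁻¹ • (ρ (s n) - 1))ᵀ * J *
          ((((2 : ℕ) : ℚ_[2]) ^ n)⁻¹ • (ρ (s n) - 1))) atTop (𝓝 (Xᵀ * J * X)) := h3.mul hs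
      exact (hℓt.smul h5).add (h3.add h4)
    rw [zero_smul, zero_add, hc] at h1
    have h2 := ((continuous_apply_apply a₀ b₀).tendsto
      (0 : Matrix (Fin N) (Fin N) ℚ_[2])).comp h1
    have h3 := h2.div_const (J a₀ b₀)
    rw [Matrix.zero_apply, zero_div] at h3
    refine h3.congr fun n => ?_
    have h4 : ((2 : ℕ) : ℚ_[2]) ^ n •
        (((((2 : ℕ) : ℚ_[2]) ^ n)⁻¹ • (ρ (s n) - 1))ᵀ * J * ((((2 : ℕ) : ℚ_[2]) ^ n)⁻¹ • (ρ (s n) - 1))) +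
        (((((2 : ℕ) : ℚ_[2]) ^ n)⁻¹ • (ρ (s n) - 1))ᵀ * J + J * ((((2 : ℕ) : ℚ_[2]) ^ n)⁻¹ • (ρ (s n) - 1))) =
        ((((2 : ℕ) : ℚ_[2]) ^ n)⁻¹ * (χ (s n) - 1)) • J := by
      have h5 := hχ (s n)
      have h6 : ((((2 : ℕ) : ℚ_[2]) ^ n)⁻¹ • (ρ (s n) - 1))ᵀ =
          (((2 : ℕ) : ℚ_[2]) ^ n)⁻¹ • ((ρ (s n))ᵀ - 1) := by
        rw [transpose_smul, transpose_sub, transpose_one]
      rw [h6, Matrix.smul_mul, Matrix.smul_mul, Matrix.mul_smul, Matrix.mul_smul, smul_smul,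
        smul_smul, mul_inv_cancel₀ (hℓ0 n), one_mul, ← smul_add, ← smul_add, mul_smul]
      congr 1
      rw [sub_smul, one_smul, ← h5]
      noncomm_ring
    change ((((2 : ℕ) : ℚ_[2]) ^ n •
        (((((2 : ℕ) : ℚ_[2]) ^ n)⁻¹ • (ρ (s n) - 1))ᵀ * J * ((((2 : ℕ) : ℚ_[2]) ^ n)⁻¹ • (ρ (s n) - 1))) +
        (((((2 : ℕ) : ℚ_[2]) ^ n)⁻¹ • (ρ (s n) - 1))ᵀ * J +
          J * ((((2 : ℕ) : ℚ_[2]) ^ n)⁻¹ • (ρ (s n) - 1))) : Matrix (Fin N) (Fin N) ℚ_[2]) a₀ b₀) /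
        J a₀ b₀ = _
    rw [h4, Matrix.smul_apply, smul_eq_mul, mul_div_cancel_right₀ _ hab]
  have h1 := near_entries hs hδ
  have h2 := near_entries hsi hδ
  have h3 : ∀ᶠ n : ℕ in atTop, ‖(((2 : ℕ) : ℚ_[2]) ^ n)⁻¹ * (χ (s n) - 1)‖ < δ := by
    have h4 := hχt.norm
    rw [norm_zero] at h4
    exact h4.eventually (gt_mem_nhds hδ)
  obtain ⟨n, ⟨⟨hn, hn'⟩, hn''⟩, hk⟩ := (((h1.and h2).and h3).and (eventually_ge_atTop k₀)).exists
  simp only [sub_zero] at hn'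
  let O : Set (GK K) := {g | (∀ a b, ‖(((((2 : ℕ) : ℚ_[2]) ^ n)⁻¹ • (ρ g⁻¹ - 1)) - X) a b‖ < δ) ∧
    (∀ a b, ‖((((2 : ℕ) : ℚ_[2]) ^ n)⁻¹ • (τ g - 1)) a b‖ < δ) ∧
    ‖(((2 : ℕ) : ℚ_[2]) ^ n)⁻¹ * (χ g⁻¹ - 1)‖ < δ}
  have hO : IsOpen O := by
    have h3 : O = (⋂ a, ⋂ b, {g | ‖(((((2 : ℕ) : ℚ_[2]) ^ n)⁻¹ • (ρ g⁻¹ - 1)) - X) a b‖ < δ}) ∩
        ((⋂ a, ⋂ b, {g | ‖((((2 : ℕ) : ℚ_[2]) ^ n)⁻¹ • (τ g - 1)) a b‖ < δ}) ∩
        {g | ‖(((2 : ℕ) : ℚ_[2]) ^ n)⁻¹ * (χ g⁻¹ - 1)‖ < δ}) := by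
      ext g
      simp only [Set.mem_inter_iff, Set.mem_iInter]
      rfl
    rw [h3]
    have hρi : Continuous fun g : GK K => ρ g⁻¹ := hρ.comp continuous_inv
    have hχi : Continuous fun g : GK K => χ g⁻¹ := hχc.comp continuous_inv
    refine IsOpen.inter ?_ (IsOpen.inter ?_ ?_)
    · refine isOpen_iInter_of_finite fun a => isOpen_iInter_of_finite fun b => ?_
      have h4 : Continuous fun g : GK K => (((((2 : ℕ) : ℚ_[2]) ^ n)⁻¹ • (ρ g⁻¹ - 1)) - X) a b := by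
        have h5 : Continuous fun g : GK K => ((((2 : ℕ) : ℚ_[2]) ^ n)⁻¹ • (ρ g⁻¹ - 1)) - X := by
          have h7 : Continuous fun g : GK K => ρ g⁻¹ - 1 := hρi.sub continuous_const
          have h8 : Continuous fun g : GK K => (((2 : ℕ) : ℚ_[2]) ^ n)⁻¹ • (ρ g⁻¹ - 1) :=
            Continuous.const_smul h7 ((((2 : ℕ) : ℚ_[2]) ^ n)⁻¹)
          exact h8.sub continuous_const
        exact (continuous_apply_apply a b).comp h5
      exact isOpen_lt h4.norm continuous_const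
    · refine isOpen_iInter_of_finite fun a => isOpen_iInter_of_finite fun b => ?_
      have h4 : Continuous fun g : GK K => ((((2 : ℕ) : ℚ_[2]) ^ n)⁻¹ • (τ g - 1)) a b := by
        have h7 : Continuous fun g : GK K => τ g - 1 := hτ.sub continuous_const
        have h8 : Continuous fun g : GK K => (((2 : ℕ) : ℚ_[2]) ^ n)⁻¹ • (τ g - 1) :=
          Continuous.const_smul h7 ((((2 : ℕ) : ℚ_[2]) ^ n)⁻¹)
        exact (continuous_apply_apply a b).comp h8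
      exact isOpen_lt h4.norm continuous_const
    · exact isOpen_lt (continuous_const.mul (hχi.sub continuous_const)).norm continuous_const
  have hne : (s n)⁻¹ ∈ O := by
    refine ⟨?_, hn', ?_⟩
    · rw [inv_inv]; exact hn
    · rw [inv_inv]; exact hn''
  obtain ⟨v, hv, σ, hσ, hσO⟩ := Pool.Agent.Y405.ZO.t K O hO ⟨_, hne⟩ T hT
  obtain ⟨o1, o2, o3⟩ := hσO
  rw [inv_inv] at o1 o3
  exact ⟨v, hv, σ, hσ, n, hk, o1, o2, o3⟩

end Pool.Agent.N197.AP
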