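import Pool.Agent.N197.AP.Stm

/-!
# Project AP: the norm of a prime ideal is a prime power
-/

set_option autoImplicit false

open Polynomial Filter Topology NumberField IsDedekindDomain Module Matrix

namespace Pool.Agent.N197.AP

theorem norm_exists_prime {K : Type} [Field K] [NumberField K]
    (v : HeightOneSpectrum (𝓞 K)) : ∃ p : ℕ, p.Prime ∧ (p : 𝓞 K) ∈ v.asIdeal := by
  have h0 : Ideal.absNorm v.asIdeal ≠ 0 := fun h => v.ne_bot (Ideal.absNorm_eq_zero_iff.1 h)
  have hex : ∀ n : ℕ, n ≠ 0 → (n : 𝓞 K) ∈ v.asIdeal → ∃ p : ℕ, p.Prime ∧ (p : 𝓞 K) ∈ v.asIdeal := by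
    intro n
    induction n using Nat.recOnMul with
    | zero => intro h; exact absurd rfl h
    | one =>
      intro _ h
      rw [Nat.cast_one] at h
      exact absurd ((Ideal.eq_top_iff_one _).2 h) v.isPrime.ne_top
    | prime p hp => exact fun _ h => ⟨p, hp, h⟩
    | mul a b ha hb =>
      intro hab h
      rw [Nat.cast_mul] at h
      rcases v.isPrime.mem_or_mem h with h | h
      · exact ha (left_ne_zero_of_mul hab) h
      · exact hb (right_ne_zero_of_mul hab) h
  exact hex _ h0 (Ideal.absNorm_mem v.asIdeal)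

theorem t_NORM : S_NORM := by
  intro K _ _ v
  have h1 : Ideal.absNorm v.asIdeal ≠ 1 := fun h => v.isPrime.ne_top (Ideal.absNorm_eq_one_iff.1 h)
  obtain ⟨p, hp, hpv⟩ := norm_exists_prime v
  have h2 : Ideal.absNorm v.asIdeal ∣ Ideal.absNorm (Ideal.span {(p : 𝓞 K)}) := by
    refine Ideal.absNorm_dvd_absNorm_of_le ?_
    rw [Ideal.span_le, Set.singleton_subset_iff]
    exact hpv
  rw [Ideal.absNorm_span_natCast, NumberField.RingOfIntegers.rank] at h2
  obtain ⟨f, hf, hf'⟩ := (Nat.dvd_prime_pow hp).1 h2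
  refine ⟨p, f, hp, ?_, hf, hf'⟩
  rcases Nat.eq_zero_or_pos f with h | h
  · exact absurd (by rw [hf', h, pow_zero]) h1
  · exact h

end Pool.Agent.N197.AP
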