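import Pool.Agent.N197.AP.Stm

/-!
# Project AP, task PROD: no relation near `1`

Numbers `x` with `(x - 1) / t` close to an integer, where `t` is small, multiply like the integers add;
a root of unity of `2`-adic distance less than `1 / 2` from `1` is `1`.
-/

set_option autoImplicit false
set_option linter.unusedSectionVars false

open Polynomial Filter Topology

namespace Pool.Agent.N197.AP

section prod

variable {K : Type} [NormedField K] [IsUltrametricDist K]

/-- powers of numbers close to one -/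
theorem pr_pow {z : K} (hz : ‖z‖ ≤ 1) (m : ℕ) : ‖z ^ m - 1‖ ≤ ‖z - 1‖ := by
  induction m with
  | zero => simp
  | succ m ih =>
    have h1 : z ^ (m + 1) - 1 = z * (z ^ m - 1) + (z - 1) := by ring
    rw [h1]
    refine (IsUltrametricDist.norm_add_le_max _ _).trans (max_le ?_ le_rfl)
    rw [norm_mul]
    calc ‖z‖ * ‖z ^ m - 1‖ ≤ 1 * ‖z - 1‖ := mul_le_mul hz ih (norm_nonneg _) zero_le_one
      _ = ‖z - 1‖ := one_mul _

/-- numbers close to one have norm one -/
theorem pr_norm {z : K} (hz : ‖z - 1‖ < 1) : ‖z‖ = 1 := by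
  have h1 : z = (z - 1) + 1 := by ring
  have h2 : ‖z - 1‖ ≠ ‖(1 : K)‖ := by
    rw [norm_one]
    exact hz.ne
  rw [h1, IsUltrametricDist.norm_add_eq_max_of_norm_ne_norm h2, norm_one, max_eq_right hz.le]

/-- roots of unity close to one -/
theorem pr_root (h2 : ‖(2 : K)‖ = 1 / 2) : ∀ s : ℕ, 0 < s → ∀ z : K, ‖z - 1‖ < 1 / 2 →
    z ^ s = 1 → z = 1 := by
  intro s
  induction s using Nat.strong_induction_on with
  | _ s ih =>
    intro hs z hz hzs
    have hz1 : ‖z‖ = 1 := pr_norm (by linarith)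
    rcases Nat.even_or_odd' s with ⟨m, rfl | rfl⟩
    · have hm : 0 < m := by omega
      refine ih m (by omega) hm z hz ?_
      have h3 : (z ^ m - 1) * (z ^ m + 1) = 0 := by
        have h4 : (z ^ m - 1) * (z ^ m + 1) = z ^ (2 * m) - 1 := by ring
        rw [h4, hzs, sub_self]
      rcases mul_eq_zero.1 h3 with h5 | h5
      · exact sub_eq_zero.1 h5
      · exfalso
        have h6 : z ^ m - 1 = -2 := by
          linear_combination h5
        have h7 := pr_pow hz1.le m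
        rw [h6, norm_neg, h2] at h7
        linarith
    · have h3 : (∑ i ∈ Finset.range (2 * m + 1), z ^ i) * (z - 1) = 0 := by
        rw [geom_sum_mul, hzs, sub_self]
      rcases mul_eq_zero.1 h3 with h5 | h5
      · exfalso
        have h6 : ‖∑ i ∈ Finset.range (2 * m + 1), (z ^ i - 1)‖ ≤ 1 / 2 := by
          refine IsUltrametricDist.norm_sum_le_of_forall_le_of_nonneg (by norm_num) ?_
          intro i _
          exact (pr_pow hz1.le i).trans hz.le
        have h7 : ∑ i ∈ Finset.range (2 * m + 1), (z ^ i - 1) = -(2 * (m : K) + 1) := by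
          rw [Finset.sum_sub_distrib, h5]
          simp
        rw [h7, norm_neg] at h6
        have h8 : ‖2 * (m : K) + 1‖ = 1 := by
          refine pr_norm ?_
          have h9 : 2 * (m : K) + 1 - 1 = 2 * ((m : ℤ) : K) := by push_cast; ring
          rw [h9, norm_mul, h2]
          have h10 := IsUltrametricDist.norm_intCast_le_one K (m : ℤ)
          linarith
        rw [h8] at h6
        norm_num at h6
      · exact sub_eq_zero.1 h5

/-- `(x - 1) / t` is close to the integer `r` -/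
def PrN (t : K) (e : ℝ) (x : K) (r : ℤ) : Prop := ‖(x - 1) / t - (r : K)‖ ≤ e

variable {t : K} {e : ℝ}

theorem pr_int (r : ℤ) : ‖(r : K)‖ ≤ 1 := IsUltrametricDist.norm_intCast_le_one K r

theorem pr_bd (he : e ≤ 1) {x : K} {r : ℤ} (h : PrN t e x r) : ‖(x - 1) / t‖ ≤ 1 := by
  have h1 : (x - 1) / t = ((x - 1) / t - (r : K)) + (r : K) := by ring
  rw [h1]
  exact (IsUltrametricDist.norm_add_le_max _ _).trans (max_le (h.trans he) (pr_int r))

theorem pr_close (ht : t ≠ 0) (he : e ≤ 1) {x : K} {r : ℤ} (h : PrN t e x r) :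
    ‖x - 1‖ ≤ ‖t‖ := by
  have h1 : x - 1 = t * ((x - 1) / t) := by field_simp
  rw [h1, norm_mul]
  calc ‖t‖ * ‖(x - 1) / t‖ ≤ ‖t‖ * 1 := mul_le_mul_of_nonneg_left (pr_bd he h) (norm_nonneg _)
    _ = ‖t‖ := mul_one _

theorem pr_one (he0 : 0 ≤ e) : PrN t e 1 0 := by
  unfold PrN
  simpa using he0

theorem pr_mul (ht : t ≠ 0) (hte : ‖t‖ ≤ e) (he : e ≤ 1) {x y : K} {r s : ℤ} (hx : PrN t e x r)
    (hy : PrN t e y s) : PrN t e (x * y) (r + s) := by
  unfold PrN
  have h1 : (x * y - 1) / t - ((r + s : ℤ) : K) = ((x - 1) / t - (r : K)) +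
      (((y - 1) / t - (s : K)) + t * (((x - 1) / t) * ((y - 1) / t))) := by
    push_cast
    field_simp
    ring
  rw [h1]
  refine (IsUltrametricDist.norm_add_le_max _ _).trans (max_le hx
    ((IsUltrametricDist.norm_add_le_max _ _).trans (max_le hy ?_)))
  rw [norm_mul, norm_mul]
  have h2 := pr_bd he hx
  have h3 := pr_bd he hy
  calc ‖t‖ * (‖(x - 1) / t‖ * ‖(y - 1) / t‖) ≤ ‖t‖ * (1 * 1) :=
        mul_le_mul_of_nonneg_left (mul_le_mul h2 h3 (norm_nonneg _) zero_le_one) (norm_nonneg _)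
    _ ≤ e := by simpa using hte

theorem pr_npow (ht : t ≠ 0) (hte : ‖t‖ ≤ e) (he : e ≤ 1) {x : K} {r : ℤ} (hx : PrN t e x r)
    (n : ℕ) : PrN t e (x ^ n) (n * r) := by
  induction n with
  | zero =>
    have h1 := pr_one (t := t) ((norm_nonneg t).trans hte)
    simpa using h1
  | succ n ih =>
    have h1 := pr_mul ht hte he ih hx
    rw [pow_succ]
    have h2 : ((n + 1 : ℕ) : ℤ) * r = n * r + r := by push_cast; ring
    rw [h2]
    exact h1

theorem pr_prod (ht : t ≠ 0) (hte : ‖t‖ ≤ e) (he : e ≤ 1) {J : Type} (I : Finset J) (x : J → K)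
    (r : J → ℤ) (h : ∀ j ∈ I, PrN t e (x j) (r j)) :
    PrN t e (∏ j ∈ I, x j) (∑ j ∈ I, r j) := by
  classical
  induction I using Finset.induction_on with
  | empty =>
    rw [Finset.prod_empty, Finset.sum_empty]
    exact pr_one ((norm_nonneg t).trans hte)
  | insert a I ha ih =>
    rw [Finset.prod_insert ha, Finset.sum_insert ha]
    exact pr_mul ht hte he (h a (Finset.mem_insert_self _ _))
      (ih (fun j hj => h j (Finset.mem_insert_of_mem hj)))

theorem pr_inv (ht : t ≠ 0) (hte : ‖t‖ ≤ e) (ht1 : ‖t‖ < 1) (he : e ≤ 1) {x : K} {r : ℤ}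
    (hx : PrN t e x r) : PrN t e x⁻¹ (-r) := by
  have h1 := pr_close ht he hx
  have h2 : ‖x‖ = 1 := pr_norm (h1.trans_lt ht1)
  have hx0 : x ≠ 0 := by
    intro h0
    rw [h0, norm_zero] at h2
    exact zero_ne_one h2
  unfold PrN
  have h3 : (x⁻¹ - 1) / t - ((-r : ℤ) : K) = x⁻¹ * (-((x - 1) / t - (r : K)) + (r : K) * (x - 1)) := by
    push_cast
    field_simp
    ring
  rw [h3, norm_mul, norm_inv, h2, inv_one, one_mul]
  refine (IsUltrametricDist.norm_add_le_max _ _).trans (max_le ?_ ?_)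
  · rw [norm_neg]
    exact hx
  · rw [norm_mul]
    calc ‖(r : K)‖ * ‖x - 1‖ ≤ 1 * ‖t‖ := mul_le_mul (pr_int r) h1 (norm_nonneg _) zero_le_one
      _ ≤ e := by simpa using hte

theorem pr_zpow (ht : t ≠ 0) (hte : ‖t‖ ≤ e) (ht1 : ‖t‖ < 1) (he : e ≤ 1) {x : K}
    (hx : PrN t e x 0) (c : ℤ) : PrN t e (x ^ c) 0 := by
  have hnat : ∀ n : ℕ, PrN t e (x ^ n) 0 := by
    intro n
    have h1 := pr_npow ht hte he hx n
    simpa using h1
  obtain ⟨n, rfl | rfl⟩ := c.eq_nat_or_neg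
  · rw [zpow_natCast]
    exact hnat n
  · rw [zpow_neg, zpow_natCast]
    have h1 := pr_inv ht hte ht1 he (hnat n)
    simpa using h1

end prod

/-- task PROD -/
theorem t_PROD : S_PROD := by
  intro J _ a Λ hne
  set N : ℤ := ∑ j, (a j : ℤ) * Λ j with hN
  have h2n : ‖(2 : AlgebraicClosure ℚ_[2])‖ = 1 / 2 := by
    have h1 : ‖(algebraMap ℚ_[2] (AlgebraicClosure ℚ_[2]) ((2 : ℕ) : ℚ_[2]))‖ = 1 / 2 := by
      have h3 := PadicAlgCl.norm_extends 2 ((2 : ℕ) : ℚ_[2])
      have h4 : ‖((2 : ℕ) : ℚ_[2])‖ = 1 / 2 := by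
        have h5 := Padic.norm_p (p := 2)
        rw [h5]
        norm_num
      rw [← h4, ← h3]
    have h2 : algebraMap ℚ_[2] (AlgebraicClosure ℚ_[2]) ((2 : ℕ) : ℚ_[2]) = 2 := by
      rw [map_natCast]
      norm_num
    rw [h2] at h1
    exact h1
  have hN0 : (0 : ℝ) < ‖((N : ℤ) : AlgebraicClosure ℚ_[2])‖ := by
    rw [norm_pos_iff]
    exact Int.cast_ne_zero.2 hne
  obtain ⟨ε, hε0, hε1, hεN⟩ : ∃ ε : ℝ, 0 < ε ∧ ε ≤ 1 ∧ ε < ‖((N : ℤ) : AlgebraicClosure ℚ_[2])‖ :=
    ⟨min (‖((N : ℤ) : AlgebraicClosure ℚ_[2])‖ / 2) 1, lt_min (by linarith) one_pos,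
      min_le_right _ _, (min_le_left _ _).trans_lt (by linarith)⟩
  obtain ⟨k₁, hk₁⟩ := exists_pow_lt_of_lt_one hε0 (show (1 / 2 : ℝ) < 1 by norm_num)
  refine ⟨ε, max 2 k₁, hε0, ?_⟩
  intro k hk α β q hα hβ hq c s hs heq
  set t : AlgebraicClosure ℚ_[2] :=
    algebraMap ℚ_[2] (AlgebraicClosure ℚ_[2]) (((2 : ℕ) : ℚ_[2]) ^ k) with htdef
  have ht2 : t = 2 ^ k := by
    rw [htdef, map_pow, map_natCast]
    norm_num
  have htn : ‖t‖ = (1 / 2 : ℝ) ^ k := by
    rw [ht2, norm_pow, h2n]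
  have hk2 : 2 ≤ k := (le_max_left _ _).trans hk
  have hk1 : k₁ ≤ k := (le_max_right _ _).trans hk
  have htε : ‖t‖ ≤ ε := by
    rw [htn]
    exact (pow_le_pow_of_le_one (by norm_num) (by norm_num) hk1).trans hk₁.le
  have ht4 : ‖t‖ ≤ 1 / 4 := by
    rw [htn]
    calc (1 / 2 : ℝ) ^ k ≤ (1 / 2 : ℝ) ^ 2 :=
          pow_le_pow_of_le_one (by norm_num) (by norm_num) hk2
      _ = 1 / 4 := by norm_num
  have ht1 : ‖t‖ < 1 := by linarith
  have ht0 : t ≠ 0 := by
    intro h0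
    rw [h0, norm_zero] at htn
    have h3 : (0 : ℝ) < (1 / 2 : ℝ) ^ k := by positivity
    linarith
  have hα' : ∀ j, PrN t ε (α j) (Λ j) := fun j => (hα j).le
  have hβ' : PrN t ε β 0 := by
    unfold PrN
    rw [Int.cast_zero, sub_zero]
    exact hβ.le
  have hq' : PrN t ε q 0 := by
    unfold PrN
    rw [Int.cast_zero, sub_zero]
    exact hq.le
  have h1 : PrN t ε (∏ j, α j ^ a j) N :=
    pr_prod ht0 htε hε1 Finset.univ (fun j => α j ^ a j) (fun j => (a j : ℤ) * Λ j)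
      (fun j _ => pr_npow ht0 htε hε1 (hα' j) (a j))
  have h2 : PrN t ε ((∏ j, α j ^ a j) * β) (N + 0) := pr_mul ht0 htε hε1 h1 hβ'
  have h3 : PrN t ε (q ^ c) 0 := pr_zpow ht0 htε ht1 hε1 hq' c
  have h4 : PrN t ε (q ^ c)⁻¹ (-0) := pr_inv ht0 htε ht1 hε1 h3
  have h5 := pr_mul ht0 htε hε1 h2 h4
  have hq0 : q ^ c ≠ 0 := by
    intro h0
    have h6 := pr_close ht0 hε1 h3
    rw [h0, zero_sub, norm_neg, norm_one] at h6
    linarith
  have h6 : ((∏ j, α j ^ a j) * β * (q ^ c)⁻¹) ^ s = 1 := by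
    rw [mul_pow, heq, ← mul_pow, mul_inv_cancel₀ hq0, one_pow]
  have h7 := pr_root h2n s hs _ ((pr_close ht0 hε1 h5).trans_lt (by linarith)) h6
  rw [h7] at h5
  unfold PrN at h5
  rw [sub_self, zero_div, zero_sub, norm_neg] at h5
  have h8 : (N + 0 + -0 : ℤ) = N := by ring
  rw [h8] at h5
  linarith

end Pool.Agent.N197.AP
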