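import Pool.Agent.N197.AP.Stm

/-!
# Project AP (helper197): finitely many vectors of exponents (task SERRE)
-/

set_option autoImplicit false

open NumberField IsDedekindDomain Module

namespace Pool.Agent.N197.AP

/-! ### additive functions on the nonzero elements of a field -/

section add

variable {E : Type} [Field E] {L : E → ℝ} (hL : ∀ x y : E, x ≠ 0 → y ≠ 0 → L (x * y) = L x + L y)

include hL

theorem serre_one : L 1 = 0 := by
  have h := hL 1 1 one_ne_zero one_ne_zero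
  rw [one_mul] at h
  linarith

theorem serre_pow {x : E} (hx : x ≠ 0) (n : ℕ) : L (x ^ n) = n * L x := by
  induction n with
  | zero => rw [pow_zero, serre_one hL, Nat.cast_zero, zero_mul]
  | succ n ih =>
    rw [pow_succ, hL _ _ (pow_ne_zero n hx) hx, ih]
    push_cast
    ring

theorem serre_inv {x : E} (hx : x ≠ 0) : L x⁻¹ = -L x := by
  have h := hL x x⁻¹ hx (inv_ne_zero hx)
  rw [mul_inv_cancel₀ hx, serre_one hL] at h
  linarith

theorem serre_zpow {x : E} (hx : x ≠ 0) (n : ℤ) : L (x ^ n) = n * L x := by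
  obtain ⟨k, rfl | rfl⟩ := n.eq_nat_or_neg
  · rw [zpow_natCast, serre_pow hL hx]
    push_cast
    rfl
  · rw [zpow_neg, zpow_natCast, serre_inv hL (pow_ne_zero k hx), serre_pow hL hx]
    push_cast
    ring

theorem serre_prod {ι : Type} (s : Finset ι) (g : ι → E) (hg : ∀ i, g i ≠ 0) :
    L (∏ i ∈ s, g i) = ∑ i ∈ s, L (g i) := by
  classical
  induction s using Finset.induction_on with
  | empty => rw [Finset.prod_empty, Finset.sum_empty, serre_one hL]
  | insert i s hi ih =>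
    rw [Finset.prod_insert hi, Finset.sum_insert hi,
      hL _ _ (hg i) (Finset.prod_ne_zero_iff.2 fun j _ => hg j), ih]

theorem serre_lhs {κ : Type} [Fintype κ] {α : κ ⊕ κ → E} {β : E} (hα : ∀ j, α j ≠ 0)
    (hβ : β ≠ 0) (a : κ ⊕ κ → ℕ) :
    L ((∏ j, α j ^ a j) * β) = ∑ j, (a j : ℝ) * L (α j) + L β := by
  rw [hL _ _ (Finset.prod_ne_zero_iff.2 fun j _ => pow_ne_zero _ (hα j)) hβ,
    serre_prod hL _ _ fun j => pow_ne_zero _ (hα j)]
  congr 1
  exact Finset.sum_congr rfl fun j _ => serre_pow hL (hα j) _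

theorem serre_rel {κ : Type} [Fintype κ] {α : κ ⊕ κ → E} {β q : E} (hα : ∀ j, α j ≠ 0)
    (hβ : β ≠ 0) (hq : q ≠ 0) {a : κ ⊕ κ → ℕ} {c : ℤ} {s : ℕ} (hs : 0 < s)
    (h : ((∏ j, α j ^ a j) * β) ^ s = (q ^ c) ^ s) :
    ∑ j, (a j : ℝ) * L (α j) + L β = c * L q := by
  have h1 := congrArg L h
  rw [serre_pow hL (mul_ne_zero (Finset.prod_ne_zero_iff.2 fun j _ => pow_ne_zero _ (hα j)) hβ),
    serre_pow hL (zpow_ne_zero c hq), serre_lhs hL hα hβ, serre_zpow hL hq] at h1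
  have h2 : (s : ℝ) ≠ 0 := by exact_mod_cast hs.ne'
  exact mul_left_cancel₀ h2 h1

end add

/-! ### valuations -/

section val

variable {E : Type} [Field E] [NumberField E] (v : HeightOneSpectrum (𝓞 E))

/-- minus the logarithm of the valuation -/
noncomputable def serre_ord (x : E) : ℤ := -(WithZero.log (v.valuation E x))

theorem serre_ord_mul (x y : E) (hx : x ≠ 0) (hy : y ≠ 0) :
    serre_ord v (x * y) = serre_ord v x + serre_ord v y := by
  unfold serre_ord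
  rw [map_mul, WithZero.log_mul ((Valuation.ne_zero_iff _).2 hx) ((Valuation.ne_zero_iff _).2 hy)]
  ring

theorem serre_ordR (x y : E) (hx : x ≠ 0) (hy : y ≠ 0) :
    ((serre_ord v (x * y) : ℤ) : ℝ) = (serre_ord v x : ℝ) + (serre_ord v y : ℝ) := by
  rw [serre_ord_mul v x y hx hy]
  push_cast
  rfl

/-- the same as a real number -/
noncomputable def serre_L (x : E) : ℝ := (serre_ord v x : ℝ)

theorem serre_ord_nonneg {x : E} (hx : x ≠ 0) (hi : IsIntegral ℤ x) : 0 ≤ serre_ord v x := by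
  unfold serre_ord
  have h1 : v.valuation E x ≤ 1 := v.valuation_le_one (K := E) (⟨x, hi⟩ : 𝓞 E)
  have h2 := (WithZero.log_le_log ((Valuation.ne_zero_iff (v.valuation E)).2 hx) one_ne_zero).2 h1
  rw [WithZero.log_one] at h2
  linarith

theorem serre_val_eq {x y : E} (hx : x ≠ 0) (hy : y ≠ 0) (h : serre_ord v x = serre_ord v y) :
    v.valuation E x = v.valuation E y := by
  unfold serre_ord at h
  have h1 : WithZero.log (v.valuation E x) = WithZero.log (v.valuation E y) := by linarith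
  rw [← WithZero.exp_log ((Valuation.ne_zero_iff (v.valuation E)).2 hx), h1,
    WithZero.exp_log ((Valuation.ne_zero_iff (v.valuation E)).2 hy)]

end val

/-- the valuation of `β` -/
theorem serre_beta {E : Type} [Field E] [NumberField E] (v : HeightOneSpectrum (𝓞 E)) {β : E}
    (hβ : IsIntegral ℤ β) (hβ0 : β ≠ 0) (w p f : ℕ) (hp : p.Prime)
    (h : ∀ φ : E →+* ℂ, ‖φ β‖ ^ 2 = ((p : ℝ) ^ f) ^ w) :
    2 * serre_ord v β ≤ w * finrank ℚ E * serre_ord v ((p : E) ^ f) := by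
  classical
  set b : 𝓞 E := ⟨β, hβ⟩ with hb
  set m : ℕ := Ideal.absNorm (Ideal.span {b}) with hm
  have hb0 : b ≠ 0 := by
    intro h0
    apply hβ0
    have h5 : ((b : 𝓞 E) : E) = ((0 : 𝓞 E) : E) := congrArg (fun x : 𝓞 E => (x : E)) h0
    exact h5
  have hm0 : m ≠ 0 := by
    rw [hm, Ne, Ideal.absNorm_eq_zero_iff, Ideal.span_singleton_eq_bot]
    exact hb0
  obtain ⟨c, hc⟩ : b ∣ (m : 𝓞 E) := by
    rw [← Ideal.mem_span_singleton]
    exact Ideal.absNorm_mem _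
  have hcE : (m : E) = β * (c : E) := by
    have h5 : (((m : ℕ) : 𝓞 E) : E) = ((b * c : 𝓞 E) : E) :=
      congrArg (fun x : 𝓞 E => (x : E)) hc
    have h6 : (((m : ℕ) : 𝓞 E) : E) = (m : E) := map_natCast (algebraMap (𝓞 E) E) m
    have h7 : ((b * c : 𝓞 E) : E) = (b : E) * (c : E) := map_mul (algebraMap (𝓞 E) E) b c
    rw [← h6, h5, h7]
    rfl
  have hmE : (m : E) ≠ 0 := by exact_mod_cast hm0
  have hc0 : (c : E) ≠ 0 := by
    intro h0
    rw [h0, mul_zero] at hcE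
    exact hmE hcE
  have h1 : serre_ord v β ≤ serre_ord v (m : E) := by
    rw [hcE, serre_ord_mul v _ _ hβ0 hc0]
    have := serre_ord_nonneg v hc0 c.isIntegral_coe
    linarith
  -- the norm
  have h2 : ((m : ℝ)) ^ 2 = (((p : ℝ) ^ f) ^ w) ^ finrank ℚ E := by
    have h3 : (m : ℤ) ^ 2 = (Algebra.norm ℤ b) ^ 2 := by
      rw [hm, Ideal.absNorm_span_singleton, Int.natAbs_sq]
    have h4 : algebraMap ℚ ℂ (Algebra.norm ℚ β) = ∏ σ : E →ₐ[ℚ] ℂ, σ β :=
      Algebra.norm_eq_prod_embeddings ℚ ℂ β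
    have h5 : ‖algebraMap ℚ ℂ (Algebra.norm ℚ β)‖ ^ 2 = (((p : ℝ) ^ f) ^ w) ^ finrank ℚ E := by
      rw [h4, norm_prod, ← Finset.prod_pow]
      have h9 : ∀ σ ∈ (Finset.univ : Finset (E →ₐ[ℚ] ℂ)), ‖σ β‖ ^ 2 = ((p : ℝ) ^ f) ^ w :=
        fun σ _ => h (σ : E →+* ℂ)
      rw [Finset.prod_congr rfl h9, Finset.prod_const, Finset.card_univ, AlgHom.card ℚ E ℂ]
    have h6 : ((Algebra.norm ℤ b : ℤ) : ℚ) = Algebra.norm ℚ β := Algebra.coe_norm_int b
    have h7 : algebraMap ℚ ℂ (Algebra.norm ℚ β) = ((Algebra.norm ℤ b : ℤ) : ℂ) := by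
      rw [← h6]
      simp
    rw [h7, Complex.norm_intCast, sq_abs] at h5
    rw [← h5]
    exact_mod_cast h3
  have h8 : (m : E) ^ 2 = (((p : E) ^ f) ^ w) ^ finrank ℚ E := by
    have h9 : m ^ 2 = ((p ^ f) ^ w) ^ finrank ℚ E := by exact_mod_cast h2
    exact_mod_cast congrArg (Nat.cast : ℕ → E) h9
  have hpE : (p : E) ^ f ≠ 0 := pow_ne_zero _ (by exact_mod_cast hp.ne_zero)
  have h10 : ((serre_ord v ((m : E) ^ 2) : ℤ) : ℝ) =
      ((serre_ord v ((((p : E) ^ f) ^ w) ^ finrank ℚ E) : ℤ) : ℝ) := by rw [h8]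
  have g1 : ((serre_ord v ((m : E) ^ 2) : ℤ) : ℝ) = ((2 : ℕ) : ℝ) * (serre_ord v (m : E) : ℝ) :=
    serre_pow (L := serre_L v) (serre_ordR v) hmE 2
  have g2 : ((serre_ord v ((((p : E) ^ f) ^ w) ^ finrank ℚ E) : ℤ) : ℝ) =
      (finrank ℚ E : ℝ) * (serre_ord v (((p : E) ^ f) ^ w) : ℝ) :=
    serre_pow (L := serre_L v) (serre_ordR v) (pow_ne_zero _ hpE) _
  have g3 : ((serre_ord v (((p : E) ^ f) ^ w) : ℤ) : ℝ) =
      (w : ℝ) * (serre_ord v ((p : E) ^ f) : ℝ) :=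
    serre_pow (L := serre_L v) (serre_ordR v) hpE w
  rw [g1, g2, g3] at h10
  have h11 : (2 : ℤ) * serre_ord v (m : E) = finrank ℚ E * (w * serre_ord v ((p : E) ^ f)) := by
    exact_mod_cast h10
  calc 2 * serre_ord v β ≤ 2 * serre_ord v (m : E) := by linarith
    _ = w * finrank ℚ E * serre_ord v ((p : E) ^ f) := by rw [h11]; ring

/-- task SERRE -/
theorem t_SERRE (h1 : S_KRON) (h2 : S_VAL) (h3 : S_PAT) : S_SERRE := by
  classical
  intro κ _ w D B
  obtain ⟨T, hT1, hT2⟩ := h3 κ w (max (B * D) (w * D * (B * D)))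
  refine ⟨T, hT1, ?_⟩
  intro E _ _ p f hp hf hfB hD α β hα hβ hpair hnα hnβ a ha ⟨c, s, hs, hrel⟩
  set N : ℕ := max (B * D) (w * D * (B * D)) with hN
  obtain ⟨φ0⟩ : Nonempty (E →+* ℂ) := inferInstance
  have hpR : (1 : ℝ) < p := by exact_mod_cast hp.one_lt
  have hqR : (1 : ℝ) < (p : ℝ) ^ f := one_lt_pow₀ hpR hf.ne'
  have hp0 : (p : E) ≠ 0 := by exact_mod_cast hp.ne_zero
  have hq0 : (p : E) ^ f ≠ 0 := pow_ne_zero _ hp0
  have hα0 : ∀ j, α j ≠ 0 := by
    intro j h0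
    have := hnα φ0 j
    rw [h0, map_zero, norm_zero] at this
    have h5 : (0 : ℝ) < (p : ℝ) ^ f := by linarith
    rw [← this] at h5
    norm_num at h5
  have hβ0 : β ≠ 0 := by
    intro h0
    have := hnβ φ0
    rw [h0, map_zero, norm_zero] at this
    have h5 : (0 : ℝ) < ((p : ℝ) ^ f) ^ w := by positivity
    rw [← this] at h5
    norm_num at h5
  -- absolute values
  have hLφ : ∀ φ : E →+* ℂ, ∀ x y : E, x ≠ 0 → y ≠ 0 →
      Real.log ‖φ (x * y)‖ = Real.log ‖φ x‖ + Real.log ‖φ y‖ := by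
    intro φ x y hx hy
    rw [map_mul, norm_mul, Real.log_mul]
    · exact norm_ne_zero_iff.2 ((map_ne_zero φ).2 hx)
    · exact norm_ne_zero_iff.2 ((map_ne_zero φ).2 hy)
  set l : ℝ := Real.log ((p : ℝ) ^ f) with hl
  have hl0 : 0 < l := Real.log_pos hqR
  have hlα : ∀ φ : E →+* ℂ, ∀ j, Real.log ‖φ (α j)‖ = l / 2 := by
    intro φ j
    have h5 := congrArg Real.log (hnα φ j)
    rw [Real.log_pow] at h5
    push_cast at h5
    linarith
  have hlβ : ∀ φ : E →+* ℂ, Real.log ‖φ β‖ = w * l / 2 := by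
    intro φ
    have h5 := congrArg Real.log (hnβ φ)
    rw [Real.log_pow, Real.log_pow] at h5
    push_cast at h5
    linarith
  have hlq : ∀ φ : E →+* ℂ, Real.log ‖φ ((p : E) ^ f)‖ = l := by
    intro φ
    rw [map_pow, map_natCast, norm_pow, Complex.norm_natCast]
  have hsum : (∑ j, (a j : ℤ)) + w = 2 * c := by
    have h5 := serre_rel (L := fun x => Real.log ‖φ0 x‖) (hLφ φ0) hα0 hβ0 hq0 hs hrel
    simp only [hlα, hlβ, hlq] at h5
    rw [← Finset.sum_mul] at h5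
    have h6 : ((∑ j, (a j : ℝ)) + w) * l = (2 * c) * l := by linarith
    have h7 := mul_right_cancel₀ hl0.ne' h6
    exact_mod_cast h7
  -- the valuation of `q`
  have hoq : ∀ v : HeightOneSpectrum (𝓞 E), 0 ≤ serre_ord v ((p : E) ^ f) ∧
      serre_ord v ((p : E) ^ f) ≤ (B * D : ℕ) := by
    intro v
    obtain ⟨n, hn, hv⟩ := h2 E v p hp
    have h5 : serre_ord v (p : E) = n := by
      unfold serre_ord
      rw [hv, WithZero.log_exp]
      ring
    have h6 : ((serre_ord v ((p : E) ^ f) : ℤ) : ℝ) = f * (serre_ord v (p : E) : ℝ) :=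
      serre_pow (L := serre_L v) (serre_ordR v) hp0 f
    have h7 : serre_ord v ((p : E) ^ f) = f * n := by
      rw [h5] at h6
      exact_mod_cast h6
    rw [h7]
    refine ⟨by positivity, ?_⟩
    exact_mod_cast Nat.mul_le_mul hfB (hn.trans hD)
  have hoα : ∀ (v : HeightOneSpectrum (𝓞 E)) (j : κ ⊕ κ), 0 ≤ serre_ord v (α j) ∧
      serre_ord v (α j) ≤ (B * D : ℕ) := by
    intro v j
    have h5 : ∀ i, serre_ord v (α (.inl i)) + serre_ord v (α (.inr i)) =
        serre_ord v ((p : E) ^ f) := fun i => by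
      rw [← hpair i, serre_ord_mul v _ _ (hα0 _) (hα0 _)]
    have h6 := fun j => serre_ord_nonneg v (hα0 j) (hα j)
    have h7 := (hoq v).2
    refine ⟨h6 j, ?_⟩
    rcases j with i | i
    · have := h5 i
      have := h6 (.inr i)
      linarith
    · have := h5 i
      have := h6 (.inl i)
      linarith
  have hoβ : ∀ v : HeightOneSpectrum (𝓞 E), 0 ≤ serre_ord v β ∧
      serre_ord v β ≤ (w * D * (B * D) : ℕ) := by
    intro v
    have h5 := serre_ord_nonneg v hβ0 hβ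
    refine ⟨h5, ?_⟩
    have h6 := serre_beta v hβ hβ0 w p f hp hnβ
    have h7 : (w * finrank ℚ E : ℤ) * serre_ord v ((p : E) ^ f) ≤
        ((w * D : ℕ) : ℤ) * ((B * D : ℕ) : ℤ) := by
      refine mul_le_mul ?_ (hoq v).2 (hoq v).1 (by positivity)
      exact_mod_cast Nat.mul_le_mul_left w hD
    push_cast at h7 ⊢
    linarith
  -- the system
  obtain ⟨a', ha', c', hsum', hsys'⟩ := hT2
    {x | ∃ v : HeightOneSpectrum (𝓞 E), (∀ j, (x.1 j : ℤ) = serre_ord v (α j)) ∧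
      (x.2.1 : ℤ) = serre_ord v β ∧ (x.2.2 : ℤ) = serre_ord v ((p : E) ^ f)} (by
      rintro x ⟨v, hx1, hx2, hx3⟩
      refine ⟨fun j => ?_, ?_, ?_⟩
      · have h5 := (hoα v j).2
        rw [← hx1 j] at h5
        exact (by exact_mod_cast h5 : x.1 j ≤ B * D).trans (le_max_left _ _)
      · have h5 := (hoβ v).2
        rw [← hx2] at h5
        exact (by exact_mod_cast h5 : x.2.1 ≤ w * D * (B * D)).trans (le_max_right _ _)
      · have h5 := (hoq v).2
        rw [← hx3] at h5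
        exact (by exact_mod_cast h5 : x.2.2 ≤ B * D).trans (le_max_left _ _)) a c ha hsum (by
      rintro x ⟨v, hx1, hx2, hx3⟩
      have h5 : ∑ j, (a j : ℝ) * (serre_ord v (α j) : ℝ) + (serre_ord v β : ℝ) =
          c * (serre_ord v ((p : E) ^ f) : ℝ) :=
        serre_rel (L := serre_L v) (serre_ordR v) hα0 hβ0 hq0 hs hrel
      rw [hx2, hx3]
      simp only [hx1]
      exact_mod_cast h5)
  refine ⟨a', ha', c', ?_⟩
  have hX0 : (∏ j, α j ^ a' j) * β ≠ 0 :=
    mul_ne_zero (Finset.prod_ne_zero_iff.2 fun j _ => pow_ne_zero _ (hα0 j)) hβ0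
  have hY0 : ((p : E) ^ f) ^ c' ≠ 0 := zpow_ne_zero _ hq0
  refine h1 E _ _ hX0 hY0 (fun v => ?_) (fun φ => ?_)
  · apply serre_val_eq v hX0 hY0
    have h5 := hsys' (fun j => (serre_ord v (α j)).toNat, (serre_ord v β).toNat,
      (serre_ord v ((p : E) ^ f)).toNat) ⟨v, fun j => Int.toNat_of_nonneg (hoα v j).1,
        Int.toNat_of_nonneg (hoβ v).1, Int.toNat_of_nonneg (hoq v).1⟩
    simp only at h5
    rw [Int.toNat_of_nonneg (hoβ v).1, Int.toNat_of_nonneg (hoq v).1] at h5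
    simp only [fun j => Int.toNat_of_nonneg (hoα v j).1] at h5
    have h6 : ((serre_ord v ((∏ j, α j ^ a' j) * β) : ℤ) : ℝ) =
        ∑ j, (a' j : ℝ) * (serre_ord v (α j) : ℝ) + (serre_ord v β : ℝ) :=
      serre_lhs (L := serre_L v) (serre_ordR v) hα0 hβ0 a'
    have h7 : ((serre_ord v (((p : E) ^ f) ^ c') : ℤ) : ℝ) =
        c' * (serre_ord v ((p : E) ^ f) : ℝ) :=
      serre_zpow (L := serre_L v) (serre_ordR v) hq0 c'
    have h8 : ((serre_ord v ((∏ j, α j ^ a' j) * β) : ℤ) : ℝ) =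
        ((serre_ord v (((p : E) ^ f) ^ c') : ℤ) : ℝ) := by
      rw [h6, h7]
      exact_mod_cast h5
    exact_mod_cast h8
  · have h6 : Real.log ‖φ ((∏ j, α j ^ a' j) * β)‖ =
        ∑ j, (a' j : ℝ) * Real.log ‖φ (α j)‖ + Real.log ‖φ β‖ :=
      serre_lhs (L := fun x => Real.log ‖φ x‖) (hLφ φ) hα0 hβ0 a'
    have h7 : Real.log ‖φ (((p : E) ^ f) ^ c')‖ = c' * Real.log ‖φ ((p : E) ^ f)‖ :=
      serre_zpow (L := fun x => Real.log ‖φ x‖) (hLφ φ) hq0 c'
    simp only [hlα, hlβ, hlq] at h6 h7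
    rw [← Finset.sum_mul] at h6
    have h8 : ((∑ j, (a' j : ℝ)) + w) = 2 * c' := by exact_mod_cast hsum'
    have h9 : Real.log ‖φ ((∏ j, α j ^ a' j) * β)‖ = Real.log ‖φ (((p : E) ^ f) ^ c')‖ := by
      rw [h6, h7]
      linear_combination (l / 2) * h8
    refine Real.log_injOn_pos ?_ ?_ h9
    · exact norm_pos_iff.2 ((map_ne_zero φ).2 hX0)
    · exact norm_pos_iff.2 ((map_ne_zero φ).2 hY0)

end Pool.Agent.N197.AP
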