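import Pool.Agent.N197.AP.Stm

/-!
# Project AP (helper197), part SMALL: eigenvalues of a matrix near `1` (helper507)
-/

set_option autoImplicit false

open Polynomial Matrix

namespace Pool.Agent.N197.AP

theorem t_SMALL : S_SMALL := by
  intro d k M δ hM β hβ
  obtain ⟨ι, hι⟩ : ∃ ι : ℚ_[2] →+* AlgebraicClosure ℚ_[2],
      ι = algebraMap ℚ_[2] (AlgebraicClosure ℚ_[2]) := ⟨_, rfl⟩
  have hnorm : ∀ x : ℚ_[2], ‖ι x‖ = ‖x‖ := by
    intro x
    rw [hι]
    exact PadicAlgCl.norm_extends 2 x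
  have hι2 : ι (((2 : ℕ) : ℚ_[2]) ^ k) ≠ 0 := by
    rw [_root_.map_ne_zero]
    exact pow_ne_zero _ (by norm_num)
  -- an eigenvector
  have hdet : (Matrix.scalar (Fin d) β - M.map ι).det = 0 := by
    rw [← Matrix.eval_charpoly, Matrix.charpoly_map, hι, Polynomial.eval_map_algebraMap]
    exact hβ
  obtain ⟨v, hv0, hv⟩ := Matrix.exists_mulVec_eq_zero_iff.2 hdet
  have hMv : ∀ i, ∑ j, ι (M i j) * v j = β * v i := by
    intro i
    have h1 := congrFun hv i
    rw [Matrix.sub_mulVec, Pi.sub_apply, Pi.zero_apply, sub_eq_zero] at h1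
    have h2 : (Matrix.scalar (Fin d) β *ᵥ v) i = β * v i := by
      rw [Matrix.scalar_apply, Matrix.mulVec_diagonal]
    rw [h2] at h1
    rw [h1]
    rfl
  obtain ⟨ν, hν⟩ : ∃ ν, ν = (β - 1) / ι (((2 : ℕ) : ℚ_[2]) ^ k) := ⟨_, rfl⟩
  have hgoal : ‖ν‖ ≤ δ := by
    have hEv : ∀ i, ∑ j, ι (((((2 : ℕ) : ℚ_[2]) ^ k)⁻¹ • (M - 1)) i j) * v j = ν * v i := by
      intro i
      have h1 : ∀ j, ι (((((2 : ℕ) : ℚ_[2]) ^ k)⁻¹ • (M - 1)) i j) * v j =
          (ι (((2 : ℕ) : ℚ_[2]) ^ k))⁻¹ * (ι (M i j) * v j - (if i = j then v j else 0)) := by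
        intro j
        rw [Matrix.smul_apply, Matrix.sub_apply, smul_eq_mul, map_mul, map_inv₀, map_sub,
          Matrix.one_apply]
        by_cases hij : i = j
        · rw [if_pos hij, if_pos hij, map_one]
          ring
        · rw [if_neg hij, if_neg hij, map_zero]
          ring
      rw [Finset.sum_congr rfl fun j _ => h1 j, ← Finset.mul_sum, Finset.sum_sub_distrib, hMv,
        Finset.sum_ite_eq, if_pos (Finset.mem_univ i), hν]
      field_simp
    obtain ⟨i₀, hi₀⟩ : ∃ i, v i ≠ 0 := by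
      by_contra hcon
      push Not at hcon
      exact hv0 (funext hcon)
    haveI : Nonempty (Fin d) := ⟨i₀⟩
    obtain ⟨i, hi⟩ := Finite.exists_max fun i => ‖v i‖
    have hvi : 0 < ‖v i‖ := lt_of_lt_of_le (norm_pos_iff.2 hi₀) (hi i₀)
    have hδ : 0 ≤ δ := (norm_nonneg _).trans (hM i i)
    have h2 : ‖∑ j, ι (((((2 : ℕ) : ℚ_[2]) ^ k)⁻¹ • (M - 1)) i j) * v j‖ ≤ δ * ‖v i‖ := by
      refine IsUltrametricDist.norm_sum_le_of_forall_le_of_nonneg (mul_nonneg hδ hvi.le)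
        fun j _ => ?_
      rw [norm_mul, hnorm]
      exact mul_le_mul (hM i j) (hi j) (norm_nonneg _) hδ
    rw [hEv, norm_mul] at h2
    exact le_of_mul_le_mul_right h2 hvi
  rw [hν, hι] at hgoal
  exact hgoal

end Pool.Agent.N197.AP
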