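import Pool.Agent.N197.AP.StmT
import Pool.Agent.N166.CZ.Main

/-!
# Project AP: task TATE (after `Pool.Agent.N166.CZ.tateProducts_of_good`)
-/

set_option autoImplicit false

namespace Pool.Agent.N197.AP

open Module Polynomial Pool.Agent.H204R3.GP Pool.Agent.H204R3.SP Pool.Agent.W484.TB
  Pool.Agent.W484.HS Pool.Agent.N166.CZ

theorem t_TATE : S_TATE := by
  classical
  intro k _ _ V _ _ _ Γ _ ρ χ hV γ P Q q hχ hγ hQ0 hex M _ _ _ σ hσ
  obtain ⟨⟨ω, halt, hnd, hω⟩, hss⟩ := hV
  have hss' : ∀ Δ : Subgroup Γ, Δ.FiniteIndex → SemiUnder (ρ '' (Δ : Set Γ)) := by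
    intro Δ hΔ U hU
    obtain ⟨U', h1, h2⟩ := hss Δ hΔ U (fun s hs u hu => hU _ ⟨s, hs, rfl⟩ u hu)
    refine ⟨U', ?_, h2⟩
    rintro _ ⟨s, hs, rfl⟩ u hu
    exact h1 s hs u hu
  -- the polynomial over the rational numbers
  let R : ℚ[X] := Q.map (Int.castRingHom ℚ)
  have hR0 : R ≠ 0 := by
    intro h
    apply hQ0
    have h1 : Function.Injective (Int.castRingHom ℚ) := Int.cast_injective
    exact (Polynomial.map_eq_zero_iff h1).1 h
  have hRk : R.map (algebraMap ℚ k) = Q.map (Int.castRingHom k) := by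
    change (Q.map (Int.castRingHom ℚ)).map (algebraMap ℚ k) = _
    rw [Polynomial.map_map]
    congr 1
    exact RingHom.ext_int _ _
  have hP : aeval (σ γ⁻¹) (R.map (algebraMap ℚ k)) = 0 := by
    rw [hRk]
    exact hσ
  -- the field
  let F : k[X] := (ρ γ).charpoly * R.map (algebraMap ℚ k)
  let K := SplittingField F
  have hinj : Function.Injective (algebraMap k K) := (algebraMap k K).injective
  have : CharZero K := charZero_of_injective_algebraMap hinj
  have hPk0 : R.map (algebraMap ℚ k) ≠ 0 := by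
    rw [Ne, Polynomial.map_eq_zero]
    exact hR0
  have hC0 : (ρ γ).charpoly ≠ 0 := (ρ γ).charpoly_monic.ne_zero
  have hFs : (F.map (algebraMap k K)).Splits := SplittingField.splits F
  rw [Polynomial.map_mul] at hFs
  have hCK0 : (ρ γ).charpoly.map (algebraMap k K) ≠ 0 := by
    rw [Ne, Polynomial.map_eq_zero]
    exact hC0
  have hPK : (R.map (algebraMap ℚ k)).map (algebraMap k K) = R.map (algebraMap ℚ K) := by
    rw [Polynomial.map_map]
    congr 1
  have hPK0 : R.map (algebraMap ℚ K) ≠ 0 := by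
    rw [Ne, Polynomial.map_eq_zero]
    exact hR0
  rw [hPK] at hFs
  have hsp1 : ((ρ γ).charpoly.map (algebraMap k K)).Splits :=
    hFs.of_dvd (mul_ne_zero hCK0 hPK0) (dvd_mul_right _ _)
  have hsp2 : (R.map (algebraMap ℚ K)).Splits :=
    hFs.of_dvd (mul_ne_zero hCK0 hPK0) (dvd_mul_left _ _)
  have hsep : (ρ γ).charpoly.Separable := by
    rw [hγ]
    have h1 := hex.1.map (f := algebraMap ℚ k)
    have h2 : (P.map (Int.castRingHom ℚ)).map (algebraMap ℚ k) = P.map (Int.castRingHom k) := by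
      rw [Polynomial.map_map]
      congr 1
      exact RingHom.ext_int _ _
    rwa [h2] at h1
  -- the same polynomials over `K`
  have hPe : (ρ γ).charpoly.map (algebraMap k K) = P.map (Int.castRingHom K) := by
    rw [hγ, Polynomial.map_map]
    congr 1
  have hQe : R.map (algebraMap ℚ K) = Q.map (Int.castRingHom K) := by
    change (Q.map (Int.castRingHom ℚ)).map (algebraMap ℚ K) = _
    rw [Polynomial.map_map]
    congr 1
    exact RingHom.ext_int _ _
  have hall : ∀ β : K, (β = 1 ∨ (Q.map (Int.castRingHom K)).IsRoot β) →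
      ExactPairK (fun z : {z : K // ((ρ γ).charpoly.map (algebraMap k K)).IsRoot z} => (z : K))
        (algebraMap k K (χ γ)) β := by
    intro β hβ
    have h1 : ExactPairK (fun z : {z : K // (P.map (Int.castRingHom K)).IsRoot z} => (z : K))
        (q : K) β := hex.2 K (by rw [← hPe]; exact hsp1) (by rw [← hQe]; exact hsp2) β hβ
    refine exactPairK_transfer h1 (fun z => ⟨z, by rw [← hPe]; exact z.2⟩) (fun z => rfl) ?_
    rw [hχ, map_natCast]
  refine productsWith_of ρ χ σ fun d bM => ?_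
  refine core ρ χ ω halt hnd hω hss' γ (K := K) hsep hsp1 (matS σ bM) (R.map (algebraMap ℚ K))
    hPK0 hsp2 (aeval_bcS σ bM _ R hP) ?_ ?_
  · exact hall 1 (Or.inl rfl)
  · intro ρ' hρ'
    refine hall ρ' (Or.inr ?_)
    rw [← hQe]
    exact hρ'

end Pool.Agent.N197.AP
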