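import Pool.Agent.N197.AP.Stm

/-!
# Project AP, task VAL: the valuation of a prime number (helper134)
-/

set_option autoImplicit false

open Polynomial Filter Topology NumberField IsDedekindDomain Module Matrix

namespace Pool.Agent.N197.AP

theorem t_VAL : S_VAL := by
  intro E _ _ v p hp
  have hp0 : ((p : ℕ) : 𝓞 E) ≠ 0 := Nat.cast_ne_zero.2 hp.ne_zero
  refine ⟨multiplicity v.asIdeal (Ideal.span {((p : ℕ) : 𝓞 E)}), ?_, ?_⟩
  · set n := multiplicity v.asIdeal (Ideal.span {((p : ℕ) : 𝓞 E)}) with hn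
    have h1 : v.asIdeal ^ n ∣ Ideal.span {((p : ℕ) : 𝓞 E)} := pow_multiplicity_dvd _ _
    have h2 : Ideal.absNorm v.asIdeal ^ n ∣ p ^ finrank ℚ E := by
      have h3 := map_dvd Ideal.absNorm h1
      rw [map_pow, Ideal.absNorm_span_singleton] at h3
      have h4 : (Algebra.norm ℤ ((p : ℕ) : 𝓞 E)).natAbs = p ^ finrank ℚ E := by
        have h5 : ((p : ℕ) : 𝓞 E) = algebraMap ℤ (𝓞 E) (p : ℤ) := by simp
        rw [h5, Algebra.norm_algebraMap, RingOfIntegers.rank, Int.natAbs_pow, Int.natAbs_natCast]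
      rwa [h4] at h3
    rcases Nat.eq_zero_or_pos n with h0 | h0
    · rw [h0]; exact Nat.zero_le _
    · have h3 : Ideal.absNorm v.asIdeal ∣ p ^ finrank ℚ E := (dvd_pow_self _ h0.ne').trans h2
      obtain ⟨k, hk, hk'⟩ := (Nat.dvd_prime_pow hp).1 h3
      have hk0 : k ≠ 0 := by
        rintro rfl
        rw [pow_zero, Ideal.absNorm_eq_one_iff] at hk'
        exact v.isPrime.ne_top hk'
      rw [hk', ← pow_mul, Nat.pow_dvd_pow_iff_le_right hp.one_lt] at h2
      exact (Nat.le_mul_of_pos_left n (Nat.pos_of_ne_zero hk0)).trans h2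
  · have h1 : (p : E) = algebraMap (𝓞 E) E ((p : ℕ) : 𝓞 E) := by simp
    rw [h1, HeightOneSpectrum.valuation_of_algebraMap,
      HeightOneSpectrum.intValuation_eq_exp_neg_multiplicity v hp0]

end Pool.Agent.N197.AP
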