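import Pool.Agent.N197.AP.Main
import Pool.Agent.N171.TG.Wn2
import Pool.Agent.Y737.SS.Chara
import Pool.Agent.N197.AP.L_KRON
import Pool.Agent.N197.AP.L_VAL
import Pool.Agent.N197.AP.L_NORM
import Pool.Agent.N197.AP.L_DEG
import Pool.Agent.N197.AP.L_PAT
import Pool.Agent.N197.AP.L_SERRE
import Pool.Agent.N197.AP.L_CHOICE
import Pool.Agent.N197.AP.L_SMALL
import Pool.Agent.N197.AP.L_PROD
import Pool.Agent.N197.AP.L_LOCAL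
import Pool.Agent.N197.AP.L_NEAR
import Pool.Agent.N197.AP.L_FIELD
import Pool.Agent.N197.AP.L_TATE
import Pool.Agent.N197.AP.L_BLOCK

/-!
# Project AP: from the image modulo two to all prime numbers
-/

set_option autoImplicit false

open Polynomial Filter Topology NumberField IsDedekindDomain Module Matrix
open Pool.Agent.Y142.ZO Pool.Agent.Y142.ZI Pool.Agent.Y142.ZS
open Pool.Agent.N166.CZ (IsTateModule ProductsWith)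

namespace Pool.Agent.N197.AP

theorem t_CH2 : S_CH2 := by
  intro N hN T ε hε
  exact Pool.Agent.Y737.SS.Chara.t 2 N hN T ε hε

theorem t_PLACE : S_PLACE :=
  place t_NORM t_DEG (t_SERRE t_KRON t_VAL t_PAT) t_CHOICE t_SMALL (t_LOCAL t_PROD) t_NEAR t_FIELD
    t_CH2

theorem finite_above (ℓ : ℕ) (hℓ : ℓ.Prime) {K : Type} [Field K] [NumberField K] :
    {v : HeightOneSpectrum (𝓞 K) | (ℓ : 𝓞 K) ∈ v.asIdeal}.Finite := by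
  have h0 : Ideal.span {(ℓ : 𝓞 K)} ≠ ⊥ := by
    rw [Ne, Ideal.span_singleton_eq_bot]
    exact_mod_cast hℓ.ne_zero
  refine (Ideal.finite_factors h0).subset fun v hv => ?_
  rw [Set.mem_setOf_eq, Ideal.dvd_span_singleton]
  exact hv

theorem fin {K : Type} [Field K] [NumberField K] {ι : Type} [Fintype ι] [Nonempty ι]
    [DecidableEq ι] {N : ι → ℕ} {d w : ℕ} (J : ∀ i, Matrix (Fin (N i)) (Fin (N i)) ℚ_[2])
    (χ : GK K →* ℚ_[2]) (ρ : ∀ i, GK K →* Matrix (Fin (N i)) (Fin (N i)) ℚ_[2])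
    (halt : ∀ i, (J i)ᵀ = -J i) (hdet : ∀ i, (J i).det ≠ 0) (hρ : ∀ i, Continuous (ρ i))
    (hsim : ∀ i g, (ρ i g)ᵀ * J i * ρ i g = χ g • J i)
    (e : ∀ i, Fin (N i + 1) → Fin (N i) → ℚ_[2]) (h6 : ∀ i, 6 ≤ N i)
    (hint : ∀ i g a b, ‖ρ i g a b‖ ≤ 1) (hJint : ∀ i a b, ‖J i a b‖ ≤ 1)
    (heint : ∀ i a b, ‖e i a b‖ ≤ 1)
    (he : ∀ i a b, a ≠ b → ‖e i a ⬝ᵥ J i *ᵥ e i b‖ = 1)
    (hbig : ∀ i (π : Equiv.Perm (Fin (N i + 1))), Equiv.Perm.sign π = 1 → ∃ g,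
      (∀ a b, ‖(ρ i g *ᵥ e i a - e i (π a)) b‖ < 1) ∧
      ∀ j, j ≠ i → ∀ a b, ‖(ρ j g - 1) a b‖ < 1)
    (τ : GK K →* Matrix (Fin d) (Fin d) ℚ_[2]) (hτ : Continuous τ)
    (htint : ∀ g a b, ‖τ g a b‖ ≤ 1)
    (ht : ∀ i, 2 ^ (d ^ 2 + 1) < (N i + 1).factorial ∨
      ∃ (g : GK K) (π : ∀ j, Equiv.Perm (Fin (N j + 1))), (∀ a b, ‖(τ g - 1) a b‖ < 1) ∧ π i ≠ 1 ∧
        ∀ j a b, ‖(ρ j g *ᵥ e j a - e j (π j a)) b‖ < 1)
    (S : Set (HeightOneSpectrum (𝓞 K))) (hS : S.Finite)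
    (P : ι → HeightOneSpectrum (𝓞 K) → ℤ[X]) (Q : HeightOneSpectrum (𝓞 K) → ℤ[X])
    (hP : ∀ v ∉ S, ∀ i, ∀ z : ℂ, aeval z (P i v) = 0 → ‖z‖ ^ 2 = (Ideal.absNorm v.asIdeal : ℝ))
    (hQ : ∀ v ∉ S, ∀ z : ℂ, aeval z (Q v) = 0 → ‖z‖ ^ 2 = (Ideal.absNorm v.asIdeal : ℝ) ^ w)
    (hc : ∀ v ∉ S, (2 : 𝓞 K) ∉ v.asIdeal → ∀ σ : GK K, IsFrobenius v σ →
      χ σ = (Ideal.absNorm v.asIdeal : ℚ_[2]) ∧
      (∀ i, (ρ i σ).charpoly = (P i v).map (Int.castRingHom ℚ_[2])) ∧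
      (τ σ⁻¹).charpoly = (Q v).map (Int.castRingHom ℚ_[2]))
    (ℓ : ℕ) [hℓ : Fact ℓ.Prime] (V M : Type) [AddCommGroup V] [Module ℚ_[ℓ] V]
    [FiniteDimensional ℚ_[ℓ] V] [AddCommGroup M] [Module ℚ_[ℓ] M] [FiniteDimensional ℚ_[ℓ] M]
    (r : Representation ℚ_[ℓ] (GK K) V) (c : GK K →* ℚ_[ℓ])
    (s : Representation ℚ_[ℓ] (GK K) M) (hr : IsTateModule r c)
    (hf : ∀ v ∉ S, (ℓ : 𝓞 K) ∉ v.asIdeal → ∀ σ : GK K, IsFrobenius v σ →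
      c σ = (Ideal.absNorm v.asIdeal : ℚ_[ℓ]) ∧
      LinearMap.charpoly (r σ) = ∏ i, (P i v).map (Int.castRingHom ℚ_[ℓ]) ∧
      LinearMap.charpoly (s σ⁻¹) = (Q v).map (Int.castRingHom ℚ_[ℓ])) :
    ProductsWith r c s := by
  have hfull : ∀ X, (∀ i, SpLie (J i) (X i)) → Pool.Agent.N171.TG.WTan ρ τ X := fun X hX =>
    Pool.Agent.N171.TG.wtan_of_large ρ J (fun _ => χ)
      (fun i => Pool.Agent.R932.OP.even_of_alt (halt i) (hdet i)) h6 halt hint hJint hsim e heint he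
      hbig τ htint ht X hX
  refine main t_PLACE t_TATE t_BLOCK (w := w) (fun i => lt_of_lt_of_le (by norm_num) (h6 i)) hρ hτ
    halt hdet hsim hfull (S := S ∪ {v | ((2 : ℕ) : 𝓞 K) ∈ v.asIdeal})
    (hS.union (finite_above 2 Nat.prime_two)) (P := P) (Q := Q) (fun v hv σ hσ => ?_)
    (fun v hv => ⟨fun i z hz => hP v (fun h => hv (Or.inl h)) i z hz,
      fun z hz => hQ v (fun h => hv (Or.inl h)) z hz⟩) hr
    (T := S ∪ {v | (ℓ : 𝓞 K) ∈ v.asIdeal}) (hS.union (finite_above ℓ hℓ.out)) fun v hv σ hσ => ?_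
  · obtain ⟨h1, h2, h3⟩ := hc v (fun h => hv (Or.inl h)) (fun h => hv (Or.inr (by
      rw [Set.mem_setOf_eq, Nat.cast_ofNat]; exact h))) σ hσ
    exact ⟨h2, h3, h1⟩
  · obtain ⟨h1, h2, h3⟩ := hf v (fun h => hv (Or.inl h)) (fun h => hv (Or.inr h)) σ hσ
    refine ⟨h1, h2, ?_⟩
    rw [← h3]
    exact LinearMap.aeval_self_charpoly _

end Pool.Agent.N197.AP
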