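import Pool.Agent.N171.St
import Pool.Agent.Y142.ZO.Stm

/-!
# Project AP (helper197), part CYC (helper27): Frobenius elements and the 2-adic cyclotomic character
-/

set_option autoImplicit false

open NumberField IsDedekindDomain
open Pool.Agent.Y142.ZO (GK IsFrobenius)
open Pool.Agent.N171

namespace Pool.Agent.N197.AP.CYC

/-- a nontrivial root of unity of order a power of two has a power `-1` -/
theorem pow_neg_one {R : Type} [CommRing R] [IsDomain R] (u : R) (n : ℕ) (h : u ^ 2 ^ n = 1)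
    (hu : u ≠ 1) : ∃ j : ℕ, u ^ j = -1 := by
  induction n with
  | zero =>
    rw [pow_zero, pow_one] at h
    exact absurd h hu
  | succ n ih =>
    rw [pow_succ, pow_mul, sq] at h
    rcases mul_self_eq_one_iff.1 h with h1 | h1
    · exact ih h1
    · exact ⟨_, h1⟩

/-- a root of unity of order a power of two which is congruent to `1` modulo a prime ideal which does
not contain `2` is `1` -/
theorem eq_one_of {R : Type} [CommRing R] [IsDomain R] (Q : Ideal R) (h2 : (2 : R) ∉ Q) (u : R)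
    (n : ℕ) (h : u ^ 2 ^ n = 1) (hu : u - 1 ∈ Q) : u = 1 := by
  by_contra hne
  obtain ⟨j, hj⟩ := pow_neg_one u n h hne
  apply h2
  have h3 : u ^ j - 1 ∈ Q := by
    obtain ⟨c, hc⟩ := sub_one_dvd_pow_sub_one u j
    rw [hc]
    exact Q.mul_mem_right _ hu
  rw [hj] at h3
  have h4 : (2 : R) = -(-1 - 1) := by ring
  rw [h4]
  exact Q.neg_mem h3

theorem key {K : Type} [Field K] [NumberField K] (v : HeightOneSpectrum (𝓞 K)) (σ : GK K)
    (h2 : (2 : 𝓞 K) ∉ v.asIdeal) (h : IsFrobenius v σ) (n : ℕ) :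
    PadicInt.toZModPow n (cyc K (AlgebraicClosure K) σ : ℤ_[2]) =
      (Ideal.absNorm v.asIdeal : ZMod (2 ^ n)) := by
  obtain ⟨Q, hQ1, hQ2, hQ3⟩ := h
  obtain ⟨q, hq⟩ : ∃ q, q = Ideal.absNorm v.asIdeal := ⟨_, rfl⟩
  rw [← hq] at hQ3 ⊢
  have h2Q : (2 : 𝓞 (AlgebraicClosure K)) ∉ Q := by
    intro h3
    apply h2
    rw [← hQ2, Ideal.mem_comap, map_ofNat]
    exact h3
  have hen : ∀ i, HasEnoughRootsOfUnity (AlgebraicClosure K) (2 ^ i) := fun i => inferInstance
  obtain ⟨ζ, hζ⟩ := HasEnoughRootsOfUnity.exists_primitiveRoot (AlgebraicClosure K) (2 ^ n)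
  have hζ1 : ζ ^ 2 ^ n = 1 := hζ.pow_eq_one
  have hspec := cyclotomicCharacter.spec (L := AlgebraicClosure K) 2 (n := n)
    (σ : AlgebraicClosure K ≃+* AlgebraicClosure K) ζ hζ1
  obtain ⟨a, ha⟩ : ∃ a, a = ((cyclotomicCharacter (AlgebraicClosure K) 2
    (σ : AlgebraicClosure K ≃+* AlgebraicClosure K)).val.toZModPow n).val := ⟨_, rfl⟩
  rw [← ha] at hspec
  have hint : IsIntegral ℤ ζ := hζ.isIntegral (by positivity)
  have hinj : Function.Injective (algebraMap (𝓞 (AlgebraicClosure K)) (AlgebraicClosure K)) :=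
    RingOfIntegers.coe_injective
  obtain ⟨z, hz⟩ : ∃ z : 𝓞 (AlgebraicClosure K),
    algebraMap (𝓞 (AlgebraicClosure K)) (AlgebraicClosure K) z = ζ := ⟨⟨ζ, hint⟩, rfl⟩
  have hz1 : z ^ 2 ^ n = 1 := by
    apply hinj
    rw [map_pow, map_one, hz]
    exact hζ1
  have hsz : σ • z = z ^ a := by
    apply hinj
    rw [map_pow, hz]
    have h3 : algebraMap (𝓞 (AlgebraicClosure K)) (AlgebraicClosure K) (σ • z) =
        σ (algebraMap (𝓞 (AlgebraicClosure K)) (AlgebraicClosure K) z) := rfl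
    rw [h3, hz]
    exact hspec
  have h4 := hQ3 z
  rw [hsz] at h4
  -- the quotient
  have hu : z ^ (a + q * (2 ^ n - 1)) = 1 := by
    refine eq_one_of Q h2Q _ n ?_ ?_
    · rw [← pow_mul, mul_comm, pow_mul, hz1, one_pow]
    · have h5 : z ^ (q * (2 ^ n - 1)) * z ^ q = 1 := by
        rw [← pow_add]
        have h6 : q * (2 ^ n - 1) + q = 2 ^ n * q := by
          have h7 : 1 ≤ 2 ^ n := Nat.one_le_two_pow
          obtain ⟨m, hm⟩ := Nat.exists_eq_add_of_le h7
          rw [hm, Nat.add_sub_cancel_left]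
          ring
        rw [h6, pow_mul, hz1, one_pow]
      have h8 : z ^ (a + q * (2 ^ n - 1)) - 1 = z ^ (q * (2 ^ n - 1)) * (z ^ a - z ^ q) := by
        rw [mul_sub, h5, pow_add, mul_comm]
      rw [h8]
      exact Q.mul_mem_left _ h4
  have hu' : ζ ^ (a + q * (2 ^ n - 1)) = 1 := by
    have h12 := congrArg (algebraMap (𝓞 (AlgebraicClosure K)) (AlgebraicClosure K)) hu
    rw [map_pow, map_one, hz] at h12
    exact h12
  have hdvd : 2 ^ n ∣ a + q * (2 ^ n - 1) := (hζ.pow_eq_one_iff_dvd _).1 hu'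
  have h9 : ((a + q * (2 ^ n - 1) : ℕ) : ZMod (2 ^ n)) = 0 :=
    (ZMod.natCast_eq_zero_iff _ _).2 hdvd
  have h10 : (a : ZMod (2 ^ n)) = (q : ZMod (2 ^ n)) := by
    have h7 : 1 ≤ 2 ^ n := Nat.one_le_two_pow
    rw [Nat.cast_add, Nat.cast_mul, Nat.cast_sub h7, ZMod.natCast_self, Nat.cast_one, zero_sub,
      mul_neg, mul_one] at h9
    exact add_neg_eq_zero.1 h9
  have h11 : (cyc K (AlgebraicClosure K) σ : ℤ_[2]) = (cyclotomicCharacter (AlgebraicClosure K) 2
    (σ : AlgebraicClosure K ≃+* AlgebraicClosure K)).val := rfl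
  rw [h11, ← h10, ha, ZMod.natCast_zmod_val]

theorem main {K : Type} [Field K] [NumberField K] (v : HeightOneSpectrum (𝓞 K)) (σ : GK K)
    (h2 : (2 : 𝓞 K) ∉ v.asIdeal) (h : IsFrobenius v σ) :
    cycQ K (AlgebraicClosure K) σ = (Ideal.absNorm v.asIdeal : ℚ_[2]) := by
  have h1 : (cyc K (AlgebraicClosure K) σ : ℤ_[2]) = (Ideal.absNorm v.asIdeal : ℤ_[2]) := by
    refine PadicInt.ext_of_toZModPow.mp fun n => ?_
    rw [key v σ h2 h n, map_natCast]
  have h3 : cycQ K (AlgebraicClosure K) σ =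
      algebraMap ℤ_[2] ℚ_[2] (cyc K (AlgebraicClosure K) σ : ℤ_[2]) := rfl
  rw [h3, h1, map_natCast]

end Pool.Agent.N197.AP.CYC
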