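import Pool.Agent.N197.AP.StmH
import Pool.Agent.N197.AP.L_CYCa

/-!
# Project AP (helper197), part CYC (helper27): Frobenius elements and the 2-adic cyclotomic character
-/

set_option autoImplicit false

namespace Pool.Agent.N197.AP

theorem t_CYC : S_CYC := by
  intro K _ _ v σ h2 h
  exact CYC.main v σ h2 h

end Pool.Agent.N197.AP
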