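import Pool.Agent.N197.AP.StmG

/-!
# Project AP, part 2: isomorphic representations, tasks GLUE0 and GLUE (helper137)
-/

set_option autoImplicit false

open Polynomial Filter Topology Module Matrix

namespace Pool.Agent.N197.AP

theorem t_GLUE0 : S_GLUE0 := by
  intro G _ a b A B L hL
  have hc : ∀ g, Matrix.toLin' (A g) = L.symm.conj (Matrix.toLin' (B g)) := by
    intro g
    apply LinearMap.ext
    intro x
    rw [LinearEquiv.conj_apply_apply, LinearEquiv.symm_symm, Matrix.toLin'_apply,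
      Matrix.toLin'_apply, LinearEquiv.eq_symm_apply, hL]
  constructor
  · intro g
    rw [← Matrix.charpoly_toLin' (A g), hc g, LinearEquiv.charpoly_conj, Matrix.charpoly_toLin']
  · intro _ hB
    have h1 : ∀ g, A g = LinearMap.toMatrix' (L.symm : (Fin b → ℚ_[2]) →ₗ[ℚ_[2]] (Fin a → ℚ_[2])) *
        B g * LinearMap.toMatrix' (L : (Fin a → ℚ_[2]) →ₗ[ℚ_[2]] (Fin b → ℚ_[2])) := by
      intro g
      apply Matrix.toLin'.injective
      rw [hc g, Matrix.toLin'_mul, Matrix.toLin'_mul, Matrix.toLin'_toMatrix',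
        Matrix.toLin'_toMatrix']
      rfl
    have h2 : (A : G → Matrix (Fin a) (Fin a) ℚ_[2]) = fun g =>
        LinearMap.toMatrix' (L.symm : (Fin b → ℚ_[2]) →ₗ[ℚ_[2]] (Fin a → ℚ_[2])) *
        B g * LinearMap.toMatrix' (L : (Fin a → ℚ_[2]) →ₗ[ℚ_[2]] (Fin b → ℚ_[2])) := funext h1
    rw [h2]
    exact (continuous_const.matrix_mul hB).matrix_mul continuous_const

namespace Glue

/-- the coordinates of the sum -/
noncomputable def coord {ι : Type} [Fintype ι] [DecidableEq ι] (N : ι → ℕ) (F : Type) [Field F] :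
    (Fin (∑ i, N i) → F) ≃ₗ[F] (∀ i, Fin (N i) → F) where
  toFun x i j := x (blkE N ⟨i, j⟩)
  map_add' x y := rfl
  map_smul' c x := rfl
  invFun y k := y ((blkE N).symm k).1 ((blkE N).symm k).2
  left_inv x := by
    funext k
    change x (blkE N ((blkE N).symm k)) = x k
    rw [Equiv.apply_symm_apply]
  right_inv y := by
    funext i j
    change y ((blkE N).symm (blkE N ⟨i, j⟩)).1 ((blkE N).symm (blkE N ⟨i, j⟩)).2 = y i j
    rw [Equiv.symm_apply_apply]

theorem coord_blk {ι : Type} [Fintype ι] [DecidableEq ι] {N : ι → ℕ} {F : Type} [Field F]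
    (A : ∀ i, Matrix (Fin (N i)) (Fin (N i)) F) (x : Fin (∑ i, N i) → F) (i : ι) :
    coord N F (blk A *ᵥ x) i = A i *ᵥ (coord N F x i) := by
  funext j
  change (blk A *ᵥ x) (blkE N ⟨i, j⟩) = _
  rw [Matrix.mulVec, dotProduct, Matrix.mulVec, dotProduct]
  rw [← (blkE N).sum_comp, Fintype.sum_sigma, Finset.sum_eq_single i]
  · refine Finset.sum_congr rfl fun k _ => ?_
    change Matrix.blockDiagonal' A ((blkE N).symm (blkE N ⟨i, j⟩)) ((blkE N).symm (blkE N ⟨i, k⟩)) * _ = _
    rw [Equiv.symm_apply_apply, Equiv.symm_apply_apply, Matrix.blockDiagonal'_apply_eq]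
    rfl
  · intro i' _ hi'
    refine Finset.sum_eq_zero fun k _ => ?_
    change Matrix.blockDiagonal' A ((blkE N).symm (blkE N ⟨i, j⟩)) ((blkE N).symm (blkE N ⟨i', k⟩)) * _ = _
    rw [Equiv.symm_apply_apply, Equiv.symm_apply_apply,
      Matrix.blockDiagonal'_apply_ne A j k (Ne.symm hi'), zero_mul]
  · intro h
    exact absurd (Finset.mem_univ _) h

end Glue

open Glue

theorem t_GLUE : S_GLUE := by
  intro ι _ _ N G _ ρ V _ _ σ he n R E hE
  choose e he using he
  have key := t_GLUE0 G (∑ i, N i) n (blkHom ρ) R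
    ((coord N ℚ_[2]).trans ((LinearEquiv.piCongrRight e).trans E.symm)) (by
      intro g x
      rw [LinearEquiv.trans_apply, LinearEquiv.trans_apply, LinearEquiv.symm_apply_eq]
      funext i
      rw [hE, LinearEquiv.trans_apply, LinearEquiv.trans_apply, LinearEquiv.apply_symm_apply]
      change e i (coord N ℚ_[2] (blk (fun i => ρ i g) *ᵥ x) i) = σ i g (e i (coord N ℚ_[2] x i))
      rw [coord_blk, he])
  exact key

end Pool.Agent.N197.AP
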