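import Pool.Agent.N197.AP.StmH
import Pool.Agent.N197.Htj.Tens
import Pool.Agent.N171.TG.Tn7

/-!
# Project AP: from the Galois data to tangent vectors in matrix form (HYP)

The first part is a copy of the first part of `Pool.Agent.N171.TG.Wn1` (it needs only `Tn7`).
-/

set_option autoImplicit false
set_option linter.all false

namespace Pool.Agent.N197.AP.HYPaux

open PadicInt Module Pool.Agent.N171 Pool.Agent.N171.Al Pool.Agent.N171.Bg Pool.Agent.N171.TG Equiv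

noncomputable section

variable {ι : Type*} [Fintype ι] [DecidableEq ι] {T : ι → Type*} [∀ i, AddCommGroup (T i)]
  [∀ i, Module ℤ_[2] (T i)] {Γ : Type*} [Group Γ] [∀ i, Module.Finite ℤ_[2] (T i)]
  [∀ i, Module.Free ℤ_[2] (T i)]
  (ρ : ∀ i, Representation ℤ_[2] Γ (T i)) {A : Type*} [Ring A] [Algebra ℤ_[2] A]
  [Module.Finite ℤ_[2] A] [Module.Free ℤ_[2] A] (t : Γ →* A)
  {B : ∀ i, T i →ₗ[ℤ_[2]] T i →ₗ[ℤ_[2]] ℤ_[2]} {τ : ι → Type*} [∀ i, Fintype (τ i)]
  [∀ i, DecidableEq (τ i)] {D : ∀ i, τ i → T i} (χ : ι → Γ →* ℤ_[2]ˣ)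

/-- If the elements which act trivially modulo two fix the roots then the factorial is small. -/
theorem count_leW {τ : Type*} [Fintype τ] [DecidableEq τ] {Γ : Type*} [Group Γ]
    {P : Γ →* Equiv.Perm τ} (hP : OnAlt P ⊤) {d : ℕ}
    (t : Γ →* Matrix (Fin d) (Fin d) ℤ_[2])
    (h : ∀ s, (∃ M, t s = 1 + (2 : ℤ_[2]) • M) → P s = 1) :
    (Fintype.card τ).factorial ≤ 2 ^ (d ^ 2 + 1) := by
  classical
  choose S hS hSP using fun π : alternatingGroup τ => hP π.1 (Equiv.Perm.mem_alternatingGroup.1 π.2)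
  let red : alternatingGroup τ → Matrix (Fin d) (Fin d) (ZMod 2) := fun π =>
    (t (S π)).map (toZMod : ℤ_[2] →+* ZMod 2)
  have hinj : Function.Injective red := by
    intro π π' hππ
    have h1 : ∃ M, t (S π) - t (S π') = (2 : ℤ_[2]) • M := by
      have h2 : ∀ i j, ∃ z, t (S π) i j - t (S π') i j = 2 * z := by
        intro i j
        refine (toZMod_eq_zero _).1 ?_
        rw [map_sub, sub_eq_zero]
        exact congrFun (congrFun hππ i) j
      choose z hz using h2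
      refine ⟨Matrix.of z, ?_⟩
      ext i j
      exact hz i j
    obtain ⟨M, hM⟩ := h1
    have h3 : P ((S π')⁻¹ * S π) = 1 := by
      refine h _ ⟨t (S π')⁻¹ * M, ?_⟩
      have h4 : t (S π')⁻¹ * t (S π') = 1 := by rw [← map_mul, inv_mul_cancel, map_one]
      rw [map_mul, sub_eq_iff_eq_add.1 hM, mul_add, h4, mul_smul_comm, add_comm]
    rw [map_mul, map_inv, inv_mul_eq_one] at h3
    apply Subtype.ext
    rw [← hSP π, ← hSP π', h3]
  have h1 := Fintype.card_le_of_injective red hinj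
  rw [← Fintype.card_congr (Matrix.of (m := Fin d) (n := Fin d) (α := ZMod 2)), Fintype.card_fun,
    Fintype.card_fun, Fintype.card_fin, ZMod.card, ← pow_mul] at h1
  rcases subsingleton_or_nontrivial τ with hs | hn
  · have h2 : Fintype.card τ ≤ 1 := Fintype.card_le_one_iff_subsingleton.2 hs
    have h3 : (Fintype.card τ).factorial = 1 := by
      interval_cases (Fintype.card τ) <;> rfl
    rw [h3]
    exact Nat.one_le_two_pow
  · have h2 := two_mul_card_alternatingGroup (α := τ)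
    rw [Fintype.card_perm] at h2
    rw [← h2, pow_succ, mul_comm, pow_two]
    exact Nat.mul_le_mul_right 2 h1

/-- The joint action, with the values. -/
def jointW : Γ →* (∀ i, Module.End ℤ_[2] (T i)) × A := (joint ρ).prod t

/-- A tangent vector of a summand gives a joint tangent vector. -/
theorem tan_singleW {i : ι} {X : Module.End ℤ_[2] (T i)}
    (h : Tan (ρ i) ((others ρ i).prod t) X 0) :
    TanA (jointW ρ t) (Pi.single i X, 0) := by
  intro m
  obtain ⟨n₀, h0⟩ := h m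
  refine ⟨n₀, fun n hn => ?_⟩
  obtain ⟨σ, ⟨Z, Z', Y⟩, hσ⟩ := h0 n hn
  have h1 := congrArg Prod.fst hσ
  have h2 := congrArg Prod.fst (congrArg Prod.snd hσ)
  have h3 := congrArg Prod.snd (congrArg Prod.snd hσ)
  refine ⟨σ, (fun j => if h : j = i then h ▸ Z else Z' j, Y), ?_⟩
  refine Prod.ext ?_ ?_
  · funext j
    by_cases hj : j = i
    · subst hj
      change ρ j σ = 1 + (2 : ℤ_[2]) ^ n • ((Pi.single j X : ∀ i, Module.End ℤ_[2] (T i)) j +
        (2 : ℤ_[2]) ^ m • (if h : j = j then h ▸ Z else Z' j))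
      rw [Pi.single_eq_same, dif_pos rfl]
      exact h1
    · change ρ j σ = 1 + (2 : ℤ_[2]) ^ n • ((Pi.single i X : ∀ i, Module.End ℤ_[2] (T i)) j +
        (2 : ℤ_[2]) ^ m • (if h : j = i then h ▸ Z else Z' j))
      rw [Pi.single_eq_of_ne hj, dif_neg hj]
      have h4 := congrFun h2 j
      have h5 : others ρ i σ j = ρ j σ := others_ne ρ hj σ
      rw [← h5]
      exact h4
  · exact h3

theorem tan_sumW {S : Finset ι} {X : ∀ i, Module.End ℤ_[2] (T i)}
    (h : ∀ i ∈ S, TanA (jointW ρ t) (Pi.single i (X i), 0)) :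
    TanA (jointW ρ t) (∑ i ∈ S, Pi.single i (X i), 0) := by
  induction S using Finset.induction_on with
  | empty =>
    rw [Finset.sum_empty]
    exact TanA_zero
  | insert a S ha ih =>
    rw [Finset.sum_insert ha]
    have h1 := TanA_add (h a (Finset.mem_insert_self a S))
      (ih fun i hi => h i (Finset.mem_insert_of_mem hi))
    rwa [Prod.mk_add_mk, add_zero] at h1

/-- Some element is trivial modulo two on the summand, trivial modulo `2 ^ m` on the other ones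
and on the values, but not a scalar modulo `2 ^ m` on the summand. -/
def SepW (i : ι) : Prop := ∃ (m : ℕ) (σ : Γ), (∃ N, ρ i σ = 1 + (2 : ℤ_[2]) • N) ∧
  (∀ j, j ≠ i → ∃ N, ρ j σ = 1 + (2 : ℤ_[2]) ^ m • N) ∧
  (∃ N, t σ = 1 + (2 : ℤ_[2]) ^ m • N) ∧
  ¬ ∃ (a : ℤ_[2]) (Z : Module.End ℤ_[2] (T i)), ρ i σ = a • 1 + (2 : ℤ_[2]) ^ m • Z

variable {ρ χ} {P : ∀ i, Γ →* Perm (τ i)} (h : PermsX ρ (B := B) (D := D) χ P)

include h in
/-- **The separation.** -/
theorem sepW (hsep : ∀ i j, j ≠ i → ∃ s, P j s = 1 ∧ P i s ≠ 1)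
    (ht : ∀ i, ∃ s, (∃ M, t s = 1 + (2 : ℤ_[2]) • M) ∧ P i s ≠ 1) (i : ι) : SepW ρ t i := by
  classical
  have h5 : 5 ≤ Fintype.card (τ i) := by have := h.card i; omega
  have hon := h.onto i
  -- the elements which are trivial modulo two on the other lattices
  obtain ⟨M, hM, hMon, hMle⟩ := onAlt_iInf (P i) h5 hon (Finset.univ.erase i)
    (N := fun j => (P j).ker) (fun j => inferInstance) fun j hj => by
      obtain ⟨s, hs, hs'⟩ := hsep i j (Finset.ne_of_mem_erase hj)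
      exact onAlt_of (P i) h5 hon inferInstance ⟨s, hs, hs'⟩
  have ht1 : OnAlt (P i) (lev t 1) := by
    obtain ⟨s, ⟨M, hs⟩, hs'⟩ := ht i
    exact onAlt_of (P i) h5 hon inferInstance ⟨s, ⟨M, by rw [pow_one]; exact hs⟩, hs'⟩
  have hinf := onAlt_inf (P i) h5 hon hM (lev_normal t 1) hMon ht1
  let χ' : Γ →* ℤ_[2] := (Units.coeHom ℤ_[2]).comp (χ i)
  have hn : (⨅ j, ⨅ _ : j ≠ i, lev (ρ j) 2).Normal :=
    Subgroup.normal_iInf_normal fun j => Subgroup.normal_iInf_normal fun _ => lev_normal _ _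
  have hn2 : ((⨅ j, ⨅ _ : j ≠ i, lev (ρ j) 2) ⊓ lev t 2 ⊓ lev χ' 2).Normal := inferInstance
  have h2 := onAlt_sq (P i) h5 hon hn2 hinf fun s hs => by
    refine Subgroup.mem_inf.2 ⟨Subgroup.mem_inf.2 ⟨?_, lev_sq t (Subgroup.mem_inf.1 hs).2⟩, ?_⟩
    · rw [Subgroup.mem_iInf]
      intro j
      rw [Subgroup.mem_iInf]
      intro hj
      refine lev_sq (ρ j) (h.ker_le j ?_)
      exact hMle j (Finset.mem_erase.2 ⟨hj, Finset.mem_univ j⟩) (Subgroup.mem_inf.1 hs).1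
    · refine lev_sq χ' ?_
      have h3 : (toZMod ((χ i s : ℤ_[2]) - 1) : ZMod 2) = 0 := by
        rw [map_sub, (isUnit_iff_toZMod _).1 (χ i s).isUnit, map_one, sub_self]
      obtain ⟨z, hz⟩ := (toZMod_eq_zero _).1 h3
      refine ⟨z, ?_⟩
      change (χ i s : ℤ_[2]) = _
      rw [pow_one, smul_eq_mul, ← hz]
      ring
  obtain ⟨π, i₀, p, r, hπ, hππ, hi₀, hp, hr, hpr⟩ := exists_dt (h.card i)
  obtain ⟨g, hg0, hg⟩ := h2 π hπ
  obtain ⟨hg12, hg3⟩ := Subgroup.mem_inf.1 hg0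
  obtain ⟨hg1, hg2⟩ := Subgroup.mem_inf.1 hg12
  rw [Subgroup.mem_iInf] at hg1
  have hact : ∀ k, rr (B i) (D i) (ρ i g (D i k)) = rr (B i) (D i) (D i (π k)) := fun k => by
    rw [h.act, hg]
  refine ⟨2, g * g, ?_, fun j hj => ?_, ?_, ?_⟩
  · rw [map_mul]
    exact sq_trivial (h.frame i) hact hππ
  · have h3 := hg1 j
    rw [Subgroup.mem_iInf] at h3
    exact (lev (ρ j) 2).mul_mem (h3 hj) (h3 hj)
  · exact (lev t 2).mul_mem hg2 hg2
  · rw [map_mul]
    obtain ⟨z, hz⟩ := hg3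
    refine sq_not_scalar (h.frame i) (χ := χ i g) ⟨z, ?_⟩ (h.inv i g) hact hi₀ hp hr hpr
    have h3 : (χ i g : ℤ_[2]) = 1 + (2 : ℤ_[2]) ^ 2 • z := hz
    rw [h3, smul_eq_mul]
    norm_num

include h in
/-- **All vectors of the symplectic Lie algebras are joint tangent vectors, with zero on the
values.** -/
theorem tanW (hsep : ∀ i j, j ≠ i → ∃ s, P j s = 1 ∧ P i s ≠ 1)
    (ht : ∀ i, ∃ s, (∃ M, t s = 1 + (2 : ℤ_[2]) • M) ∧ P i s ≠ 1)
    {X : ∀ i, Module.End ℤ_[2] (T i)} (hX : ∀ i, X i ∈ spQ (B i) (p1 (T i))) :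
    TanA (jointW ρ t) (X, 0) := by
  have h1 : X = ∑ i, Pi.single i (X i) := (Finset.univ_sum_single X).symm
  rw [h1]
  refine tan_sumW ρ t fun i _ => tan_singleW ρ t ?_
  obtain ⟨m, σ, h2, h3, ⟨M, hM⟩, h4⟩ := sepW t h hsep ht i
  refine Tan_all ((others ρ i).prod t) (h.big i) h2 ?_ h4 (hX i)
  choose N hN using h3
  refine ⟨(fun j => if hj : j = i then 0 else N j hj, M), ?_⟩
  refine Prod.ext ?_ hM
  funext j
  by_cases hj : j = i
  · subst hj
    change others ρ j σ j = 1 + (2 : ℤ_[2]) ^ m • (if hj : j = j then 0 else N j hj)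
    rw [others_self, dif_pos rfl, smul_zero, add_zero]
  · change others ρ i σ j = 1 + (2 : ℤ_[2]) ^ m • (if hj : j = i then 0 else N j hj)
    rw [others_ne ρ hj, dif_neg hj, hN j hj]


end

end Pool.Agent.N197.AP.HYPaux

open TensorProduct Polynomial Matrix Filter Topology Module
open Pool.Agent.Y142.ZS (SpLie)
open Pool.Agent.N171 Pool.Agent.N171.Al Pool.Agent.N171.Pm Pool.Agent.N171.Bg Pool.Agent.N171.TG
open Pool.Agent.H204R3.GP

namespace Pool.Agent.N197.AP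

/-- matrices of endomorphisms and the coordinates -/
theorem hyp_coord {k V : Type} [Field k] [AddCommGroup V] [Module k V] {n : ℕ}
    (b : Basis (Fin n) k V) (φ : V →ₗ[k] V) (M : Matrix (Fin n) (Fin n) k)
    (hM : LinearMap.toMatrix b b φ = M) (x : Fin n → k) :
    b.equivFun.symm (M *ᵥ x) = φ (b.equivFun.symm x) := by
  have h1 := LinearMap.toMatrix_mulVec_repr b b φ (b.equivFun.symm x)
  have h2 : (b.repr (b.equivFun.symm x) : Fin n → k) = x := by
    rw [← Basis.equivFun_apply, LinearEquiv.apply_symm_apply]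
  rw [h2, hM] at h1
  apply b.equivFun.injective
  rw [LinearEquiv.apply_symm_apply, h1]
  rfl

/-- the theorem for the groups of classes -/
theorem hyp_P (hM : S_MAT) {K F ι : Type} [Field K] [Field F] [Algebra K F] [Fintype ι]
    [DecidableEq ι] [IsAlgClosed F] (g : ι → F[X]) [∀ i, IsDomain (RG (g i))]
    (hg : ∀ i (s : F ≃ₐ[K] F), (g i).map ((s : F ≃+* F) : F →+* F) = g i)
    {τ : ι → Type} [∀ i, Fintype (τ i)] [∀ i, DecidableEq (τ i)] (α : ∀ i, τ i → F)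
    [∀ i, Hyp (α i)] (hα : ∀ i, g i = fP (α i)) (h2 : (2 : F) ≠ 0)
    (h6 : ∀ i, 6 ≤ Fintype.card (τ i))
    (hbig : ∀ i (π : Equiv.Perm (τ i)), Equiv.Perm.sign π = 1 →
      ∃ s : F ≃ₐ[K] F, ∀ k, s (α i k) = α i (π k))
    (hsep : ∀ i j, j ≠ i → ∃ s : F ≃ₐ[K] F, (∀ k, s (α j k) = α j k) ∧ ∃ k, s (α i k) ≠ α i k)
    {W : Type} [AddCommGroup W] [Module ℚ_[2] W] (τW : Representation ℚ_[2] (F ≃ₐ[K] F) W)
    (hτ : FreeG α τW) :
    ∃ (N : ι → ℕ) (d : ℕ) (ρ : ∀ i, (F ≃ₐ[K] F) →* Matrix (Fin (N i)) (Fin (N i)) ℚ_[2])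
      (J : ∀ i, Matrix (Fin (N i)) (Fin (N i)) ℚ_[2])
      (t : (F ≃ₐ[K] F) →* Matrix (Fin d) (Fin d) ℚ_[2]),
      (∀ i, 0 < N i) ∧ (∀ i, (J i)ᵀ = -J i) ∧ (∀ i, (J i).det ≠ 0) ∧
      (∀ i g, (ρ i g)ᵀ * J i * ρ i g = cycQ K F g • J i) ∧
      (∀ i, ∃ e : (Fin (N i) → ℚ_[2]) ≃ₗ[ℚ_[2]] (ℚ_[2] ⊗[ℤ_[2]] TateMod 2 (ClG (RG (g i)))),
        ∀ s x, e (ρ i s *ᵥ x) = ratRep (rhoG (hg i)) s (e x)) ∧
      (∃ e : (Fin d → ℚ_[2]) ≃ₗ[ℚ_[2]] W, ∀ s x, e (t s *ᵥ x) = τW s (e x)) ∧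
      ∀ X : ∀ i, Matrix (Fin (N i)) (Fin (N i)) ℚ_[2], (∀ i, SpLie (J i) (X i)) →
        ∃ σ : ℕ → (F ≃ₐ[K] F),
        (∀ i, Tendsto (fun m : ℕ => (((2 : ℕ) : ℚ_[2]) ^ m)⁻¹ • (ρ i (σ m) - 1)) atTop
          (𝓝 (X i))) ∧
        Tendsto (fun m : ℕ => (((2 : ℕ) : ℚ_[2]) ^ m)⁻¹ • (t (σ m) - 1)) atTop (𝓝 0) := by
  obtain rfl : g = fun i => fP (α i) := funext hα
  obtain ⟨D, hD⟩ := exists_perms α hg h2 h6 hbig
  obtain ⟨d, b, hb, hfr⟩ := hτ
  obtain ⟨t, ht, -⟩ := lat_data hb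
  have hDX : PermsX (fun i => rhoG (hg i)) (B := BP α h2) (D := D) (fun _ => cyc K F)
      (fun i => prm (α i) (hg i)) :=
    ⟨hD.frame, hD.inv, hD.act, hD.onto, hD.card, hD.odd⟩
  have hs1 : ∀ i j, j ≠ i → ∃ s, prm (α j) (hg j) s = 1 ∧ prm (α i) (hg i) s ≠ 1 := by
    intro i j hij
    obtain ⟨s, hs, k, hk⟩ := hsep i j hij
    exact ⟨s, (prm_one (α j) (hg j)).2 hs, fun h => hk ((prm_one (α i) (hg i)).1 h k)⟩
  have ht' : ∀ i, ∃ s, (∃ M, t s = 1 + (2 : ℤ_[2]) • M) ∧ prm (α i) (hg i) s ≠ 1 := by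
    intro i
    rcases hfr i with h1 | ⟨s, hs, k, hk⟩
    · by_contra h3
      push Not at h3
      exact absurd (HYPaux.count_leW (hD.onto i) t h3) (not_le.2 h1)
    · obtain ⟨Z, hZ⟩ := lat_pow ht hs
      exact ⟨s, ⟨Z, by rw [hZ, pow_one]⟩, fun h => hk ((prm_one (α i) (hg i)).1 h k)⟩
  let bT : ∀ i, Basis (Fin (finrank ℤ_[2] (TateMod 2 (ClG (RG (fP (α i))))))) ℤ_[2]
      (TateMod 2 (ClG (RG (fP (α i))))) := fun i => Module.finBasis ℤ_[2] _
  obtain ⟨ρ', J, t', k1, k2, k3, k4, k5, k6⟩ := hM ι (fun i => TateMod 2 (ClG (RG (fP (α i)))))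
    (F ≃ₐ[K] F) (fun i => rhoG (hg i)) (BP α h2) (cyc K F)
    (fun i => finrank ℤ_[2] (TateMod 2 (ClG (RG (fP (α i)))))) bT d t
    (fun i => (hD.frame i).alt) (fun i => (hD.frame i).nd) hD.inv
    (fun X hX => HYPaux.tanW t hDX hs1 ht' hX)
  refine ⟨_, d, ρ', J, t', fun i => ?_, k3, k4, k5, fun i => ?_, ?_, k6⟩
  · have hc : 1 < Fintype.card (τ i) := lt_of_lt_of_le (by norm_num) (h6 i)
    obtain ⟨x, y, hxy⟩ := Fintype.exists_pair_of_one_lt_card hc
    have hn : Nontrivial (TateMod 2 (ClG (RG (fP (α i))))) := by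
      refine ⟨⟨D i x, D i y, fun h => hxy (rr_D_inj (hD.frame i) ?_)⟩⟩
      rw [h]
    exact Module.finrank_pos
  · refine ⟨(Algebra.TensorProduct.basis ℚ_[2] (bT i)).equivFun.symm, fun s x => ?_⟩
    refine hyp_coord _ (ratRep (rhoG (hg i)) s) (ρ' i s) ?_ x
    rw [k1]
    exact LinearMap.toMatrix_baseChange ℚ_[2] (rhoG (hg i) s) (bT i) (bT i)
  · refine ⟨b.equivFun.symm, fun s x => ?_⟩
    refine hyp_coord _ (τW s) (t' s) ?_ x
    rw [k2]
    ext i j
    rw [LinearMap.toMatrix_apply, ht, Matrix.map_apply, map_sum, Finsupp.finsetSum_apply,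
      Finset.sum_eq_single i]
    · rw [map_smul, Finsupp.smul_apply, Module.Basis.repr_self, Finsupp.single_eq_same,
        smul_eq_mul, mul_one]
    · intro k _ hk
      rw [map_smul, Finsupp.smul_apply, Module.Basis.repr_self, Finsupp.single_eq_of_ne hk.symm,
        smul_zero]
    · intro h
      exact absurd (Finset.mem_univ _) h

theorem t_HYP (h : S_MAT) : S_HYP := by
  classical
  intro K F _ _ _ _ ι _ _ f _ W _ _ τ hGD
  obtain ⟨h7, hG, hd, hτ⟩ := hGD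
  have hF : IsAlgClosed F := IsAlgClosure.isAlgClosed K
  have hsp : ∀ i, ((f i).map (algebraMap K F)).Splits := fun i => IsAlgClosed.splits _
  have hm : ∀ i, ((f i).map (algebraMap K F)).Monic := fun i => (HypP.monic (f := f i)).map _
  have hnd : ∀ i, ((f i).aroots F).Nodup := fun i => nodup_roots (HypP.sep (f := f i)).map
  have hcard : ∀ i, Fintype.card ((f i).rootSet F) = (f i).natDegree := fun i =>
    card_rootSet_eq_natDegree (HypP.sep (f := f i)) (hsp i)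
  obtain ⟨i₀⟩ := ‹Nonempty ι›
  have h2 : (2 : F) ≠ 0 := by
    have h1 : (2 : F) = algebraMap K F 2 := by rw [map_ofNat]
    rw [h1, Ne, map_eq_zero]
    exact HypP.two (f := f i₀)
  have hyp : ∀ i, Hyp (fun x : (f i).rootSet F => (x : F)) := fun i =>
    { inj := Subtype.val_injective
      odd := by
        rw [hcard]
        exact HypP.odd (f := f i)
      two := h2 }
  have hα : ∀ i, (f i).map (algebraMap K F) = fP (fun x : (f i).rootSet F => (x : F)) := by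
    intro i
    rw [(hsp i).eq_prod_roots_of_monic (hm i), fP]
    have h1 : ∏ x ∈ ((f i).aroots F).toFinset, (X - C x) = ∏ x : (f i).rootSet F, (X - C (x : F)) :=
      Finset.prod_subtype _ (fun x => Iff.rfl) _
    rw [← h1, Finset.prod, Multiset.toFinset_val, Multiset.Nodup.dedup (hnd i)]
  have hfr : FreeG (fun i (x : (f i).rootSet F) => (x : F)) τ := by
    obtain ⟨d, b, hb, h1⟩ := hτ
    refine ⟨d, b, hb, fun i => ?_⟩
    rcases h1 i with h1 | ⟨s, hs, x, hx, hsx⟩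
    · exact Or.inl (by rw [hcard]; exact h1)
    · exact Or.inr ⟨s, hs, ⟨x, hx⟩, hsx⟩
  exact hyp_P h (K := K) (F := F) (fun i => (f i).map (algebraMap K F))
    (fun i => rf_fix (f i)) (fun i (x : (f i).rootSet F) => (x : F)) hα h2
    (fun i => by rw [hcard]; exact (by norm_num : 6 ≤ 7).trans (h7 i)) (fun i π hπ => by
      obtain ⟨s, hs⟩ := hG i π (by convert! hπ)
      exact ⟨s, hs⟩) (fun i j hij => by
      obtain ⟨s, hs, x, hx, hsx⟩ := hd i j hij
      exact ⟨s, fun k => hs k k.2, ⟨x, hx⟩, hsx⟩) τ hfr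

end Pool.Agent.N197.AP
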