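import Pool.Agent.N197.AP.StmH

/-!
# Project AP, task LIM: the Galois data hold for 100 percent of the tuples
-/

set_option autoImplicit false
set_option linter.all false

namespace Pool.Agent.N197.AP

open Polynomial Filter Topology Pool.Agent.N171 Pool.Agent.N197.Htj
open Pool.Agent.H204R3.GP
open Pool.Agent.X243.Gen (FF FullG solvM solvM_normal mem_solvM solvM_not_splits tendsto_of_dens)
open scoped Classical

namespace LIM

/-- The good tuples of polynomials. -/
def Gd {k ι : Type} [Field k] (n : ι → ℕ) (U : Finset kˣ) (f : ι → k[X]) : Prop :=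
  ∀ (L F : Type) [Field L] [Field F] [Algebra k L] [Algebra L F] [Algebra k F]
    [IsScalarTower k L F] [IsAlgClosure L F], Allowed L F U f →
    ∀ (W : Type) [AddCommGroup W] [Module ℚ_[2] W] (τ : Representation ℚ_[2] (F ≃ₐ[L] F) W),
      Tame n U τ → (∀ i, HypP ((f i).map (algebraMap k L))) ∧
        GD (fun i => (f i).map (algebraMap k L)) τ

section main

variable {R k : Type} [CommRing R] [IsDomain R] [IsIntegrallyClosed R] [IsNoetherianRing R]
  [Field k] [Algebra R k] [IsFractionRing R k] {ι : Type} [Fintype ι] {n : ι → ℕ}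
  {UR : Finset R} {y : (Σ i, Fin (n i)) → R}

theorem gd_of_dat [Nonempty ι] (h2 : (2 : R) ≠ 0) (h7 : ∀ i, 7 ≤ n i) (ho : ∀ i, Odd (n i))
    {U : Finset kˣ} (hU : ∀ u ∈ U, ∃ v ∈ UR, ∃ b : k, (u : k) * algebraMap R k v = b ^ 2)
    (hy : Dat n UR y) :
    Gd n U (fun i => (fR y i).map (algebraMap R k)) := by
  intro L F _ _ _ _ _ _ _ hA W _ _ τ hτ
  have h3 : ∀ i, 3 ≤ n i := fun i => (by norm_num : 3 ≤ 7).trans (h7 i)
  have hinj : Function.Injective (algebraMap R k) := IsFractionRing.injective R k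
  have h2k : (2 : k) ≠ 0 := by
    rw [← map_ofNat (algebraMap R k) 2]
    exact (map_ne_zero_iff _ hinj).2 h2
  have h2L : (2 : L) ≠ 0 := by
    rw [← map_ofNat (algebraMap k L) 2]
    exact (map_ne_zero_iff _ (algebraMap k L).injective).2 h2k
  obtain ⟨f, hf⟩ : ∃ f : ι → k[X], f = fun i => (fR y i).map (algebraMap R k) := ⟨_, rfl⟩
  have hFF : ∀ i, FF (n i) (f i) := fun i => by rw [hf]; exact FF_of h3 hy i
  have hpair : ∀ i j, j ≠ i → ∀ (E : Type) [Field E] [Algebra k E] [FiniteDimensional k E]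
      [IsGalois k E], ((f i).map (algebraMap k E)).Splits → ((f j).map (algebraMap k E)).Splits →
      ∃ σ : E ≃ₐ[k] E, (∀ θ ∈ (f j).rootSet E, σ θ = θ) ∧ ∀ θ ∈ (f i).rootSet E, σ θ ≠ θ := by
    intro i j hij E _ _ _ _ hi hj
    rw [hf] at hi hj ⊢
    exact pair_frob h3 hy hij E hi hj
  have hmon : ∀ i, (f i).Monic := fun i => by rw [hf]; exact (mP_monic _).map _
  have hquad : ∀ i, ∀ (S : Set (F →+* F)), (∀ s ∈ S, ∀ x, aeval x (f i) = 0 → s x = x) →
      (∀ (c : k), c ≠ 0 → (∀ δ : F, δ ^ 2 = algebraMap k F c → ∀ s ∈ S, s δ = δ) →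
      ∃ u ∈ UR, ∃ b : k, c * algebraMap R k u = b ^ 2) → False := by
    intro i S hS hc
    haveI : IsAlgClosed F := IsAlgClosure.isAlgClosed L
    rw [hf] at hS
    exact quad_F h2 h3 ho hy i S hS hc
  have hdisc : ∀ i (M : IntermediateField k F), ((f i).map (algebraMap k M)).Splits →
      (∀ c : kˣ, (∃ δ ∈ M, δ ^ 2 = algebraMap k F c) → ∃ u ∈ U, IsSquare (c * u)) → False := by
    intro i M hi hM
    haveI : IsAlgClosed F := IsAlgClosure.isAlgClosed L
    have hne : f i ≠ 0 := (hmon i).ne_zero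
    rw [hf] at hi hne
    obtain ⟨c, hc, -, ⟨δ, hδ, hδM⟩, h5⟩ := quad_T (k := k) h2 h3 ho hy i (F := F)
      M.toSubfield.toSubring (fun x hx => by
        obtain ⟨θ, -, hθ⟩ := root_mem (E := M) hne hi hx
        rw [← hθ]
        exact θ.2)
    obtain ⟨u, hu, hsq⟩ := hM (Units.mk0 c hc) ⟨δ, hδM, hδ⟩
    obtain ⟨v, hv, e, he⟩ := hU u hu
    obtain ⟨r, hr⟩ := hsq
    refine h5 v hv ((r : k) * e * (u : k)⁻¹) ?_
    have hu0 : (u : k) ≠ 0 := u.ne_zero
    have h8 : c * (u : k) = (r : k) * r := by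
      have := congrArg (fun t : kˣ => (t : k)) hr
      simpa using this
    calc c * algebraMap R k v = (c * u) * (u * algebraMap R k v) * ((u : k)⁻¹ * (u : k)⁻¹) := by
          field_simp
      _ = ((r : k) * e * (u : k)⁻¹) ^ 2 := by
          rw [h8, he]
          ring
  rw [← hf] at hA ⊢
  clear hf
  have hdeg : ∀ i, (f i).natDegree = n i := fun i => (hFF i).1.2
  have hdegL : ∀ i, ((f i).map (algebraMap k L)).natDegree = n i := fun i => by
    rw [natDegree_map, hdeg]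
  haveI : IsAlgClosed F := IsAlgClosure.isAlgClosed L
  have hyp : ∀ i, HypP ((f i).map (algebraMap k L)) := fun i =>
    { monic := (hmon i).map _
      sep := (hFF i).2.1.map
      odd := by rw [hdegL]; exact ho i
      two := h2L }
  obtain ⟨M, hMn, hM, hns⟩ : ∃ M : IntermediateField k F, Normal k M ∧
      (∀ x : L, IsSeparable k x → algebraMap L F x ∈ M) ∧
      ∀ i, ¬ ((f i).map (algebraMap k M)).Splits := by
    rcases hA with hA | hA
    · exact ⟨solvM k F, solvM_normal F, fun x hx => mem_solvM hx (hA x hx), fun i =>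
        solvM_not_splits F (hFF i).2.1 (by rw [hdeg]; exact (by norm_num : 5 ≤ 7).trans (h7 i))
          (hFF i).2.2⟩
    · obtain ⟨M, hM1, hM2, hM3⟩ := hA
      refine ⟨M, hM1, hM2, fun i hi => ?_⟩
      rcases hM3 with hM3 | hM3
      · exact hM3 i hi
      · exact hdisc i M hi hM3
  haveI := hMn
  have h5 : ∀ i, 5 ≤ (f i).natDegree := fun i => by
    rw [hdeg]; exact (by norm_num : 5 ≤ 7).trans (h7 i)
  have hbig : ∀ i, ∀ π : Equiv.Perm (((f i).map (algebraMap k L)).rootSet F),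
      Equiv.Perm.sign π = 1 →
      ∃ s : F ≃ₐ[L] F, ∀ x : ((f i).map (algebraMap k L)).rootSet F, s (x : F) = (π x : F) :=
    fun i π hπ => big_L (hFF i).2.1 (h5 i) (hFF i).2.2 M hM (hns i) π hπ
  have hnot : ∀ i j, j ≠ i → ∃ s : F ≃ₐ[L] F,
      (∀ x ∈ ((f j).map (algebraMap k L)).rootSet F, s x = x) ∧
      ∃ x ∈ ((f i).map (algebraMap k L)).rootSet F, s x ≠ x :=
    fun i j hij => notIn_L (hFF i).2.1 (hFF j).2.1 (h5 i) (hFF i).2.2 M hM (hns i) (hpair i j hij)
  have h7L : ∀ i, 7 ≤ ((f i).map (algebraMap k L)).natDegree := fun i => by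
    rw [hdegL]; exact h7 i
  refine ⟨hyp, h7L, hbig, hnot, ?_⟩
  have hcard : ∀ i, Nat.card (((f i).map (algebraMap k L)).rootSet F) = n i := fun i => by
    rw [Nat.card_eq_fintype_card, card_rootSet_eq_natDegree (hFF i).2.1.map
      (IsAlgClosed.splits _), hdegL]
  obtain ⟨d, b, hb, h1 | ⟨m, h1⟩ | h1⟩ := hτ
  · exact ⟨d, b, hb, fun i => Or.inl (by rw [hdegL]; exact h1 i)⟩
  · refine ⟨d, b, hb, fun i => Or.inr ?_⟩
    obtain ⟨φ, hφ⟩ : ∃ φ, φ = MulAction.toPermHom (F ≃ₐ[L] F)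
      (((f i).map (algebraMap k L)).rootSet F) := ⟨_, rfl⟩
    have h4 : alternatingGroup (((f i).map (algebraMap k L)).rootSet F) ≤ φ.range := by
      intro π hπ
      rw [Equiv.Perm.mem_alternatingGroup] at hπ
      obtain ⟨s, hs⟩ := hbig i π hπ
      refine ⟨s, ?_⟩
      ext x
      rw [hφ]
      exact hs x
    have h6 := derived_big φ (by rw [hcard]; exact (by norm_num : 5 ≤ 7).trans (h7 i)) h4 m
    obtain ⟨e⟩ : Nonempty (Fin (n i) ≃ ((f i).map (algebraMap k L)).rootSet F) :=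
      ⟨(Fintype.equivFinOfCardEq (by rw [← Nat.card_eq_fintype_card]; exact hcard i)).symm⟩
    have h7i := h7 i
    obtain ⟨a, ha⟩ : ∃ a, a = e ⟨0, by omega⟩ := ⟨_, rfl⟩
    obtain ⟨c, hc⟩ : ∃ c, c = e ⟨1, by omega⟩ := ⟨_, rfl⟩
    obtain ⟨z, hz⟩ : ∃ z, z = e ⟨2, by omega⟩ := ⟨_, rfl⟩
    have hac : a ≠ c := by
      rw [ha, hc]
      intro h8
      have := congrArg Fin.val (e.injective h8)
      simp at this
    have hcz : c ≠ z := by
      rw [hc, hz]
      intro h8
      have := congrArg Fin.val (e.injective h8)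
      simp at this
    have haz : a ≠ z := by
      rw [ha, hz]
      intro h8
      have := congrArg Fin.val (e.injective h8)
      simp at this
    obtain ⟨s, hs, hs'⟩ := h6 (Equiv.Perm.mul_mem_alternatingGroup_of_isSwap
      ⟨a, c, hac, rfl⟩ ⟨c, z, hcz, rfl⟩)
    refine ⟨s, h1 s hs, (a : F), a.2, ?_⟩
    intro h8
    have h9 : φ s a = a := by
      apply Subtype.ext
      rw [hφ]
      exact h8
    rw [hs', Equiv.Perm.mul_apply, Equiv.swap_apply_of_ne_of_ne hac haz, Equiv.swap_apply_left] at h9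
    exact hac h9.symm
  · refine ⟨d, b, hb, fun i => Or.inr ?_⟩
    by_contra hcon
    push Not at hcon
    apply hquad i {s | ∃ t : F ≃ₐ[L] F, TrivMod b (τ t) 1 ∧ s = (t : F →+* F)}
    · rintro s ⟨t, ht, rfl⟩ x hx
      exact hcon t ht x ((mem_rs (hFF i).2.1.ne_zero x).2 hx)
    · intro c hc hfix
      obtain ⟨u, hu, hsq⟩ := h1 (Units.mk0 c hc) (fun δ hδ s hs => hfix δ hδ _ ⟨s, hs, rfl⟩)
      obtain ⟨v, hv, e, he⟩ := hU u hu
      obtain ⟨r, hr⟩ := hsq
      refine ⟨v, hv, (r : k) * e * (u : k)⁻¹, ?_⟩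
      have hu0 : (u : k) ≠ 0 := u.ne_zero
      have h8 : c * (u : k) = (r : k) * r := by
        have := congrArg (fun t : kˣ => (t : k)) hr
        simpa using this
      have h9 : (u : k)⁻¹ * u = 1 := inv_mul_cancel₀ hu0
      calc c * algebraMap R k v = (c * u) * (u * algebraMap R k v) * ((u : k)⁻¹ * (u : k)⁻¹) := by
            field_simp
        _ = ((r : k) * e * (u : k)⁻¹) ^ 2 := by
            rw [h8, he]
            ring

end main

section dens

variable (R k : Type) [CommRing R] [IsDomain R] [IsIntegrallyClosed R] [Algebra.FiniteType ℤ R]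
  [Field k] [Algebra R k] [IsFractionRing R k] {ι : Type} [Fintype ι] [Nonempty ι] (n : ι → ℕ)

/-- The congruences. -/
theorem dens_gd (hR : ¬ IsField R) (h2 : (2 : R) ≠ 0) (h7 : ∀ i, 7 ≤ n i) (ho : ∀ i, Odd (n i))
    (U : Finset kˣ) (η : ℝ) (hη : 0 < η) :
    ∃ M : Ideal R, Finite (R ⧸ M) ∧
      (1 - η) * (Nat.card (R ⧸ M) : ℝ) ^ (Fintype.card (Σ i, Fin (n i))) ≤
      (({x : (Σ i, Fin (n i)) → R ⧸ M | ∀ y : (Σ i, Fin (n i)) → R,
        (∀ j, Ideal.Quotient.mk M (y j) = x j) → Gd n U (poly k y)}).ncard : ℝ) := by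
  haveI : IsNoetherianRing R := Algebra.FiniteType.isNoetherianRing ℤ R
  obtain ⟨UR, hUR, hU⟩ := exists_UR R k U
  obtain ⟨M, hM, h⟩ := dens_tup R hR h2 n (fun i => (by norm_num : 3 ≤ 7).trans (h7 i)) UR hUR η hη
  refine ⟨M, hM, h.trans ?_⟩
  have := hM
  have hsub : {x : (Σ i, Fin (n i)) → R ⧸ M | ∀ y : (Σ i, Fin (n i)) → R,
        (∀ j, Ideal.Quotient.mk M (y j) = x j) → Dat n UR y} ⊆
      {x : (Σ i, Fin (n i)) → R ⧸ M | ∀ y : (Σ i, Fin (n i)) → R,
        (∀ j, Ideal.Quotient.mk M (y j) = x j) → Gd n U (poly k y)} := by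
    intro x hx y hy
    have h3 : poly k y = fun i => (fR y i).map (algebraMap R k) := funext fun i => poly_eq R k n y i
    rw [h3]
    exact gd_of_dat h2 h7 ho hU (hx y hy)
  exact_mod_cast Set.ncard_le_ncard hsub (Set.toFinite _)

end dens

end LIM

open LIM in
/-- LIM -/
theorem t_LIM : S_LIM := by
  intro R k _ _ _ _ _ _ _ ι _ _ n hR h2 h7 ho L F _ _ _ _ _ _ _ _ W _ _ τ hτ B hB heq
  have h2k : (2 : k) ≠ 0 := by
    rw [← map_ofNat (algebraMap R k) 2]
    exact (map_ne_zero_iff _ (IsFractionRing.injective R k)).2 h2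
  obtain ⟨U, hU1, hU2⟩ := exists_U (k := k) (L := L) (F := F) h2k n τ hτ
  have h1 := tendsto_of_dens {y | Gd n U (poly k y)} (fun η hη =>
    dens_gd R k n hR h2 h7 ho U η hη) B hB heq
  refine tendsto_of_tendsto_of_tendsto_of_le_of_le h1 tendsto_const_nhds (fun i => ?_) (fun i => ?_)
  · have h0 : (0 : ℝ) < ((B i).card : ℝ) := by exact_mod_cast (hB i).card_pos
    apply div_le_div_of_nonneg_right _ h0.le
    have h3 : (B i).filter (fun y => y ∈ {y | Gd n U (poly k y)}) ⊆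
        (B i).filter (fun y => (∀ i, HypP ((poly k y i).map (algebraMap k L))) ∧
          GD (fun i => (poly k y i).map (algebraMap k L)) τ) := by
      intro y hy
      rw [Finset.mem_filter] at hy ⊢
      exact ⟨hy.1, hy.2 L F (hU1 _) W τ hU2⟩
    exact_mod_cast Finset.card_le_card h3
  · have h0 : (0 : ℝ) < ((B i).card : ℝ) := by exact_mod_cast (hB i).card_pos
    show _ / _ ≤ (1 : ℝ)
    rw [div_le_one h0]
    exact_mod_cast Finset.card_filter_le _ _

end Pool.Agent.N197.AP
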