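import Pool.Agent.N197.AP.StmM

/-!
# Project AP, task MAT: tangent vectors of lattices in matrix form (helper195)

The limit argument follows `Pool.Agent.N171.TG.Tn9` and `Pool.Agent.N171.TG.Wn2`.
-/

set_option autoImplicit false

open Matrix Filter Topology Module
open Pool.Agent.Y142.ZS (SpLie)
open Pool.Agent.N171 Pool.Agent.N171.Al Pool.Agent.N171.Bg Pool.Agent.N171.TG

namespace Pool.Agent.N197.AP

namespace MAT

/-- the inclusion -/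
noncomputable abbrev cZ : ℤ_[2] →+* ℚ_[2] := algebraMap ℤ_[2] ℚ_[2]

theorem cZ_inj : Function.Injective cZ := fun _ _ h => Subtype.ext h

theorem map_cZ_inj {m n : Type} {A B : Matrix m n ℤ_[2]} (h : A.map cZ = B.map cZ) : A = B := by
  ext a b
  have h1 : cZ (A a b) = cZ (B a b) := congrFun (congrFun h a) b
  exact Subtype.ext h1

/-- The matrix of 2-adic integers. -/
def matZ {N : ℕ} (A : Matrix (Fin N) (Fin N) ℚ_[2]) (h : ∀ a b, ‖A a b‖ ≤ 1) :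
    Matrix (Fin N) (Fin N) ℤ_[2] := Matrix.of fun a b => ⟨A a b, h a b⟩

/-- some power of two times a matrix is integral -/
theorem exists_scale {ι : Type} [Fintype ι] {N : ι → ℕ}
    (X : ∀ i, Matrix (Fin (N i)) (Fin (N i)) ℚ_[2]) :
    ∃ k : ℕ, ∀ i a b, ‖((2 : ℚ_[2]) ^ k • X i) a b‖ ≤ 1 := by
  have h0 : ∀ z : ℚ_[2], ∃ k : ℕ, ∀ l, k ≤ l → ‖(2 : ℚ_[2]) ^ l * z‖ ≤ 1 := by
    intro z
    obtain ⟨k, hk⟩ := exists_pow_lt_of_lt_one (show (0 : ℝ) < (‖z‖ + 1)⁻¹ by positivity)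
      (by norm_num : (2 : ℝ)⁻¹ < 1)
    refine ⟨k, fun l hl => ?_⟩
    have h4 : ‖(2 : ℚ_[2])‖ = (2 : ℝ)⁻¹ := by
      have := @Padic.norm_p 2 _
      exact_mod_cast this
    rw [norm_mul, norm_pow, h4]
    have h5 : (2 : ℝ)⁻¹ ^ l ≤ (‖z‖ + 1)⁻¹ :=
      (pow_le_pow_of_le_one (by norm_num) (by norm_num) hl).trans hk.le
    calc (2 : ℝ)⁻¹ ^ l * ‖z‖ ≤ (‖z‖ + 1)⁻¹ * (‖z‖ + 1) :=
          mul_le_mul h5 (by linarith) (norm_nonneg _) (by positivity)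
      _ = 1 := inv_mul_cancel₀ (by positivity)
  choose k hk using fun i a b => h0 (X i a b)
  refine ⟨∑ i, ∑ a, ∑ b, k i a b, fun i a b => ?_⟩
  rw [Matrix.smul_apply, smul_eq_mul]
  refine hk i a b _ ?_
  calc k i a b ≤ ∑ b, k i a b := Finset.single_le_sum (fun _ _ => Nat.zero_le _) (Finset.mem_univ b)
    _ ≤ ∑ a, ∑ b, k i a b := Finset.single_le_sum (f := fun a => ∑ b, k i a b)
      (fun _ _ => Nat.zero_le _) (Finset.mem_univ a)
    _ ≤ _ := Finset.single_le_sum (f := fun i => ∑ a, ∑ b, k i a b)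
      (fun _ _ => Nat.zero_le _) (Finset.mem_univ i)

/-- limits of 2-adic matrices -/
theorem lim_of {n : ℕ} {A : ℕ → Matrix (Fin n) (Fin n) ℤ_[2]} {X : Matrix (Fin n) (Fin n) ℤ_[2]}
    {f : ℕ → ℕ} (hf : ∀ m, ∃ k₀, ∀ k, k₀ ≤ k → m ≤ f k ∧
      ∃ Z : Matrix (Fin n) (Fin n) ℤ_[2],
        A k = 1 + (2 : ℤ_[2]) ^ k • (X + (2 : ℤ_[2]) ^ (f k) • Z)) :
    Tendsto (fun k : ℕ => (((2 : ℕ) : ℚ_[2]) ^ k)⁻¹ • ((A k).map cZ - 1)) atTop
      (𝓝 (X.map cZ)) := by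
  refine tendsto_pi_nhds.2 fun a => tendsto_pi_nhds.2 fun b => ?_
  rw [Metric.tendsto_atTop]
  intro ε hε
  obtain ⟨m, hm⟩ := exists_pow_lt_of_lt_one hε (by norm_num : (2 : ℝ)⁻¹ < 1)
  obtain ⟨k₀, hk₀⟩ := hf m
  refine ⟨k₀, fun n hn => ?_⟩
  obtain ⟨hle, Z, hZ⟩ := hk₀ n hn
  set M := f n with hM
  have h2 : (2 : ℚ_[2]) ≠ 0 := two_ne_zero
  have h1 : (A n).map cZ = 1 + (2 : ℚ_[2]) ^ n • (X.map cZ + (2 : ℚ_[2]) ^ M • Z.map cZ) := by
    rw [hZ]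
    ext a b
    simp only [Matrix.map_apply, Matrix.add_apply, Matrix.smul_apply, smul_eq_mul, map_add,
      map_mul, map_pow, Matrix.one_apply]
    have h5 : cZ 2 = 2 := map_ofNat _ 2
    rw [h5]
    congr 1
    split_ifs
    · exact map_one _
    · exact map_zero _
  have h3 : ((((2 : ℕ) : ℚ_[2]) ^ n)⁻¹ • ((A n).map cZ - 1)) a b = (X.map cZ) a b +
      (2 : ℚ_[2]) ^ M * (Z a b : ℚ_[2]) := by
    rw [h1, add_sub_cancel_left, smul_smul]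
    have h6 : (((2 : ℕ) : ℚ_[2]) ^ n)⁻¹ * (2 : ℚ_[2]) ^ n = 1 := by
      rw [Nat.cast_ofNat]
      exact inv_mul_cancel₀ (pow_ne_zero n h2)
    rw [h6, one_smul]
    rfl
  rw [h3, dist_eq_norm, add_sub_cancel_left, norm_mul, norm_pow]
  have h4 : ‖(2 : ℚ_[2])‖ = (2 : ℝ)⁻¹ := by
    have := @Padic.norm_p 2 _
    exact_mod_cast this
  rw [h4]
  calc (2 : ℝ)⁻¹ ^ M * ‖(Z a b : ℚ_[2])‖ ≤ (2 : ℝ)⁻¹ ^ M * 1 :=
        mul_le_mul_of_nonneg_left (Z a b).2 (by positivity)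
    _ ≤ (2 : ℝ)⁻¹ ^ m := by
      rw [mul_one]
      exact pow_le_pow_of_le_one (by norm_num) (by norm_num) hle
    _ < ε := hm

/-- joint tangent vectors, with zero on the values -/
def WTan {ι : Type} {N : ι → ℕ} {d : ℕ} {Γ : Type} [Group Γ]
    (ρ : ∀ i, Γ →* Matrix (Fin (N i)) (Fin (N i)) ℚ_[2]) (t : Γ →* Matrix (Fin d) (Fin d) ℚ_[2])
    (X : ∀ i, Matrix (Fin (N i)) (Fin (N i)) ℚ_[2]) : Prop :=
  ∃ σ : ℕ → Γ,
    (∀ i, Tendsto (fun n : ℕ => (((2 : ℕ) : ℚ_[2]) ^ n)⁻¹ • (ρ i (σ n) - 1)) atTop (𝓝 (X i))) ∧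
    Tendsto (fun n : ℕ => (((2 : ℕ) : ℚ_[2]) ^ n)⁻¹ • (t (σ n) - 1)) atTop (𝓝 0)

theorem WTan.scale {ι : Type} {N : ι → ℕ} {d : ℕ} {Γ : Type} [Group Γ]
    {ρ : ∀ i, Γ →* Matrix (Fin (N i)) (Fin (N i)) ℚ_[2]} {t : Γ →* Matrix (Fin d) (Fin d) ℚ_[2]}
    {X : ∀ i, Matrix (Fin (N i)) (Fin (N i)) ℚ_[2]} (k : ℕ)
    (h : WTan ρ t fun i => (2 : ℚ_[2]) ^ k • X i) : WTan ρ t X := by
  obtain ⟨σ, h1, h2⟩ := h
  have hk : ((2 : ℚ_[2]) ^ k) ≠ 0 := pow_ne_zero k two_ne_zero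
  have hc : ∀ n, (((2 : ℕ) : ℚ_[2]) ^ (n + k))⁻¹ = ((2 : ℚ_[2]) ^ k)⁻¹ * (((2 : ℕ) : ℚ_[2]) ^ n)⁻¹ := by
    intro n
    rw [pow_add, _root_.mul_inv, mul_comm]
    norm_num
  refine ⟨fun n => σ (n - k), fun i => ?_, ?_⟩
  · refine (tendsto_add_atTop_iff_nat k).1 ?_
    have h3 := (h1 i).const_smul ((2 : ℚ_[2]) ^ k)⁻¹
    rw [smul_smul, inv_mul_cancel₀ hk, one_smul] at h3
    refine h3.congr fun n => ?_
    dsimp only
    rw [Nat.add_sub_cancel, hc, smul_smul]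
  · refine (tendsto_add_atTop_iff_nat k).1 ?_
    have h3 := h2.const_smul ((2 : ℚ_[2]) ^ k)⁻¹
    rw [smul_zero] at h3
    refine h3.congr fun n => ?_
    dsimp only
    rw [Nat.add_sub_cancel, hc, smul_smul]

/-- the sequence of the group elements -/
theorem wtan_of_key {ι : Type} {N : ι → ℕ} {d : ℕ} {Γ : Type} [Group Γ]
    (R : ∀ i, Γ → Matrix (Fin (N i)) (Fin (N i)) ℤ_[2]) (t : Γ → Matrix (Fin d) (Fin d) ℤ_[2])
    (X : ∀ i, Matrix (Fin (N i)) (Fin (N i)) ℤ_[2])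
    (key : ∀ m : ℕ, ∃ n₀ : ℕ, ∀ n, n₀ ≤ n → ∃ (σ : Γ),
      (∀ i, ∃ Z : Matrix (Fin (N i)) (Fin (N i)) ℤ_[2],
        R i σ = 1 + (2 : ℤ_[2]) ^ n • (X i + (2 : ℤ_[2]) ^ m • Z)) ∧
      ∃ Z : Matrix (Fin d) (Fin d) ℤ_[2],
        t σ = 1 + (2 : ℤ_[2]) ^ n • (0 + (2 : ℤ_[2]) ^ m • Z)) :
    ∃ σ : ℕ → Γ,
    (∀ i, Tendsto (fun n : ℕ => (((2 : ℕ) : ℚ_[2]) ^ n)⁻¹ • ((R i (σ n)).map cZ - 1)) atTop
      (𝓝 ((X i).map cZ))) ∧
    Tendsto (fun n : ℕ => (((2 : ℕ) : ℚ_[2]) ^ n)⁻¹ • ((t (σ n)).map cZ - 1)) atTop (𝓝 0) := by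
  classical
  choose n₀ h0 using key
  let P : ℕ → ℕ → Prop := fun n m => n₀ m ≤ n
  have hσ : ∀ n : ℕ, ∃ σ : Γ, (∃ m ≤ n, n₀ m ≤ n) →
      (∀ i, ∃ Z : Matrix (Fin (N i)) (Fin (N i)) ℤ_[2], R i σ =
        1 + (2 : ℤ_[2]) ^ n • (X i + (2 : ℤ_[2]) ^ (Nat.findGreatest (P n) n) • Z)) ∧
      ∃ Z : Matrix (Fin d) (Fin d) ℤ_[2], t σ =
        1 + (2 : ℤ_[2]) ^ n • (0 + (2 : ℤ_[2]) ^ (Nat.findGreatest (P n) n) • Z) := by
    intro n
    by_cases hn : ∃ m ≤ n, n₀ m ≤ n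
    · obtain ⟨m, hm, hmn⟩ := hn
      have h1 : P n (Nat.findGreatest (P n) n) := Nat.findGreatest_spec (P := P n) hm hmn
      obtain ⟨σ, hσ⟩ := h0 _ n h1
      exact ⟨σ, fun _ => hσ⟩
    · exact ⟨1, fun h' => absurd h' hn⟩
  choose σ hσ using hσ
  have hev : ∀ m, ∃ k₀, ∀ k, k₀ ≤ k → m ≤ Nat.findGreatest (P k) k ∧ ∃ m ≤ k, n₀ m ≤ k := by
    intro m
    refine ⟨max m (n₀ m), fun k hk => ?_⟩
    have hmn : m ≤ k := (le_max_left _ _).trans hk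
    have hmn' : n₀ m ≤ k := (le_max_right _ _).trans hk
    exact ⟨Nat.le_findGreatest hmn hmn', m, hmn, hmn'⟩
  refine ⟨σ, fun i => ?_, ?_⟩
  · exact lim_of (A := fun k => R i (σ k)) (X := X i)
      (f := fun k => Nat.findGreatest (P k) k) (fun m => by
        obtain ⟨k₀, hk⟩ := hev m
        exact ⟨k₀, fun k hk' => ⟨(hk k hk').1, (hσ k (hk k hk').2).1 i⟩⟩)
  · have h1 := lim_of (A := fun k => t (σ k)) (X := 0)
      (f := fun k => Nat.findGreatest (P k) k) (fun m => by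
        obtain ⟨k₀, hk⟩ := hev m
        exact ⟨k₀, fun k hk' => ⟨(hk k hk').1, (hσ k (hk k hk').2).2⟩⟩)
    have h2 : (0 : Matrix (Fin d) (Fin d) ℤ_[2]).map cZ = 0 := by
      ext a b
      rw [Matrix.map_apply, Matrix.zero_apply, Matrix.zero_apply, map_zero]
    rw [h2] at h1
    exact h1

section form

variable {T : Type} [AddCommGroup T] [Module ℤ_[2] T] {N : ℕ} (b : Basis (Fin N) ℤ_[2] T)
  (B : T →ₗ[ℤ_[2]] T →ₗ[ℤ_[2]] ℤ_[2])

/-- the matrix of the form -/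
noncomputable def Jz : Matrix (Fin N) (Fin N) ℤ_[2] := LinearMap.toMatrix₂ b b B

theorem Jz_apply (a c : Fin N) : Jz b B a c = B (b a) (b c) := LinearMap.toMatrix₂_apply b b B a c

variable {B}

theorem Jz_transpose (h : ∀ x, B x x = 0) : (Jz b B)ᵀ = -Jz b B := by
  ext a c
  rw [Matrix.transpose_apply, Matrix.neg_apply, Jz_apply, Jz_apply]
  have h1 := h (b a + b c)
  simp only [map_add, LinearMap.add_apply, h, zero_add, add_zero] at h1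
  linear_combination h1

theorem Jz_det (h : ∀ v, (∀ w, ¬ IsUnit (B v w)) → ∃ u, (2 : ℤ_[2]) • u = v) :
    (Jz b B).det ≠ 0 := by
  intro h0
  have h1 : ((Jz b B).map (PadicInt.toZMod : ℤ_[2] →+* ZMod 2)).det = 0 := by
    rw [← RingHom.mapMatrix_apply, ← RingHom.map_det, h0, map_zero]
  obtain ⟨v, hv, hv0⟩ := Matrix.exists_vecMul_eq_zero_iff.2 h1
  apply hv
  have hz : ∀ a, (PadicInt.toZMod (((v a).val : ℕ) : ℤ_[2]) : ZMod 2) = v a := by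
    intro a
    rw [map_natCast, ZMod.natCast_zmod_val]
  obtain ⟨u, hu⟩ := h (∑ a, (((v a).val : ℕ) : ℤ_[2]) • b a) (by
    intro w hw
    rw [isUnit_iff_toZMod] at hw
    have h2 : ∀ c, (PadicInt.toZMod (B (∑ a, (((v a).val : ℕ) : ℤ_[2]) • b a) (b c)) : ZMod 2) =
        0 := by
      intro c
      have h3 := congrFun hv0 c
      rw [Matrix.vecMul, dotProduct] at h3
      rw [map_sum, LinearMap.sum_apply, map_sum]
      rw [← Pi.zero_apply (M := fun _ => ZMod 2) c, ← h3]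
      refine Finset.sum_congr rfl fun a _ => ?_
      rw [map_smul, LinearMap.smul_apply, smul_eq_mul, map_mul, hz, Matrix.map_apply, Jz_apply]
    rw [← b.sum_repr w, map_sum, map_sum] at hw
    have h4 : ∑ c, (PadicInt.toZMod (B (∑ a, (((v a).val : ℕ) : ℤ_[2]) • b a)
        (b.repr w c • b c)) : ZMod 2) = 0 := by
      refine Finset.sum_eq_zero fun c _ => ?_
      rw [map_smul, smul_eq_mul, map_mul, h2, mul_zero]
    rw [h4] at hw
    exact zero_ne_one hw)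
  funext a
  rw [Pi.zero_apply, ← hz a]
  have h5 : b.repr (∑ a, (((v a).val : ℕ) : ℤ_[2]) • b a) a = (((v a).val : ℕ) : ℤ_[2]) := by
    rw [b.repr_sum_self]
  rw [← h5, ← hu, map_smul, Finsupp.smul_apply, smul_eq_mul, map_mul, toZMod_two, zero_mul]

theorem Jz_sim {R : Module.End ℤ_[2] T} {c : ℤ_[2]} (h : ∀ x y, B (R x) (R y) = c * B x y) :
    (LinearMap.toMatrix b b R)ᵀ * Jz b B * LinearMap.toMatrix b b R = c • Jz b B := by
  have h1 : B.compl₁₂ R R = c • B := by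
    ext x y
    exact h x y
  unfold Jz
  rw [← LinearMap.toMatrix₂_compl₁₂ b b b b B R R, h1, map_smul]

theorem mem_spQ' {X : Matrix (Fin N) (Fin N) ℤ_[2]} (hX : Xᵀ * Jz b B + Jz b B * X = 0) :
    (Matrix.toLin b b X : Module.End ℤ_[2] T) ∈ spQ B (p1 T) := by
  refine ⟨fun x y => ?_, fun _ _ => rfl⟩
  have h1 : LinearMap.toMatrix₂ b b (B.compl₁₂ (Matrix.toLin b b X) LinearMap.id +
      B.compl₁₂ LinearMap.id (Matrix.toLin b b X)) = 0 := by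
    rw [map_add, LinearMap.toMatrix₂_compl₁₂ b b b b, LinearMap.toMatrix₂_compl₁₂ b b b b,
      LinearMap.toMatrix_toLin, LinearMap.toMatrix_id, Matrix.mul_one, Matrix.transpose_one,
      Matrix.one_mul]
    exact hX
  have h2 : B.compl₁₂ (Matrix.toLin b b X) LinearMap.id +
      B.compl₁₂ LinearMap.id (Matrix.toLin b b X) = 0 := by
    apply (LinearMap.toMatrix₂ (R := ℤ_[2]) (N₂ := ℤ_[2]) b b).injective
    rw [h1, map_zero]
  exact congrFun (congrArg DFunLike.coe (congrFun (congrArg DFunLike.coe h2) x)) y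

end form

end MAT

open MAT

/-- **task MAT** -/
theorem t_MAT : S_MAT := by
  intro ι _ _ T _ _ Γ _ ρ B χ N b d t halt hnd hsim htan
  let ρ' : ∀ i, Γ →* Matrix (Fin (N i)) (Fin (N i)) ℚ_[2] := fun i =>
    ((RingHom.mapMatrix cZ : Matrix (Fin (N i)) (Fin (N i)) ℤ_[2] →+* _) :
      Matrix (Fin (N i)) (Fin (N i)) ℤ_[2] →* Matrix (Fin (N i)) (Fin (N i)) ℚ_[2]).comp
    (((LinearMap.toMatrixAlgEquiv (b i) : (T i →ₗ[ℤ_[2]] T i) ≃ₐ[ℤ_[2]] _) :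
      Module.End ℤ_[2] (T i) →* Matrix (Fin (N i)) (Fin (N i)) ℤ_[2]).comp (ρ i))
  let t' : Γ →* Matrix (Fin d) (Fin d) ℚ_[2] :=
    ((RingHom.mapMatrix cZ : Matrix (Fin d) (Fin d) ℤ_[2] →+* _) :
      Matrix (Fin d) (Fin d) ℤ_[2] →* Matrix (Fin d) (Fin d) ℚ_[2]).comp t
  have hρ' : ∀ i g, ρ' i g = (LinearMap.toMatrix (b i) (b i) (ρ i g)).map cZ := fun i g => rfl
  have ht' : ∀ g, t' g = (t g).map cZ := fun g => rfl
  refine ⟨ρ', fun i => (Jz (b i) (B i)).map cZ, t', hρ', ht', ?_, ?_, ?_, ?_⟩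
  · intro i
    show ((Jz (b i) (B i)).map cZ)ᵀ = -(Jz (b i) (B i)).map cZ
    rw [← Matrix.transpose_map, Jz_transpose (b i) (halt i)]
    ext a c
    exact map_neg cZ _
  · intro i h0
    apply Jz_det (b i) (hnd i)
    apply cZ_inj
    rw [map_zero, RingHom.map_det]
    exact h0
  · intro i g
    have h1 := Jz_sim (b i) (R := ρ i g) (c := (χ g : ℤ_[2])) (hsim i g)
    have h2 := congrArg (fun M => M.map cZ) h1
    rw [hρ']
    have h3 : ((LinearMap.toMatrix (b i) (b i) (ρ i g))ᵀ * Jz (b i) (B i) *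
        LinearMap.toMatrix (b i) (b i) (ρ i g)).map cZ =
        ((LinearMap.toMatrix (b i) (b i) (ρ i g)).map cZ)ᵀ * (Jz (b i) (B i)).map cZ *
          (LinearMap.toMatrix (b i) (b i) (ρ i g)).map cZ := by
      rw [Matrix.map_mul, Matrix.map_mul, Matrix.transpose_map]
    rw [← h3]
    refine h2.trans ?_
    ext a c
    show cZ (((χ g : ℤ_[2]ˣ) : ℤ_[2]) * Jz (b i) (B i) a c) =
      (((χ g : ℤ_[2]ˣ) : ℤ_[2]) : ℚ_[2]) * cZ (Jz (b i) (B i) a c)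
    rw [map_mul]
    rfl
  · intro X hX
    obtain ⟨k, hk⟩ := exists_scale X
    have hgoal : WTan ρ' t' X := by
      refine WTan.scale k ?_
      let Xz : ∀ i, Matrix (Fin (N i)) (Fin (N i)) ℤ_[2] := fun i =>
        matZ ((2 : ℚ_[2]) ^ k • X i) (hk i)
      have hXz : ∀ i, (Xz i)ᵀ * Jz (b i) (B i) + Jz (b i) (B i) * Xz i = 0 := by
        intro i
        apply map_cZ_inj
        have h1 : ((Xz i)ᵀ).map cZ = ((2 : ℚ_[2]) ^ k • X i)ᵀ := rfl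
        have h2 : (Xz i).map cZ = (2 : ℚ_[2]) ^ k • X i := rfl
        have h4 : ((Xz i)ᵀ * Jz (b i) (B i) + Jz (b i) (B i) * Xz i).map cZ =
            ((Xz i)ᵀ).map cZ * (Jz (b i) (B i)).map cZ +
            (Jz (b i) (B i)).map cZ * (Xz i).map cZ := by
          rw [← Matrix.map_mul, ← Matrix.map_mul]
          ext a b
          rw [Matrix.map_apply, Matrix.add_apply, map_add]
          rfl
        rw [h4, h1, h2, transpose_smul, smul_mul_assoc, mul_smul_comm, ← smul_add]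
        have h5 : (X i)ᵀ * (Jz (b i) (B i)).map cZ + (Jz (b i) (B i)).map cZ * X i = 0 := hX i
        rw [h5, smul_zero]
        ext a b
        rw [Matrix.map_apply, Matrix.zero_apply, Matrix.zero_apply, map_zero]
      have hT := htan (fun i => Matrix.toLin (b i) (b i) (Xz i)) fun i => mem_spQ' (b i) (hXz i)
      refine wtan_of_key (fun i g => LinearMap.toMatrix (b i) (b i) (ρ i g)) (fun g => t g) Xz ?_
      intro m
      obtain ⟨n₀, h0⟩ := hT m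
      refine ⟨n₀, fun n hn => ?_⟩
      obtain ⟨σ, ⟨Z, Z'⟩, hσ⟩ := h0 n hn
      refine ⟨σ, fun i => ⟨LinearMap.toMatrix (b i) (b i) (Z i), ?_⟩, Z', congrArg Prod.snd hσ⟩
      have h1 : ρ i σ = 1 + (2 : ℤ_[2]) ^ n • (Matrix.toLin (b i) (b i) (Xz i) +
          (2 : ℤ_[2]) ^ m • Z i) := congrFun (congrArg Prod.fst hσ) i
      rw [h1, map_add, map_smul, map_add, map_smul, LinearMap.toMatrix_toLin,
        LinearMap.toMatrix_one]
    exact hgoal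

end Pool.Agent.N197.AP
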