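import Pool.Agent.N197.AP.Stm2

/-!
# Project AP, leaf PAT2: finitely many vectors of exponents solve all solvable systems
-/

set_option autoImplicit false

open Finset

namespace Pool.Agent.N197.AP

namespace Pat2Aux

/-- `(a, c)` solves the system `V` -/
def Sol {κ : Type} [Fintype κ] (w : ℤ) (V : Set ((κ ⊕ κ → ℤ) × ℤ × ℤ)) (a : κ ⊕ κ → ℕ) (c : ℤ) :
    Prop :=
  (∑ j, (a j : ℤ)) + w = 2 * c ∧ ∀ x ∈ V, ∑ j, (a j : ℤ) * x.1 j + x.2.1 = c * x.2.2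

/-- the box -/
def Box (κ : Type) (N : ℕ) : Set ((κ ⊕ κ → ℤ) × ℤ × ℤ) :=
  {x | (∀ j, |x.1 j| ≤ (N : ℤ)) ∧ |x.2.1| ≤ (N : ℤ) ∧ |x.2.2| ≤ (N : ℤ)}

theorem box_finite (κ : Type) [Fintype κ] (N : ℕ) : (Box κ N).Finite := by
  have h1 : {f : κ ⊕ κ → ℤ | ∀ i, f i ∈ Set.Icc (-(N : ℤ)) N}.Finite :=
    Set.Finite.pi' fun _ => Set.finite_Icc _ _
  refine ((h1.prod ((Set.finite_Icc (-(N : ℤ)) N).prod (Set.finite_Icc (-(N : ℤ)) N)))).subset ?_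
  rintro ⟨x, y, z⟩ ⟨h1, h2, h3⟩
  exact ⟨fun j => abs_le.1 (h1 j), abs_le.1 h2, abs_le.1 h3⟩

end Pat2Aux

open Pat2Aux in
theorem t_PAT2 : S_PAT2 := by
  classical
  intro κ _ w N
  have hfin : {V : Set ((κ ⊕ κ → ℤ) × ℤ × ℤ) | V ⊆ Box κ N}.Finite := (box_finite κ N).finite_subsets
  have hfin2 : {V : Set ((κ ⊕ κ → ℤ) × ℤ × ℤ) |
      V ⊆ Box κ N ∧ ∃ a : κ ⊕ κ → ℕ, Adm a ∧ ∃ c : ℤ, Sol w V a c}.Finite :=
    hfin.subset fun V hV => hV.1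
  have hch : ∀ V : Set ((κ ⊕ κ → ℤ) × ℤ × ℤ), ∃ a : κ ⊕ κ → ℕ,
      (∃ a : κ ⊕ κ → ℕ, Adm a ∧ ∃ c : ℤ, Sol w V a c) → Adm a ∧ ∃ c : ℤ, Sol w V a c := by
    intro V
    by_cases h : ∃ a : κ ⊕ κ → ℕ, Adm a ∧ ∃ c : ℤ, Sol w V a c
    · obtain ⟨a, ha⟩ := h
      exact ⟨a, fun _ => ha⟩
    · exact ⟨0, fun h' => absurd h' h⟩
  choose f hf using hch
  refine ⟨hfin2.toFinset.image f, ?_, ?_⟩
  · intro a ha
    rw [Finset.mem_image] at ha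
    obtain ⟨V, hV, rfl⟩ := ha
    rw [Set.Finite.mem_toFinset] at hV
    exact (hf V hV.2).1
  · intro V hV a c ha h1 h2
    have hsol : ∃ a : κ ⊕ κ → ℕ, Adm a ∧ ∃ c : ℤ, Sol w V a c := ⟨a, ha, c, h1, h2⟩
    refine ⟨f V, ?_, ?_⟩
    · rw [Finset.mem_image]
      refine ⟨V, ?_, rfl⟩
      rw [Set.Finite.mem_toFinset]
      exact ⟨fun x hx => hV x hx, hsol⟩
    · obtain ⟨_, c', h3, h4⟩ := hf V hsol
      exact ⟨c', h3, h4⟩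

end Pool.Agent.N197.AP

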