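import Pool.Agent.N197.AP.Stm2
import Pool.Agent.N197.AP.L_SERRE

/-!
# Project AP (helper197): finitely many vectors of exponents (task SERRE2)

Adapted from `L_SERRE` (helper130).
-/

set_option autoImplicit false

open NumberField IsDedekindDomain Module

namespace Pool.Agent.N197.AP

/-- the square of the absolute value of the norm -/
theorem serre2_norm {E : Type} [Field E] [NumberField E] {β : E} (hβ : IsIntegral ℤ β)
    (hβ0 : β ≠ 0) (r : ℝ) (hr : 0 ≤ r) (h : ∀ φ : E →+* ℂ, ‖φ β‖ ^ 2 = r) : 1 ≤ r := by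
  classical
  set b : 𝓞 E := ⟨β, hβ⟩ with hb
  have hb0 : b ≠ 0 := by
    intro h0
    apply hβ0
    have h5 : ((b : 𝓞 E) : E) = ((0 : 𝓞 E) : E) := congrArg (fun x : 𝓞 E => (x : E)) h0
    exact h5
  have hn0 : Algebra.norm ℤ b ≠ 0 := by
    rw [Ne, Algebra.norm_eq_zero_iff]
    exact hb0
  have h4 : algebraMap ℚ ℂ (Algebra.norm ℚ β) = ∏ σ : E →ₐ[ℚ] ℂ, σ β :=
    Algebra.norm_eq_prod_embeddings ℚ ℂ β
  have h5 : ‖algebraMap ℚ ℂ (Algebra.norm ℚ β)‖ ^ 2 = r ^ finrank ℚ E := by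
    rw [h4, norm_prod, ← Finset.prod_pow]
    have h9 : ∀ σ ∈ (Finset.univ : Finset (E →ₐ[ℚ] ℂ)), ‖σ β‖ ^ 2 = r :=
      fun σ _ => h (σ : E →+* ℂ)
    rw [Finset.prod_congr rfl h9, Finset.prod_const, Finset.card_univ, AlgHom.card ℚ E ℂ]
  have h6 : ((Algebra.norm ℤ b : ℤ) : ℚ) = Algebra.norm ℚ β := Algebra.coe_norm_int b
  have h7 : algebraMap ℚ ℂ (Algebra.norm ℚ β) = ((Algebra.norm ℤ b : ℤ) : ℂ) := by
    rw [← h6]
    simp
  rw [h7, Complex.norm_intCast, sq_abs] at h5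
  have h8 : (1 : ℝ) ≤ ((Algebra.norm ℤ b : ℤ) : ℝ) ^ 2 := by
    have h9 : (1 : ℤ) ≤ (Algebra.norm ℤ b) ^ 2 := by
      have : 0 < (Algebra.norm ℤ b) ^ 2 := by positivity
      linarith
    exact_mod_cast h9
  rw [h5] at h8
  by_contra hcon
  rw [not_le] at hcon
  have h9 : r ^ finrank ℚ E < 1 := pow_lt_one₀ hr hcon (Module.finrank_pos).ne'
  linarith

theorem serre2_pow {E : Type} [Field E] [NumberField E] (v : HeightOneSpectrum (𝓞 E)) {x y : E}
    (hx : x ≠ 0) (hy : y ≠ 0) (n : ℕ) :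
    serre_ord v (x ^ n * y) = n * serre_ord v x + serre_ord v y := by
  rw [serre_ord_mul v _ _ (pow_ne_zero n hx) hy]
  have h6 : ((serre_ord v (x ^ n) : ℤ) : ℝ) = n * (serre_ord v x : ℝ) :=
    serre_pow (L := serre_L v) (serre_ordR v) hx n
  have h7 : serre_ord v (x ^ n) = n * serre_ord v x := by exact_mod_cast h6
  rw [h7]

/-- task SERRE2 -/
theorem t_SERRE2 (h1 : S_KRON) (h2 : S_VAL) (h3 : S_PAT2) : S_SERRE2 := by
  classical
  intro κ _ w m D B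
  obtain ⟨w', hw'⟩ : ∃ w' : ℕ, w' = (w + 2 * m).toNat := ⟨_, rfl⟩
  obtain ⟨N, hN⟩ : ∃ N : ℕ, N = (m + 1) * (B * D) + w' * D * (B * D) := ⟨_, rfl⟩
  obtain ⟨T, hT1, hT2⟩ := h3 κ w N
  refine ⟨T, hT1, ?_⟩
  intro E _ _ p f hp hf hfB hD α β hα hβ hpair hnα hnβ a ha ⟨c, s, hs, hrel⟩
  obtain ⟨φ0⟩ : Nonempty (E →+* ℂ) := inferInstance
  have hpR : (1 : ℝ) < p := by exact_mod_cast hp.one_lt
  have hqR : (1 : ℝ) < (p : ℝ) ^ f := one_lt_pow₀ hpR hf.ne'
  have hqR0 : (0 : ℝ) < (p : ℝ) ^ f := by linarith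
  have hp0 : (p : E) ≠ 0 := by exact_mod_cast hp.ne_zero
  have hq0 : (p : E) ^ f ≠ 0 := pow_ne_zero _ hp0
  have hα0 : ∀ j, α j ≠ 0 := by
    intro j h0
    have := hnα φ0 j
    rw [h0, map_zero, norm_zero] at this
    rw [← this] at hqR0
    norm_num at hqR0
  have hβ0 : β ≠ 0 := by
    intro h0
    have := hnβ φ0
    rw [h0, map_zero, norm_zero] at this
    have h5 : (0 : ℝ) < ((p : ℝ) ^ f) ^ w := zpow_pos hqR0 w
    rw [← this] at h5
    norm_num at h5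
  -- absolute values
  have hLφ : ∀ φ : E →+* ℂ, ∀ x y : E, x ≠ 0 → y ≠ 0 →
      Real.log ‖φ (x * y)‖ = Real.log ‖φ x‖ + Real.log ‖φ y‖ := by
    intro φ x y hx hy
    rw [map_mul, norm_mul, Real.log_mul]
    · exact norm_ne_zero_iff.2 ((map_ne_zero φ).2 hx)
    · exact norm_ne_zero_iff.2 ((map_ne_zero φ).2 hy)
  set l : ℝ := Real.log ((p : ℝ) ^ f) with hl
  have hl0 : 0 < l := Real.log_pos hqR
  have hlα : ∀ φ : E →+* ℂ, ∀ j, Real.log ‖φ (α j)‖ = l / 2 := by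
    intro φ j
    have h5 := congrArg Real.log (hnα φ j)
    rw [Real.log_pow] at h5
    push_cast at h5
    linarith
  have hlβ : ∀ φ : E →+* ℂ, Real.log ‖φ β‖ = w * l / 2 := by
    intro φ
    have h5 := congrArg Real.log (hnβ φ)
    rw [Real.log_pow, Real.log_zpow] at h5
    push_cast at h5
    linarith
  have hlq : ∀ φ : E →+* ℂ, Real.log ‖φ ((p : E) ^ f)‖ = l := by
    intro φ
    rw [map_pow, map_natCast, norm_pow, Complex.norm_natCast]
  have hsum : (∑ j, (a j : ℤ)) + w = 2 * c := by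
    have h5 := serre_rel (L := fun x => Real.log ‖φ0 x‖) (hLφ φ0) hα0 hβ0 hq0 hs hrel
    simp only [hlα, hlβ, hlq] at h5
    rw [← Finset.sum_mul] at h5
    have h6 : ((∑ j, (a j : ℝ)) + w) * l = (2 * c) * l := by linarith
    have h7 := mul_right_cancel₀ hl0.ne' h6
    exact_mod_cast h7
  -- the element `q ^ m * β`
  have hβ'0 : ((p : E) ^ f) ^ m * β ≠ 0 := mul_ne_zero (pow_ne_zero _ hq0) hβ0
  have hnβ' : ∀ φ : E →+* ℂ, ‖φ (((p : E) ^ f) ^ m * β)‖ ^ 2 = ((p : ℝ) ^ f) ^ (w + 2 * m) := by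
    intro φ
    have h5 : ‖φ (((p : E) ^ f) ^ m)‖ = ((p : ℝ) ^ f) ^ m := by
      rw [map_pow, map_pow, map_natCast, norm_pow, norm_pow, Complex.norm_natCast]
    rw [map_mul, norm_mul, mul_pow, hnβ φ, h5, zpow_add₀ hqR0.ne', mul_comm, ← pow_mul]
    congr 1
    rw [show (2 * (m : ℤ)) = ((m * 2 : ℕ) : ℤ) by push_cast; ring, zpow_natCast]
  have hw0 : 0 ≤ w + 2 * m := by
    have h5 := serre2_norm hβ hβ'0 _ (zpow_nonneg hqR0.le _) hnβ'
    by_contra hcon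
    rw [not_le] at hcon
    have h6 := zpow_lt_one_of_neg₀ hqR hcon
    linarith
  have hw'1 : (w' : ℤ) = w + 2 * m := by rw [hw']; exact Int.toNat_of_nonneg hw0
  have hnβ'' : ∀ φ : E →+* ℂ, ‖φ (((p : E) ^ f) ^ m * β)‖ ^ 2 = ((p : ℝ) ^ f) ^ w' := by
    intro φ
    rw [hnβ' φ, ← hw'1, zpow_natCast]
  -- the valuation of `q`
  have hoq : ∀ v : HeightOneSpectrum (𝓞 E), 0 ≤ serre_ord v ((p : E) ^ f) ∧
      serre_ord v ((p : E) ^ f) ≤ (B * D : ℕ) := by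
    intro v
    obtain ⟨n, hn, hv⟩ := h2 E v p hp
    have h5 : serre_ord v (p : E) = n := by
      unfold serre_ord
      rw [hv, WithZero.log_exp]
      ring
    have h6 : ((serre_ord v ((p : E) ^ f) : ℤ) : ℝ) = f * (serre_ord v (p : E) : ℝ) :=
      serre_pow (L := serre_L v) (serre_ordR v) hp0 f
    have h7 : serre_ord v ((p : E) ^ f) = f * n := by
      rw [h5] at h6
      exact_mod_cast h6
    rw [h7]
    refine ⟨by positivity, ?_⟩
    exact_mod_cast Nat.mul_le_mul hfB (hn.trans hD)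
  have hmoq : ∀ v : HeightOneSpectrum (𝓞 E), 0 ≤ (m : ℤ) * serre_ord v ((p : E) ^ f) ∧
      (m : ℤ) * serre_ord v ((p : E) ^ f) ≤ (m : ℤ) * (B * D : ℕ) := fun v =>
    ⟨mul_nonneg (Int.natCast_nonneg m) (hoq v).1,
      mul_le_mul_of_nonneg_left (hoq v).2 (Int.natCast_nonneg m)⟩
  have hNc : (N : ℤ) = (m : ℤ) * (B * D : ℕ) + (B * D : ℕ) + ((w' * D * (B * D) : ℕ) : ℤ) := by
    rw [hN]
    push_cast
    ring
  have hBD : (0 : ℤ) ≤ ((B * D : ℕ) : ℤ) := Int.natCast_nonneg _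
  have hwBD : (0 : ℤ) ≤ ((w' * D * (B * D) : ℕ) : ℤ) := Int.natCast_nonneg _
  have hoα : ∀ (v : HeightOneSpectrum (𝓞 E)) (j : κ ⊕ κ), |serre_ord v (α j)| ≤ (N : ℤ) := by
    intro v j
    have h5 : ∀ i, serre_ord v (α (.inl i)) + serre_ord v (α (.inr i)) =
        serre_ord v ((p : E) ^ f) := fun i => by
      rw [← hpair i, serre_ord_mul v _ _ (hα0 _) (hα0 _)]
    have h6 : ∀ j, 0 ≤ (m : ℤ) * serre_ord v ((p : E) ^ f) + serre_ord v (α j) := fun j => by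
      rw [← serre2_pow v hq0 (hα0 j) m]
      exact serre_ord_nonneg v (mul_ne_zero (pow_ne_zero _ hq0) (hα0 j)) (hα j)
    have h7 := hoq v
    have h8 := hmoq v
    have h9 := h6 j
    rw [abs_le]
    rcases j with i | i
    · have := h5 i
      have := h6 (.inr i)
      constructor <;> linarith
    · have := h5 i
      have := h6 (.inl i)
      constructor <;> linarith
  have hoβ : ∀ v : HeightOneSpectrum (𝓞 E), |serre_ord v β| ≤ (N : ℤ) := by
    intro v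
    have h5 := serre_ord_nonneg v hβ'0 hβ
    have h6 := serre_beta v hβ hβ'0 w' p f hp hnβ''
    rw [serre2_pow v hq0 hβ0 m] at h5 h6
    have h7 : (w' * finrank ℚ E : ℤ) * serre_ord v ((p : E) ^ f) ≤
        ((w' * D : ℕ) : ℤ) * ((B * D : ℕ) : ℤ) := by
      refine mul_le_mul ?_ (hoq v).2 (hoq v).1 (by positivity)
      exact_mod_cast Nat.mul_le_mul_left w' hD
    have h8 := hmoq v
    have h9 : ((w' * D : ℕ) : ℤ) * ((B * D : ℕ) : ℤ) = ((w' * D * (B * D) : ℕ) : ℤ) := by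
      push_cast
      ring
    rw [abs_le]
    constructor <;> linarith
  have hoq' : ∀ v : HeightOneSpectrum (𝓞 E), |serre_ord v ((p : E) ^ f)| ≤ (N : ℤ) := by
    intro v
    have h7 := hoq v
    have h8 := hmoq v
    rw [abs_le]
    constructor <;> linarith
  -- the system
  obtain ⟨a', ha', c', hsum', hsys'⟩ := hT2
    {x | ∃ v : HeightOneSpectrum (𝓞 E), (∀ j, x.1 j = serre_ord v (α j)) ∧
      x.2.1 = serre_ord v β ∧ x.2.2 = serre_ord v ((p : E) ^ f)} (by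
      rintro x ⟨v, hx1, hx2, hx3⟩
      refine ⟨fun j => ?_, ?_, ?_⟩
      · rw [hx1 j]; exact hoα v j
      · rw [hx2]; exact hoβ v
      · rw [hx3]; exact hoq' v) a c ha hsum (by
      rintro x ⟨v, hx1, hx2, hx3⟩
      have h5 : ∑ j, (a j : ℝ) * (serre_ord v (α j) : ℝ) + (serre_ord v β : ℝ) =
          c * (serre_ord v ((p : E) ^ f) : ℝ) :=
        serre_rel (L := serre_L v) (serre_ordR v) hα0 hβ0 hq0 hs hrel
      rw [hx2, hx3]
      simp only [hx1]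
      exact_mod_cast h5)
  refine ⟨a', ha', c', ?_⟩
  have hX0 : (∏ j, α j ^ a' j) * β ≠ 0 :=
    mul_ne_zero (Finset.prod_ne_zero_iff.2 fun j _ => pow_ne_zero _ (hα0 j)) hβ0
  have hY0 : ((p : E) ^ f) ^ c' ≠ 0 := zpow_ne_zero _ hq0
  refine h1 E _ _ hX0 hY0 (fun v => ?_) (fun φ => ?_)
  · apply serre_val_eq v hX0 hY0
    have h5 := hsys' (fun j => serre_ord v (α j), serre_ord v β,
      serre_ord v ((p : E) ^ f)) ⟨v, fun j => rfl, rfl, rfl⟩
    simp only at h5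
    have h6 : ((serre_ord v ((∏ j, α j ^ a' j) * β) : ℤ) : ℝ) =
        ∑ j, (a' j : ℝ) * (serre_ord v (α j) : ℝ) + (serre_ord v β : ℝ) :=
      serre_lhs (L := serre_L v) (serre_ordR v) hα0 hβ0 a'
    have h7 : ((serre_ord v (((p : E) ^ f) ^ c') : ℤ) : ℝ) =
        c' * (serre_ord v ((p : E) ^ f) : ℝ) :=
      serre_zpow (L := serre_L v) (serre_ordR v) hq0 c'
    have h8 : ((serre_ord v ((∏ j, α j ^ a' j) * β) : ℤ) : ℝ) =
        ((serre_ord v (((p : E) ^ f) ^ c') : ℤ) : ℝ) := by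
      rw [h6, h7]
      exact_mod_cast h5
    exact_mod_cast h8
  · have h6 : Real.log ‖φ ((∏ j, α j ^ a' j) * β)‖ =
        ∑ j, (a' j : ℝ) * Real.log ‖φ (α j)‖ + Real.log ‖φ β‖ :=
      serre_lhs (L := fun x => Real.log ‖φ x‖) (hLφ φ) hα0 hβ0 a'
    have h7 : Real.log ‖φ (((p : E) ^ f) ^ c')‖ = c' * Real.log ‖φ ((p : E) ^ f)‖ :=
      serre_zpow (L := fun x => Real.log ‖φ x‖) (hLφ φ) hq0 c'
    simp only [hlα, hlβ, hlq] at h6 h7
    rw [← Finset.sum_mul] at h6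
    have h8 : ((∑ j, (a' j : ℝ)) + w) = 2 * c' := by exact_mod_cast hsum'
    have h9 : Real.log ‖φ ((∏ j, α j ^ a' j) * β)‖ = Real.log ‖φ (((p : E) ^ f) ^ c')‖ := by
      rw [h6, h7]
      linear_combination (l / 2) * h8
    refine Real.log_injOn_pos ?_ ?_ h9
    · exact norm_pos_iff.2 ((map_ne_zero φ).2 hX0)
    · exact norm_pos_iff.2 ((map_ne_zero φ).2 hY0)

end Pool.Agent.N197.AP
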