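import Pool.Agent.N197.AP.Stm

/-!
# Project AP, part 3: motives of arbitrary odd weights (statements)
-/

set_option autoImplicit false

open Polynomial Filter Topology NumberField IsDedekindDomain Module Matrix
open Pool.Agent.Y142.ZO Pool.Agent.Y142.ZI Pool.Agent.Y142.ZS

namespace Pool.Agent.N197.AP

/-- task PAT2: finitely many vectors of exponents solve all solvable systems -/
def S_PAT2 : Prop := ∀ (κ : Type) [Fintype κ] (w : ℤ) (N : ℕ),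
  ∃ T : Finset (κ ⊕ κ → ℕ), (∀ a ∈ T, Adm a) ∧
  ∀ V : Set ((κ ⊕ κ → ℤ) × ℤ × ℤ),
    (∀ x ∈ V, (∀ j, |x.1 j| ≤ (N : ℤ)) ∧ |x.2.1| ≤ (N : ℤ) ∧ |x.2.2| ≤ (N : ℤ)) →
  ∀ (a : κ ⊕ κ → ℕ) (c : ℤ), Adm a → (∑ j, (a j : ℤ)) + w = 2 * c →
    (∀ x ∈ V, ∑ j, (a j : ℤ) * x.1 j + x.2.1 = c * x.2.2) →
  ∃ a' ∈ T, ∃ c' : ℤ, (∑ j, (a' j : ℤ)) + w = 2 * c' ∧
    ∀ x ∈ V, ∑ j, (a' j : ℤ) * x.1 j + x.2.1 = c' * x.2.2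

/-- Every relation between Weil numbers `α j` (of weight `1`, in pairs with product `q = p ^ f`) and
`β` (of weight `w`), integral after multiplication by `q ^ m`, in a number field of degree at most `D`,
`f ≤ B`, gives a relation with exponents in the finite set `T`. -/
def SerreSet2 {κ : Type} [Fintype κ] (w : ℤ) (m D B : ℕ) (T : Finset (κ ⊕ κ → ℕ)) : Prop :=
  ∀ (E : Type) [Field E] [NumberField E] (p f : ℕ), p.Prime → 0 < f → f ≤ B → finrank ℚ E ≤ D →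
  ∀ (α : κ ⊕ κ → E) (β : E), (∀ j, IsIntegral ℤ (((p : E) ^ f) ^ m * α j)) →
    IsIntegral ℤ (((p : E) ^ f) ^ m * β) →
    (∀ i, α (.inl i) * α (.inr i) = (p : E) ^ f) →
    (∀ (φ : E →+* ℂ) (j : κ ⊕ κ), ‖φ (α j)‖ ^ 2 = (p : ℝ) ^ f) →
    (∀ φ : E →+* ℂ, ‖φ β‖ ^ 2 = ((p : ℝ) ^ f) ^ w) →
  ∀ a : κ ⊕ κ → ℕ, Adm a → Rel α β ((p : E) ^ f) a → ∃ a' ∈ T, Rel α β ((p : E) ^ f) a'

/-- task SERRE2 -/
def S_SERRE2 : Prop := ∀ (κ : Type) [Fintype κ] (w : ℤ) (m D B : ℕ),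
  ∃ T : Finset (κ ⊕ κ → ℕ), (∀ a ∈ T, Adm a) ∧ SerreSet2 w m D B T

/-- Exactness at a place: `P` is separable, and in every field of characteristic zero in which `P` and
`Q` split a product of roots of `P` and a root of `Q` (or `1`) which is, up to a root of unity, a power
of `q` contains two roots of `P` with product `q`. -/
def ExactAt2 (P Q : ℚ[X]) (q : ℕ) : Prop :=
  P.Separable ∧
  ∀ (E : Type) [Field E] [CharZero E], (P.map (Rat.castHom E)).Splits →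
    (Q.map (Rat.castHom E)).Splits →
    ∀ β : E, (β = 1 ∨ (Q.map (Rat.castHom E)).IsRoot β) →
      ExP (fun z : {z : E // (P.map (Rat.castHom E)).IsRoot z} => (z : E)) (q : E) β

/-- task FIELD2 -/
def S_FIELD2 : Prop := ∀ (κ : Type) [Fintype κ] (w : ℤ) (m D B : ℕ) (T : Finset (κ ⊕ κ → ℕ)),
  SerreSet2 w m D B T → SerreSet2 0 m D B T → ∀ (P Q : ℚ[X]) (p f : ℕ), p.Prime → 0 < f → f ≤ B →
  P.Monic → Q.Monic → finrank ℚ (P * Q).SplittingField ≤ D →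
  (∀ z : ℂ, aeval z P = 0 → ‖z‖ ^ 2 = (p : ℝ) ^ f ∧ IsIntegral ℤ (((p : ℂ) ^ f) ^ m * z)) →
  (∀ z : ℂ, aeval z Q = 0 → ‖z‖ ^ 2 = ((p : ℝ) ^ f) ^ w ∧ IsIntegral ℤ (((p : ℂ) ^ f) ^ m * z)) →
  LocalData T (P.map (Rat.castHom ℚ_[2])) (Q.map (Rat.castHom ℚ_[2])) ((p : ℚ_[2]) ^ f) →
  ExactAt2 P Q (p ^ f)

/-- task SS: semisimplicity at every prime number over the field of rational numbers -/
def S_SS : Prop := ∀ (K : Type) [Field K] [NumberField K], finrank ℚ K = 1 → ∀ (n w : ℕ), 0 < w →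
  ∀ (S : Set (HeightOneSpectrum (𝓞 K))), S.Finite → ∀ (P : HeightOneSpectrum (𝓞 K) → ℤ[X]),
  (∀ v ∉ S, (P v).Monic ∧
    ∀ z : ℂ, aeval z (P v) = 0 → ‖z‖ ^ 2 = (Ideal.absNorm v.asIdeal : ℝ) ^ w) →
  ∀ (ρ : ∀ (ℓ : ℕ) [Fact ℓ.Prime], GK K →* Matrix (Fin n) (Fin n) ℚ_[ℓ])
    (J : ∀ (ℓ : ℕ) [Fact ℓ.Prime], Matrix (Fin n) (Fin n) ℚ_[ℓ])
    (χ : ∀ (ℓ : ℕ) [Fact ℓ.Prime], GK K → ℚ_[ℓ]),
    (∀ (ℓ : ℕ) [Fact ℓ.Prime], Continuous (ρ ℓ) ∧ (J ℓ)ᵀ = -J ℓ ∧ (J ℓ).det ≠ 0 ∧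
      ∀ g, (ρ ℓ g)ᵀ * J ℓ * ρ ℓ g = χ ℓ g • J ℓ) →
    (∀ (ℓ : ℕ) [Fact ℓ.Prime], ∀ v ∉ S, (ℓ : 𝓞 K) ∉ v.asIdeal → ∀ σ : GK K,
      IsFrobenius v σ → (ρ ℓ σ⁻¹).charpoly = (P v).map (algebraMap ℤ ℚ_[ℓ]) ∧
      χ ℓ σ⁻¹ = (Ideal.absNorm v.asIdeal : ℚ_[ℓ]) ^ w) →
    (∀ X : Matrix (Fin n) (Fin n) ℚ_[2], SpLie (J 2) X → IsTangent 2 (ρ 2) X) →
  ∀ (ℓ : ℕ) [Fact ℓ.Prime] (Δ : Subgroup (GK K)), Δ.FiniteIndex →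
  ∀ U : Submodule ℚ_[ℓ] (Fin n → ℚ_[ℓ]), (∀ g ∈ Δ, ∀ x ∈ U, ρ ℓ g *ᵥ x ∈ U) →
  ∃ U' : Submodule ℚ_[ℓ] (Fin n → ℚ_[ℓ]), (∀ g ∈ Δ, ∀ x ∈ U', ρ ℓ g *ᵥ x ∈ U') ∧ IsCompl U U'

/-- task SUM: sums of twists of semisimple representations -/
def S_SUM : Prop := ∀ (ι : Type) [Fintype ι] (k G : Type) [Field k] [CharZero k] [Group G]
  (V : ι → Type) [∀ i, AddCommGroup (V i)] [∀ i, Module k (V i)] [∀ i, FiniteDimensional k (V i)]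
  (ρ : ∀ i, Representation k G (V i)) (c : ι → G →* k)
  (R : Representation k G (∀ i, V i)), (∀ g x i, R g x i = c i g • ρ i g (x i)) →
  (∀ i, ∀ Δ : Subgroup G, Δ.FiniteIndex → ∀ U : Submodule k (V i),
    (∀ s ∈ Δ, ∀ u ∈ U, ρ i s u ∈ U) →
    ∃ U' : Submodule k (V i), (∀ s ∈ Δ, ∀ u ∈ U', ρ i s u ∈ U') ∧ IsCompl U U') →
  ∀ Δ : Subgroup G, Δ.FiniteIndex → ∀ U : Submodule k (∀ i, V i),
    (∀ s ∈ Δ, ∀ u ∈ U, R s u ∈ U) →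
    ∃ U' : Submodule k (∀ i, V i), (∀ s ∈ Δ, ∀ u ∈ U', R s u ∈ U') ∧ IsCompl U U'

end Pool.Agent.N197.AP
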