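import Pool.Agent.N166.CZ.Def
import Pool.Agent.N197.AP.Stm2

/-!
# Project AP, part 3: statement of the task TATE2
-/

set_option autoImplicit false

open Polynomial
open Pool.Agent.N166.CZ (IsTateModule ProductsWith)

namespace Pool.Agent.N197.AP

/-- task TATE2 -/
def S_TATE2 : Prop := ∀ (k : Type) [Field k] [CharZero k] (V : Type) [AddCommGroup V] [Module k V]
  [FiniteDimensional k V] (Γ : Type) [Group Γ] (ρ : Representation k Γ V) (χ : Γ →* k),
  IsTateModule ρ χ → ∀ (γ : Γ) (P Q : ℚ[X]) (q : ℕ), χ γ = q →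
  (ρ γ).charpoly = P.map (Rat.castHom k) → Q ≠ 0 → ExactAt2 P Q q →
  ∀ (M : Type) [AddCommGroup M] [Module k M] [FiniteDimensional k M] (σ : Representation k Γ M),
    aeval (σ γ⁻¹) (Q.map (Rat.castHom k)) = 0 → ProductsWith ρ χ σ

end Pool.Agent.N197.AP
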