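import Pool.Agent.N197.AP.Place
import Pool.Agent.N197.AP.StmT2

/-!
# Project AP, part 3: a place which is exact, and the prime number `ℓ`
-/

set_option autoImplicit false

open Polynomial Filter Topology NumberField IsDedekindDomain Module Matrix
open Pool.Agent.Y142.ZO Pool.Agent.Y142.ZI Pool.Agent.Y142.ZS
open Pool.Agent.N166.CZ (IsTateModule ProductsWith)

namespace Pool.Agent.N197.AP

theorem SerreSet2.mono {κ : Type} [Fintype κ] {w : ℤ} {m D B : ℕ} {T T' : Finset (κ ⊕ κ → ℕ)}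
    (h : SerreSet2 w m D B T) (hT : T ⊆ T') : SerreSet2 w m D B T' := by
  intro E _ _ p f hp hf hfB hD α β h1 h2 h3 h4 h5 a ha hr
  obtain ⟨a', ha', h6⟩ := h E p f hp hf hfB hD α β h1 h2 h3 h4 h5 a ha hr
  exact ⟨a', hT ha', h6⟩

/-- task PLACE2 -/
def S_PLACE2 : Prop := ∀ (K : Type) [Field K] [NumberField K] (κ : Type) [Fintype κ] (n d m : ℕ)
  (w : ℤ) (ρ : GK K →* Matrix (Fin n) (Fin n) ℚ_[2]) (τ : GK K →* Matrix (Fin d) (Fin d) ℚ_[2])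
  (χ : GK K →* ℚ_[2]) (J : Matrix (Fin n) (Fin n) ℚ_[2]), 0 < n → Continuous ρ → Continuous τ →
  J.det ≠ 0 → (∀ g, (ρ g)ᵀ * J * ρ g = χ g • J) → Rich κ J ρ τ →
  ∀ S : Set (HeightOneSpectrum (𝓞 K)), S.Finite → ∀ P Q : HeightOneSpectrum (𝓞 K) → ℚ[X],
  (∀ v ∉ S, ∀ σ : GK K, IsFrobenius v σ →
    (ρ σ).charpoly = (P v).map (Rat.castHom ℚ_[2]) ∧
    (τ σ⁻¹).charpoly = (Q v).map (Rat.castHom ℚ_[2]) ∧
    χ σ = (Ideal.absNorm v.asIdeal : ℚ_[2])) →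
  (∀ v ∉ S, (∀ z : ℂ, aeval z (P v) = 0 → ‖z‖ ^ 2 = (Ideal.absNorm v.asIdeal : ℝ) ∧
      IsIntegral ℤ ((Ideal.absNorm v.asIdeal : ℂ) ^ m * z)) ∧
    ∀ z : ℂ, aeval z (Q v) = 0 → ‖z‖ ^ 2 = (Ideal.absNorm v.asIdeal : ℝ) ^ w ∧
      IsIntegral ℤ ((Ideal.absNorm v.asIdeal : ℂ) ^ m * z)) →
  ∀ T : Set (HeightOneSpectrum (𝓞 K)), T.Finite →
  ∃ v, v ∉ T ∧ v ∉ S ∧ ∃ σ : GK K, IsFrobenius v σ ∧ (Q v).Monic ∧
    ExactAt2 (P v) (Q v) (Ideal.absNorm v.asIdeal)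

theorem place2 (hNORM : S_NORM) (hDEG : S_DEG) (hSERRE : S_SERRE2) (hCHOICE : S_CHOICE)
    (hSMALL : S_SMALL) (hLOCAL : S_LOCAL) (hNEAR : S_NEAR) (hFIELD : S_FIELD2) (hCH : S_CH2) :
    S_PLACE2 := by
  classical
  intro K _ _ κ _ n d m w ρ τ χ J hn hρ hτ hJ hsim hrich S hS P Q hfrob hpure T hT
  obtain ⟨D, hD⟩ := hDEG (n + d)
  obtain ⟨T1, hT1, hs1⟩ := hSERRE κ w m D (finrank ℚ K)
  obtain ⟨T0, hT0, hs0⟩ := hSERRE κ 0 m D (finrank ℚ K)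
  have hTadm : ∀ a ∈ T1 ∪ T0, Adm a := by
    intro a ha
    rcases Finset.mem_union.1 ha with h | h
    · exact hT1 a h
    · exact hT0 a h
  obtain ⟨lam, hinj, hpos, hlam⟩ := hCHOICE κ (T1 ∪ T0) hTadm
  obtain ⟨X, hX, hXc, hXW⟩ := hrich lam hinj hpos
  obtain ⟨ε, k₁, hε, hloc⟩ := hLOCAL κ (T1 ∪ T0) lam hinj hpos hlam
  obtain ⟨δ, k₂, hδ, hch⟩ := hCH n hn X ε hε
  obtain ⟨v, hv, σ, hσ, k, hk, h1, h2, h3⟩ := hNEAR K n d ρ τ χ J hn hρ hτ hJ hsim X hX hXW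
    (min δ (ε / 2)) (max k₁ k₂) (lt_min hδ (by linarith)) (T ∪ S) (hT.union hS)
  have hvS : v ∉ S := fun h => hv (Or.inr h)
  obtain ⟨hP, hQ, hχ⟩ := hfrob v hvS σ hσ
  obtain ⟨hpP, hpQ⟩ := hpure v hvS
  have hinjZ : Function.Injective (Rat.castHom ℚ_[2]) := Rat.cast_injective
  have hPm : (P v).Monic := monic_of_injective hinjZ (by rw [← hP]; exact charpoly_monic _)
  have hQm : (Q v).Monic := monic_of_injective hinjZ (by rw [← hQ]; exact charpoly_monic _)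
  refine ⟨v, fun h => hv (Or.inl h), hvS, σ, hσ, hQm, ?_⟩
  obtain ⟨p, f, hp, hf0, hfB, hN⟩ := hNORM K v
  rw [hN]
  rw [hN] at hpP hpQ hχ
  push_cast at hpP hpQ hχ
  have hdP : (P v).natDegree = n := by
    rw [← natDegree_map_eq_of_injective hinjZ (P v), ← hP, charpoly_natDegree_eq_dim,
      Fintype.card_fin]
  have hdQ : (Q v).natDegree = d := by
    rw [← natDegree_map_eq_of_injective hinjZ (Q v), ← hQ, charpoly_natDegree_eq_dim,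
      Fintype.card_fin]
  refine hFIELD κ w m D (finrank ℚ K) (T1 ∪ T0) (hs1.mono Finset.subset_union_left)
    (hs0.mono Finset.subset_union_right) (P v) (Q v) p f hp hf0 hfB hPm hQm (hD _ ?_ ?_)
    hpP hpQ (hloc k ((le_max_left _ _).trans hk) _ _ _ (hPm.map _) ?_ ?_ ?_ ?_)
  · exact (hPm.mul hQm).ne_zero
  · rw [hPm.natDegree_mul hQm, hdP, hdQ]
  · rw [← hP, ← hXc, charpoly_natDegree_eq_dim, charpoly_natDegree_eq_dim]
  · intro j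
    rw [← hP, ← hXc]
    exact hch k (ρ σ) ((le_max_right _ _).trans hk)
      (fun a b => (h1 a b).trans_le (min_le_left _ _)) j
  · intro β hβ
    rw [← hQ] at hβ
    refine (hSMALL d k (τ σ⁻¹) (ε / 2) (fun a b => ((h2 a b).trans_le (min_le_right _ _)).le)
      β hβ).trans_lt (by linarith)
  · rw [← hχ]
    exact (h3.trans_le (min_le_right _ _)).trans (by linarith)

/-- one representation over the 2-adic numbers -/
theorem main20 (hPLACE : S_PLACE2) (hTATE : S_TATE2) {K : Type} [Field K] [NumberField K]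
    {κ : Type} [Fintype κ] {n d m : ℕ} {w : ℤ}
    {ρ : GK K →* Matrix (Fin n) (Fin n) ℚ_[2]} {τ : GK K →* Matrix (Fin d) (Fin d) ℚ_[2]}
    {χ : GK K →* ℚ_[2]} {J : Matrix (Fin n) (Fin n) ℚ_[2]} (hn : 0 < n) (hρ : Continuous ρ)
    (hτ : Continuous τ) (hJ : J.det ≠ 0) (hsim : ∀ g, (ρ g)ᵀ * J * ρ g = χ g • J)
    (hrich : Rich κ J ρ τ) {S : Set (HeightOneSpectrum (𝓞 K))} (hS : S.Finite)
    {P Q : HeightOneSpectrum (𝓞 K) → ℚ[X]}
    (hfrob : ∀ v ∉ S, ∀ σ : GK K, IsFrobenius v σ →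
      (ρ σ).charpoly = (P v).map (Rat.castHom ℚ_[2]) ∧
      (τ σ⁻¹).charpoly = (Q v).map (Rat.castHom ℚ_[2]) ∧
      χ σ = (Ideal.absNorm v.asIdeal : ℚ_[2]))
    (hpure : ∀ v ∉ S, (∀ z : ℂ, aeval z (P v) = 0 → ‖z‖ ^ 2 = (Ideal.absNorm v.asIdeal : ℝ) ∧
        IsIntegral ℤ ((Ideal.absNorm v.asIdeal : ℂ) ^ m * z)) ∧
      ∀ z : ℂ, aeval z (Q v) = 0 → ‖z‖ ^ 2 = (Ideal.absNorm v.asIdeal : ℝ) ^ w ∧
        IsIntegral ℤ ((Ideal.absNorm v.asIdeal : ℂ) ^ m * z))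
    {k : Type} [Field k] [CharZero k] {V M : Type} [AddCommGroup V] [Module k V]
    [FiniteDimensional k V] [AddCommGroup M] [Module k M] [FiniteDimensional k M]
    {r : Representation k (GK K) V} {c : GK K →* k} {s : Representation k (GK K) M}
    (hV : IsTateModule r c) {T : Set (HeightOneSpectrum (𝓞 K))} (hT : T.Finite)
    (hsys : ∀ v ∉ T, ∀ σ : GK K, IsFrobenius v σ → c σ = (Ideal.absNorm v.asIdeal : k) ∧
      (r σ).charpoly = (P v).map (Rat.castHom k) ∧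
      aeval (s σ⁻¹) ((Q v).map (Rat.castHom k)) = 0) :
    ProductsWith r c s := by
  obtain ⟨v, hvT, -, σ, hσ, hQ, hex⟩ := hPLACE K κ n d m w ρ τ χ J hn hρ hτ hJ hsim hrich S hS P Q
    hfrob hpure T hT
  obtain ⟨h1, h2, h3⟩ := hsys v hvT σ hσ
  exact hTATE k V (GK K) r c hV σ (P v) (Q v) _ h1 h2 hQ.ne_zero hex M s h3

end Pool.Agent.N197.AP
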