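import Pool.Agent.N197.AP.Stm3

/-!
# Project AP, part 2: isomorphic representations (statements)
-/

set_option autoImplicit false

open Polynomial Filter Topology Module Matrix

namespace Pool.Agent.N197.AP

/-- task GLUE0: isomorphic matrix representations -/
def S_GLUE0 : Prop := ∀ (G : Type) [Group G] (a b : ℕ) (A : G →* Matrix (Fin a) (Fin a) ℚ_[2])
  (B : G →* Matrix (Fin b) (Fin b) ℚ_[2]) (L : (Fin a → ℚ_[2]) ≃ₗ[ℚ_[2]] (Fin b → ℚ_[2])),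
  (∀ g x, L (A g *ᵥ x) = B g *ᵥ L x) →
  (∀ g, (A g).charpoly = (B g).charpoly) ∧
  ∀ [TopologicalSpace G], Continuous B → Continuous A

/-- task GLUE -/
def S_GLUE : Prop := ∀ (ι : Type) [Fintype ι] [DecidableEq ι] (N : ι → ℕ) (G : Type) [Group G]
  (ρ : ∀ i, G →* Matrix (Fin (N i)) (Fin (N i)) ℚ_[2]) (V : ι → Type) [∀ i, AddCommGroup (V i)]
  [∀ i, Module ℚ_[2] (V i)] (σ : ∀ i, Representation ℚ_[2] G (V i)),
  (∀ i, ∃ e : (Fin (N i) → ℚ_[2]) ≃ₗ[ℚ_[2]] V i, ∀ g x, e (ρ i g *ᵥ x) = σ i g (e x)) →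
  ∀ (n : ℕ) (R : G →* Matrix (Fin n) (Fin n) ℚ_[2]) (E : (Fin n → ℚ_[2]) ≃ₗ[ℚ_[2]] (∀ i, V i)),
  (∀ g x i, E (R g *ᵥ x) i = σ i g (E x i)) →
  (∀ g, (blkHom ρ g).charpoly = (R g).charpoly) ∧
  ∀ [TopologicalSpace G], Continuous R → Continuous (blkHom ρ)

end Pool.Agent.N197.AP
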