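import Pool.Agent.N197.AP.Fin
import Pool.Agent.N197.AP.Place2
import Pool.Agent.N197.AP.StmG
import Pool.Agent.N197.AP.L_PAT2
import Pool.Agent.N197.AP.L_SERRE2
import Pool.Agent.N197.AP.L_FIELD2
import Pool.Agent.N197.AP.L_TATE2
import Pool.Agent.N197.AP.L_MAT
import Pool.Agent.N197.AP.L_HYP
import Pool.Agent.N197.AP.L_LIM
import Pool.Agent.N197.AP.L_CYC
import Pool.Agent.N197.AP.L_GLUE

/-!
# Project AP, part 2: hyperelliptic Jacobians, all prime numbers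
-/

set_option autoImplicit false

open Polynomial Filter Topology NumberField IsDedekindDomain Module Matrix
open Pool.Agent.Y142.ZO Pool.Agent.Y142.ZI Pool.Agent.Y142.ZS
open Pool.Agent.N166.CZ (IsTateModule ProductsWith)
open Pool.Agent.N171 Pool.Agent.N197.Htj
open scoped Classical

namespace Pool.Agent.N197.AP

theorem t_PLACE2' : S_PLACE2 :=
  place2 t_NORM t_DEG (t_SERRE2 t_KRON t_VAL t_PAT2) t_CHOICE t_SMALL (t_LOCAL t_PROD) t_NEAR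
    t_FIELD2 t_CH2

/-- from the Galois data to all prime numbers -/
theorem holds_of_gd {K : Type} [Field K] [NumberField K] {ι : Type} [Fintype ι] [Nonempty ι]
    (f : ι → K[X]) [∀ i, HypP (f i)] {n d m : ℕ} {w : ℤ}
    (τ : GK K →* Matrix (Fin d) (Fin d) ℚ_[2]) (hτ : Continuous τ) (hGD : GD f (matRep τ))
    (S : Set (HeightOneSpectrum (𝓞 K))) (hS : S.Finite)
    (P : HeightOneSpectrum (𝓞 K) → ℚ[X]) (Q : HeightOneSpectrum (𝓞 K) → ℚ[X])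
    (hP : ∀ v ∉ S, ∀ z : ℂ, aeval z (P v) = 0 →
      ‖z‖ ^ 2 = (Ideal.absNorm v.asIdeal : ℝ) ∧ IsIntegral ℤ ((Ideal.absNorm v.asIdeal : ℂ) ^ m * z))
    (hQ : ∀ v ∉ S, ∀ z : ℂ, aeval z (Q v) = 0 →
      ‖z‖ ^ 2 = (Ideal.absNorm v.asIdeal : ℝ) ^ w ∧
        IsIntegral ℤ ((Ideal.absNorm v.asIdeal : ℂ) ^ m * z))
    (R : GK K →* Matrix (Fin n) (Fin n) ℚ_[2]) (hR : Continuous R)
    (E : (Fin n → ℚ_[2]) ≃ₗ[ℚ_[2]] (∀ i, Vt (JacP (f i) (AlgebraicClosure K))))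
    (hE : ∀ g x i, E (R g *ᵥ x) i = vRep (JacP (f i) (AlgebraicClosure K)) (GK K) g (E x i))
    (hRP : ∀ v ∉ S, (2 : 𝓞 K) ∉ v.asIdeal → ∀ σ : GK K, IsFrobenius v σ →
      (R σ).charpoly = (P v).map (Rat.castHom ℚ_[2]))
    (hτQ : ∀ v ∉ S, (2 : 𝓞 K) ∉ v.asIdeal → ∀ σ : GK K, IsFrobenius v σ →
      (τ σ⁻¹).charpoly = (Q v).map (Rat.castHom ℚ_[2]))
    (ℓ : ℕ) [hℓ : Fact ℓ.Prime] (V M : Type) [AddCommGroup V] [Module ℚ_[ℓ] V]
    [FiniteDimensional ℚ_[ℓ] V] [AddCommGroup M] [Module ℚ_[ℓ] M] [FiniteDimensional ℚ_[ℓ] M]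
    (r : Representation ℚ_[ℓ] (GK K) V) (c : GK K →* ℚ_[ℓ])
    (s : Representation ℚ_[ℓ] (GK K) M) (hr : IsTateModule r c)
    (hf : ∀ v ∉ S, (ℓ : 𝓞 K) ∉ v.asIdeal → ∀ σ : GK K, IsFrobenius v σ →
      c σ = (Ideal.absNorm v.asIdeal : ℚ_[ℓ]) ∧
      LinearMap.charpoly (r σ) = (P v).map (Rat.castHom ℚ_[ℓ]) ∧
      LinearMap.charpoly (s σ⁻¹) = (Q v).map (Rat.castHom ℚ_[ℓ])) :
    ProductsWith r c s := by
  obtain ⟨N, d', ρ, J, t, hN, hJ, hdet, hsim, hiso, ⟨e', he'⟩, hfull⟩ :=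
    t_HYP t_MAT K (AlgebraicClosure K) ι f (Fin d → ℚ_[2]) (matRep τ) hGD
  obtain ⟨hg1, hg2⟩ := t_GLUE ι N (GK K) ρ (fun i => Vt (JacP (f i) (AlgebraicClosure K)))
    (fun i => vRep (JacP (f i) (AlgebraicClosure K)) (GK K)) hiso n R E hE
  obtain ⟨hg3, hg4⟩ := t_GLUE0 (GK K) d' d t τ e' he'
  obtain ⟨h1, h2, h3, h4, h5⟩ := t_BLOCK ι N d' (GK K) ρ t J hJ hdet hfull
  obtain ⟨i₀⟩ := ‹Nonempty ι›
  have hn : 0 < ∑ i, N i := Finset.sum_pos (fun i _ => hN i) ⟨i₀, Finset.mem_univ _⟩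
  refine main20 t_PLACE2' t_TATE2 (m := m) (w := w) hn (hg2 hR) (hg4 hτ) h2
    (h3 (cycQ K (AlgebraicClosure K)) fun i g => hsim i g) h1
    (S := S ∪ {v | ((2 : ℕ) : 𝓞 K) ∈ v.asIdeal})
    (hS.union (finite_above 2 Nat.prime_two)) (P := P) (Q := Q)
    (fun v hv σ hσ => ?_) (fun v hv => ⟨hP v fun h => hv (Or.inl h), hQ v fun h => hv (Or.inl h)⟩)
    (r := r) hr (T := S ∪ {v | (ℓ : 𝓞 K) ∈ v.asIdeal}) (hS.union (finite_above ℓ hℓ.out))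
    fun v hv σ hσ => ?_
  · have hv1 : v ∉ S := fun h => hv (Or.inl h)
    have hv2 : (2 : 𝓞 K) ∉ v.asIdeal := fun h => hv (Or.inr (by
      rw [Set.mem_setOf_eq, Nat.cast_ofNat]; exact h))
    refine ⟨?_, ?_, t_CYC K v σ hv2 hσ⟩
    · rw [hg1]
      exact hRP v hv1 hv2 σ hσ
    · rw [hg3]
      exact hτQ v hv1 hv2 σ hσ
  · have hv1 : v ∉ S := fun h => hv (Or.inl h)
    have hv2 : (ℓ : 𝓞 K) ∉ v.asIdeal := fun h => hv (Or.inr h)
    obtain ⟨h6, h7, h8⟩ := hf v hv1 hv2 σ hσ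
    refine ⟨h6, h7, ?_⟩
    rw [← h8]
    exact LinearMap.aeval_self_charpoly _

theorem trivMod_int {G : Type} [Group G] {d : ℕ} (τ : G →* Matrix (Fin d) (Fin d) ℚ_[2])
    (hint : ∀ g a b, ‖τ g a b‖ ≤ 1) (s : G) :
    TrivMod (Pi.basisFun ℚ_[2] (Fin d)) (matRep τ s) 0 := by
  intro i j
  have h1 : (Pi.basisFun ℚ_[2] (Fin d)).repr (matRep τ s (Pi.basisFun ℚ_[2] (Fin d) i)) j =
      τ s j i := by
    rw [Pi.basisFun_repr, Pi.basisFun_apply, matRep_apply, mulVec_single_one]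
    rfl
  rw [h1]
  refine ⟨⟨τ s j i, hint s j i⟩ - (if i = j then 1 else 0), ?_⟩
  rw [pow_zero, one_mul]
  split_ifs <;> push_cast <;> ring

/-- **almost all tuples** -/
theorem fin2 {K : Type} [Field K] [NumberField K] {ι : Type} [Fintype ι] [Nonempty ι] (n : ι → ℕ)
    (h7 : ∀ i, 7 ≤ n i) (ho : ∀ i, Odd (n i)) {d : ℕ}
    (τ : GK K →* Matrix (Fin d) (Fin d) ℚ_[2]) (hint : ∀ g a b, ‖τ g a b‖ ≤ 1)
    (B : ℕ → Finset ((Σ i, Fin (n i)) → 𝓞 K)) (hB : ∀ i, (B i).Nonempty)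
    (heq : ∀ M : Ideal (𝓞 K), Finite (𝓞 K ⧸ M) → ∀ x : (Σ i, Fin (n i)) → 𝓞 K ⧸ M,
      Tendsto (fun i => (((B i).filter (fun y => ∀ j, Ideal.Quotient.mk M (y j) = x j)).card : ℝ) /
        ((B i).card : ℝ)) atTop
        (𝓝 (1 / (Nat.card (𝓞 K ⧸ M) : ℝ) ^ (Fintype.card (Σ i, Fin (n i))))))
    (C : (ι → K[X]) → Prop) (hC : ∀ f : ι → K[X], (∀ i, HypP (f i)) → GD f (matRep τ) → C f) :
    Tendsto (fun i => (((B i).filter (fun y => C (poly K y))).card : ℝ) / ((B i).card : ℝ))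
      atTop (𝓝 1) := by
  have h1 := t_LIM (𝓞 K) K ι n (NumberField.RingOfIntegers.not_isField K) two_ne_zero h7 ho K
    (AlgebraicClosure K) (Fin d → ℚ_[2]) (matRep τ)
    ⟨d, Pi.basisFun ℚ_[2] (Fin d), fun s => trivMod_int τ hint s⟩ B hB heq
  refine tendsto_of_tendsto_of_tendsto_of_le_of_le h1 tendsto_const_nhds (fun i => ?_) (fun i => ?_)
  · have h0 : (0 : ℝ) < ((B i).card : ℝ) := by exact_mod_cast (hB i).card_pos
    apply div_le_div_of_nonneg_right _ h0.le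
    refine Nat.cast_le.2 (Finset.card_le_card fun y hy => ?_)
    rw [Finset.mem_filter] at hy ⊢
    refine ⟨hy.1, ?_⟩
    have h2 : (fun i => (poly K y i).map (algebraMap K K)) = poly K y := by
      funext i
      rw [Algebra.algebraMap_self, Polynomial.map_id]
    obtain ⟨h3, h4⟩ := hy.2
    rw [h2] at h4
    have h5 : ∀ i, HypP (poly K y i) := fun i => by
      have h6 := h3 i
      rwa [Algebra.algebraMap_self, Polynomial.map_id] at h6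
    exact hC _ h5 h4
  · have h0 : (0 : ℝ) < ((B i).card : ℝ) := by exact_mod_cast (hB i).card_pos
    show _ / _ ≤ (1 : ℝ)
    rw [div_le_one h0]
    exact_mod_cast Finset.card_filter_le _ _

end Pool.Agent.N197.AP
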