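import Pool.Agent.N197.AP.Stm3

/-!
# Project AP, task PI: the sum of representations in symplectic similitudes
-/

set_option autoImplicit false

open Polynomial Module Matrix

namespace Pool.Agent.N197.AP

namespace PI

section block
variable {F : Type} [CommRing F] {ι : Type} [Fintype ι] [DecidableEq ι] {N : ι → ℕ}

theorem det_block (M : ∀ i, Matrix (Fin (N i)) (Fin (N i)) F) :
    (blockDiagonal' M).det = ∏ i, (M i).det := by
  letI : LinearOrder ι := LinearOrder.lift' (Fintype.equivFin ι) (Fintype.equivFin ι).injective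
  rw [(Matrix.blockTriangular_blockDiagonal' M).det_fintype]
  refine Finset.prod_congr rfl fun k _ => ?_
  let e : Fin (N k) ≃ {x : Σ i, Fin (N i) // x.1 = k} :=
    { toFun := fun a => ⟨⟨k, a⟩, rfl⟩
      invFun := fun x => x.2 ▸ x.1.2
      left_inv := fun a => rfl
      right_inv := by
        rintro ⟨⟨i, a⟩, h⟩
        have h' : i = k := h
        subst h'
        rfl }
  rw [← Matrix.det_submatrix_equiv_self e]
  congr 1
  ext a b
  rw [submatrix_apply, toSquareBlock, toSquareBlockProp]
  exact blockDiagonal'_apply_eq M k a b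

theorem charpoly_block (M : ∀ i, Matrix (Fin (N i)) (Fin (N i)) F) :
    (blockDiagonal' M).charpoly = ∏ i, (M i).charpoly := by
  have h1 : charmatrix (blockDiagonal' M) = blockDiagonal' (fun i => charmatrix (M i)) := by
    ext ⟨i, a⟩ ⟨j, b⟩
    by_cases h : i = j
    · subst h
      rw [charmatrix_apply, blockDiagonal'_apply_eq, blockDiagonal'_apply_eq, charmatrix_apply]
      congr 1
      by_cases hab : a = b
      · subst hab
        rw [diagonal_apply_eq, diagonal_apply_eq]
      · rw [diagonal_apply_ne _ hab, diagonal_apply_ne]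
        intro h
        exact hab (by simpa using h)
    · rw [charmatrix_apply, blockDiagonal'_apply_ne _ _ _ h, blockDiagonal'_apply_ne _ _ _ h,
        diagonal_apply_ne, map_zero, sub_zero]
      intro h'
      exact h (congrArg Sigma.fst h')
  unfold Matrix.charpoly
  rw [h1, det_block]

end block

section
variable {ι : Type} [Fintype ι] {N : ι → ℕ} {k G : Type} [Field k] [Group G]
  (r : ∀ i, G →* Matrix (Fin (N i)) (Fin (N i)) k)

theorem charpoly_pi (g : G) :
    LinearMap.charpoly (piRepr (fun i => matRep (r i)) g) = ∏ i, (r i g).charpoly := by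
  classical
  rw [← charpoly_block, ← LinearMap.charpoly_toMatrix (piRepr (fun i => matRep (r i)) g)
    (Pi.basis fun i => Pi.basisFun k (Fin (N i)))]
  congr 1
  ext ⟨i, a⟩ ⟨j, c⟩
  rw [LinearMap.toMatrix_apply, Pi.basis_repr, Pi.basis_apply, Pi.basisFun_repr]
  change (matRep (r i) g ((Pi.single j (Pi.basisFun k (Fin (N j)) c) : ∀ i, Fin (N i) → k) i)) a = _
  rw [matRep_apply]
  by_cases h : i = j
  · subst h
    rw [Pi.single_eq_same, blockDiagonal'_apply_eq, Pi.basisFun_apply, mulVec_single_one]
    rfl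
  · rw [Pi.single_eq_of_ne h, mulVec_zero, blockDiagonal'_apply_ne _ _ _ h]
    rfl

/-- the form -/
noncomputable def om (J : ∀ i, Matrix (Fin (N i)) (Fin (N i)) k) :
    (∀ i, Fin (N i) → k) →ₗ[k] (∀ i, Fin (N i) → k) →ₗ[k] k :=
  LinearMap.mk₂ k (fun x y => ∑ i, x i ⬝ᵥ (J i *ᵥ y i))
    (fun x x' y => by
      rw [← Finset.sum_add_distrib]
      exact Finset.sum_congr rfl fun i _ => by rw [Pi.add_apply, add_dotProduct])
    (fun c x y => by
      rw [smul_eq_mul, Finset.mul_sum]
      exact Finset.sum_congr rfl fun i _ => by rw [Pi.smul_apply, smul_dotProduct, smul_eq_mul])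
    (fun x y y' => by
      rw [← Finset.sum_add_distrib]
      exact Finset.sum_congr rfl fun i _ => by rw [Pi.add_apply, mulVec_add, dotProduct_add])
    (fun c x y => by
      rw [smul_eq_mul, Finset.mul_sum]
      exact Finset.sum_congr rfl fun i _ => by
        rw [Pi.smul_apply, mulVec_smul, dotProduct_smul, smul_eq_mul])

theorem om_apply (J : ∀ i, Matrix (Fin (N i)) (Fin (N i)) k) (x y : ∀ i, Fin (N i) → k) :
    om J x y = ∑ i, x i ⬝ᵥ (J i *ᵥ y i) := rfl

end

end PI

open PI in
theorem t_PI (h : S_SUM) : S_PI := by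
  classical
  intro ι _ N k G _ _ _ r J χ hJ hdet hr
  refine ⟨fun g => charpoly_pi r g, ⟨om J, fun v => ?_, fun u hu => ?_, fun s u v => ?_⟩, ?_⟩
  · rw [om_apply]
    refine Finset.sum_eq_zero fun i _ => ?_
    have h1 : v i ⬝ᵥ (J i *ᵥ v i) = -(v i ⬝ᵥ (J i *ᵥ v i)) := by
      conv_lhs => rw [dotProduct_mulVec, ← mulVec_transpose, hJ, neg_mulVec, neg_dotProduct,
        dotProduct_comm]
    have h2 : (2 : k) * (v i ⬝ᵥ (J i *ᵥ v i)) = 0 := by
      rw [two_mul]
      nth_rewrite 1 [h1]
      exact neg_add_cancel _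
    exact (mul_eq_zero.1 h2).resolve_left two_ne_zero
  · funext i
    have h1 : J i *ᵥ u i = 0 := by
      funext a
      have h2 := hu (Pi.single i (Pi.single a 1))
      rw [om_apply, Finset.sum_eq_single i, Pi.single_eq_same, single_dotProduct, one_mul] at h2
      · exact h2
      · intro j _ hj
        rw [Pi.single_eq_of_ne hj, zero_dotProduct]
      · intro hi
        exact absurd (Finset.mem_univ i) hi
    have h3 : Function.Injective (J i).mulVec :=
      Matrix.mulVec_injective_of_isUnit ((Matrix.isUnit_iff_isUnit_det _).2 (isUnit_iff_ne_zero.2 (hdet i)))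
    apply h3
    rw [h1]
    exact (mulVec_zero _).symm
  · rw [om_apply, om_apply, Finset.mul_sum]
    refine Finset.sum_congr rfl fun i _ => ?_
    rw [piRepr_apply, piRepr_apply, matRep_apply, matRep_apply]
    have h1 : r i s *ᵥ u i ⬝ᵥ (J i *ᵥ (r i s *ᵥ v i)) =
        u i ⬝ᵥ (((r i s)ᵀ * J i * r i s) *ᵥ v i) := by
      rw [mul_assoc, ← mulVec_mulVec, ← mulVec_mulVec, dotProduct_mulVec (u i), vecMul_transpose]
    rw [h1, hr, smul_mulVec, dotProduct_smul, smul_eq_mul]
  · intro hss
    exact h ι k G (fun i => Fin (N i) → k) (fun i => matRep (r i)) (fun _ => 1)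
      (piRepr (fun i => matRep (r i))) (fun g x i => by
        rw [piRepr_apply, MonoidHom.one_apply, one_smul]) hss

end Pool.Agent.N197.AP
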