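import Pool.Agent.R932.SQ.Main
import Pool.Agent.N171.TG.Cli
import Pool.Agent.N197.AP.Stm2

/-!
# Project AP, part 3, task SS: semisimplicity at every prime number over the rational numbers
-/

set_option autoImplicit false

open Polynomial Filter Topology NumberField IsDedekindDomain Module Matrix
open Pool.Agent.Y142.ZO Pool.Agent.Y142.ZI Pool.Agent.Y142.ZS

namespace Pool.Agent.N197.AP

/-- the linear maps of a matrix representation -/
noncomputable def endR {F : Type} [Field F] {n : ℕ} {Γ : Type} [Group Γ]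
    (ρ : Γ →* Matrix (Fin n) (Fin n) F) : Γ →* Module.End F (Fin n → F) :=
  ((Matrix.toLinAlgEquiv' (R := F) (n := Fin n)).toAlgHom.toRingHom.toMonoidHom).comp ρ

theorem t_SS : S_SS := by
  intro K _ _ hK n w hw S hS P hP ρ J χ hρ hfrob hfull ℓ hℓ Δ hΔ U hU
  have hss : Pool.Agent.N171.TG.SSu (endR (ρ ℓ)) Δ := by
    refine Pool.Agent.N171.TG.SSu.finite_index (fun M hM => ?_) Δ hΔ
    obtain ⟨h1, h2⟩ := Pool.Agent.R932.SQ.semisimple_full hK (MonoidHom.id (GK K)) hw hS P hP ρ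
      (fun ℓ _ => (hρ ℓ).1) J (fun ℓ _ => Or.inr (hρ ℓ).2.1) (fun ℓ _ => (hρ ℓ).2.2.1) χ
      (fun ℓ _ => (hρ ℓ).2.2.2) hfrob 2 hfull ℓ M (fun g x hx => hM g (Subgroup.mem_top g) x hx)
    exact ⟨_, fun g _ x hx => h2 g x hx, h1⟩
  obtain ⟨U', h1, h2⟩ := hss U hU
  exact ⟨U', h1, h2⟩

end Pool.Agent.N197.AP
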