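import Pool.Agent.N197.AP.Stm3

/-!
# Project AP, part 3, task SS2 (helper814): the reduction to SS by a twist
-/

set_option autoImplicit false

open Polynomial Filter Topology NumberField IsDedekindDomain Module Matrix
open Pool.Agent.Y142.ZO Pool.Agent.Y142.ZI Pool.Agent.Y142.ZS

namespace Pool.Agent.N197.AP.SS2

/-- the characteristic polynomial of a multiple (after `Pool/Agent/N536/OP/Semi.lean`) -/
theorem cp_smul {F : Type} [Field F] [Infinite F] {n : ℕ} (A : Matrix (Fin n) (Fin n) F)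
    {c : F} (hc : c ≠ 0) : (c • A).charpoly = A.charpoly.scaleRoots c := by
  refine Polynomial.funext fun x => ?_
  have h1 : x = c * (x / c) := by field_simp
  rw [Matrix.eval_charpoly, h1]
  have h2 : (Matrix.scalar (Fin n)) (c * (x / c)) - c • A = c • ((Matrix.scalar (Fin n)) (x / c) - A) := by
    rw [smul_sub]
    congr 1
    ext i j
    simp [Matrix.diagonal_apply, mul_ite]
  rw [h2, Matrix.det_smul, ← Matrix.eval_charpoly, Fintype.card_fin]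
  have h3 := Polynomial.scaleRoots_eval₂_mul (p := A.charpoly) (RingHom.id F) (x / c) c
  simp only [RingHom.id_apply] at h3
  rw [Polynomial.eval₂_id, Polynomial.eval₂_id] at h3
  rw [h3, Matrix.charpoly_natDegree_eq_dim, Fintype.card_fin]

/-- a rational polynomial whose complex roots are integral comes from an integral polynomial -/
theorem lift_int (p : ℚ[X]) (hp : p.Monic) (h : ∀ z : ℂ, aeval z p = 0 → IsIntegral ℤ z) :
    ∃ Q : ℤ[X], Q.Monic ∧ Q.map (Int.castRingHom ℚ) = p := by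
  have h1 : p.map (algebraMap ℚ ℂ) ∈ Polynomial.lifts (algebraMap (integralClosure ℤ ℂ) ℂ) := by
    rw [(IsAlgClosed.splits (p.map (algebraMap ℚ ℂ))).eq_prod_roots_of_monic (hp.map _)]
    refine Subsemiring.multiset_prod_mem _ _ fun f hf => ?_
    obtain ⟨a, ha, rfl⟩ := Multiset.mem_map.1 hf
    have h2 : aeval a p = 0 := by
      have h3 := (Polynomial.mem_roots'.1 ha).2
      rw [Polynomial.IsRoot.def, Polynomial.eval_map] at h3
      exact h3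
    rw [Polynomial.mem_lifts]
    exact ⟨X - C ⟨a, h a h2⟩, by simp⟩
  have h2 : p ∈ Polynomial.lifts (Int.castRingHom ℚ) := by
    rw [Polynomial.lifts_iff_coeff_lifts] at h1 ⊢
    intro i
    obtain ⟨y, hy⟩ := h1 i
    rw [Polynomial.coeff_map] at hy
    have h3 : IsIntegral ℤ (algebraMap ℚ ℂ (p.coeff i)) := by
      rw [← hy]
      exact y.2
    have h4 : IsIntegral ℤ (p.coeff i) :=
      (isIntegral_algebraMap_iff (algebraMap ℚ ℂ).injective).1 h3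
    obtain ⟨t, ht⟩ := IsIntegrallyClosed.isIntegral_iff.1 h4
    exact ⟨t, ht⟩
  obtain ⟨Q, h3, _, h4⟩ := Polynomial.lifts_and_natDegree_eq_and_monic h2 hp
  exact ⟨Q, h4, h3⟩

section
variable {G F : Type} [Group G] [Field F] {n : ℕ}

theorem chi_ne (χ : G →* F) (g : G) : χ g ≠ 0 := by
  intro h
  have h1 : χ (g * g⁻¹) = 1 := by rw [mul_inv_cancel, map_one]
  rw [map_mul, h, zero_mul] at h1
  exact zero_ne_one h1

theorem chi_inv (χ : G →* F) (g : G) : χ g⁻¹ = (χ g)⁻¹ := by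
  refine eq_inv_of_mul_eq_one_left ?_
  rw [← map_mul, inv_mul_cancel, map_one]

/-- the twist -/
def tw (r : G →* Matrix (Fin n) (Fin n) F) (χ : G →* F) (k : ℕ) :
    G →* Matrix (Fin n) (Fin n) F where
  toFun g := (χ g)⁻¹ ^ k • r g
  map_one' := by rw [map_one, map_one, inv_one, one_pow, one_smul]
  map_mul' g h := by rw [map_mul, map_mul, mul_inv, mul_pow, smul_mul_smul_comm]

theorem tw_apply (r : G →* Matrix (Fin n) (Fin n) F) (χ : G →* F) (k : ℕ) (g : G) :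
    tw r χ k g = (χ g)⁻¹ ^ k • r g := rfl

/-- the characteristic polynomial of the multiple of the inverse -/
theorem cp_inv [Infinite F] (r : G →* Matrix (Fin n) (Fin n) F) (χ : G →* F)
    (J : Matrix (Fin n) (Fin n) F) (hJ : J.det ≠ 0) (h : ∀ g, (r g)ᵀ * J * r g = χ g • J)
    (g : G) (m : ℕ) : (χ g ^ (m + 1) • r g⁻¹).charpoly = (χ g ^ m • r g).charpoly := by
  have hu : IsUnit J.det := isUnit_iff_ne_zero.2 hJ
  have h1 : J * (χ g ^ m • r g) * J⁻¹ = (χ g ^ (m + 1) • r g⁻¹)ᵀ := by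
    have h2 : r g⁻¹ * r g = 1 := by rw [← map_mul, inv_mul_cancel, map_one]
    have h2' : r g * r g⁻¹ = 1 := by rw [← map_mul, mul_inv_cancel, map_one]
    have h3 : (r g⁻¹)ᵀ * ((r g)ᵀ * J * r g) = J * r g := by
      rw [← mul_assoc, ← mul_assoc, ← transpose_mul, h2', transpose_one, one_mul]
    rw [h g] at h3
    rw [Matrix.mul_smul, ← h3, Matrix.mul_smul, smul_smul, Matrix.smul_mul,
      Matrix.mul_nonsing_inv_cancel_right _ _ hu, transpose_smul, pow_succ]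
  have h2 : (J * (χ g ^ m • r g) * J⁻¹).charpoly = (χ g ^ m • r g).charpoly := by
    have h3 := Matrix.charpoly_units_conj (Matrix.nonsingInvUnit J hu) (χ g ^ m • r g)
    exact h3
  rw [← h2, h1, Matrix.charpoly_transpose]

end

/-- the multiplier near the tangent vector -/
theorem chi_tan {G : Type} [Group G] {N : ℕ} (hN : 0 < N) (ρ : G →* Matrix (Fin N) (Fin N) ℚ_[2])
    (χ : G →* ℚ_[2]) (J X : Matrix (Fin N) (Fin N) ℚ_[2]) (hJ : J.det ≠ 0)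
    (hχ : ∀ g, (ρ g)ᵀ * J * ρ g = χ g • J) (hX : SpLie J X) (s : ℕ → G)
    (hs : Tendsto (fun n : ℕ => (((2 : ℕ) : ℚ_[2]) ^ n)⁻¹ • (ρ (s n) - 1)) atTop (𝓝 X)) :
    Tendsto (fun n : ℕ => (((2 : ℕ) : ℚ_[2]) ^ n)⁻¹ * (χ (s n) - 1)) atTop (𝓝 0) := by
  obtain ⟨a₀, b₀, hab⟩ : ∃ a b, J a b ≠ 0 := by
    by_contra hcon
    push Not at hcon
    have h1 : J = 0 := by ext a b; exact hcon a b
    have : Nonempty (Fin N) := ⟨⟨0, hN⟩⟩
    rw [h1, det_zero] at hJ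
    exact hJ rfl
  have hℓ0 : ∀ n : ℕ, (((2 : ℕ) : ℚ_[2]) ^ n) ≠ 0 := fun n => pow_ne_zero _ (by norm_num)
  have hℓt : Tendsto (fun n : ℕ => ((2 : ℕ) : ℚ_[2]) ^ n) atTop (𝓝 0) := by
    refine tendsto_pow_atTop_nhds_zero_of_norm_lt_one ?_
    rw [Padic.norm_p]
    norm_num
  have hc : Xᵀ * J + J * X = 0 := hX
  have h1 : Tendsto (fun n : ℕ => ((2 : ℕ) : ℚ_[2]) ^ n •
      (((((2 : ℕ) : ℚ_[2]) ^ n)⁻¹ • (ρ (s n) - 1))ᵀ * J * ((((2 : ℕ) : ℚ_[2]) ^ n)⁻¹ • (ρ (s n) - 1))) +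
      (((((2 : ℕ) : ℚ_[2]) ^ n)⁻¹ • (ρ (s n) - 1))ᵀ * J + J * ((((2 : ℕ) : ℚ_[2]) ^ n)⁻¹ • (ρ (s n) - 1))))
      atTop (𝓝 ((0 : ℚ_[2]) • (Xᵀ * J * X) + (Xᵀ * J + J * X))) := by
    have h2 : Tendsto (fun n : ℕ => ((((2 : ℕ) : ℚ_[2]) ^ n)⁻¹ • (ρ (s n) - 1))ᵀ) atTop (𝓝 Xᵀ) :=
      ((continuous_id.matrix_transpose).tendsto X).comp hs
    have h3 : Tendsto (fun n : ℕ => ((((2 : ℕ) : ℚ_[2]) ^ n)⁻¹ • (ρ (s n) - 1))ᵀ * J) atTop
        (𝓝 (Xᵀ * J)) := ((continuous_id.matrix_mul continuous_const).tendsto Xᵀ).comp h2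
    have h4 : Tendsto (fun n : ℕ => J * ((((2 : ℕ) : ℚ_[2]) ^ n)⁻¹ • (ρ (s n) - 1))) atTop
        (𝓝 (J * X)) := ((continuous_const.matrix_mul continuous_id).tendsto X).comp hs
    have h5 : Tendsto (fun n : ℕ => ((((2 : ℕ) : ℚ_[2]) ^ n)⁻¹ • (ρ (s n) - 1))ᵀ * J *
        ((((2 : ℕ) : ℚ_[2]) ^ n)⁻¹ • (ρ (s n) - 1))) atTop (𝓝 (Xᵀ * J * X)) := h3.mul hs
    exact (hℓt.smul h5).add (h3.add h4)
  rw [zero_smul, zero_add, hc] at h1
  have h2 := ((continuous_apply_apply a₀ b₀).tendsto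
    (0 : Matrix (Fin N) (Fin N) ℚ_[2])).comp h1
  have h3 := h2.div_const (J a₀ b₀)
  rw [Matrix.zero_apply, zero_div] at h3
  refine h3.congr fun n => ?_
  have h4 : ((2 : ℕ) : ℚ_[2]) ^ n •
      (((((2 : ℕ) : ℚ_[2]) ^ n)⁻¹ • (ρ (s n) - 1))ᵀ * J * ((((2 : ℕ) : ℚ_[2]) ^ n)⁻¹ • (ρ (s n) - 1))) +
      (((((2 : ℕ) : ℚ_[2]) ^ n)⁻¹ • (ρ (s n) - 1))ᵀ * J + J * ((((2 : ℕ) : ℚ_[2]) ^ n)⁻¹ • (ρ (s n) - 1))) =
      ((((2 : ℕ) : ℚ_[2]) ^ n)⁻¹ * (χ (s n) - 1)) • J := by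
    have h5 := hχ (s n)
    have h6 : ((((2 : ℕ) : ℚ_[2]) ^ n)⁻¹ • (ρ (s n) - 1))ᵀ =
        (((2 : ℕ) : ℚ_[2]) ^ n)⁻¹ • ((ρ (s n))ᵀ - 1) := by
      rw [transpose_smul, transpose_sub, transpose_one]
    rw [h6, Matrix.smul_mul, Matrix.smul_mul, Matrix.mul_smul, Matrix.mul_smul, smul_smul,
      smul_smul, mul_inv_cancel₀ (hℓ0 n), one_mul, ← smul_add, ← smul_add, mul_smul]
    congr 1
    rw [sub_smul, one_smul, ← h5]
    noncomm_ring
  change ((((2 : ℕ) : ℚ_[2]) ^ n •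
      (((((2 : ℕ) : ℚ_[2]) ^ n)⁻¹ • (ρ (s n) - 1))ᵀ * J * ((((2 : ℕ) : ℚ_[2]) ^ n)⁻¹ • (ρ (s n) - 1))) +
      (((((2 : ℕ) : ℚ_[2]) ^ n)⁻¹ • (ρ (s n) - 1))ᵀ * J +
        J * ((((2 : ℕ) : ℚ_[2]) ^ n)⁻¹ • (ρ (s n) - 1))) : Matrix (Fin N) (Fin N) ℚ_[2]) a₀ b₀) /
      J a₀ b₀ = _
  rw [h4, Matrix.smul_apply, smul_eq_mul, mul_div_cancel_right₀ _ hab]

/-- the powers of the inverses of the multipliers -/
theorem pow_tan (c : ℕ → ℚ_[2]) (hc0 : ∀ n, c n ≠ 0) (k : ℕ)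
    (hc : Tendsto (fun n : ℕ => (((2 : ℕ) : ℚ_[2]) ^ n)⁻¹ * (c n - 1)) atTop (𝓝 0)) :
    Tendsto (fun n : ℕ => (c n)⁻¹ ^ k) atTop (𝓝 1) ∧
    Tendsto (fun n : ℕ => (((2 : ℕ) : ℚ_[2]) ^ n)⁻¹ * ((c n)⁻¹ ^ k - 1)) atTop (𝓝 0) := by
  have hℓ0 : ∀ n : ℕ, (((2 : ℕ) : ℚ_[2]) ^ n) ≠ 0 := fun n => pow_ne_zero _ (by norm_num)
  have hℓt : Tendsto (fun n : ℕ => ((2 : ℕ) : ℚ_[2]) ^ n) atTop (𝓝 0) := by
    refine tendsto_pow_atTop_nhds_zero_of_norm_lt_one ?_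
    rw [Padic.norm_p]
    norm_num
  have h1 : Tendsto c atTop (𝓝 1) := by
    have h2 := (hℓt.mul hc).add_const 1
    rw [mul_zero, zero_add] at h2
    refine h2.congr fun n => ?_
    rw [← mul_assoc, mul_inv_cancel₀ (hℓ0 n), one_mul, sub_add_cancel]
  have h2 : Tendsto (fun n => (c n)⁻¹) atTop (𝓝 1) := by
    have h3 := h1.inv₀ one_ne_zero
    rwa [inv_one] at h3
  have h3 : ∀ j : ℕ, Tendsto (fun n => (c n)⁻¹ ^ j) atTop (𝓝 1) := fun j => by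
    have h4 := h2.pow j
    rwa [one_pow] at h4
  refine ⟨h3 k, ?_⟩
  have h4 : Tendsto (fun n => ∑ j ∈ Finset.range k, (c n)⁻¹ ^ j) atTop
      (𝓝 (∑ j ∈ Finset.range k, (1 : ℚ_[2]))) := tendsto_finsetSum _ fun j _ => h3 j
  have h5 := (hc.mul h2).mul h4
  rw [zero_mul, zero_mul] at h5
  have h6 := h5.neg
  rw [neg_zero] at h6
  refine h6.congr fun n => ?_
  have h7 : (c n)⁻¹ ^ k - 1 = ((c n)⁻¹ - 1) * ∑ j ∈ Finset.range k, (c n)⁻¹ ^ j :=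
    (mul_geom_sum _ _).symm
  have h8 : (c n)⁻¹ - 1 = -((c n - 1) * (c n)⁻¹) := by
    have := hc0 n
    field_simp
    ring
  rw [h7, h8]
  ring

end Pool.Agent.N197.AP.SS2

namespace Pool.Agent.N197.AP

open SS2

theorem t_SS2 (h : S_SS) : S_SS2 := by
  classical
  intro K _ _ hK n m S hS P hP r J χ hr hfrob hfull ℓ hℓ Δ hΔ U hU
  have hne : ∀ v : HeightOneSpectrum (𝓞 K), Ideal.absNorm v.asIdeal ≠ 0 := fun v =>
    Ideal.absNorm_ne_zero_iff_mem_nonZeroDivisors.2 (mem_nonZeroDivisors_of_ne_zero v.ne_bot)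
  let P' : HeightOneSpectrum (𝓞 K) → ℤ[X] := fun v =>
    if hv : ∃ Q : ℤ[X], Q.Monic ∧ Q.map (Int.castRingHom ℚ) =
      (P v).scaleRoots ((Ideal.absNorm v.asIdeal : ℚ) ^ m) then hv.choose else 1
  have hP' : ∀ v ∉ S, (P' v).Monic ∧
      ∀ z : ℂ, aeval z (P' v) = 0 → ‖z‖ ^ 2 = (Ideal.absNorm v.asIdeal : ℝ) ^ (2 * m + 1) := by
    intro v hv
    by_cases hQ : ∃ Q : ℤ[X], Q.Monic ∧ Q.map (Int.castRingHom ℚ) =
        (P v).scaleRoots ((Ideal.absNorm v.asIdeal : ℚ) ^ m)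
    · have h1 : P' v = hQ.choose := dif_pos hQ
      rw [h1]
      refine ⟨hQ.choose_spec.1, fun z hz => ?_⟩
      have hq : (Ideal.absNorm v.asIdeal : ℂ) ≠ 0 := Nat.cast_ne_zero.2 (hne v)
      have h2 : aeval z ((P v).scaleRoots ((Ideal.absNorm v.asIdeal : ℚ) ^ m)) = 0 := by
        rw [← hQ.choose_spec.2]
        have h3 : aeval z (hQ.choose.map (algebraMap ℤ ℚ)) = 0 := by
          rw [Polynomial.aeval_map_algebraMap]
          exact hz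
        exact h3
      have h3 : z = algebraMap ℚ ℂ ((Ideal.absNorm v.asIdeal : ℚ) ^ m) *
          (z / (Ideal.absNorm v.asIdeal : ℂ) ^ m) := by
        rw [map_pow, map_natCast]
        field_simp
      rw [Polynomial.aeval_def, h3, Polynomial.scaleRoots_eval₂_mul] at h2
      have h4 : aeval (z / (Ideal.absNorm v.asIdeal : ℂ) ^ m) (P v) = 0 := by
        refine (mul_eq_zero.1 h2).resolve_left (pow_ne_zero _ ?_)
        rw [map_pow, map_natCast]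
        exact pow_ne_zero _ hq
      have h5 := (hP v hv _ h4).1
      rw [norm_div, norm_pow, Complex.norm_natCast, div_pow, div_eq_iff
        (pow_ne_zero _ (pow_ne_zero _ (Nat.cast_ne_zero.2 (hne v))))] at h5
      rw [h5]
      ring
    · have h1 : P' v = 1 := dif_neg hQ
      rw [h1]
      refine ⟨Polynomial.monic_one, fun z hz => ?_⟩
      simp at hz
  have hcov : ∀ (ℓ : ℕ) [Fact ℓ.Prime], ∀ v ∉ S, (ℓ : 𝓞 K) ∉ v.asIdeal → ∀ σ : GK K,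
      IsFrobenius v σ → (tw (r ℓ) (χ ℓ) (m + 1) σ⁻¹).charpoly = (P' v).map (algebraMap ℤ ℚ_[ℓ]) ∧
      (χ ℓ σ⁻¹)⁻¹ ^ (2 * m + 1) = (Ideal.absNorm v.asIdeal : ℚ_[ℓ]) ^ (2 * m + 1) := by
    intro ℓ _ v hv hvℓ σ hσ
    obtain ⟨h1, h2⟩ := hfrob ℓ v hv hvℓ σ hσ
    have hinj : Function.Injective (Rat.castHom ℚ_[ℓ]) := (Rat.castHom ℚ_[ℓ]).injective
    have hmon : (P v).Monic := by
      refine Polynomial.monic_of_injective hinj ?_
      rw [← h1]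
      exact Matrix.charpoly_monic _
    have hQ : ∃ Q : ℤ[X], Q.Monic ∧ Q.map (Int.castRingHom ℚ) =
        (P v).scaleRoots ((Ideal.absNorm v.asIdeal : ℚ) ^ m) := by
      refine lift_int _ ((Polynomial.monic_scaleRoots_iff _).2 hmon) fun z hz => ?_
      have hq : (Ideal.absNorm v.asIdeal : ℂ) ≠ 0 := Nat.cast_ne_zero.2 (hne v)
      have h3 : z = algebraMap ℚ ℂ ((Ideal.absNorm v.asIdeal : ℚ) ^ m) *
          (z / (Ideal.absNorm v.asIdeal : ℂ) ^ m) := by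
        rw [map_pow, map_natCast]
        field_simp
      rw [Polynomial.aeval_def, h3, Polynomial.scaleRoots_eval₂_mul] at hz
      have h4 : aeval (z / (Ideal.absNorm v.asIdeal : ℂ) ^ m) (P v) = 0 := by
        refine (mul_eq_zero.1 hz).resolve_left (pow_ne_zero _ ?_)
        rw [map_pow, map_natCast]
        exact pow_ne_zero _ hq
      have h5 := (hP v hv _ h4).2
      rwa [mul_div_cancel₀ _ (pow_ne_zero m hq)] at h5
    have h3 : P' v = hQ.choose := dif_pos hQ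
    have hi : (χ ℓ σ⁻¹)⁻¹ = (Ideal.absNorm v.asIdeal : ℚ_[ℓ]) := by
      rw [chi_inv, inv_inv, h2]
    have hi' : (χ ℓ σ⁻¹)⁻¹ = χ ℓ σ := by rw [chi_inv, inv_inv]
    refine ⟨?_, by rw [hi]⟩
    rw [tw_apply, hi', cp_inv (r ℓ) (χ ℓ) (J ℓ) (hr ℓ).2.2.2.1 (hr ℓ).2.2.2.2 σ m,
      cp_smul _ (pow_ne_zero _ (chi_ne _ _)), h1, h2, h3]
    have h4 : hQ.choose.map (algebraMap ℤ ℚ_[ℓ]) =
        (hQ.choose.map (Int.castRingHom ℚ)).map (Rat.castHom ℚ_[ℓ]) := by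
      rw [Polynomial.map_map]
      congr 1
    rw [h4, hQ.choose_spec.2, Polynomial.map_scaleRoots _ _ _ ?_, map_pow, map_natCast]
    rw [hmon.leadingCoeff, map_one]
    exact one_ne_zero
  have key := h K hK n (2 * m + 1) (by omega) S hS P' hP'
    (fun ℓ _ => tw (r ℓ) (χ ℓ) (m + 1)) (fun ℓ _ => J ℓ) (fun ℓ _ g => (χ ℓ g)⁻¹ ^ (2 * m + 1))
    (fun ℓ _ => ?_) hcov ?_ ℓ Δ hΔ U ?_
  · obtain ⟨U', h1, h2⟩ := key
    refine ⟨U', fun g hg x hx => ?_, h2⟩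
    have h3 := U'.smul_mem (χ ℓ g ^ (m + 1)) (h1 g hg x hx)
    rw [tw_apply, Matrix.smul_mulVec, smul_smul, inv_pow,
      mul_inv_cancel₀ (pow_ne_zero _ (chi_ne _ _)), one_smul] at h3
    exact h3
  · obtain ⟨c1, c2, c3, c4, c5⟩ := hr ℓ
    refine ⟨?_, c3, c4, fun g => ?_⟩
    · exact ((c2.inv₀ fun g => chi_ne _ _).pow (m + 1)).smul c1
    · rw [tw_apply, transpose_smul, Matrix.smul_mul, Matrix.smul_mul, Matrix.mul_smul, c5,
        smul_smul, smul_smul]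
      congr 1
      have h5 : (χ ℓ g)⁻¹ * χ ℓ g = 1 := inv_mul_cancel₀ (chi_ne _ _)
      generalize (χ ℓ g)⁻¹ = y at h5 ⊢
      linear_combination (y ^ (2 * m + 1)) * h5
  · intro X hX
    obtain ⟨s, hs⟩ := hfull X hX
    refine ⟨s, ?_⟩
    rcases Nat.eq_zero_or_pos n with rfl | hn
    · refine hs.congr fun k => ?_
      ext i
      exact i.elim0
    have hχ := chi_tan hn (r 2) (χ 2) (J 2) X (hr 2).2.2.2.1 (hr 2).2.2.2.2 hX s hs
    obtain ⟨d1, d2⟩ := pow_tan (fun k => χ 2 (s k)) (fun k => chi_ne _ _) (m + 1) hχ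
    have h3 := (d1.smul hs).add (d2.smul_const (1 : Matrix (Fin n) (Fin n) ℚ_[2]))
    rw [one_smul, zero_smul, add_zero] at h3
    refine h3.congr fun k => ?_
    rw [tw_apply, smul_comm, mul_smul, ← smul_add]
    congr 1
    rw [smul_sub, sub_smul, one_smul]
    abel
  · intro g hg x hx
    rw [tw_apply, Matrix.smul_mulVec]
    exact U.smul_mem _ (hU g hg x hx)

end Pool.Agent.N197.AP
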