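import Pool.Agent.N197.AP.Stm2

/-!
# Project AP (helper197), task SUM: sums of twists of semisimple representations

Written by helper498: a maximal stable subspace with trivial intersection is a complement.
-/

set_option autoImplicit false

open Module

namespace Pool.Agent.N197.AP

theorem t_SUM : S_SUM := by
  classical
  intro ι _ k G _ _ _ V _ _ _ ρ c R hR hss Δ hΔ U hU
  have hc : ∀ i g, c i g ≠ 0 := by
    intro i g h
    have h1 : c i (g * g⁻¹) = 0 := by rw [map_mul, h, zero_mul]
    rw [mul_inv_cancel, map_one] at h1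
    exact one_ne_zero h1
  -- the action on one summand
  have hRs : ∀ i g (v : V i), R g (LinearMap.single k V i v) =
      LinearMap.single k V i (c i g • ρ i g v) := by
    intro i g v
    funext j
    rw [hR]
    by_cases h : j = i
    · subst h
      simp
    · rw [LinearMap.single_apply, LinearMap.single_apply, Pi.single_eq_of_ne h,
        Pi.single_eq_of_ne h, map_zero, smul_zero]
  -- a maximal stable subspace disjoint from `U`
  obtain ⟨U', ⟨hU's, hUd⟩, hmax⟩ := (wellFounded_gt (α := Submodule k (∀ i, V i))).has_min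
    {W | (∀ s ∈ Δ, ∀ u ∈ W, R s u ∈ W) ∧ Disjoint U W} ⟨⊥, by
      refine ⟨fun s _ u hu => ?_, disjoint_bot_right⟩
      rw [(Submodule.mem_bot k).1 hu, map_zero]
      exact Submodule.zero_mem _⟩
  have hst : ∀ W W' : Submodule k (∀ i, V i), (∀ s ∈ Δ, ∀ u ∈ W, R s u ∈ W) →
      (∀ s ∈ Δ, ∀ u ∈ W', R s u ∈ W') → ∀ s ∈ Δ, ∀ u ∈ W ⊔ W', R s u ∈ W ⊔ W' := by
    intro W W' hW hW' s hs u hu
    obtain ⟨a, ha, b, hb, rfl⟩ := Submodule.mem_sup.1 hu
    rw [map_add]
    exact Submodule.add_mem_sup (hW s hs a ha) (hW' s hs b hb)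
  refine ⟨U', hU's, ⟨hUd, ?_⟩⟩
  rw [codisjoint_iff]
  by_contra hne
  obtain ⟨i, hi⟩ : ∃ i, ¬ LinearMap.range (LinearMap.single k V i) ≤ U ⊔ U' := by
    by_contra hcon
    push Not at hcon
    apply hne
    rw [eq_top_iff, ← LinearMap.iSup_range_single]
    exact iSup_le hcon
  -- the complement in the summand
  obtain ⟨N', hN's, hN'⟩ := hss i Δ hΔ ((U ⊔ U').comap (LinearMap.single k V i)) (by
    intro s hs v hv
    rw [Submodule.mem_comap] at hv ⊢
    have h1 : LinearMap.single k V i (ρ i s v) = (c i s)⁻¹ • R s (LinearMap.single k V i v) := by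
      rw [hRs, ← map_smul, smul_smul, inv_mul_cancel₀ (hc i s), one_smul]
    rw [h1]
    exact Submodule.smul_mem _ _ (hst U U' hU hU's s hs _ hv))
  have hP : ∀ s ∈ Δ, ∀ u ∈ N'.map (LinearMap.single k V i),
      R s u ∈ N'.map (LinearMap.single k V i) := by
    rintro s hs _ ⟨v, hv, rfl⟩
    rw [hRs]
    exact Submodule.mem_map_of_mem (Submodule.smul_mem _ _ (hN's s hs v hv))
  have hPd : Disjoint (U ⊔ U') (N'.map (LinearMap.single k V i)) := by
    rw [Submodule.disjoint_def]
    rintro _ hx ⟨v, hv, rfl⟩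
    have h1 := (Submodule.disjoint_def.1 hN'.disjoint) v hx hv
    rw [h1, map_zero]
  have hlt : U' < U' ⊔ N'.map (LinearMap.single k V i) := by
    refine lt_of_le_of_ne le_sup_left fun h => hi ?_
    have h1 : N'.map (LinearMap.single k V i) ≤ U' := by
      rw [h]; exact le_sup_right
    have h2 : N' = ⊥ := by
      rw [eq_bot_iff]
      intro v hv
      have h3 := (Submodule.disjoint_def.1 hN'.disjoint) v
        ((le_sup_right : U' ≤ U ⊔ U') (h1 (Submodule.mem_map_of_mem hv))) hv
      exact (Submodule.mem_bot k).2 h3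
    have h3 : (U ⊔ U').comap (LinearMap.single k V i) = ⊤ := by
      have h4 := hN'.codisjoint
      rw [h2, codisjoint_bot] at h4
      exact h4
    rintro _ ⟨v, rfl⟩
    have h5 : v ∈ (U ⊔ U').comap (LinearMap.single k V i) := by rw [h3]; exact Submodule.mem_top
    exact h5
  exact hmax _ ⟨hst _ _ hU's hP, hUd.disjoint_sup_right_of_disjoint_sup_left hPd⟩ hlt

end Pool.Agent.N197.AP
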