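import Pool.Agent.N197.AP.Stm2

/-!
# Project AP, part 3: motives of weight `-1` (statements)
-/

set_option autoImplicit false

open Polynomial Filter Topology NumberField IsDedekindDomain Module Matrix
open Pool.Agent.Y142.ZO Pool.Agent.Y142.ZI Pool.Agent.Y142.ZS

namespace Pool.Agent.N197.AP

/-- task SS2: semisimplicity at every prime number over the field of rational numbers, for
realizations with arithmetic Frobenius eigenvalues of weight `1`, integral up to `q ^ m` -/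
def S_SS2 : Prop := ∀ (K : Type) [Field K] [NumberField K], finrank ℚ K = 1 → ∀ (n m : ℕ)
  (S : Set (HeightOneSpectrum (𝓞 K))), S.Finite → ∀ (P : HeightOneSpectrum (𝓞 K) → ℚ[X]),
  (∀ v ∉ S, ∀ z : ℂ, aeval z (P v) = 0 → ‖z‖ ^ 2 = (Ideal.absNorm v.asIdeal : ℝ) ∧
    IsIntegral ℤ ((Ideal.absNorm v.asIdeal : ℂ) ^ m * z)) →
  ∀ (r : ∀ (ℓ : ℕ) [Fact ℓ.Prime], GK K →* Matrix (Fin n) (Fin n) ℚ_[ℓ])
    (J : ∀ (ℓ : ℕ) [Fact ℓ.Prime], Matrix (Fin n) (Fin n) ℚ_[ℓ])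
    (χ : ∀ (ℓ : ℕ) [Fact ℓ.Prime], GK K →* ℚ_[ℓ]),
    (∀ (ℓ : ℕ) [Fact ℓ.Prime], Continuous (r ℓ) ∧ Continuous (χ ℓ) ∧ (J ℓ)ᵀ = -J ℓ ∧
      (J ℓ).det ≠ 0 ∧ ∀ g, (r ℓ g)ᵀ * J ℓ * r ℓ g = χ ℓ g • J ℓ) →
    (∀ (ℓ : ℕ) [Fact ℓ.Prime], ∀ v ∉ S, (ℓ : 𝓞 K) ∉ v.asIdeal → ∀ σ : GK K,
      IsFrobenius v σ → (r ℓ σ).charpoly = (P v).map (Rat.castHom ℚ_[ℓ]) ∧
      χ ℓ σ = (Ideal.absNorm v.asIdeal : ℚ_[ℓ])) →
    (∀ X : Matrix (Fin n) (Fin n) ℚ_[2], SpLie (J 2) X → IsTangent 2 (r 2) X) →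
  ∀ (ℓ : ℕ) [Fact ℓ.Prime] (Δ : Subgroup (GK K)), Δ.FiniteIndex →
  ∀ U : Submodule ℚ_[ℓ] (Fin n → ℚ_[ℓ]), (∀ g ∈ Δ, ∀ x ∈ U, r ℓ g *ᵥ x ∈ U) →
  ∃ U' : Submodule ℚ_[ℓ] (Fin n → ℚ_[ℓ]), (∀ g ∈ Δ, ∀ x ∈ U', r ℓ g *ᵥ x ∈ U') ∧ IsCompl U U'

/-- the representation of a homomorphism to matrices -/
noncomputable def matRep {k G : Type} [Field k] [Group G] {n : ℕ}
    (r : G →* Matrix (Fin n) (Fin n) k) : Representation k G (Fin n → k) :=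
  ((Matrix.toLinAlgEquiv' (R := k) (n := Fin n)).toAlgHom.toRingHom.toMonoidHom).comp r

theorem matRep_apply {k G : Type} [Field k] [Group G] {n : ℕ} (r : G →* Matrix (Fin n) (Fin n) k)
    (g : G) (x : Fin n → k) : matRep r g x = r g *ᵥ x := rfl

/-- the direct sum of representations -/
def piRepr {k G : Type} [Field k] [Group G] {ι : Type} {V : ι → Type} [∀ i, AddCommGroup (V i)]
    [∀ i, Module k (V i)] (ρ : ∀ i, Representation k G (V i)) : Representation k G (∀ i, V i) where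
  toFun g := LinearMap.pi fun i => (ρ i g).comp (LinearMap.proj i)
  map_one' := by
    ext x i
    simp
  map_mul' g h := by
    ext x i
    simp

theorem piRepr_apply {k G : Type} [Field k] [Group G] {ι : Type} {V : ι → Type}
    [∀ i, AddCommGroup (V i)] [∀ i, Module k (V i)] (ρ : ∀ i, Representation k G (V i)) (g : G)
    (x : ∀ i, V i) (i : ι) : piRepr ρ g x i = ρ i g (x i) := rfl

/-- task PI: the sum of representations in symplectic similitudes -/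
def S_PI : Prop := ∀ (ι : Type) [Fintype ι] (N : ι → ℕ) (k G : Type) [Field k] [CharZero k]
  [Group G] (r : ∀ i, G →* Matrix (Fin (N i)) (Fin (N i)) k)
  (J : ∀ i, Matrix (Fin (N i)) (Fin (N i)) k) (χ : G →* k),
  (∀ i, (J i)ᵀ = -J i) → (∀ i, (J i).det ≠ 0) → (∀ i g, (r i g)ᵀ * J i * r i g = χ g • J i) →
  (∀ g, LinearMap.charpoly (piRepr (fun i => matRep (r i)) g) = ∏ i, (r i g).charpoly) ∧
  (∃ ω : (∀ i, Fin (N i) → k) →ₗ[k] (∀ i, Fin (N i) → k) →ₗ[k] k, (∀ v, ω v v = 0) ∧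
    (∀ u, (∀ v, ω v u = 0) → u = 0) ∧
    ∀ s u v, ω (piRepr (fun i => matRep (r i)) s u) (piRepr (fun i => matRep (r i)) s v) =
      χ s * ω u v) ∧
  ((∀ i, ∀ Δ : Subgroup G, Δ.FiniteIndex → ∀ U : Submodule k (Fin (N i) → k),
    (∀ s ∈ Δ, ∀ u ∈ U, matRep (r i) s u ∈ U) →
    ∃ U' : Submodule k (Fin (N i) → k), (∀ s ∈ Δ, ∀ u ∈ U', matRep (r i) s u ∈ U') ∧
      IsCompl U U') →
   ∀ Δ : Subgroup G, Δ.FiniteIndex → ∀ U : Submodule k (∀ i, Fin (N i) → k),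
    (∀ s ∈ Δ, ∀ u ∈ U, piRepr (fun i => matRep (r i)) s u ∈ U) →
    ∃ U' : Submodule k (∀ i, Fin (N i) → k),
      (∀ s ∈ Δ, ∀ u ∈ U', piRepr (fun i => matRep (r i)) s u ∈ U') ∧ IsCompl U U')

end Pool.Agent.N197.AP
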