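import Pool.Agent.N197.AP.Fin
import Pool.Agent.N197.AP.Place2
import Pool.Agent.N197.AP.Stm3
import Pool.Agent.N197.AP.L_PAT2
import Pool.Agent.N197.AP.L_SERRE2
import Pool.Agent.N197.AP.L_FIELD2
import Pool.Agent.N197.AP.L_TATE2
import Pool.Agent.N197.AP.L_SS
import Pool.Agent.N197.AP.L_SS2
import Pool.Agent.N197.AP.L_SUM
import Pool.Agent.N197.AP.L_PI

/-!
# Project AP, part 3: motives of odd weights, all prime numbers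
-/

set_option autoImplicit false

open Polynomial Filter Topology NumberField IsDedekindDomain Module Matrix
open Pool.Agent.Y142.ZO Pool.Agent.Y142.ZI Pool.Agent.Y142.ZS
open Pool.Agent.N166.CZ (IsTateModule ProductsWith)
open Pool.Agent.H204R3.GP (FiniteIndexSemisimple)

namespace Pool.Agent.N197.AP

theorem t_PLACE2 : S_PLACE2 :=
  place2 t_NORM t_DEG (t_SERRE2 t_KRON t_VAL t_PAT2) t_CHOICE t_SMALL (t_LOCAL t_PROD) t_NEAR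
    t_FIELD2 t_CH2

theorem fin3 {K : Type} [Field K] [NumberField K] {ι : Type} [Fintype ι] [Nonempty ι]
    [DecidableEq ι] {N : ι → ℕ} {d m : ℕ} {w : ℤ}
    (S : Set (HeightOneSpectrum (𝓞 K))) (hS : S.Finite)
    (P : ι → HeightOneSpectrum (𝓞 K) → ℚ[X]) (Q : HeightOneSpectrum (𝓞 K) → ℚ[X])
    (hP : ∀ v ∉ S, ∀ i, ∀ z : ℂ, aeval z (P i v) = 0 →
      ‖z‖ ^ 2 = (Ideal.absNorm v.asIdeal : ℝ) ∧ IsIntegral ℤ ((Ideal.absNorm v.asIdeal : ℂ) ^ m * z))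
    (hQ : ∀ v ∉ S, ∀ z : ℂ, aeval z (Q v) = 0 →
      ‖z‖ ^ 2 = (Ideal.absNorm v.asIdeal : ℝ) ^ w ∧
        IsIntegral ℤ ((Ideal.absNorm v.asIdeal : ℂ) ^ m * z))
    (χ : ∀ (ℓ : ℕ) [Fact ℓ.Prime], GK K →* ℚ_[ℓ])
    (J : ∀ (i : ι) (ℓ : ℕ) [Fact ℓ.Prime], Matrix (Fin (N i)) (Fin (N i)) ℚ_[ℓ])
    (r : ∀ (i : ι) (ℓ : ℕ) [Fact ℓ.Prime], GK K →* Matrix (Fin (N i)) (Fin (N i)) ℚ_[ℓ])
    (hχc : ∀ (ℓ : ℕ) [Fact ℓ.Prime], Continuous (χ ℓ))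
    (hr : ∀ (i : ι) (ℓ : ℕ) [Fact ℓ.Prime], Continuous (r i ℓ))
    (hJ : ∀ (i : ι) (ℓ : ℕ) [Fact ℓ.Prime], (J i ℓ)ᵀ = -J i ℓ)
    (hdet : ∀ (i : ι) (ℓ : ℕ) [Fact ℓ.Prime], (J i ℓ).det ≠ 0)
    (hsim : ∀ (i : ι) (ℓ : ℕ) [Fact ℓ.Prime] (g : GK K),
      (r i ℓ g)ᵀ * J i ℓ * r i ℓ g = χ ℓ g • J i ℓ)
    (hχ : ∀ (ℓ : ℕ) [Fact ℓ.Prime], ∀ v ∉ S, (ℓ : 𝓞 K) ∉ v.asIdeal → ∀ σ : GK K,
      IsFrobenius v σ → χ ℓ σ = (Ideal.absNorm v.asIdeal : ℚ_[ℓ]))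
    (hfrob : ∀ (i : ι) (ℓ : ℕ) [Fact ℓ.Prime], ∀ v ∉ S, (ℓ : 𝓞 K) ∉ v.asIdeal → ∀ σ : GK K,
      IsFrobenius v σ → (r i ℓ σ).charpoly = (P i v).map (Rat.castHom ℚ_[ℓ]))
    (e : ∀ i, Fin (N i + 1) → Fin (N i) → ℚ_[2]) (h6 : ∀ i, 6 ≤ N i)
    (hint : ∀ i g a b, ‖r i 2 g a b‖ ≤ 1) (hJint : ∀ i a b, ‖J i 2 a b‖ ≤ 1)
    (heint : ∀ i a b, ‖e i a b‖ ≤ 1)
    (he : ∀ i a b, a ≠ b → ‖e i a ⬝ᵥ J i 2 *ᵥ e i b‖ = 1)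
    (hbig : ∀ i (π : Equiv.Perm (Fin (N i + 1))), Equiv.Perm.sign π = 1 → ∃ g,
      (∀ a b, ‖(r i 2 g *ᵥ e i a - e i (π a)) b‖ < 1) ∧
      ∀ j, j ≠ i → ∀ a b, ‖(r j 2 g - 1) a b‖ < 1)
    (τ : GK K →* Matrix (Fin d) (Fin d) ℚ_[2]) (hτ : Continuous τ)
    (htint : ∀ g a b, ‖τ g a b‖ ≤ 1)
    (ht : ∀ i, 2 ^ (d ^ 2 + 1) < (N i + 1).factorial ∨
      ∃ (g : GK K) (π : ∀ j, Equiv.Perm (Fin (N j + 1))), (∀ a b, ‖(τ g - 1) a b‖ < 1) ∧ π i ≠ 1 ∧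
        ∀ j a b, ‖(r j 2 g *ᵥ e j a - e j (π j a)) b‖ < 1)
    (hτQ : ∀ v ∉ S, (2 : 𝓞 K) ∉ v.asIdeal → ∀ σ : GK K, IsFrobenius v σ →
      (τ σ⁻¹).charpoly = (Q v).map (Rat.castHom ℚ_[2])) :
    (finrank ℚ K = 1 → ∀ (i : ι) (ℓ : ℕ) [Fact ℓ.Prime], FiniteIndexSemisimple (matRep (r i ℓ))) ∧
    ∀ (ℓ : ℕ) [Fact ℓ.Prime], (∀ i, FiniteIndexSemisimple (matRep (r i ℓ))) →
      ∀ (M : Type) [AddCommGroup M] [Module ℚ_[ℓ] M] [FiniteDimensional ℚ_[ℓ] M]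
        (s : Representation ℚ_[ℓ] (GK K) M),
        (∀ v ∉ S, (ℓ : 𝓞 K) ∉ v.asIdeal → ∀ σ : GK K, IsFrobenius v σ →
          LinearMap.charpoly (s σ⁻¹) = (Q v).map (Rat.castHom ℚ_[ℓ])) →
        ProductsWith (piRepr fun i => matRep (r i ℓ)) (χ ℓ) s := by
  have hfull : ∀ X, (∀ i, SpLie (J i 2) (X i)) →
      Pool.Agent.N171.TG.WTan (fun i => r i 2) τ X := fun X hX =>
    Pool.Agent.N171.TG.wtan_of_large (fun i => r i 2) (fun i => J i 2) (fun _ => χ 2)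
      (fun i => Pool.Agent.R932.OP.even_of_alt (hJ i 2) (hdet i 2)) h6 (fun i => hJ i 2) hint hJint
      (fun i g => hsim i 2 g) e heint he hbig τ htint ht X hX
  refine ⟨fun hK i ℓ _ => ?_, fun ℓ hℓ hss M _ _ _ s hs => ?_⟩
  · refine t_SS2 t_SS K hK (N i) m S hS (P i) (fun v hv => hP v hv i) (fun ℓ _ => r i ℓ)
      (fun ℓ _ => J i ℓ) χ (fun ℓ _ => ⟨hr i ℓ, hχc ℓ, hJ i ℓ, hdet i ℓ, hsim i ℓ⟩)
      (fun ℓ _ v hv hvℓ σ hσ => ⟨hfrob i ℓ v hv hvℓ σ hσ, hχ ℓ v hv hvℓ σ hσ⟩) (fun X hX => ?_) ℓ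
    obtain ⟨σ, hσ, -⟩ := hfull (Function.update 0 i X) (fun j => by
      by_cases hj : j = i
      · subst hj
        rw [Function.update_self]
        exact hX
      · rw [Function.update_of_ne hj]
        show (0 : Matrix _ _ ℚ_[2])ᵀ * J j 2 + J j 2 * 0 = 0
        rw [transpose_zero, zero_mul, mul_zero, add_zero])
    have h1 := hσ i
    rw [Function.update_self] at h1
    exact ⟨σ, h1⟩
  · obtain ⟨h1, h2, h3, h4, h5⟩ := t_BLOCK ι N d (GK K) (fun i => r i 2) τ (fun i => J i 2)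
      (fun i => hJ i 2) (fun i => hdet i 2) hfull
    obtain ⟨i₀⟩ := ‹Nonempty ι›
    have hn : 0 < ∑ i, N i :=
      Finset.sum_pos (fun i _ => lt_of_lt_of_le (by norm_num) (h6 i)) ⟨i₀, Finset.mem_univ _⟩
    obtain ⟨h6', h7, h8⟩ := t_PI t_SUM ι N ℚ_[ℓ] (GK K) (fun i => r i ℓ) (fun i => J i ℓ) (χ ℓ)
      (fun i => hJ i ℓ) (fun i => hdet i ℓ) (fun i g => hsim i ℓ g)
    refine main20 t_PLACE2 t_TATE2 (m := m) (w := w) hn (h5 fun i => hr i 2) hτ h2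
      (h3 (χ 2) fun i g => hsim i 2 g) h1 (S := S ∪ {v | ((2 : ℕ) : 𝓞 K) ∈ v.asIdeal})
      (hS.union (finite_above 2 Nat.prime_two)) (P := fun v => ∏ i, P i v) (Q := Q)
      (fun v hv σ hσ => ?_) (fun v hv => ⟨fun z hz => ?_, hQ v fun h => hv (Or.inl h)⟩)
      (r := piRepr fun i => matRep (r i ℓ)) ⟨h7, h8 hss⟩
      (T := S ∪ {v | (ℓ : 𝓞 K) ∈ v.asIdeal}) (hS.union (finite_above ℓ hℓ.out))
      fun v hv σ hσ => ?_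
    · have hv1 : v ∉ S := fun h => hv (Or.inl h)
      have hv2 : ((2 : ℕ) : 𝓞 K) ∉ v.asIdeal := fun h => hv (Or.inr h)
      refine ⟨?_, hτQ v hv1 (by rwa [Nat.cast_ofNat] at hv2) σ hσ, hχ 2 v hv1 hv2 σ hσ⟩
      rw [h4, Polynomial.map_prod]
      exact Finset.prod_congr rfl fun i _ => hfrob i 2 v hv1 hv2 σ hσ
    · rw [map_prod, Finset.prod_eq_zero_iff] at hz
      obtain ⟨i, -, hi⟩ := hz
      exact hP v (fun h => hv (Or.inl h)) i z hi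
    · have hv1 : v ∉ S := fun h => hv (Or.inl h)
      have hv2 : (ℓ : 𝓞 K) ∉ v.asIdeal := fun h => hv (Or.inr h)
      refine ⟨hχ ℓ v hv1 hv2 σ hσ, ?_, ?_⟩
      · rw [h6', Polynomial.map_prod]
        exact Finset.prod_congr rfl fun i _ => hfrob i ℓ v hv1 hv2 σ hσ
      · rw [← hs v hv1 hv2 σ hσ]
        exact LinearMap.aeval_self_charpoly _

end Pool.Agent.N197.AP
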