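import Pool.Agent.N197.AP.Fin2

/-!
# Project AP, part 2: one exceptional set
-/

set_option autoImplicit false

open Polynomial Filter Topology
open Pool.Agent.N171 Pool.Agent.N197.Htj
open Pool.Agent.X243.Gen (tendsto_of_dens)
open scoped Classical

namespace Pool.Agent.N197.AP

variable (R k : Type) [CommRing R] [IsDomain R] [IsIntegrallyClosed R] [Algebra.FiniteType ℤ R]
  [Field k] [Algebra R k] [IsFractionRing R k] {ι : Type} [Fintype ι] [Nonempty ι] (n : ι → ℕ)

/-- One exceptional set. -/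
theorem lim_gd (hR : ¬ IsField R) (h2 : (2 : R) ≠ 0) (h7 : ∀ i, 7 ≤ n i) (ho : ∀ i, Odd (n i))
    (B : ℕ → Finset ((Σ i, Fin (n i)) → R)) (hB : ∀ i, (B i).Nonempty)
    (heq : ∀ M : Ideal R, Finite (R ⧸ M) → ∀ x : (Σ i, Fin (n i)) → R ⧸ M,
      Tendsto (fun i => (((B i).filter (fun y => ∀ j, Ideal.Quotient.mk M (y j) = x j)).card : ℝ) /
        ((B i).card : ℝ)) atTop
        (𝓝 (1 / (Nat.card (R ⧸ M) : ℝ) ^ (Fintype.card (Σ i, Fin (n i)))))) :
    ∃ V : ℕ → Finset kˣ, (∀ u : kˣ, ∀ᶠ i in atTop, u ∈ V i) ∧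
      Tendsto (fun i => (((B i).filter (fun y => LIM.Gd n (V i) (poly k y))).card : ℝ) /
        ((B i).card : ℝ)) atTop (𝓝 1) := by
  haveI := countable_units R k
  obtain ⟨g, hg⟩ : ∃ g : ℕ → kˣ, Function.Surjective g := exists_surjective_nat _
  have hlim : ∀ j : ℕ, Tendsto (fun i => (((B i).filter
      (fun y => LIM.Gd n ((Finset.range j).image g) (poly k y))).card : ℝ) / ((B i).card : ℝ))
      atTop (𝓝 1) := fun j =>
    tendsto_of_dens {y | LIM.Gd n ((Finset.range j).image g) (poly k y)} (fun η hη =>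
      LIM.dens_gd R k n hR h2 h7 ho ((Finset.range j).image g) η hη) B hB heq
  obtain ⟨J, hJ, hJ'⟩ := diag hlim (fun j i => by
    have h1 : (0 : ℝ) < ((B i).card : ℝ) := by exact_mod_cast (hB i).card_pos
    rw [div_le_one h1]
    exact_mod_cast Finset.card_filter_le _ _)
  refine ⟨fun i => (Finset.range (J i)).image g, fun u => ?_, hJ'⟩
  obtain ⟨m, rfl⟩ := hg u
  filter_upwards [hJ.eventually_gt_atTop m] with i hi
  exact Finset.mem_image_of_mem g (Finset.mem_range.2 hi)

end Pool.Agent.N197.AP
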