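import Pool.Agent.N197.AP.Fin4

/-!
# Project AP, part 2: lattices in matrix form
-/

set_option autoImplicit false

open Polynomial Filter Topology NumberField IsDedekindDomain Module Matrix
open Pool.Agent.N171 Pool.Agent.N197.Htj
open scoped Classical

namespace Pool.Agent.N197.AP

theorem trivMod_one_iff {G : Type} [Group G] {d : ℕ} (τ : G →* Matrix (Fin d) (Fin d) ℚ_[2])
    (s : G) : TrivMod (Pi.basisFun ℚ_[2] (Fin d)) (matRep τ s) 1 ↔
      ∀ a b, ‖(τ s - 1) a b‖ < 1 := by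
  have h1 : ∀ i j, (Pi.basisFun ℚ_[2] (Fin d)).repr
      (matRep τ s (Pi.basisFun ℚ_[2] (Fin d) i)) j = τ s j i := by
    intro i j
    rw [Pi.basisFun_repr, Pi.basisFun_apply, matRep_apply, mulVec_single_one]
    rfl
  constructor
  · intro h a b
    obtain ⟨z, hz⟩ := h b a
    rw [h1] at hz
    rw [Matrix.sub_apply, hz, Matrix.one_apply]
    have h2 : (if a = b then (1 : ℚ_[2]) else 0) = if b = a then 1 else 0 := by
      by_cases hab : a = b
      · rw [if_pos hab, if_pos hab.symm]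
      · rw [if_neg hab, if_neg (Ne.symm hab)]
    rw [h2, add_sub_cancel_left, pow_one, norm_mul]
    have h3 : ‖(2 : ℚ_[2])‖ = 2⁻¹ := by
      have := Padic.norm_p (p := 2)
      rwa [Nat.cast_ofNat] at this
    have h4 : ‖(z : ℚ_[2])‖ ≤ 1 := z.2
    rw [h3]
    linarith
  · intro h i j
    rw [h1]
    have h2 := h j i
    obtain ⟨y, hy⟩ : ∃ y : ℤ_[2], (y : ℚ_[2]) = (τ s - 1) j i := ⟨⟨_, h2.le⟩, rfl⟩
    have h3 : ‖y‖ < 1 := by
      rw [PadicInt.norm_def, hy]
      exact h2
    rw [PadicInt.norm_lt_one_iff_dvd] at h3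
    obtain ⟨z, hz⟩ := h3
    refine ⟨z, ?_⟩
    have h4 : (τ s - 1) j i = 2 * (z : ℚ_[2]) := by
      rw [← hy, hz]
      push_cast
      rfl
    rw [Matrix.sub_apply, Matrix.one_apply] at h4
    have h5 : (if i = j then (1 : ℚ_[2]) else 0) = if j = i then 1 else 0 := by
      by_cases hab : i = j
      · rw [if_pos hab, if_pos hab.symm]
      · rw [if_neg hab, if_neg (Ne.symm hab)]
    rw [h5, pow_one, ← h4]
    ring

end Pool.Agent.N197.AP
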