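import Pool.Agent.N197.AP.Stm2

/-!
# Project AP, part 3: statement of the task CROSS
-/

set_option autoImplicit false

open Polynomial Module

namespace Pool.Agent.N197.AP

/-- task CROSS: there are no Tate classes of degree two between two parts of the representation -/
def S_CROSS : Prop := ∀ (k : Type) [Field k] [CharZero k] (Γ : Type) [Group Γ] (V V' : Type)
  [AddCommGroup V] [Module k V] [FiniteDimensional k V] [AddCommGroup V'] [Module k V']
  [FiniteDimensional k V'] (ρ : Representation k Γ V) (ρ' : Representation k Γ V') (χ : Γ →* k)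
  (ω : V →ₗ[k] V →ₗ[k] k), (∀ v, ω v v = 0) → (∀ u, (∀ v, ω v u = 0) → u = 0) →
  (∀ s u v, ω (ρ s u) (ρ s v) = χ s * ω u v) →
  ∀ (γ : Γ) (A A' P Q : ℚ[X]) (q : ℕ), q ≠ 0 → χ γ = q → (ρ γ).charpoly = A.map (Rat.castHom k) →
  (ρ' γ).charpoly = A'.map (Rat.castHom k) → A * A' ∣ P → Q ≠ 0 → ExactAt2 P Q q →
  ∀ (B : V →ₗ[k] V' →ₗ[k] k) (Δ : Subgroup Γ), Δ.FiniteIndex →
    (∀ s ∈ Δ, ∀ x y, B (ρ s x) (ρ' s y) = χ s * B x y) → B = 0

end Pool.Agent.N197.AP
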