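import Mathlib
import Pool.Agent.N197.AP.StmX

/-!
# Project AP, part 3: task CROSS (helper398)

There are no Tate classes of degree two between two parts of a representation with exact Frobenius
polynomial.
-/

set_option autoImplicit false

open Polynomial Module Matrix

namespace Pool.Agent.N197.AP.Cross

/-- matrices which intertwine powers of two matrices vanish if no power of an eigenvalue is common -/
lemma intertwine {E n m : Type} [Field E] [IsAlgClosed E] [Fintype n] [DecidableEq n] [Fintype m]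
    [DecidableEq m] (M : Matrix n n E) (M' : Matrix m m E) (b : Matrix n m E) (s : ℕ)
    (h : M ^ s * b = b * M' ^ s)
    (hne : ∀ α β : E, M.charpoly.IsRoot α → M'.charpoly.IsRoot β → α ^ s ≠ β ^ s) : b = 0 := by
  classical
  -- polynomials
  have hpol : ∀ g : E[X], aeval (M ^ s) g * b = b * aeval (M' ^ s) g := by
    intro g
    induction g using Polynomial.induction_on' with
    | add p q hp hq => rw [map_add, map_add, Matrix.add_mul, Matrix.mul_add, hp, hq]
    | monomial k a =>
      have hk : (M ^ s) ^ k * b = b * (M' ^ s) ^ k := by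
        induction k with
        | zero => simp
        | succ k ih =>
          rw [pow_succ, Matrix.mul_assoc, h, ← Matrix.mul_assoc, ih, Matrix.mul_assoc, ← pow_succ]
      rw [aeval_monomial, aeval_monomial, Matrix.mul_assoc, hk,
        ← Matrix.mul_assoc, ← Matrix.mul_assoc]
      congr 1
      rw [Algebra.algebraMap_eq_smul_one, Algebra.algebraMap_eq_smul_one, Matrix.smul_mul,
        Matrix.mul_smul, Matrix.one_mul, Matrix.mul_one]
  let R : Multiset E := M'.charpoly.roots
  let g : E[X] := (R.map fun β => X - C (β ^ s)).prod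
  have hcomp : g.comp (X ^ s) = (R.map fun β => X ^ s - C (β ^ s)).prod := by
    change ((R.map fun β => X - C (β ^ s)).prod).comp (X ^ s) = _
    rw [Polynomial.multiset_prod_comp, Multiset.map_map]
    congr 1
    apply Multiset.map_congr rfl
    intro β _
    simp
  have hdvd : M'.charpoly ∣ g.comp (X ^ s) := by
    rw [hcomp]
    conv_lhs => rw [(IsAlgClosed.splits M'.charpoly).eq_prod_roots_of_monic M'.charpoly_monic]
    apply Multiset.prod_dvd_prod_of_dvd
    intro β _
    rw [C_pow]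
    exact sub_dvd_pow_sub_pow X (C β) s
  have h0 : aeval (M' ^ s) g = 0 := by
    have h1 : aeval (M' ^ s) g = aeval M' (g.comp (X ^ s)) := by
      rw [aeval_comp]; simp
    rw [h1]
    obtain ⟨c, hc⟩ := hdvd
    rw [hc, map_mul, Matrix.aeval_self_charpoly, zero_mul]
  have hcop : IsCoprime (g.comp (X ^ s)) M.charpoly := by
    rw [isCoprime_iff_aeval_ne_zero_of_isAlgClosed E E]
    intro α
    by_contra hcon
    push Not at hcon
    obtain ⟨h1, h2⟩ := hcon
    rw [coe_aeval_eq_eval] at h1 h2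
    rw [hcomp, eval_multiset_prod, Multiset.prod_eq_zero_iff, Multiset.mem_map] at h1
    obtain ⟨p, hp, hp0⟩ := h1
    rw [Multiset.mem_map] at hp
    obtain ⟨β, hβ, rfl⟩ := hp
    have hβ' : M'.charpoly.IsRoot β := (mem_roots'.1 hβ).2
    simp only [eval_sub, eval_pow, eval_X, eval_C] at hp0
    exact hne α β h2 hβ' (sub_eq_zero.1 hp0)
  obtain ⟨u, v, huv⟩ := hcop
  have h3 : aeval M u * aeval (M ^ s) g = 1 := by
    have h4 := congrArg (aeval M) huv
    rw [map_add, map_mul, map_mul, Matrix.aeval_self_charpoly, mul_zero, add_zero, map_one,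
      aeval_comp] at h4
    simpa using h4
  have h5 := hpol g
  rw [h0, Matrix.mul_zero] at h5
  calc b = (aeval M u * aeval (M ^ s) g) * b := by rw [h3, Matrix.one_mul]
    _ = 0 := by rw [Matrix.mul_assoc, h5, Matrix.mul_zero]

/-- the eigenvalues of a similitude come in pairs -/
lemma sym {E n : Type} [Field E] [Fintype n] [DecidableEq n] (M W : Matrix n n E) (q : E)
    (hq : q ≠ 0) (hW : W.det ≠ 0) (h : Mᵀ * W * M = q • W) :
    M.det ≠ 0 ∧ ∀ a : E, M.charpoly.IsRoot a → a ≠ 0 ∧ M.charpoly.IsRoot (q / a) := by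
  have hM : M.det ≠ 0 := by
    intro h0
    have h1 := congrArg Matrix.det h
    rw [Matrix.det_mul, h0, mul_zero, Matrix.det_smul] at h1
    exact mul_ne_zero (pow_ne_zero _ hq) hW h1.symm
  refine ⟨hM, fun a ha => ?_⟩
  have ha' : ((scalar n) a - M).det = 0 := by rw [← eval_charpoly]; exact ha
  have ha0 : a ≠ 0 := by
    rintro rfl
    rw [map_zero, zero_sub, Matrix.det_neg] at ha'
    exact mul_ne_zero (pow_ne_zero _ (by norm_num)) hM ha'
  refine ⟨ha0, ?_⟩
  change eval (q / a) M.charpoly = 0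
  rw [eval_charpoly]
  have h2 : Mᵀ * W * ((scalar n) (q / a) - M) = (-(q / a)) • (((scalar n) a - M)ᵀ * W) := by
    rw [Matrix.mul_sub, h, Matrix.transpose_sub]
    have e1 : Mᵀ * W * (scalar n) (q / a) = (q / a) • (Mᵀ * W) := by
      simp [Matrix.scalar_apply, Matrix.smul_eq_mul_diagonal]
    have e2 : ((scalar n) a)ᵀ = (scalar n) a := by
      simp [Matrix.scalar_apply]
    rw [e1, e2, Matrix.sub_mul, smul_sub]
    have e3 : (scalar n) a * W = a • W := by
      simp [Matrix.scalar_apply, Matrix.smul_eq_diagonal_mul]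
    rw [e3, smul_smul, neg_mul, div_mul_cancel₀ _ ha0, neg_smul, neg_smul]
    abel
  have h3 := congrArg Matrix.det h2
  have h30 : ((((scalar n) a - M)ᵀ * W).det) = 0 := by
    rw [Matrix.det_mul, Matrix.det_transpose, ha', zero_mul]
  rw [Matrix.det_mul, Matrix.det_smul, h30, mul_zero, Matrix.det_mul, Matrix.det_transpose] at h3
  rcases mul_eq_zero.1 h3 with h4 | h4
  · exact absurd h4 (mul_ne_zero hM hW)
  · exact h4

lemma cross {E n m : Type} [Field E] [IsAlgClosed E] [Fintype n] [DecidableEq n] [Fintype m]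
    [DecidableEq m] (M W : Matrix n n E) (M' : Matrix m m E) (b : Matrix n m E) (q : E)
    (hq : q ≠ 0) (hW : W.det ≠ 0) (h : Mᵀ * W * M = q • W) (s : ℕ)
    (hb : (M ^ s)ᵀ * b * M' ^ s = q ^ s • b)
    (hex : ∀ α β : E, M.charpoly.IsRoot α → M'.charpoly.IsRoot β → (α * β) ^ s ≠ q ^ s) :
    b = 0 := by
  obtain ⟨hM, hsym⟩ := sym M W q hq hW h
  have hs : ∀ s : ℕ, (M ^ s)ᵀ * W * M ^ s = q ^ s • W := by
    intro s
    induction s with
    | zero => simp
    | succ s ih =>
      rw [pow_succ M s, Matrix.transpose_mul]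
      calc Mᵀ * (M ^ s)ᵀ * W * (M ^ s * M) = Mᵀ * ((M ^ s)ᵀ * W * M ^ s) * M := by
            simp only [Matrix.mul_assoc]
        _ = q ^ s • (Mᵀ * W * M) := by
            rw [ih, Matrix.mul_smul, Matrix.smul_mul]
        _ = _ := by rw [h, smul_smul, pow_succ]
  have hWu : IsUnit W.det := isUnit_iff_ne_zero.2 hW
  have hΦ : M ^ s * (W⁻¹ * b) = (W⁻¹ * b) * M' ^ s := by
    have h1 : ((M ^ s)ᵀ * W) * (M ^ s * (W⁻¹ * b)) = ((M ^ s)ᵀ * W) * ((W⁻¹ * b) * M' ^ s) := by
      have e1 : ((M ^ s)ᵀ * W) * (M ^ s * (W⁻¹ * b)) = q ^ s • b := by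
        rw [← Matrix.mul_assoc, hs, Matrix.smul_mul, ← Matrix.mul_assoc,
          Matrix.mul_nonsing_inv _ hWu, Matrix.one_mul]
      have e2 : ((M ^ s)ᵀ * W) * ((W⁻¹ * b) * M' ^ s) = (M ^ s)ᵀ * (W * W⁻¹) * b * M' ^ s := by
        simp only [Matrix.mul_assoc]
      rw [e1, e2, Matrix.mul_nonsing_inv _ hWu, Matrix.mul_one, hb]
    have hu : IsUnit ((M ^ s)ᵀ * W).det := by
      rw [isUnit_iff_ne_zero, Matrix.det_mul, Matrix.det_transpose, Matrix.det_pow]
      exact mul_ne_zero (pow_ne_zero _ hM) hW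
    have h2 := congrArg (fun z => ((M ^ s)ᵀ * W)⁻¹ * z) h1
    rwa [← Matrix.mul_assoc, ← Matrix.mul_assoc _ _ ((W⁻¹ * b) * M' ^ s),
      Matrix.nonsing_inv_mul _ hu, Matrix.one_mul, Matrix.one_mul] at h2
  have h0 : W⁻¹ * b = 0 := by
    refine intertwine M M' (W⁻¹ * b) s hΦ ?_
    intro α β hα hβ hαβ
    obtain ⟨ha0, har⟩ := hsym α hα
    refine hex (q / α) β har hβ ?_
    rw [mul_pow, ← hαβ, div_pow, div_mul_cancel₀ _ (pow_ne_zero _ ha0)]
  calc b = W * (W⁻¹ * b) := by
        rw [← Matrix.mul_assoc, Matrix.mul_nonsing_inv _ hWu, Matrix.one_mul]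
    _ = 0 := by rw [h0, Matrix.mul_zero]

end Pool.Agent.N197.AP.Cross

namespace Pool.Agent.N197.AP

open Pool.Agent.N197.AP.Cross

theorem t_CROSS : S_CROSS := by
  classical
  intro k _ _ Γ _ V V' _ _ _ _ _ _ ρ ρ' χ ω halt hnd hω γ A A' P Q q hq hχ hA hA' hdvd hQ0 hex
    B Δ hΔ hB
  let E := AlgebraicClosure k
  have : CharZero E := charZero_of_injective_algebraMap (algebraMap k E).injective
  obtain ⟨s, hs0, -, hs⟩ := Subgroup.exists_pow_mem_of_index_ne_zero hΔ.index_ne_zero γ
  let bV := Module.finBasis k V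
  let bV' := Module.finBasis k V'
  let f : k →+* E := algebraMap k E
  let M := LinearMap.toMatrix bV bV (ρ γ)
  let M' := LinearMap.toMatrix bV' bV' (ρ' γ)
  let W := LinearMap.toMatrix₂ bV bV ω
  let b := LinearMap.toMatrix₂ bV bV' B
  have hP0 : P ≠ 0 := hex.1.ne_zero
  -- the form
  have hneg : ∀ u v, ω u v = - ω v u := by
    intro u v
    have h1 := halt (u + v)
    simp only [map_add, LinearMap.add_apply, halt, zero_add, add_zero] at h1
    exact eq_neg_of_add_eq_zero_right h1
  have hW : W.det ≠ 0 := by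
    refine (LinearMap.separatingLeft_iff_det_ne_zero bV).1 ?_
    intro u hu
    refine hnd u fun v => ?_
    rw [hneg, hu v, neg_zero]
  have hsim : Mᵀ * W * M = (q : k) • W := by
    rw [← LinearMap.toMatrix₂_compl₁₂ bV bV bV bV ω (ρ γ) (ρ γ)]
    have h1 : ω.compl₁₂ (ρ γ) (ρ γ) = (q : k) • ω := by
      ext u v
      simp only [LinearMap.compl₁₂_apply, LinearMap.smul_apply, smul_eq_mul]
      rw [hω, hχ]
    rw [h1, map_smul]
  have hMs : M ^ s = LinearMap.toMatrix bV bV (ρ (γ ^ s)) := by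
    rw [map_pow, LinearMap.toMatrix_pow]
  have hMs' : M' ^ s = LinearMap.toMatrix bV' bV' (ρ' (γ ^ s)) := by
    rw [map_pow, LinearMap.toMatrix_pow]
  have hbs : (M ^ s)ᵀ * b * M' ^ s = (q : k) ^ s • b := by
    rw [hMs, hMs', ← LinearMap.toMatrix₂_compl₁₂ bV bV' bV bV' B (ρ (γ ^ s)) (ρ' (γ ^ s))]
    have h1 : B.compl₁₂ (ρ (γ ^ s)) (ρ' (γ ^ s)) = (q : k) ^ s • B := by
      ext u v
      simp only [LinearMap.compl₁₂_apply, LinearMap.smul_apply, smul_eq_mul]
      rw [hB _ hs, map_pow, hχ]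
    rw [h1, map_smul]
  -- over the algebraic closure
  have hMc : (M.map f).charpoly = A.map (Rat.castHom E) := by
    rw [Matrix.charpoly_map, LinearMap.charpoly_toMatrix, hA, Polynomial.map_map,
      Subsingleton.elim (f.comp (Rat.castHom k)) (Rat.castHom E)]
  have hMc' : (M'.map f).charpoly = A'.map (Rat.castHom E) := by
    rw [Matrix.charpoly_map, LinearMap.charpoly_toMatrix, hA', Polynomial.map_map,
      Subsingleton.elim (f.comp (Rat.castHom k)) (Rat.castHom E)]
  have hqE : (q : E) ≠ 0 := Nat.cast_ne_zero.2 hq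
  have hWE : (W.map f).det ≠ 0 := by
    have : (W.map f).det = f W.det := (RingHom.map_det f W).symm
    rw [this]
    exact (map_ne_zero f).2 hW
  have hsimE : (M.map f)ᵀ * (W.map f) * (M.map f) = (q : E) • (W.map f) := by
    have h1 := congrArg (fun z : Matrix _ _ k => z.map f) hsim
    simp only [Matrix.map_mul] at h1
    rw [← Matrix.transpose_map, h1]
    ext i j
    simp
  have hbE : ((M.map f) ^ s)ᵀ * (b.map f) * (M'.map f) ^ s = (q : E) ^ s • (b.map f) := by
    have h1 := congrArg (fun z : Matrix _ _ k => z.map f) hbs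
    simp only [Matrix.map_mul] at h1
    have e1 : (M.map f) ^ s = (M ^ s).map f := by
      have := map_pow f.mapMatrix M s
      simpa using this.symm
    have e2 : (M'.map f) ^ s = (M' ^ s).map f := by
      have := map_pow f.mapMatrix M' s
      simpa using this.symm
    rw [e1, e2, ← Matrix.transpose_map, h1]
    ext i j
    simp
  have hsymE := (sym (M.map f) (W.map f) (q : E) hqE hWE hsimE).2
  -- separability of the product
  have hcop : IsCoprime (A.map (Rat.castHom E)) (A'.map (Rat.castHom E)) := by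
    have h1 : (A * A').Separable := hex.1.of_dvd hdvd
    exact h1.isCoprime.map (mapRingHom (Rat.castHom E))
  have hb0 : b.map f = 0 := by
    refine cross (M.map f) (W.map f) (M'.map f) (b.map f) (q : E) hqE hWE hsimE s hbE ?_
    intro α β hα hβ hαβ
    have hαP : (P.map (Rat.castHom E)).IsRoot α := by
      rw [hMc] at hα
      exact hα.dvd (Polynomial.map_dvd _ ((dvd_mul_right A A').trans hdvd))
    have hβP : (P.map (Rat.castHom E)).IsRoot β := by
      rw [hMc'] at hβ
      exact hβ.dvd (Polynomial.map_dvd _ ((dvd_mul_left A' A).trans hdvd))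
    have h1 := hex.2 E (IsAlgClosed.splits _) (IsAlgClosed.splits _) 1 (Or.inl rfl) 2 1 s hs0
      (by norm_num) [⟨α, hαP⟩, ⟨β, hβP⟩] rfl (by simpa using hαβ)
    have h2 : α * β = (q : E) := by
      by_contra h3
      exact h1 (by simpa using h3)
    obtain ⟨ha0, har⟩ := hsymE α hα
    have h3 : β = (q : E) / α := by
      rw [eq_div_iff ha0, mul_comm]; exact h2
    rw [← h3, hMc] at har
    rw [hMc'] at hβ
    obtain ⟨u, v, huv⟩ := hcop
    have h4 := congrArg (eval β) huv
    rw [eval_add, eval_mul, eval_mul, har.eq_zero, hβ.eq_zero] at h4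
    simp at h4
  have hb : b = 0 := by
    ext i j
    have h1 := congrFun (congrFun hb0 i) j
    simp only [Matrix.map_apply, Matrix.zero_apply] at h1 ⊢
    exact (map_eq_zero f).1 h1
  exact (LinearMap.toMatrix₂ bV bV').map_eq_zero_iff.1 hb

end Pool.Agent.N197.AP
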