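import Pool.Agent.N197.AP.Fin3
import Pool.Agent.N197.AP.L_CROSS

/-!
# Project AP, part 3: no Tate classes of degree two between different motives
-/

set_option autoImplicit false

open Polynomial Filter Topology NumberField IsDedekindDomain Module Matrix
open Pool.Agent.Y142.ZO Pool.Agent.Y142.ZI Pool.Agent.Y142.ZS
open Pool.Agent.N166.CZ (IsTateModule ProductsWith)
open Pool.Agent.H204R3.GP (FiniteIndexSemisimple)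

namespace Pool.Agent.N197.AP

/-- the form of an alternating matrix -/
theorem form_of_matrix {k G : Type} [Field k] [CharZero k] [Group G] {n : ℕ}
    (J : Matrix (Fin n) (Fin n) k) (hJ : Jᵀ = -J) (hdet : J.det ≠ 0)
    (r : G →* Matrix (Fin n) (Fin n) k) (χ : G →* k) (h : ∀ g, (r g)ᵀ * J * r g = χ g • J) :
    ∃ ω : (Fin n → k) →ₗ[k] (Fin n → k) →ₗ[k] k, (∀ v, ω v v = 0) ∧
      (∀ u, (∀ v, ω v u = 0) → u = 0) ∧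
      ∀ s u v, ω (matRep r s u) (matRep r s v) = χ s * ω u v := by
  refine ⟨Matrix.toLinearMap₂' k J, fun v => ?_, fun u hu => ?_, fun s u v => ?_⟩
  · rw [Matrix.toLinearMap₂'_apply']
    have h1 : v ⬝ᵥ J *ᵥ v = -(v ⬝ᵥ J *ᵥ v) := by
      calc v ⬝ᵥ J *ᵥ v = (v ᵥ* J) ⬝ᵥ v := Matrix.dotProduct_mulVec _ _ _
        _ = (Jᵀ *ᵥ v) ⬝ᵥ v := by rw [Matrix.mulVec_transpose]
        _ = -(v ⬝ᵥ J *ᵥ v) := by rw [hJ, Matrix.neg_mulVec, neg_dotProduct, dotProduct_comm]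
    exact self_eq_neg.1 h1
  · have h1 : J *ᵥ u = 0 := by
      refine dotProduct_eq _ _ fun v => ?_
      have := hu v
      rw [Matrix.toLinearMap₂'_apply'] at this
      rw [dotProduct_comm, this, zero_dotProduct]
    exact Matrix.eq_zero_of_mulVec_eq_zero hdet h1
  · rw [Matrix.toLinearMap₂'_apply', Matrix.toLinearMap₂'_apply', matRep_apply, matRep_apply]
    have h1 : ((r s)ᵀ * J * r s) *ᵥ v = χ s • J *ᵥ v := by rw [h, Matrix.smul_mulVec]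
    calc (r s *ᵥ u) ⬝ᵥ J *ᵥ (r s *ᵥ v) = u ⬝ᵥ (((r s)ᵀ * J * r s) *ᵥ v) := by
          rw [← Matrix.mulVec_mulVec, ← Matrix.mulVec_mulVec, Matrix.dotProduct_mulVec u,
            Matrix.vecMul_transpose]
      _ = χ s * (u ⬝ᵥ J *ᵥ v) := by rw [h1, dotProduct_smul, smul_eq_mul]

theorem fin3x {K : Type} [Field K] [NumberField K] {ι : Type} [Fintype ι] [Nonempty ι]
    [DecidableEq ι] {N : ι → ℕ} {d m : ℕ} {w : ℤ}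
    (S : Set (HeightOneSpectrum (𝓞 K))) (hS : S.Finite)
    (P : ι → HeightOneSpectrum (𝓞 K) → ℚ[X]) (Q : HeightOneSpectrum (𝓞 K) → ℚ[X])
    (hP : ∀ v ∉ S, ∀ i, ∀ z : ℂ, aeval z (P i v) = 0 →
      ‖z‖ ^ 2 = (Ideal.absNorm v.asIdeal : ℝ) ∧ IsIntegral ℤ ((Ideal.absNorm v.asIdeal : ℂ) ^ m * z))
    (hQ : ∀ v ∉ S, ∀ z : ℂ, aeval z (Q v) = 0 →
      ‖z‖ ^ 2 = (Ideal.absNorm v.asIdeal : ℝ) ^ w ∧
        IsIntegral ℤ ((Ideal.absNorm v.asIdeal : ℂ) ^ m * z))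
    (χ : ∀ (ℓ : ℕ) [Fact ℓ.Prime], GK K →* ℚ_[ℓ])
    (J : ∀ (i : ι) (ℓ : ℕ) [Fact ℓ.Prime], Matrix (Fin (N i)) (Fin (N i)) ℚ_[ℓ])
    (r : ∀ (i : ι) (ℓ : ℕ) [Fact ℓ.Prime], GK K →* Matrix (Fin (N i)) (Fin (N i)) ℚ_[ℓ])
    (hr : ∀ (i : ι) (ℓ : ℕ) [Fact ℓ.Prime], Continuous (r i ℓ))
    (hJ : ∀ (i : ι) (ℓ : ℕ) [Fact ℓ.Prime], (J i ℓ)ᵀ = -J i ℓ)
    (hdet : ∀ (i : ι) (ℓ : ℕ) [Fact ℓ.Prime], (J i ℓ).det ≠ 0)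
    (hsim : ∀ (i : ι) (ℓ : ℕ) [Fact ℓ.Prime] (g : GK K),
      (r i ℓ g)ᵀ * J i ℓ * r i ℓ g = χ ℓ g • J i ℓ)
    (hχ : ∀ (ℓ : ℕ) [Fact ℓ.Prime], ∀ v ∉ S, (ℓ : 𝓞 K) ∉ v.asIdeal → ∀ σ : GK K,
      IsFrobenius v σ → χ ℓ σ = (Ideal.absNorm v.asIdeal : ℚ_[ℓ]))
    (hfrob : ∀ (i : ι) (ℓ : ℕ) [Fact ℓ.Prime], ∀ v ∉ S, (ℓ : 𝓞 K) ∉ v.asIdeal → ∀ σ : GK K,
      IsFrobenius v σ → (r i ℓ σ).charpoly = (P i v).map (Rat.castHom ℚ_[ℓ]))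
    (e : ∀ i, Fin (N i + 1) → Fin (N i) → ℚ_[2]) (h6 : ∀ i, 6 ≤ N i)
    (hint : ∀ i g a b, ‖r i 2 g a b‖ ≤ 1) (hJint : ∀ i a b, ‖J i 2 a b‖ ≤ 1)
    (heint : ∀ i a b, ‖e i a b‖ ≤ 1)
    (he : ∀ i a b, a ≠ b → ‖e i a ⬝ᵥ J i 2 *ᵥ e i b‖ = 1)
    (hbig : ∀ i (π : Equiv.Perm (Fin (N i + 1))), Equiv.Perm.sign π = 1 → ∃ g,
      (∀ a b, ‖(r i 2 g *ᵥ e i a - e i (π a)) b‖ < 1) ∧
      ∀ j, j ≠ i → ∀ a b, ‖(r j 2 g - 1) a b‖ < 1)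
    (τ : GK K →* Matrix (Fin d) (Fin d) ℚ_[2]) (hτ : Continuous τ)
    (htint : ∀ g a b, ‖τ g a b‖ ≤ 1)
    (ht : ∀ i, 2 ^ (d ^ 2 + 1) < (N i + 1).factorial ∨
      ∃ (g : GK K) (π : ∀ j, Equiv.Perm (Fin (N j + 1))), (∀ a b, ‖(τ g - 1) a b‖ < 1) ∧ π i ≠ 1 ∧
        ∀ j a b, ‖(r j 2 g *ᵥ e j a - e j (π j a)) b‖ < 1)
    (hτQ : ∀ v ∉ S, (2 : 𝓞 K) ∉ v.asIdeal → ∀ σ : GK K, IsFrobenius v σ →
      (τ σ⁻¹).charpoly = (Q v).map (Rat.castHom ℚ_[2])) (ℓ : ℕ) [hℓ : Fact ℓ.Prime] {i j : ι}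
    (hij : i ≠ j) (B : (Fin (N i) → ℚ_[ℓ]) →ₗ[ℚ_[ℓ]] (Fin (N j) → ℚ_[ℓ]) →ₗ[ℚ_[ℓ]] ℚ_[ℓ])
    (Δ : Subgroup (GK K)) (hΔ : Δ.FiniteIndex)
    (hB : ∀ s ∈ Δ, ∀ x y, B (matRep (r i ℓ) s x) (matRep (r j ℓ) s y) = χ ℓ s * B x y) : B = 0 := by
  have hfull : ∀ X, (∀ i, SpLie (J i 2) (X i)) →
      Pool.Agent.N171.TG.WTan (fun i => r i 2) τ X := fun X hX =>
    Pool.Agent.N171.TG.wtan_of_large (fun i => r i 2) (fun i => J i 2) (fun _ => χ 2)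
      (fun i => Pool.Agent.R932.OP.even_of_alt (hJ i 2) (hdet i 2)) h6 (fun i => hJ i 2) hint hJint
      (fun i g => hsim i 2 g) e heint he hbig τ htint ht X hX
  obtain ⟨h1, h2, h3, h4, h5⟩ := t_BLOCK ι N d (GK K) (fun i => r i 2) τ (fun i => J i 2)
    (fun i => hJ i 2) (fun i => hdet i 2) hfull
  obtain ⟨i₀⟩ := ‹Nonempty ι›
  have hn : 0 < ∑ i, N i :=
    Finset.sum_pos (fun i _ => lt_of_lt_of_le (by norm_num) (h6 i)) ⟨i₀, Finset.mem_univ _⟩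
  obtain ⟨v, hvT, -, σ, hσ, hQm, hex⟩ := t_PLACE2 K _ _ d m w _ τ (χ 2) _ hn (h5 fun i => hr i 2) hτ
    h2 (h3 (χ 2) fun i g => hsim i 2 g) h1 (S ∪ {v | ((2 : ℕ) : 𝓞 K) ∈ v.asIdeal})
    (hS.union (finite_above 2 Nat.prime_two)) (fun v => ∏ i, P i v) Q
    (fun v hv σ hσ => by
      have hv1 : v ∉ S := fun h => hv (Or.inl h)
      have hv2 : ((2 : ℕ) : 𝓞 K) ∉ v.asIdeal := fun h => hv (Or.inr h)
      refine ⟨?_, hτQ v hv1 (by rwa [Nat.cast_ofNat] at hv2) σ hσ, hχ 2 v hv1 hv2 σ hσ⟩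
      rw [h4, Polynomial.map_prod]
      exact Finset.prod_congr rfl fun i _ => hfrob i 2 v hv1 hv2 σ hσ)
    (fun v hv => ⟨fun z hz => by
      rw [map_prod, Finset.prod_eq_zero_iff] at hz
      obtain ⟨i, -, hi⟩ := hz
      exact hP v (fun h => hv (Or.inl h)) i z hi, hQ v fun h => hv (Or.inl h)⟩)
    (S ∪ {v | (ℓ : 𝓞 K) ∈ v.asIdeal}) (hS.union (finite_above ℓ hℓ.out))
  have hv1 : v ∉ S := fun h => hvT (Or.inl h)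
  have hv2 : (ℓ : 𝓞 K) ∉ v.asIdeal := fun h => hvT (Or.inr h)
  obtain ⟨ω, hω1, hω2, hω3⟩ := form_of_matrix (J i ℓ) (hJ i ℓ) (hdet i ℓ) (r i ℓ) (χ ℓ)
    (fun g => hsim i ℓ g)
  refine t_CROSS ℚ_[ℓ] (GK K) _ _ (matRep (r i ℓ)) (matRep (r j ℓ)) (χ ℓ) ω hω1 hω2 hω3 σ
    (P i v) (P j v) (∏ i, P i v) (Q v) (Ideal.absNorm v.asIdeal) ?_ (hχ ℓ v hv1 hv2 σ hσ) ?_ ?_ ?_
    hQm.ne_zero hex B Δ hΔ hB
  · rw [Ne, Ideal.absNorm_eq_zero_iff]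
    exact v.ne_bot
  · rw [← hfrob i ℓ v hv1 hv2 σ hσ]
    exact Matrix.charpoly_toLin' (r i ℓ σ)
  · rw [← hfrob j ℓ v hv1 hv2 σ hσ]
    exact Matrix.charpoly_toLin' (r j ℓ σ)
  · rw [← Finset.prod_pair (f := fun i => P i v) hij]
    exact Finset.prod_dvd_prod_of_subset _ _ _ (Finset.subset_univ _)

end Pool.Agent.N197.AP
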