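import Pool.Agent.N197.AP.StmC

/-!
# Project AP, task CONT1 (helper225 for helper197): the stabilizers of the points of the Jacobian are open
-/

set_option autoImplicit false

open Polynomial Topology
open Pool.Agent.N171

namespace Pool.Agent.N197.AP

theorem cont1_frac {R : Type*} [CommRing R] [IsDomain R] (x : FractionRing R) :
    ∃ a : R × R, ∀ g : R ≃+* R, g a.1 = a.1 → g a.2 = a.2 →
      IsFractionRing.ringEquivOfRingEquiv (K := FractionRing R) (L := FractionRing R) g x = x := by
  obtain ⟨a, b, -, rfl⟩ := IsFractionRing.div_surjective (A := R) x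
  refine ⟨(a, b), fun g h1 h2 => ?_⟩
  simp only at h1 h2
  rw [map_div₀, IsFractionRing.ringEquivOfRingEquiv_algebraMap,
    IsFractionRing.ringEquivOfRingEquiv_algebraMap, h1, h2]

theorem cont1_class {R : Type*} [CommRing R] [IsDomain R] (y : ClassGroup R) :
    ∃ S : Finset R, ∀ g : R ≃+* R, (∀ r ∈ S, g r = r) → ClassGroup.mulEquiv g y = y := by
  classical
  obtain ⟨z, rfl⟩ := (ClassGroup.equiv (FractionRing R)).symm.surjective y
  obtain ⟨I, rfl⟩ := QuotientGroup.mk_surjective z
  obtain ⟨T, hT⟩ := FractionalIdeal.fg_unit I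
  choose a ha using cont1_frac (R := R)
  refine ⟨T.image (fun x => (a x).1) ∪ T.image (fun x => (a x).2), fun g hg => ?_⟩
  have hx : ∀ x ∈ T, IsFractionRing.ringEquivOfRingEquiv (K := FractionRing R)
      (L := FractionRing R) g x = x := by
    intro x hx
    refine ha x g (hg _ ?_) (hg _ ?_)
    · exact Finset.mem_union_left _ (Finset.mem_image_of_mem _ hx)
    · exact Finset.mem_union_right _ (Finset.mem_image_of_mem _ hx)
  unfold ClassGroup.mulEquiv
  rw [MulEquiv.trans_apply, MulEquiv.trans_apply, MulEquiv.apply_symm_apply]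
  congr 1
  refine (QuotientGroup.congr_mk _ _ _ _ I).trans ?_
  congr 1
  apply Units.ext
  rw [Units.coe_mapEquiv]
  apply FractionalIdeal.coeToSubmodule_injective
  refine (FractionalIdeal.ringEquivOfRingEquiv_apply_val (FractionRing R) (FractionRing R) g _).trans ?_
  have hT' : (I : FractionalIdeal (nonZeroDivisors R) (FractionRing R)).val =
      Submodule.span R (T : Set (FractionRing R)) := hT.symm
  rw [hT']
  refine (Submodule.map_span _ _).trans ?_
  have h2 : ((I : FractionalIdeal (nonZeroDivisors R) (FractionRing R)) :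
      Submodule R (FractionRing R)) =
      Submodule.span R (T : Set (FractionRing R)) := hT.symm
  refine Eq.trans ?_ h2.symm
  congr 1
  ext x
  constructor
  · rintro ⟨x', hx', rfl⟩
    have := hx x' hx'
    change IsFractionRing.ringEquivOfRingEquiv (K := FractionRing R) (L := FractionRing R) g x' ∈ _
    rw [this]
    exact hx'
  · intro hx'
    exact ⟨x, hx', hx x hx'⟩

theorem cont1_poly {K F : Type*} [Field K] [Field F] [Algebra K F] [Algebra.IsIntegral K F]
    (p : F[X]) :
    {σ : F ≃ₐ[K] F | p.map ((σ : F ≃+* F) : F →+* F) = p} ∈ 𝓝 (1 : F ≃ₐ[K] F) := by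
  have h : ∀ a : F, {σ : F ≃ₐ[K] F | σ a = a} ∈ 𝓝 (1 : F ≃ₐ[K] F) := fun a =>
    (stabilizer_isOpen_of_isIntegral (K := K) (L := F) a).mem_nhds (one_mem _)
  refine Filter.mem_of_superset ((Filter.biInter_finset_mem p.support).2
    fun i _ => h (p.coeff i)) fun σ hσ => ?_
  change p.map ((σ : F ≃+* F) : F →+* F) = p
  ext i
  rw [Polynomial.coeff_map]
  by_cases hi : i ∈ p.support
  · exact Set.mem_iInter₂.1 hσ i hi
  · rw [Polynomial.notMem_support_iff.1 hi, map_zero]

theorem t_CONT1 : S_CONT1 := by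
  intro K F _ _ _ _ f _ x
  have halg : Algebra.IsAlgebraic K F := IsAlgClosure.isAlgebraic
  have hint : Algebra.IsIntegral K F := Algebra.isAlgebraic_iff_isIntegral.1 halg
  obtain ⟨S, hS⟩ := cont1_class (R := RF f F) (Additive.toMul (x : Additive (ClassGroup (RF f F))))
  have hr : ∀ r ∈ S, {σ : F ≃ₐ[K] F | (gRg (rf_fix f σ) : RF f F ≃+* RF f F) r = r} ∈
      𝓝 (1 : F ≃ₐ[K] F) := by
    intro r _
    refine Filter.mem_of_superset (Filter.inter_mem (cont1_poly (K := K) r.re)
      (cont1_poly (K := K) r.im)) fun σ hσ => ?_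
    exact QuadraticAlgebra.ext hσ.1 hσ.2
  refine Filter.mem_of_superset ((Filter.biInter_finset_mem S).2 hr) fun σ hσ => ?_
  exact hS (gRg (rf_fix f σ)) fun r hr => Set.mem_iInter₂.1 hσ r hr

end Pool.Agent.N197.AP
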