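import Pool.Agent.N171.PmAsm
import Pool.Agent.N171.St

/-!
# AP/CONT2, first part: continuity of the representation on the rational Tate modules (helper704)
-/

set_option autoImplicit false
set_option linter.all false

open Polynomial Matrix Filter Topology Module TensorProduct
open Pool.Agent.N171 Pool.Agent.N171.Pm
open scoped Classical

namespace Pool.Agent.N197.AP.Cont2

/-- A linear functional on the rational Tate module is bounded on the Tate module. -/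
theorem bounded {T : Type*} [AddCommGroup T] [Module ℤ_[2] T] [Module.Finite ℤ_[2] T]
    (μ : (ℚ_[2] ⊗[ℤ_[2]] T) →ₗ[ℚ_[2]] ℚ_[2]) : ∃ C : ℝ, 0 ≤ C ∧ ∀ y : T, ‖μ (1 ⊗ₜ y)‖ ≤ C := by
  obtain ⟨s, hs⟩ := Module.Finite.fg_top (R := ℤ_[2]) (M := T)
  refine ⟨∑ g ∈ s, ‖μ (1 ⊗ₜ g)‖, Finset.sum_nonneg fun _ _ => norm_nonneg _, fun y => ?_⟩
  have hy : y ∈ Submodule.span ℤ_[2] (s : Set T) := by
    rw [hs]
    exact Submodule.mem_top
  induction hy using Submodule.span_induction with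
  | mem x hx =>
    exact Finset.single_le_sum (f := fun g => ‖μ (1 ⊗ₜ g)‖) (fun _ _ => norm_nonneg _) hx
  | zero =>
    rw [TensorProduct.tmul_zero, map_zero, norm_zero]
    exact Finset.sum_nonneg fun _ _ => norm_nonneg _
  | add x y _ _ hx hy =>
    rw [TensorProduct.tmul_add, map_add]
    exact (Padic.nonarchimedean _ _).trans (max_le hx hy)
  | smul a x _ hx =>
    have h1 : (1 : ℚ_[2]) ⊗ₜ[ℤ_[2]] (a • x) = (a : ℚ_[2]) • ((1 : ℚ_[2]) ⊗ₜ[ℤ_[2]] x) := by
      rw [TensorProduct.tmul_smul, TensorProduct.smul_tmul', TensorProduct.smul_tmul',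
        Algebra.smul_def]
      rfl
    rw [h1, map_smul, smul_eq_mul, norm_mul]
    have h2 : ‖(a : ℚ_[2])‖ ≤ 1 := a.2
    exact (mul_le_of_le_one_left (norm_nonneg _) h2).trans hx

section one

variable {Γ : Type*} [Group Γ] [TopologicalSpace Γ] {M : Type*} [AddCommGroup M]
  [DistribMulAction Γ M]

/-- An element of the Tate module is moved by multiples of `2 ^ n` only. -/
theorem near (hst : ∀ x : M, {σ : Γ | σ • x = x} ∈ 𝓝 (1 : Γ)) (x : TateMod 2 M) (n : ℕ) :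
    ∀ᶠ σ in 𝓝 (1 : Γ), ∃ y : TateMod 2 M, (2 : ℤ_[2]) ^ n • y = tmMap (act σ) x - x := by
  filter_upwards [hst (x.1 n)] with σ hσ
  obtain ⟨y, hy⟩ := tm_shift_pow (p := 2) (a := tmMap (act σ) x - x) (n := n) (by
    change σ • (x.1 n) - x.1 n = 0
    rw [hσ, sub_self])
  exact ⟨y, by exact_mod_cast hy⟩

/-- The matrix coefficients are continuous at one. -/
theorem coef' [Module.Finite ℤ_[2] (TateMod 2 M)]
    (hst : ∀ x : M, {σ : Γ | σ • x = x} ∈ 𝓝 (1 : Γ))
    (ν : (ℚ_[2] ⊗[ℤ_[2]] TateMod 2 M) →ₗ[ℚ_[2]] ℚ_[2]) (v : ℚ_[2] ⊗[ℤ_[2]] TateMod 2 M) :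
    Tendsto (fun σ : Γ => ν ((LinearMap.baseChange ℚ_[2] (tmMap (act σ) :
        TateMod 2 M →ₗ[ℤ_[2]] TateMod 2 M)) v)) (𝓝 1) (𝓝 (ν v)) := by
  obtain ⟨C, hC0, hC⟩ := bounded ν
  induction v using TensorProduct.induction_on with
  | zero =>
    simp only [map_zero]
    exact tendsto_const_nhds
  | tmul q x =>
    simp only [LinearMap.baseChange_tmul]
    rw [Metric.tendsto_nhds]
    intro ε hε
    obtain ⟨n, hn⟩ : ∃ n : ℕ, ‖q‖ * C * (1 / 2) ^ n < ε := by
      obtain ⟨n, hn⟩ := exists_pow_lt_of_lt_one (show 0 < ε / (‖q‖ * C + 1) by positivity)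
        (show (1 / 2 : ℝ) < 1 by norm_num)
      refine ⟨n, ?_⟩
      rw [lt_div_iff₀ (by positivity)] at hn
      have : 0 < (1 / 2 : ℝ) ^ n := by positivity
      nlinarith
    filter_upwards [near hst x n] with σ hσ
    obtain ⟨y, hy⟩ := hσ
    have h1 : q ⊗ₜ[ℤ_[2]] (tmMap (act σ) x) - q ⊗ₜ[ℤ_[2]] x =
        (q * 2 ^ n) • ((1 : ℚ_[2]) ⊗ₜ[ℤ_[2]] y) := by
      rw [← TensorProduct.tmul_sub, ← hy, TensorProduct.tmul_smul, TensorProduct.smul_tmul',
        TensorProduct.smul_tmul', Algebra.smul_def, smul_eq_mul, mul_one]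
      congr 1
      rw [map_pow, map_ofNat]
      ring
    rw [dist_eq_norm, ← map_sub, h1, map_smul, smul_eq_mul, norm_mul, norm_mul, norm_pow]
    have h2 : ‖(2 : ℚ_[2])‖ = 1 / 2 := by
      have := Padic.norm_p (p := 2)
      push_cast at this
      rw [this]
      norm_num
    rw [h2]
    calc ‖q‖ * (1 / 2) ^ n * ‖ν ((1 : ℚ_[2]) ⊗ₜ[ℤ_[2]] y)‖ ≤ ‖q‖ * (1 / 2) ^ n * C :=
          mul_le_mul_of_nonneg_left (hC y) (by positivity)
      _ = ‖q‖ * C * (1 / 2) ^ n := by ring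
      _ < ε := hn
  | add x y hx hy =>
    simp only [map_add]
    exact hx.add hy

theorem coef [Module.Finite ℤ_[2] (TateMod 2 M)]
    (hst : ∀ x : M, {σ : Γ | σ • x = x} ∈ 𝓝 (1 : Γ)) (μ : Vt M →ₗ[ℚ_[2]] ℚ_[2]) (v : Vt M) :
    Tendsto (fun σ : Γ => μ (vRep M Γ σ v)) (𝓝 1) (𝓝 (μ v)) :=
  coef' hst μ v

end one

/-- A homomorphism to matrices which is continuous at one is continuous. -/
theorem cont_of_one {Γ : Type*} [Group Γ] [TopologicalSpace Γ] [IsTopologicalGroup Γ] {n : ℕ}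
    (R : Γ →* Matrix (Fin n) (Fin n) ℚ_[2])
    (h : ∀ a b, Tendsto (fun σ => R σ a b) (𝓝 1) (𝓝 (R 1 a b))) : Continuous R := by
  have h1 : ContinuousAt R 1 := by
    exact tendsto_pi_nhds.2 fun a => tendsto_pi_nhds.2 fun b => h a b
  rw [continuous_iff_continuousAt]
  intro s
  have h2 : (R : Γ → Matrix (Fin n) (Fin n) ℚ_[2]) = fun σ => R (σ * s⁻¹) * R s := by
    funext σ
    rw [← map_mul, inv_mul_cancel_right]
  rw [h2]
  have h3 : ContinuousAt (fun σ : Γ => R (σ * s⁻¹)) s := by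
    have h4 : ContinuousAt (fun σ : Γ => σ * s⁻¹) s := by fun_prop
    have h5 : ContinuousAt R (s * s⁻¹) := by rwa [mul_inv_cancel]
    exact ContinuousAt.comp (f := fun σ : Γ => σ * s⁻¹) h5 h4
  exact h3.mul continuousAt_const

/-- The abstract form. -/
theorem cont_gen {Γ : Type*} [Group Γ] [TopologicalSpace Γ] [IsTopologicalGroup Γ] {ι : Type*}
    [Fintype ι] (M : ι → Type*) [∀ i, AddCommGroup (M i)] [∀ i, DistribMulAction Γ (M i)]
    [∀ i, Module.Finite ℤ_[2] (TateMod 2 (M i))]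
    (hst : ∀ (i : ι) (x : M i), {σ : Γ | σ • x = x} ∈ 𝓝 (1 : Γ)) (n : ℕ)
    (R : Γ →* Matrix (Fin n) (Fin n) ℚ_[2]) (E : (Fin n → ℚ_[2]) ≃ₗ[ℚ_[2]] (∀ i, Vt (M i)))
    (hE : ∀ g x i, E (R g *ᵥ x) i = vRep (M i) Γ g (E x i)) : Continuous R := by
  refine cont_of_one R fun a b => ?_
  -- the entry as a sum of matrix coefficients
  obtain ⟨w, hw⟩ : ∃ w, w = E (Pi.single b 1) := ⟨_, rfl⟩
  obtain ⟨μ, hμ⟩ : ∃ μ : ∀ i, Vt (M i) →ₗ[ℚ_[2]] ℚ_[2], ∀ i, μ i =
      (LinearMap.proj a ∘ₗ E.symm.toLinearMap) ∘ₗ LinearMap.single ℚ_[2] (fun i => Vt (M i)) i :=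
    ⟨_, fun _ => rfl⟩
  have h1 : ∀ σ, R σ a b = ∑ i, μ i (vRep (M i) Γ σ (w i)) := by
    intro σ
    have e1 : R σ a b = (R σ *ᵥ (Pi.single b 1 : Fin n → ℚ_[2])) a := by
      rw [Matrix.mulVec_single_one]
      rfl
    have e2 : E (R σ *ᵥ (Pi.single b 1 : Fin n → ℚ_[2])) =
        ∑ i, LinearMap.single ℚ_[2] (fun i => Vt (M i)) i (vRep (M i) Γ σ (w i)) := by
      funext j
      rw [hE, ← hw, Finset.sum_apply, Finset.sum_eq_single j]
      · rw [LinearMap.single_apply, Pi.single_eq_same]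
      · intro i _ hi
        rw [LinearMap.single_apply, Pi.single_eq_of_ne (Ne.symm hi)]
      · intro h
        exact absurd (Finset.mem_univ _) h
    have e3 : R σ *ᵥ (Pi.single b 1 : Fin n → ℚ_[2]) = E.symm
        (∑ i, LinearMap.single ℚ_[2] (fun i => Vt (M i)) i (vRep (M i) Γ σ (w i))) := by
      rw [← e2, LinearEquiv.symm_apply_apply]
    rw [e1, e3, map_sum, Finset.sum_apply]
    refine Finset.sum_congr rfl fun i _ => ?_
    rw [hμ]
    rfl
  simp only [h1]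
  refine tendsto_finset_sum _ fun i _ => ?_
  have h2 : vRep (M i) Γ 1 (w i) = w i := by
    rw [map_one]
    rfl
  rw [h2]
  exact coef (hst i) (μ i) (w i)

/-- The Tate module of the Jacobian is finitely generated. -/
theorem fin_of_eq {F ι : Type*} [Field F] [IsAlgClosed F] [Fintype ι] [DecidableEq ι] {α : ι → F} [Hyp α]
    {g : F[X]} [IsDomain (RG g)] (hg : g = fP α) :
    Module.Finite ℤ_[2] (TateMod 2 (ClG (RG g))) := by
  subst hg
  exact finite_T (isClasses_ThG (α := α))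

theorem fin_jac {K F : Type*} [Field K] [Field F] [Algebra K F] [IsAlgClosure K F] (f : K[X])
    [HypP f] : Module.Finite ℤ_[2] (TateMod 2 (JacP f F)) := by
  have hF : IsAlgClosed F := IsAlgClosure.isAlgClosed K
  have hsp : (f.map (algebraMap K F)).Splits := IsAlgClosed.splits _
  have hm : (f.map (algebraMap K F)).Monic := (HypP.monic (f := f)).map _
  have hnd : (f.aroots F).Nodup := nodup_roots (HypP.sep (f := f)).map
  have hcard : Fintype.card (f.rootSet F) = f.natDegree :=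
    card_rootSet_eq_natDegree (HypP.sep (f := f)) hsp
  have h2 : (2 : F) ≠ 0 := by
    have h1 : (2 : F) = algebraMap K F 2 := by rw [map_ofNat]
    rw [h1, Ne, map_eq_zero]
    exact HypP.two (f := f)
  have hyp : Hyp (fun x : f.rootSet F => (x : F)) :=
    { inj := Subtype.val_injective
      odd := by
        rw [hcard]
        exact HypP.odd (f := f)
      two := h2 }
  have hα : f.map (algebraMap K F) = fP (fun x : f.rootSet F => (x : F)) := by
    rw [hsp.eq_prod_roots_of_monic hm, fP]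
    have h1 : ∏ x ∈ (f.aroots F).toFinset, (X - C x) = ∏ x : f.rootSet F, (X - C (x : F)) :=
      Finset.prod_subtype _ (fun x => Iff.rfl) _
    rw [← h1, Finset.prod, Multiset.toFinset_val, Multiset.Nodup.dedup hnd]
  exact fin_of_eq (g := f.map (algebraMap K F)) hα

theorem core (K F : Type) [Field K] [Field F] [Algebra K F] [IsAlgClosure K F]
    (ι : Type) [Fintype ι] (f : ι → K[X]) [∀ i, HypP (f i)]
    (hst : ∀ (i : ι) (x : JacP (f i) F), {σ : F ≃ₐ[K] F | σ • x = x} ∈ 𝓝 (1 : F ≃ₐ[K] F))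
    (n : ℕ) (R : (F ≃ₐ[K] F) →* Matrix (Fin n) (Fin n) ℚ_[2])
    (E : (Fin n → ℚ_[2]) ≃ₗ[ℚ_[2]] (∀ i, Vt (JacP (f i) F)))
    (hE : ∀ g x i, E (R g *ᵥ x) i = vRep (JacP (f i) F) (F ≃ₐ[K] F) g (E x i)) :
    Continuous R := by
  have h1 : ∀ i, Module.Finite ℤ_[2] (TateMod 2 (JacP (f i) F)) := fun i => fin_jac (f i)
  exact cont_gen (fun i => JacP (f i) F) hst n R E hE

end Pool.Agent.N197.AP.Cont2
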