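import Pool.Agent.N197.AP.StmC
import Pool.Agent.N197.AP.L_CONT2a

/-!
# AP/CONT2: the representation on the product of the rational Tate modules is continuous (helper704)
-/

set_option autoImplicit false

namespace Pool.Agent.N197.AP

theorem t_CONT2 : S_CONT2 := fun K F _ _ _ _ ι _ f _ hst n R E hE =>
  Cont2.core K F ι f hst n R E hE

end Pool.Agent.N197.AP
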