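import Pool.Agent.N197.AP.Stm
import Pool.Agent.R932.SQ.Near

/-!
# Project AP (helper197): task LOCAL (helper901)
-/

set_option autoImplicit false

open Polynomial Filter Topology
open Pool.Agent.Y142.ZI
open Pool.Agent.Y331.ZD (near_split norm_map exists_mu exists_bd)

namespace Pool.Agent.N197.AP

namespace LocalAux

lemma exists_min {ι : Type} [Finite ι] (f : ι → ℝ) (hf : ∀ i, 0 < f i) :
    ∃ μ : ℝ, 0 < μ ∧ ∀ i, μ ≤ f i := by
  classical
  have := Fintype.ofFinite ι
  rcases isEmpty_or_nonempty ι with h | h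
  · exact ⟨1, one_pos, fun i => (h.false i).elim⟩
  · refine ⟨Finset.univ.inf' Finset.univ_nonempty f, ?_, ?_⟩
    · rw [Finset.lt_inf'_iff]
      exact fun i _ => hf i
    · intro i
      exact Finset.inf'_le f (Finset.mem_univ i)

lemma exists_max {ι : Type} [Finite ι] (f : ι → ℕ) : ∃ k : ℕ, ∀ i, f i ≤ k := by
  classical
  have := Fintype.ofFinite ι
  exact ⟨Finset.univ.sup f, fun i => Finset.le_sup (Finset.mem_univ i)⟩

variable {κ : Type} [Fintype κ]

/-- the roots of `Rz lam` -/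
def La (lam : κ → ℕ) : κ ⊕ κ → ℤ := Sum.elim (fun i => (lam i : ℤ)) (fun i => -(lam i : ℤ))

lemma La_inj (lam : κ → ℕ) (h : Function.Injective lam) (h0 : ∀ i, 0 < lam i) :
    Function.Injective (La lam) := by
  intro j j' hj
  rcases j with i | i <;> rcases j' with i' | i' <;> simp only [La, Sum.elim_inl, Sum.elim_inr] at hj
  · exact congrArg _ (h (by exact_mod_cast hj))
  · have := h0 i; have := h0 i'; omega
  · have := h0 i; have := h0 i'; omega
  · exact congrArg _ (h (by exact_mod_cast neg_injective hj))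

lemma La_add (lam : κ → ℕ) (h : Function.Injective lam) (h0 : ∀ i, 0 < lam i) (j j' : κ ⊕ κ)
    (hj : j' ≠ j.swap) : La lam j + La lam j' ≠ 0 := by
  rcases j with i | i <;> rcases j' with i' | i' <;> simp only [La, Sum.elim_inl, Sum.elim_inr]
  · have := h0 i; have := h0 i'; omega
  · intro hc
    apply hj
    have : lam i = lam i' := by omega
    rw [h this]; rfl
  · intro hc
    apply hj
    have : lam i = lam i' := by omega
    rw [h this]; rfl
  · have := h0 i; have := h0 i'; omega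

lemma La_sum (lam : κ → ℕ) (a : κ ⊕ κ → ℕ) :
    ∑ j, (a j : ℤ) * La lam j = ∑ i, ((a (.inl i) : ℤ) - a (.inr i)) * lam i := by
  rw [Fintype.sum_sum_type, ← Finset.sum_add_distrib]
  apply Finset.sum_congr rfl
  intro i _
  simp only [La, Sum.elim_inl, Sum.elim_inr]
  ring

lemma Rz_map (lam : κ → ℕ) {L : Type} [Field L] (i : ℚ_[2] →+* L) :
    (Rz lam).map i = ∏ j, (X - C ((La lam j : ℤ) : L)) := by
  rw [Rz, Polynomial.map_prod, Fintype.prod_sum_type, ← Finset.prod_mul_distrib]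
  apply Finset.prod_congr rfl
  intro l _
  simp only [La, Sum.elim_inl, Sum.elim_inr, Polynomial.map_mul, Polynomial.map_sub,
    Polynomial.map_add, map_X, Polynomial.map_natCast, map_natCast, Int.cast_natCast,
    Int.cast_neg, map_neg, sub_neg_eq_add]

end LocalAux

open LocalAux

open Classical in
theorem t_LOCAL (h : S_PROD) : S_LOCAL := by
  intro κ _ T lam hlam hlam0 hT
  set L := AlgebraicClosure ℚ_[2] with hL
  set i : ℚ_[2] →+* L := algebraMap ℚ_[2] L with hi
  have hnorm : ∀ x : ℚ_[2], ‖i x‖ = ‖x‖ := norm_map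
  set b : κ ⊕ κ → L := fun j => ((La lam j : ℤ) : L) with hb
  have hbinj : Function.Injective b := fun j j' hj => La_inj lam hlam hlam0 (Int.cast_injective hj)
  have hprod0 : (Rz lam).map i = ∏ j, (X - C (b j)) := Rz_map lam i
  have hcard : (Rz lam).natDegree = Fintype.card (κ ⊕ κ) := by
    rw [← natDegree_map i, hprod0, natDegree_prod_of_monic _ _ fun j _ => monic_X_sub_C _,
      Finset.sum_congr rfl fun j _ => natDegree_X_sub_C _]
    simp
  -- applications of `S_PROD`
  have h1 : ∀ a : {a // a ∈ T}, _ := fun a => h (κ ⊕ κ) a.1 (La lam) (by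
    rw [La_sum]; exact hT a.1 a.2)
  have h2 : ∀ p : {p : (κ ⊕ κ) × (κ ⊕ κ) // p.2 ≠ p.1.swap}, _ := fun p =>
    h (κ ⊕ κ) (fun l => (if l = p.1.1 then 1 else 0) + (if l = p.1.2 then 1 else 0)) (La lam) (by
      have h3 := La_add lam hlam hlam0 p.1.1 p.1.2 p.2
      have h4 : ∑ l, (((if l = p.1.1 then 1 else 0) + (if l = p.1.2 then 1 else 0) : ℕ) : ℤ) *
          La lam l = La lam p.1.1 + La lam p.1.2 := by
        push_cast
        simp only [add_mul, ite_mul, one_mul, zero_mul, Finset.sum_add_distrib,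
          Finset.sum_ite_eq', Finset.mem_univ, if_true]
      rw [h4]
      exact h3)
  choose ε1 k1 hε1 h1 using h1
  choose ε2 k2 hε2 h2 using h2
  obtain ⟨μ1, hμ1, hμ1'⟩ := exists_min ε1 hε1
  obtain ⟨μ2, hμ2, hμ2'⟩ := exists_min ε2 hε2
  obtain ⟨K1, hK1⟩ := exists_max k1
  obtain ⟨K2, hK2⟩ := exists_max k2
  -- the constants
  obtain ⟨M, hM1, hM⟩ := exists_bd (fun j : κ ⊕ κ => ‖b j‖)
  obtain ⟨μ3, hμ3, _, hμ3'⟩ := exists_mu
    (fun p : (κ ⊕ κ) × (κ ⊕ κ) => ‖b p.1 - b p.2‖)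
    (fun p => b p.1 - b p.2 ≠ 0)
    (fun p hp => norm_pos_iff.mpr hp)
  set μ : ℝ := min μ3 (min μ1 μ2) with hμdef
  have hμ0 : 0 < μ := lt_min hμ3 (lt_min hμ1 hμ2)
  have hM0 : 0 < M := by linarith
  have hsep2 : ∀ j1 j2 : κ ⊕ κ, j1 ≠ j2 → μ ≤ ‖b j1 - b j2‖ := by
    intro j1 j2 hne
    refine (min_le_left _ _).trans ?_
    refine hμ3' (j1, j2) ?_
    dsimp only
    intro h0
    exact hne (hbinj (sub_eq_zero.1 h0))
  have hεpos : 0 < μ ^ Fintype.card (κ ⊕ κ) / (2 * M ^ Fintype.card (κ ⊕ κ)) := by positivity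
  have hεμ : μ ^ Fintype.card (κ ⊕ κ) / (2 * M ^ Fintype.card (κ ⊕ κ)) *
      M ^ Fintype.card (κ ⊕ κ) < μ ^ Fintype.card (κ ⊕ κ) := by
    have h3 : μ ^ Fintype.card (κ ⊕ κ) / (2 * M ^ Fintype.card (κ ⊕ κ)) *
        M ^ Fintype.card (κ ⊕ κ) = μ ^ Fintype.card (κ ⊕ κ) / 2 := by field_simp
    rw [h3]
    have : 0 < μ ^ Fintype.card (κ ⊕ κ) := by positivity
    linarith
  refine ⟨min (μ ^ Fintype.card (κ ⊕ κ) / (2 * M ^ Fintype.card (κ ⊕ κ))) μ, max K1 K2,
    lt_min hεpos hμ0, ?_⟩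
  intro k hk P Q q hP hdeg hcl hQ hq
  have hLk : (((2 : ℕ) : ℚ_[2]) ^ k) ≠ 0 := ell_pow_ne k
  set la : L := i (((2 : ℕ) : ℚ_[2]) ^ k) with hla
  have hla0 : la ≠ 0 := (_root_.map_ne_zero _).2 hLk
  obtain ⟨r, hrinj, hrb, hprod⟩ := near_split (b := b) (P := (resc 2 k P).map i) hμ0 hM1 hM
    hsep2 hεpos.le hεμ ((resc_monic k hP).map i)
    (by rw [natDegree_map, resc_natDegree, hdeg, hcard])
    (fun j => by
      rw [← hprod0, ← Polynomial.map_sub, coeff_map, hnorm]
      exact ((hcl j).trans_le (min_le_left _ _)).le)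
  set α : κ ⊕ κ → L := fun j => 1 + la * r j with hα
  have hαr : ∀ j, (α j - 1) / la = r j := by
    intro j
    rw [hα]
    simp only [add_sub_cancel_left]
    rw [mul_div_cancel_left₀ _ hla0]
  have hαinj : Function.Injective α := by
    intro j j' hj
    apply hrinj
    rw [← hαr, ← hαr, hj]
  have hroot : ∀ j, aeval (α j) P = 0 := by
    intro j
    have h3 : aeval (r j) (resc 2 k P) = 0 := by
      rw [aeval_def, ← eval_map, ← hi, hprod, eval_prod]
      exact Finset.prod_eq_zero (Finset.mem_univ j) (by simp)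
    exact (aeval_resc' k P (r j)).mp h3
  have hfac : P.map i = ∏ j, (X - C (α j)) := by
    have hm : (∏ j, (X - C (α j)) : L[X]).Monic := monic_prod_of_monic _ _ fun j _ =>
      monic_X_sub_C _
    have hd : (∏ j, (X - C (α j)) : L[X]) ∣ P.map i := by
      apply Finset.prod_dvd_of_coprime
      · intro j _ j' _ hjj
        exact pairwise_coprime_X_sub_C hαinj hjj
      · intro j _
        rw [dvd_iff_isRoot, IsRoot, eval_map, ← aeval_def]
        exact hroot j
    refine (eq_of_monic_of_dvd_of_natDegree_le hm (hP.map i) hd ?_)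
    rw [natDegree_map, hdeg, hcard, natDegree_prod_of_monic _ _ fun j _ => monic_X_sub_C _,
      Finset.sum_congr rfl fun j _ => natDegree_X_sub_C _]
    simp
  have hclose : ∀ j, ‖(α j - 1) / la - ((La lam j : ℤ) : L)‖ < μ := by
    intro j
    rw [hαr]
    exact hrb j
  have hq' : ‖(i q - 1) / la‖ < μ := by
    have h3 : (i q - 1) / la = i ((((2 : ℕ) : ℚ_[2]) ^ k)⁻¹ * (q - 1)) := by
      rw [map_mul, map_inv₀, map_sub, map_one, div_eq_mul_inv, mul_comm]
    rw [h3, hnorm]
    exact hq.trans_le (min_le_right _ _)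
  have hle1 : ∀ a, μ ≤ ε1 a := fun a =>
    ((min_le_right _ _).trans (min_le_left _ _)).trans (hμ1' a)
  have hle2 : ∀ a, μ ≤ ε2 a := fun a =>
    ((min_le_right _ _).trans (min_le_right _ _)).trans (hμ2' a)
  refine ⟨α, hαinj, hfac, ?_, ?_⟩
  · intro j j' hjj
    by_contra hne
    have h3 := h2 ⟨(j, j'), hne⟩ k
      ((hK2 _).trans ((le_max_right _ _).trans hk)) α 1 (i q)
      (fun l => (hclose l).trans_le (hle2 _))
      (by rw [sub_self, zero_div, norm_zero]; exact hε2 _) (hq'.trans_le (hle2 _)) 1 1 one_pos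
    apply h3
    simp only [mul_one, pow_one, zpow_one]
    rw [← hjj]
    simp only [pow_add, Finset.prod_mul_distrib, pow_ite, pow_one, pow_zero,
      Finset.prod_ite_eq', Finset.mem_univ, if_true]
  · intro β hβ a ha hrel
    obtain ⟨c, s, hs, hrel⟩ := hrel
    refine h1 ⟨a, ha⟩ k ((hK1 _).trans ((le_max_left _ _).trans hk)) α β (i q)
      (fun l => (hclose l).trans_le (hle1 _)) ?_ (hq'.trans_le (hle1 _)) c s hs hrel
    rcases hβ with rfl | hβ
    · rw [sub_self, zero_div, norm_zero]; exact hε1 _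
    · exact (hQ β hβ).trans_le ((min_le_right _ _).trans (hle1 _))

end Pool.Agent.N197.AP
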