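import Pool.Agent.Y142.ZO.Stm
import Pool.Agent.Y142.ZI.Stm
import Pool.Agent.Y142.ZS.Stm

/-!
# Project AP: all prime numbers, with values in an arbitrary system (statements)
-/

set_option autoImplicit false

open Polynomial Filter Topology NumberField IsDedekindDomain Module Matrix
open Pool.Agent.Y142.ZO Pool.Agent.Y142.ZI Pool.Agent.Y142.ZS

namespace Pool.Agent.N197.AP

/-! ### relations between Weil numbers -/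

/-- task KRON -/
def S_KRON : Prop := ∀ (E : Type) [Field E] [NumberField E] (x y : E), x ≠ 0 → y ≠ 0 →
  (∀ v : HeightOneSpectrum (𝓞 E), v.valuation E x = v.valuation E y) →
  (∀ φ : E →+* ℂ, ‖φ x‖ = ‖φ y‖) → ∃ s : ℕ, 0 < s ∧ x ^ s = y ^ s

/-- task VAL -/
def S_VAL : Prop := ∀ (E : Type) [Field E] [NumberField E] (v : HeightOneSpectrum (𝓞 E)) (p : ℕ),
  p.Prime → ∃ n : ℕ, n ≤ finrank ℚ E ∧ v.valuation E (p : E) = WithZero.exp (-(n : ℤ))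

/-- task NORM -/
def S_NORM : Prop := ∀ (K : Type) [Field K] [NumberField K] (v : HeightOneSpectrum (𝓞 K)),
  ∃ p f : ℕ, p.Prime ∧ 0 < f ∧ f ≤ finrank ℚ K ∧ Ideal.absNorm v.asIdeal = p ^ f

/-- task DEG -/
def S_DEG : Prop := ∀ n : ℕ, ∃ D : ℕ, ∀ F : ℚ[X], F ≠ 0 → F.natDegree ≤ n →
  finrank ℚ F.SplittingField ≤ D

/-- the vector of exponents is not zero and contains at most one element of each pair -/
def Adm {κ : Type} (a : κ ⊕ κ → ℕ) : Prop := a ≠ 0 ∧ ∀ i, a (.inl i) = 0 ∨ a (.inr i) = 0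

/-- the product of `β` and the `α j ^ a j` is, up to a root of unity, a power of `q` -/
def Rel {κ E : Type} [Fintype κ] [Field E] (α : κ ⊕ κ → E) (β q : E) (a : κ ⊕ κ → ℕ) : Prop :=
  ∃ (c : ℤ) (s : ℕ), 0 < s ∧ ((∏ j, α j ^ a j) * β) ^ s = (q ^ c) ^ s

/-- task PAT: finitely many vectors of exponents solve all solvable systems -/
def S_PAT : Prop := ∀ (κ : Type) [Fintype κ] (w N : ℕ),
  ∃ T : Finset (κ ⊕ κ → ℕ), (∀ a ∈ T, Adm a) ∧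
  ∀ V : Set ((κ ⊕ κ → ℕ) × ℕ × ℕ), (∀ x ∈ V, (∀ j, x.1 j ≤ N) ∧ x.2.1 ≤ N ∧ x.2.2 ≤ N) →
  ∀ (a : κ ⊕ κ → ℕ) (c : ℤ), Adm a → (∑ j, (a j : ℤ)) + w = 2 * c →
    (∀ x ∈ V, ∑ j, (a j : ℤ) * x.1 j + x.2.1 = c * x.2.2) →
  ∃ a' ∈ T, ∃ c' : ℤ, (∑ j, (a' j : ℤ)) + w = 2 * c' ∧
    ∀ x ∈ V, ∑ j, (a' j : ℤ) * x.1 j + x.2.1 = c' * x.2.2

/-- Every relation between Weil numbers `α j` (of weight `1`, in pairs with product `q = p ^ f`) and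
`β` (of weight `w`) in a number field of degree at most `D`, `f ≤ B`, gives a relation with exponents
in the finite set `T`. -/
def SerreSet {κ : Type} [Fintype κ] (w D B : ℕ) (T : Finset (κ ⊕ κ → ℕ)) : Prop :=
  ∀ (E : Type) [Field E] [NumberField E] (p f : ℕ), p.Prime → 0 < f → f ≤ B → finrank ℚ E ≤ D →
  ∀ (α : κ ⊕ κ → E) (β : E), (∀ j, IsIntegral ℤ (α j)) → IsIntegral ℤ β →
    (∀ i, α (.inl i) * α (.inr i) = (p : E) ^ f) →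
    (∀ (φ : E →+* ℂ) (j : κ ⊕ κ), ‖φ (α j)‖ ^ 2 = (p : ℝ) ^ f) →
    (∀ φ : E →+* ℂ, ‖φ β‖ ^ 2 = ((p : ℝ) ^ f) ^ w) →
  ∀ a : κ ⊕ κ → ℕ, Adm a → Rel α β ((p : E) ^ f) a → ∃ a' ∈ T, Rel α β ((p : E) ^ f) a'

/-- task SERRE -/
def S_SERRE : Prop := ∀ (κ : Type) [Fintype κ] (w D B : ℕ),
  ∃ T : Finset (κ ⊕ κ → ℕ), (∀ a ∈ T, Adm a) ∧ SerreSet w D B T

/-- task CHOICE -/
def S_CHOICE : Prop := ∀ (κ : Type) [Fintype κ] (T : Finset (κ ⊕ κ → ℕ)), (∀ a ∈ T, Adm a) →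
  ∃ lam : κ → ℕ, Function.Injective lam ∧ (∀ i, 0 < lam i) ∧
    ∀ a ∈ T, ∑ i, ((a (.inl i) : ℤ) - a (.inr i)) * lam i ≠ 0

/-! ### eigenvalues near `1` over the 2-adic numbers -/

/-- the polynomial with the roots `lam i` and `-lam i` -/
noncomputable def Rz {κ : Type} [Fintype κ] (lam : κ → ℕ) : ℚ_[2][X] :=
  ∏ i, ((X - C ((lam i : ℕ) : ℚ_[2])) * (X + C ((lam i : ℕ) : ℚ_[2])))

/-- task SMALL: the eigenvalues of a matrix near `1` -/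
def S_SMALL : Prop := ∀ (d k : ℕ) (M : Matrix (Fin d) (Fin d) ℚ_[2]) (δ : ℝ),
  (∀ a b, ‖((((2 : ℕ) : ℚ_[2]) ^ k)⁻¹ • (M - 1)) a b‖ ≤ δ) →
  ∀ β : AlgebraicClosure ℚ_[2], aeval β M.charpoly = 0 →
  ‖(β - 1) / (algebraMap ℚ_[2] (AlgebraicClosure ℚ_[2]) (((2 : ℕ) : ℚ_[2]) ^ k))‖ ≤ δ

/-- task PROD: no relation near `1` -/
def S_PROD : Prop := ∀ (J : Type) [Fintype J] (a : J → ℕ) (Λ : J → ℤ), ∑ j, (a j : ℤ) * Λ j ≠ 0 →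
  ∃ (ε : ℝ) (k₀ : ℕ), 0 < ε ∧ ∀ k, k₀ ≤ k → ∀ (α : J → AlgebraicClosure ℚ_[2])
    (β q : AlgebraicClosure ℚ_[2]),
    (∀ j, ‖(α j - 1) / (algebraMap ℚ_[2] (AlgebraicClosure ℚ_[2]) (((2 : ℕ) : ℚ_[2]) ^ k)) -
      ((Λ j : ℤ) : AlgebraicClosure ℚ_[2])‖ < ε) →
    ‖(β - 1) / (algebraMap ℚ_[2] (AlgebraicClosure ℚ_[2]) (((2 : ℕ) : ℚ_[2]) ^ k))‖ < ε →
    ‖(q - 1) / (algebraMap ℚ_[2] (AlgebraicClosure ℚ_[2]) (((2 : ℕ) : ℚ_[2]) ^ k))‖ < ε →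
    ∀ (c : ℤ) (s : ℕ), 0 < s → ((∏ j, α j ^ a j) * β) ^ s ≠ (q ^ c) ^ s

/-- the roots of `P`: only the elements of a pair have product `q`; there is no relation with
exponents in `T` between these roots and a root of `Q` (or `1`) -/
def LocalData {κ : Type} [Fintype κ] (T : Finset (κ ⊕ κ → ℕ)) (P Q : ℚ_[2][X]) (q : ℚ_[2]) : Prop :=
  ∃ α : κ ⊕ κ → AlgebraicClosure ℚ_[2], Function.Injective α ∧
    P.map (algebraMap ℚ_[2] (AlgebraicClosure ℚ_[2])) = ∏ j, (X - C (α j)) ∧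
    (∀ j j' : κ ⊕ κ, α j * α j' = algebraMap ℚ_[2] (AlgebraicClosure ℚ_[2]) q → j' = j.swap) ∧
    ∀ β : AlgebraicClosure ℚ_[2], (β = 1 ∨ aeval β Q = 0) → ∀ a ∈ T,
      ¬ Rel α β (algebraMap ℚ_[2] (AlgebraicClosure ℚ_[2]) q) a

/-- task LOCAL -/
def S_LOCAL : Prop := ∀ (κ : Type) [Fintype κ] (T : Finset (κ ⊕ κ → ℕ))
  (lam : κ → ℕ), Function.Injective lam → (∀ i, 0 < lam i) →
  (∀ a ∈ T, ∑ i, ((a (.inl i) : ℤ) - a (.inr i)) * lam i ≠ 0) →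
  ∃ (ε : ℝ) (k₀ : ℕ), 0 < ε ∧ ∀ k, k₀ ≤ k → ∀ (P Q : ℚ_[2][X]) (q : ℚ_[2]), P.Monic →
    P.natDegree = (Rz lam).natDegree → (∀ j, ‖(resc 2 k P - Rz lam).coeff j‖ < ε) →
    (∀ β : AlgebraicClosure ℚ_[2], aeval β Q = 0 →
      ‖(β - 1) / (algebraMap ℚ_[2] (AlgebraicClosure ℚ_[2]) (((2 : ℕ) : ℚ_[2]) ^ k))‖ < ε) →
    ‖(((2 : ℕ) : ℚ_[2]) ^ k)⁻¹ * (q - 1)‖ < ε → LocalData T P Q q

/-! ### Frobenius elements -/

/-- `X` is a tangent vector of the image of `ρ`, with `0` on `τ` -/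
def WT {G : Type} [Group G] {n d : ℕ} (ρ : G →* Matrix (Fin n) (Fin n) ℚ_[2])
    (τ : G →* Matrix (Fin d) (Fin d) ℚ_[2]) (X : Matrix (Fin n) (Fin n) ℚ_[2]) : Prop :=
  ∃ σ : ℕ → G,
    Tendsto (fun m : ℕ => (((2 : ℕ) : ℚ_[2]) ^ m)⁻¹ • (ρ (σ m) - 1)) atTop (𝓝 X) ∧
    Tendsto (fun m : ℕ => (((2 : ℕ) : ℚ_[2]) ^ m)⁻¹ • (τ (σ m) - 1)) atTop (𝓝 0)

/-- task NEAR: a Frobenius element close to the tangent vector -/
def S_NEAR : Prop := ∀ (K : Type) [Field K] [NumberField K] (n d : ℕ)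
  (ρ : GK K →* Matrix (Fin n) (Fin n) ℚ_[2]) (τ : GK K →* Matrix (Fin d) (Fin d) ℚ_[2])
  (χ : GK K →* ℚ_[2]) (J : Matrix (Fin n) (Fin n) ℚ_[2]), 0 < n → Continuous ρ → Continuous τ →
  J.det ≠ 0 → (∀ g, (ρ g)ᵀ * J * ρ g = χ g • J) →
  ∀ X : Matrix (Fin n) (Fin n) ℚ_[2], SpLie J X → WT ρ τ X → ∀ (δ : ℝ) (k₀ : ℕ), 0 < δ →
  ∀ T : Set (HeightOneSpectrum (𝓞 K)), T.Finite →
  ∃ v, v ∉ T ∧ ∃ σ : GK K, IsFrobenius v σ ∧ ∃ k, k₀ ≤ k ∧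
    (∀ a b, ‖(((((2 : ℕ) : ℚ_[2]) ^ k)⁻¹ • (ρ σ - 1)) - X) a b‖ < δ) ∧
    (∀ a b, ‖((((2 : ℕ) : ℚ_[2]) ^ k)⁻¹ • (τ σ⁻¹ - 1)) a b‖ < δ) ∧
    ‖(((2 : ℕ) : ℚ_[2]) ^ k)⁻¹ * (χ σ - 1)‖ < δ

/-- the condition on relations (the same as `Pool.Agent.W484.HS.ExactPairK`) -/
def ExP {X : Type*} {K : Type*} [Field K] (val : X → K) (Q ρ : K) : Prop :=
  ∀ (n : ℕ) (c : ℤ) (s : ℕ), 0 < s → 0 < n → ∀ ys : List X, ys.length = n →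
    ((ys.map val).prod * ρ) ^ s = (Q ^ c) ^ s →
      ¬ ys.Pairwise (fun y y' => val y * val y' ≠ Q)

/-- Exactness at a place: `P` is separable, and in every field of characteristic zero in which `P` and
`Q` split a product of roots of `P` and a root of `Q` (or `1`) which is, up to a root of unity, a power
of `q` contains two roots of `P` with product `q`. -/
def ExactAt (P Q : ℤ[X]) (q : ℕ) : Prop :=
  (P.map (Int.castRingHom ℚ)).Separable ∧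
  ∀ (E : Type) [Field E] [CharZero E], (P.map (Int.castRingHom E)).Splits →
    (Q.map (Int.castRingHom E)).Splits →
    ∀ β : E, (β = 1 ∨ (Q.map (Int.castRingHom E)).IsRoot β) →
      ExP (fun z : {z : E // (P.map (Int.castRingHom E)).IsRoot z} => (z : E)) (q : E) β

/-- task FIELD -/
def S_FIELD : Prop := ∀ (κ : Type) [Fintype κ] (w D B : ℕ) (T : Finset (κ ⊕ κ → ℕ)),
  SerreSet w D B T → SerreSet 0 D B T → ∀ (P Q : ℤ[X]) (p f : ℕ), p.Prime → 0 < f → f ≤ B →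
  P.Monic → Q.Monic → finrank ℚ ((P * Q).map (Int.castRingHom ℚ)).SplittingField ≤ D →
  (∀ z : ℂ, aeval z P = 0 → ‖z‖ ^ 2 = (p : ℝ) ^ f) →
  (∀ z : ℂ, aeval z Q = 0 → ‖z‖ ^ 2 = ((p : ℝ) ^ f) ^ w) →
  LocalData T (P.map (Int.castRingHom ℚ_[2])) (Q.map (Int.castRingHom ℚ_[2])) ((p : ℚ_[2]) ^ f) →
  ExactAt P Q (p ^ f)

/-! ### sums of representations -/

/-- the tangent vectors with all systems of eigenvalues -/
def Rich {G : Type} [Group G] (κ : Type) [Fintype κ] {n d : ℕ} (J : Matrix (Fin n) (Fin n) ℚ_[2])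
    (ρ : G →* Matrix (Fin n) (Fin n) ℚ_[2]) (τ : G →* Matrix (Fin d) (Fin d) ℚ_[2]) : Prop :=
  ∀ lam : κ → ℕ, Function.Injective lam → (∀ i, 0 < lam i) →
    ∃ X : Matrix (Fin n) (Fin n) ℚ_[2], SpLie J X ∧ X.charpoly = Rz lam ∧ WT ρ τ X

/-- task PLACE -/
def S_PLACE : Prop := ∀ (K : Type) [Field K] [NumberField K] (κ : Type) [Fintype κ] (n d w : ℕ)
  (ρ : GK K →* Matrix (Fin n) (Fin n) ℚ_[2]) (τ : GK K →* Matrix (Fin d) (Fin d) ℚ_[2])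
  (χ : GK K →* ℚ_[2]) (J : Matrix (Fin n) (Fin n) ℚ_[2]), 0 < n → Continuous ρ → Continuous τ →
  J.det ≠ 0 → (∀ g, (ρ g)ᵀ * J * ρ g = χ g • J) → Rich κ J ρ τ →
  ∀ S : Set (HeightOneSpectrum (𝓞 K)), S.Finite → ∀ P Q : HeightOneSpectrum (𝓞 K) → ℤ[X],
  (∀ v ∉ S, ∀ σ : GK K, IsFrobenius v σ →
    (ρ σ).charpoly = (P v).map (Int.castRingHom ℚ_[2]) ∧
    (τ σ⁻¹).charpoly = (Q v).map (Int.castRingHom ℚ_[2]) ∧
    χ σ = (Ideal.absNorm v.asIdeal : ℚ_[2])) →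
  (∀ v ∉ S, (∀ z : ℂ, aeval z (P v) = 0 → ‖z‖ ^ 2 = (Ideal.absNorm v.asIdeal : ℝ)) ∧
    ∀ z : ℂ, aeval z (Q v) = 0 → ‖z‖ ^ 2 = (Ideal.absNorm v.asIdeal : ℝ) ^ w) →
  ∀ T : Set (HeightOneSpectrum (𝓞 K)), T.Finite →
  ∃ v, v ∉ T ∧ v ∉ S ∧ ∃ σ : GK K, IsFrobenius v σ ∧ (Q v).Monic ∧
    ExactAt (P v) (Q v) (Ideal.absNorm v.asIdeal)

section blk
variable {ι : Type} [Fintype ι] [DecidableEq ι] {N : ι → ℕ} {F : Type} [Field F]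

/-- the indices of the sum -/
noncomputable def blkE (N : ι → ℕ) : (Σ i, Fin (N i)) ≃ Fin (∑ i, N i) :=
  Fintype.equivFinOfCardEq (by rw [Fintype.card_sigma]; simp)

/-- the sum of matrices -/
noncomputable def blk (A : ∀ i, Matrix (Fin (N i)) (Fin (N i)) F) :
    Matrix (Fin (∑ i, N i)) (Fin (∑ i, N i)) F :=
  Matrix.reindex (blkE N) (blkE N) (Matrix.blockDiagonal' A)

theorem blk_one : blk (N := N) (fun _ => (1 : Matrix _ _ F)) = 1 := by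
  unfold blk
  rw [show (fun i => (1 : Matrix (Fin (N i)) (Fin (N i)) F)) = 1 from rfl,
    Matrix.blockDiagonal'_one]
  simp

theorem blk_mul (A B : ∀ i, Matrix (Fin (N i)) (Fin (N i)) F) :
    blk (fun i => A i * B i) = blk A * blk B := by
  unfold blk
  rw [Matrix.blockDiagonal'_mul]
  simp [Matrix.submatrix_mul_equiv]

/-- the sum of representations -/
noncomputable def blkHom {G : Type} [Group G] (ρ : ∀ i, G →* Matrix (Fin (N i)) (Fin (N i)) F) :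
    G →* Matrix (Fin (∑ i, N i)) (Fin (∑ i, N i)) F where
  toFun g := blk fun i => ρ i g
  map_one' := by simp only [map_one]; exact blk_one
  map_mul' g h := by simp only [map_mul]; exact blk_mul _ _

end blk

/-- task BLOCK: tangent vectors of a sum -/
def S_BLOCK : Prop := ∀ (ι : Type) [Fintype ι] [DecidableEq ι] (N : ι → ℕ) (d : ℕ) (G : Type)
  [Group G] (ρ : ∀ i, G →* Matrix (Fin (N i)) (Fin (N i)) ℚ_[2])
  (τ : G →* Matrix (Fin d) (Fin d) ℚ_[2]) (J : ∀ i, Matrix (Fin (N i)) (Fin (N i)) ℚ_[2]),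
  (∀ i, (J i)ᵀ = -J i) → (∀ i, (J i).det ≠ 0) →
  (∀ X : ∀ i, Matrix (Fin (N i)) (Fin (N i)) ℚ_[2], (∀ i, SpLie (J i) (X i)) → ∃ σ : ℕ → G,
    (∀ i, Tendsto (fun m : ℕ => (((2 : ℕ) : ℚ_[2]) ^ m)⁻¹ • (ρ i (σ m) - 1)) atTop (𝓝 (X i))) ∧
    Tendsto (fun m : ℕ => (((2 : ℕ) : ℚ_[2]) ^ m)⁻¹ • (τ (σ m) - 1)) atTop (𝓝 0)) →
  Rich (Σ i, Fin (N i / 2)) (blk J) (blkHom ρ) τ ∧ (blk J).det ≠ 0 ∧
  (∀ χ : G →* ℚ_[2], (∀ i g, (ρ i g)ᵀ * J i * ρ i g = χ g • J i) →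
    ∀ g, (blkHom ρ g)ᵀ * blk J * blkHom ρ g = χ g • blk J) ∧
  (∀ g, (blkHom ρ g).charpoly = ∏ i, (ρ i g).charpoly) ∧
  (∀ [TopologicalSpace G], (∀ i, Continuous (ρ i)) → Continuous (blkHom ρ))

end Pool.Agent.N197.AP
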