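import Pool.Agent.N197.AP.Place
import Pool.Agent.N197.AP.StmT

/-!
# Project AP: from the tangent vectors at two to all prime numbers
-/

set_option autoImplicit false

open Polynomial Filter Topology NumberField IsDedekindDomain Module Matrix
open Pool.Agent.Y142.ZO Pool.Agent.Y142.ZI Pool.Agent.Y142.ZS
open Pool.Agent.N166.CZ (IsTateModule ProductsWith)

namespace Pool.Agent.N197.AP

/-- one representation over the 2-adic numbers -/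
theorem main0 (hPLACE : S_PLACE) (hTATE : S_TATE) {K : Type} [Field K] [NumberField K]
    {κ : Type} [Fintype κ] {n d w : ℕ}
    {ρ : GK K →* Matrix (Fin n) (Fin n) ℚ_[2]} {τ : GK K →* Matrix (Fin d) (Fin d) ℚ_[2]}
    {χ : GK K →* ℚ_[2]} {J : Matrix (Fin n) (Fin n) ℚ_[2]} (hn : 0 < n) (hρ : Continuous ρ)
    (hτ : Continuous τ) (hJ : J.det ≠ 0) (hsim : ∀ g, (ρ g)ᵀ * J * ρ g = χ g • J)
    (hrich : Rich κ J ρ τ) {S : Set (HeightOneSpectrum (𝓞 K))} (hS : S.Finite)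
    {P Q : HeightOneSpectrum (𝓞 K) → ℤ[X]}
    (hfrob : ∀ v ∉ S, ∀ σ : GK K, IsFrobenius v σ →
      (ρ σ).charpoly = (P v).map (Int.castRingHom ℚ_[2]) ∧
      (τ σ⁻¹).charpoly = (Q v).map (Int.castRingHom ℚ_[2]) ∧
      χ σ = (Ideal.absNorm v.asIdeal : ℚ_[2]))
    (hpure : ∀ v ∉ S, (∀ z : ℂ, aeval z (P v) = 0 → ‖z‖ ^ 2 = (Ideal.absNorm v.asIdeal : ℝ)) ∧
      ∀ z : ℂ, aeval z (Q v) = 0 → ‖z‖ ^ 2 = (Ideal.absNorm v.asIdeal : ℝ) ^ w)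
    {k : Type} [Field k] [CharZero k] {V M : Type} [AddCommGroup V] [Module k V]
    [FiniteDimensional k V] [AddCommGroup M] [Module k M] [FiniteDimensional k M]
    {r : Representation k (GK K) V} {c : GK K →* k} {s : Representation k (GK K) M}
    (hV : IsTateModule r c) {T : Set (HeightOneSpectrum (𝓞 K))} (hT : T.Finite)
    (hsys : ∀ v ∉ T, ∀ σ : GK K, IsFrobenius v σ → c σ = (Ideal.absNorm v.asIdeal : k) ∧
      (r σ).charpoly = (P v).map (Int.castRingHom k) ∧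
      aeval (s σ⁻¹) ((Q v).map (Int.castRingHom k)) = 0) :
    ProductsWith r c s := by
  obtain ⟨v, hvT, -, σ, hσ, hQ, hex⟩ := hPLACE K κ n d w ρ τ χ J hn hρ hτ hJ hsim hrich S hS P Q
    hfrob hpure T hT
  obtain ⟨h1, h2, h3⟩ := hsys v hvT σ hσ
  exact hTATE k V (GK K) r c hV σ (P v) (Q v) _ h1 h2 hQ.ne_zero hex M s h3

/-- sums of representations -/
theorem main (hPLACE : S_PLACE) (hTATE : S_TATE) (hBLOCK : S_BLOCK) {K : Type} [Field K]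
    [NumberField K] {ι : Type} [Fintype ι] [Nonempty ι] {N : ι → ℕ} {d w : ℕ}
    {ρ : ∀ i, GK K →* Matrix (Fin (N i)) (Fin (N i)) ℚ_[2]}
    {J : ∀ i, Matrix (Fin (N i)) (Fin (N i)) ℚ_[2]} {χ : GK K →* ℚ_[2]}
    {τ : GK K →* Matrix (Fin d) (Fin d) ℚ_[2]} (hN : ∀ i, 0 < N i) (hρ : ∀ i, Continuous (ρ i))
    (hτ : Continuous τ) (hJ : ∀ i, (J i)ᵀ = -J i) (hdet : ∀ i, (J i).det ≠ 0)
    (hsim : ∀ i g, (ρ i g)ᵀ * J i * ρ i g = χ g • J i)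
    (hfull : ∀ X : ∀ i, Matrix (Fin (N i)) (Fin (N i)) ℚ_[2], (∀ i, SpLie (J i) (X i)) →
      ∃ σ : ℕ → GK K,
      (∀ i, Tendsto (fun m : ℕ => (((2 : ℕ) : ℚ_[2]) ^ m)⁻¹ • (ρ i (σ m) - 1)) atTop (𝓝 (X i))) ∧
      Tendsto (fun m : ℕ => (((2 : ℕ) : ℚ_[2]) ^ m)⁻¹ • (τ (σ m) - 1)) atTop (𝓝 0))
    {S : Set (HeightOneSpectrum (𝓞 K))} (hS : S.Finite)
    {P : ι → HeightOneSpectrum (𝓞 K) → ℤ[X]} {Q : HeightOneSpectrum (𝓞 K) → ℤ[X]}
    (hfrob : ∀ v ∉ S, ∀ σ : GK K, IsFrobenius v σ →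
      (∀ i, (ρ i σ).charpoly = (P i v).map (Int.castRingHom ℚ_[2])) ∧
      (τ σ⁻¹).charpoly = (Q v).map (Int.castRingHom ℚ_[2]) ∧
      χ σ = (Ideal.absNorm v.asIdeal : ℚ_[2]))
    (hpure : ∀ v ∉ S,
      (∀ i, ∀ z : ℂ, aeval z (P i v) = 0 → ‖z‖ ^ 2 = (Ideal.absNorm v.asIdeal : ℝ)) ∧
      ∀ z : ℂ, aeval z (Q v) = 0 → ‖z‖ ^ 2 = (Ideal.absNorm v.asIdeal : ℝ) ^ w)
    {k : Type} [Field k] [CharZero k] {V M : Type} [AddCommGroup V] [Module k V]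
    [FiniteDimensional k V] [AddCommGroup M] [Module k M] [FiniteDimensional k M]
    {r : Representation k (GK K) V} {c : GK K →* k} {s : Representation k (GK K) M}
    (hV : IsTateModule r c) {T : Set (HeightOneSpectrum (𝓞 K))} (hT : T.Finite)
    (hsys : ∀ v ∉ T, ∀ σ : GK K, IsFrobenius v σ → c σ = (Ideal.absNorm v.asIdeal : k) ∧
      (r σ).charpoly = ∏ i, (P i v).map (Int.castRingHom k) ∧
      aeval (s σ⁻¹) ((Q v).map (Int.castRingHom k)) = 0) :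
    ProductsWith r c s := by
  classical
  obtain ⟨h1, h2, h3, h4, h5⟩ := hBLOCK ι N d (GK K) ρ τ J hJ hdet hfull
  obtain ⟨i₀⟩ := ‹Nonempty ι›
  have hn : 0 < ∑ i, N i := Finset.sum_pos (fun i _ => hN i) ⟨i₀, Finset.mem_univ _⟩
  refine main0 hPLACE hTATE (w := w) hn (h5 hρ) hτ h2 (h3 χ hsim) h1 hS
    (P := fun v => ∏ i, P i v) (Q := Q) (fun v hv σ hσ => ?_) (fun v hv => ⟨fun z hz => ?_, ?_⟩) hV hT
    fun v hv σ hσ => ?_
  · obtain ⟨h6, h7, h8⟩ := hfrob v hv σ hσ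
    refine ⟨?_, h7, h8⟩
    rw [h4, Polynomial.map_prod]
    exact Finset.prod_congr rfl fun i _ => h6 i
  · rw [map_prod, Finset.prod_eq_zero_iff] at hz
    obtain ⟨i, -, hi⟩ := hz
    exact (hpure v hv).1 i z hi
  · exact (hpure v hv).2
  · obtain ⟨h6, h7, h8⟩ := hsys v hv σ hσ
    exact ⟨h6, by rw [h7, Polynomial.map_prod], h8⟩

end Pool.Agent.N197.AP
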