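import Pool.Agent.N197.AP.Stm

/-!
# Project AP: a place which is exact
-/

set_option autoImplicit false

open Polynomial Filter Topology NumberField IsDedekindDomain Module Matrix
open Pool.Agent.Y142.ZO Pool.Agent.Y142.ZI Pool.Agent.Y142.ZS

namespace Pool.Agent.N197.AP

theorem SerreSet.mono {κ : Type} [Fintype κ] {w D B : ℕ} {T T' : Finset (κ ⊕ κ → ℕ)}
    (h : SerreSet w D B T) (hT : T ⊆ T') : SerreSet w D B T' := by
  intro E _ _ p f hp hf hfB hD α β h1 h2 h3 h4 h5 a ha hr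
  obtain ⟨a', ha', h6⟩ := h E p f hp hf hfB hD α β h1 h2 h3 h4 h5 a ha hr
  exact ⟨a', hT ha', h6⟩

/-- the characteristic polynomial of a matrix near `1` -/
def S_CH2 : Prop := ∀ (N : ℕ), 0 < N →
  ∀ T : Matrix (Fin N) (Fin N) ℚ_[2], ∀ ε : ℝ, 0 < ε → ∃ (δ : ℝ) (k₀ : ℕ), 0 < δ ∧
  ∀ (k : ℕ) (g : Matrix (Fin N) (Fin N) ℚ_[2]), k₀ ≤ k →
    (∀ a b, ‖(((((2 : ℕ) : ℚ_[2]) ^ k)⁻¹ • (g - 1)) - T) a b‖ < δ) →
    ∀ j, ‖(resc 2 k g.charpoly - T.charpoly).coeff j‖ < ε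

theorem place (hNORM : S_NORM) (hDEG : S_DEG) (hSERRE : S_SERRE) (hCHOICE : S_CHOICE)
    (hSMALL : S_SMALL) (hLOCAL : S_LOCAL) (hNEAR : S_NEAR) (hFIELD : S_FIELD) (hCH : S_CH2) :
    S_PLACE := by
  classical
  intro K _ _ κ _ n d w ρ τ χ J hn hρ hτ hJ hsim hrich S hS P Q hfrob hpure T hT
  obtain ⟨D, hD⟩ := hDEG (n + d)
  obtain ⟨T1, hT1, hs1⟩ := hSERRE κ w D (finrank ℚ K)
  obtain ⟨T0, hT0, hs0⟩ := hSERRE κ 0 D (finrank ℚ K)
  have hTadm : ∀ a ∈ T1 ∪ T0, Adm a := by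
    intro a ha
    rcases Finset.mem_union.1 ha with h | h
    · exact hT1 a h
    · exact hT0 a h
  obtain ⟨lam, hinj, hpos, hlam⟩ := hCHOICE κ (T1 ∪ T0) hTadm
  obtain ⟨X, hX, hXc, hXW⟩ := hrich lam hinj hpos
  obtain ⟨ε, k₁, hε, hloc⟩ := hLOCAL κ (T1 ∪ T0) lam hinj hpos hlam
  obtain ⟨δ, k₂, hδ, hch⟩ := hCH n hn X ε hε
  obtain ⟨v, hv, σ, hσ, k, hk, h1, h2, h3⟩ := hNEAR K n d ρ τ χ J hn hρ hτ hJ hsim X hX hXW
    (min δ (ε / 2)) (max k₁ k₂) (lt_min hδ (by linarith)) (T ∪ S) (hT.union hS)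
  have hvS : v ∉ S := fun h => hv (Or.inr h)
  obtain ⟨hP, hQ, hχ⟩ := hfrob v hvS σ hσ
  obtain ⟨hpP, hpQ⟩ := hpure v hvS
  have hinjZ : Function.Injective (Int.castRingHom ℚ_[2]) := Int.cast_injective
  have hPm : (P v).Monic := monic_of_injective hinjZ (by rw [← hP]; exact charpoly_monic _)
  have hQm : (Q v).Monic := monic_of_injective hinjZ (by rw [← hQ]; exact charpoly_monic _)
  refine ⟨v, fun h => hv (Or.inl h), hvS, σ, hσ, hQm, ?_⟩
  obtain ⟨p, f, hp, hf0, hfB, hN⟩ := hNORM K v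
  rw [hN]
  rw [hN] at hpP hpQ hχ
  push_cast at hpP hpQ hχ
  have hdP : (P v).natDegree = n := by
    rw [← natDegree_map_eq_of_injective hinjZ (P v), ← hP, charpoly_natDegree_eq_dim,
      Fintype.card_fin]
  have hdQ : (Q v).natDegree = d := by
    rw [← natDegree_map_eq_of_injective hinjZ (Q v), ← hQ, charpoly_natDegree_eq_dim,
      Fintype.card_fin]
  refine hFIELD κ w D (finrank ℚ K) (T1 ∪ T0) (hs1.mono Finset.subset_union_left)
    (hs0.mono Finset.subset_union_right) (P v) (Q v) p f hp hf0 hfB hPm hQm (hD _ ?_ ?_)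
    hpP hpQ (hloc k ((le_max_left _ _).trans hk) _ _ _ (hPm.map _) ?_ ?_ ?_ ?_)
  · rw [Ne, Polynomial.map_eq_zero_iff Int.cast_injective]
    exact (hPm.mul hQm).ne_zero
  · refine natDegree_map_le.trans ?_
    rw [hPm.natDegree_mul hQm, hdP, hdQ]
  · rw [← hP, ← hXc, charpoly_natDegree_eq_dim, charpoly_natDegree_eq_dim]
  · intro j
    rw [← hP, ← hXc]
    exact hch k (ρ σ) ((le_max_right _ _).trans hk)
      (fun a b => (h1 a b).trans_le (min_le_left _ _)) j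
  · intro β hβ
    rw [← hQ] at hβ
    refine (hSMALL d k (τ σ⁻¹) (ε / 2) (fun a b => ((h2 a b).trans_le (min_le_right _ _)).le)
      β hβ).trans_lt (by linarith)
  · rw [← hχ]
    exact (h3.trans_le (min_le_right _ _)).trans (by linarith)

end Pool.Agent.N197.AP
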