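import Pool.Agent.N197.Htj.Lim

/-!
# Project AP: statements about the continuity of the Galois representation of the Jacobian
-/

set_option autoImplicit false

open Polynomial Matrix Filter Topology Module
open Pool.Agent.N171 Pool.Agent.N197.Htj
open scoped Classical

namespace Pool.Agent.N197.AP

/-- task CONT1: the stabilizers of the points of the Jacobian are open -/
def S_CONT1 : Prop := ∀ (K F : Type) [Field K] [Field F] [Algebra K F] [IsAlgClosure K F]
  (f : K[X]) [HypP f] (x : JacP f F), {σ : F ≃ₐ[K] F | σ • x = x} ∈ 𝓝 (1 : F ≃ₐ[K] F)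

/-- task CONT2: the representation on the product of the rational Tate modules is continuous -/
def S_CONT2 : Prop := ∀ (K F : Type) [Field K] [Field F] [Algebra K F] [IsAlgClosure K F]
  (ι : Type) [Fintype ι] (f : ι → K[X]) [∀ i, HypP (f i)],
  (∀ (i : ι) (x : JacP (f i) F), {σ : F ≃ₐ[K] F | σ • x = x} ∈ 𝓝 (1 : F ≃ₐ[K] F)) →
  ∀ (n : ℕ) (R : (F ≃ₐ[K] F) →* Matrix (Fin n) (Fin n) ℚ_[2])
    (E : (Fin n → ℚ_[2]) ≃ₗ[ℚ_[2]] (∀ i, Vt (JacP (f i) F))),
    (∀ g x i, E (R g *ᵥ x) i = vRep (JacP (f i) F) (F ≃ₐ[K] F) g (E x i)) → Continuous R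

end Pool.Agent.N197.AP
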