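import Pool.Agent.N171.TG.Tn7
import Pool.Agent.Y142.ZS.Stm

/-!
# Project AP: statement of the task MAT (tangent vectors of lattices in matrix form)
-/

set_option autoImplicit false

open Matrix Filter Topology Module
open Pool.Agent.Y142.ZS (SpLie)
open Pool.Agent.N171 Pool.Agent.N171.Al Pool.Agent.N171.Bg Pool.Agent.N171.TG

namespace Pool.Agent.N197.AP

/-- task MAT -/
def S_MAT : Prop := ∀ (ι : Type) [Fintype ι] [DecidableEq ι] (T : ι → Type)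
  [∀ i, AddCommGroup (T i)] [∀ i, Module ℤ_[2] (T i)] (Γ : Type) [Group Γ]
  (ρ : ∀ i, Representation ℤ_[2] Γ (T i)) (B : ∀ i, T i →ₗ[ℤ_[2]] T i →ₗ[ℤ_[2]] ℤ_[2])
  (χ : Γ →* ℤ_[2]ˣ) (N : ι → ℕ) (b : ∀ i, Basis (Fin (N i)) ℤ_[2] (T i)) (d : ℕ)
  (t : Γ →* Matrix (Fin d) (Fin d) ℤ_[2]),
  (∀ i x, B i x x = 0) → (∀ i v, (∀ w, ¬ IsUnit (B i v w)) → ∃ u, (2 : ℤ_[2]) • u = v) →
  (∀ i s x y, B i (ρ i s x) (ρ i s y) = (χ s : ℤ_[2]) * B i x y) →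
  (∀ X : ∀ i, Module.End ℤ_[2] (T i), (∀ i, X i ∈ spQ (B i) (p1 (T i))) →
    TanA ((joint ρ).prod t) (X, 0)) →
  ∃ (ρ' : ∀ i, Γ →* Matrix (Fin (N i)) (Fin (N i)) ℚ_[2])
    (J : ∀ i, Matrix (Fin (N i)) (Fin (N i)) ℚ_[2]) (t' : Γ →* Matrix (Fin d) (Fin d) ℚ_[2]),
    (∀ i g, ρ' i g = (LinearMap.toMatrix (b i) (b i) (ρ i g)).map (algebraMap ℤ_[2] ℚ_[2])) ∧
    (∀ g, t' g = (t g).map (algebraMap ℤ_[2] ℚ_[2])) ∧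
    (∀ i, (J i)ᵀ = -J i) ∧ (∀ i, (J i).det ≠ 0) ∧
    (∀ i g, (ρ' i g)ᵀ * J i * ρ' i g = (((χ g : ℤ_[2]ˣ) : ℤ_[2]) : ℚ_[2]) • J i) ∧
    ∀ X : ∀ i, Matrix (Fin (N i)) (Fin (N i)) ℚ_[2], (∀ i, SpLie (J i) (X i)) → ∃ σ : ℕ → Γ,
      (∀ i, Tendsto (fun m : ℕ => (((2 : ℕ) : ℚ_[2]) ^ m)⁻¹ • (ρ' i (σ m) - 1)) atTop (𝓝 (X i))) ∧
      Tendsto (fun m : ℕ => (((2 : ℕ) : ℚ_[2]) ^ m)⁻¹ • (t' (σ m) - 1)) atTop (𝓝 0)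

end Pool.Agent.N197.AP
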