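import Pool.Agent.N197.Htj.Lim
import Pool.Agent.N197.AP.StmM
import Pool.Agent.Y142.ZO.Stm

/-!
# Project AP: statements for hyperelliptic Jacobians
-/

set_option autoImplicit false

open Polynomial Matrix Filter Topology Module NumberField IsDedekindDomain
open Pool.Agent.Y142.ZS (SpLie)
open Pool.Agent.Y142.ZO (GK IsFrobenius)
open Pool.Agent.N171 Pool.Agent.N197.Htj
open scoped Classical

namespace Pool.Agent.N197.AP

/-- the Galois data: the hypotheses of the theorem `Pool.Agent.N197.Htj.bg` -/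
def GD {L F : Type} [Field L] [Field F] [Algebra L F] {ι : Type} (f : ι → L[X]) {W : Type}
    [AddCommGroup W] [Module ℚ_[2] W] (τ : Representation ℚ_[2] (F ≃ₐ[L] F) W) : Prop :=
  (∀ i, 7 ≤ (f i).natDegree) ∧
  (∀ i, ∀ π : Equiv.Perm ((f i).rootSet F), Equiv.Perm.sign π = 1 →
    ∃ s : F ≃ₐ[L] F, ∀ x : (f i).rootSet F, s (x : F) = (π x : F)) ∧
  (∀ i j, j ≠ i → ∃ s : F ≃ₐ[L] F, (∀ x ∈ (f j).rootSet F, s x = x) ∧
    ∃ x ∈ (f i).rootSet F, s x ≠ x) ∧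
  ∃ (d : ℕ) (b : Module.Basis (Fin d) ℚ_[2] W), (∀ s, TrivMod b (τ s) 0) ∧
    ∀ i, 2 ^ (d ^ 2 + 1) < (f i).natDegree.factorial ∨
      ∃ s : F ≃ₐ[L] F, TrivMod b (τ s) 1 ∧ ∃ x ∈ (f i).rootSet F, s x ≠ x

/-- task LIM: the Galois data hold for 100 percent of the tuples -/
def S_LIM : Prop := ∀ (R k : Type) [CommRing R] [IsDomain R] [IsIntegrallyClosed R]
  [Algebra.FiniteType ℤ R] [Field k] [Algebra R k] [IsFractionRing R k] (ι : Type) [Fintype ι]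
  [Nonempty ι] (n : ι → ℕ), ¬ IsField R → (2 : R) ≠ 0 → (∀ i, 7 ≤ n i) → (∀ i, Odd (n i)) →
  ∀ (L F : Type) [Field L] [Field F] [Algebra k L] [Algebra L F]
    [Algebra k F] [IsScalarTower k L F] [IsAlgClosure L F]
    [FiniteDimensional k (separableClosure k L)]
    (W : Type) [AddCommGroup W] [Module ℚ_[2] W] (τ : Representation ℚ_[2] (F ≃ₐ[L] F) W),
    (∃ (d : ℕ) (b : Module.Basis (Fin d) ℚ_[2] W), ∀ s, TrivMod b (τ s) 0) →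
    ∀ (B : ℕ → Finset ((Σ i, Fin (n i)) → R)), (∀ i, (B i).Nonempty) →
    (∀ M : Ideal R, Finite (R ⧸ M) → ∀ x : (Σ i, Fin (n i)) → R ⧸ M,
      Tendsto (fun i => (((B i).filter (fun y => ∀ j, Ideal.Quotient.mk M (y j) = x j)).card : ℝ) /
        ((B i).card : ℝ)) atTop
        (𝓝 (1 / (Nat.card (R ⧸ M) : ℝ) ^ (Fintype.card (Σ i, Fin (n i)))))) →
    Tendsto (fun i => (((B i).filter (fun y =>
        (∀ i, HypP ((poly k y i).map (algebraMap k L))) ∧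
          GD (fun i => (poly k y i).map (algebraMap k L)) τ)).card : ℝ) /
        ((B i).card : ℝ)) atTop (𝓝 1)

/-- task HYP: from the Galois data to tangent vectors in matrix form -/
def S_HYP : Prop := ∀ (K F : Type) [Field K] [Field F] [Algebra K F] [IsAlgClosure K F]
  (ι : Type) [Fintype ι] [Nonempty ι] (f : ι → K[X]) [∀ i, HypP (f i)] (W : Type)
  [AddCommGroup W] [Module ℚ_[2] W] (τ : Representation ℚ_[2] (F ≃ₐ[K] F) W), GD f τ →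
  ∃ (N : ι → ℕ) (d : ℕ) (ρ : ∀ i, (F ≃ₐ[K] F) →* Matrix (Fin (N i)) (Fin (N i)) ℚ_[2])
    (J : ∀ i, Matrix (Fin (N i)) (Fin (N i)) ℚ_[2])
    (t : (F ≃ₐ[K] F) →* Matrix (Fin d) (Fin d) ℚ_[2]),
    (∀ i, 0 < N i) ∧ (∀ i, (J i)ᵀ = -J i) ∧ (∀ i, (J i).det ≠ 0) ∧
    (∀ i g, (ρ i g)ᵀ * J i * ρ i g = cycQ K F g • J i) ∧
    (∀ i, ∃ e : (Fin (N i) → ℚ_[2]) ≃ₗ[ℚ_[2]] Vt (JacP (f i) F),
      ∀ s x, e (ρ i s *ᵥ x) = vRep (JacP (f i) F) (F ≃ₐ[K] F) s (e x)) ∧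
    (∃ e : (Fin d → ℚ_[2]) ≃ₗ[ℚ_[2]] W, ∀ s x, e (t s *ᵥ x) = τ s (e x)) ∧
    ∀ X : ∀ i, Matrix (Fin (N i)) (Fin (N i)) ℚ_[2], (∀ i, SpLie (J i) (X i)) →
      ∃ σ : ℕ → (F ≃ₐ[K] F),
      (∀ i, Tendsto (fun m : ℕ => (((2 : ℕ) : ℚ_[2]) ^ m)⁻¹ • (ρ i (σ m) - 1)) atTop (𝓝 (X i))) ∧
      Tendsto (fun m : ℕ => (((2 : ℕ) : ℚ_[2]) ^ m)⁻¹ • (t (σ m) - 1)) atTop (𝓝 0)

/-- task CYC: Frobenius elements and the 2-adic cyclotomic character -/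
def S_CYC : Prop := ∀ (K : Type) [Field K] [NumberField K] (v : HeightOneSpectrum (𝓞 K))
  (σ : GK K), (2 : 𝓞 K) ∉ v.asIdeal → IsFrobenius v σ →
    cycQ K (AlgebraicClosure K) σ = (Ideal.absNorm v.asIdeal : ℚ_[2])

end Pool.Agent.N197.AP
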